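import Pool.Agent.MP_ad85d3_an.Defs

/-!
# PROJECT UPF: module statements (do not edit; ask helper8)
-/

open Filter Topology
open scoped ComplexOrder InnerProductSpace ComplexConjugate

noncomputable section

namespace Pool.Agent.MP_ad85d3_an

universe u

/-! ## GENA, GENB: general operator theory -/

structure GenA (H : Type u) [NormedAddCommGroup H] [InnerProductSpace ℂ H] [CompleteSpace H] :
    Prop where
  /-- the left support of a set of operators -/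
  supp : ∀ S : Set (Op H), ∃ e : Op H, IsStarProjection e ∧ (∀ x ∈ S, e * x = x) ∧
    (∀ y : Op H, (∀ x ∈ S, y * x = 0) → y * e = 0) ∧
    ∀ a : Op H, (∀ x ∈ S, ∃ x' ∈ S, ∃ b : Op H, a * x = x' * b) →
      (∀ x ∈ S, ∃ x' ∈ S, ∃ b : Op H, star a * x = x' * b) → a * e = e * a
  /-- the polar part -/
  polar : ∀ x : Op H, ∃ v : Op H, IsStarProjection (star v * v) ∧ v * star v * x = x ∧
    (∀ y : Op H, y * x = 0 → y * v = 0) ∧ (∀ y : Op H, x * y = 0 → v * y = 0) ∧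
    ∀ a b : Op H, a * x = x * b → star a * x = x * star b → a * v = v * b
  /-- the spectral projection of `(0, ∞)` -/
  cut : ∀ y : Op H, IsSelfAdjoint y → ∃ e : Op H, IsStarProjection e ∧
    (∀ a : Op H, a * y = y * a → a * e = e * a) ∧ 0 ≤ e * y ∧ (1 - e) * y ≤ 0 ∧
    ∀ z : Op H, z * y = 0 → z * e = 0
  fac : ∀ (M : VonNeumannAlgebra H), Fac M → ∀ p ∈ M, p ≠ 0 → ∀ x : Op H,
    (∀ m ∈ M, x * m * p = 0) → x = 0
  /-- a corner is spanned by its unitaries -/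
  units : ∀ (M : VonNeumannAlgebra H) (p T : Op H), Pj M p → (∀ u, Uni M p u → u * T = T * u) →
    ∀ x ∈ M, p * x * p = x → x * T = T * x

structure GenB (H : Type u) [NormedAddCommGroup H] [InnerProductSpace ℂ H] [CompleteSpace H] :
    Prop where
  /-- strong limits of bounded families -/
  sot : ∀ {ι : Type u} (l : Filter ι) (T : ι → Op H) (C : ℝ) (D : Set H), l.NeBot →
    (∀ᶠ i in l, ‖T i‖ ≤ C) → Dense (Submodule.span ℂ D : Set H) →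
    (∀ ξ ∈ D, Cauchy (l.map fun i => T i ξ)) →
    ∃ S : Op H, ‖S‖ ≤ C ∧ ∀ ξ, Tendsto (fun i => T i ξ) l (𝓝 (S ξ))
  sotN : ∀ (T : ℕ → Op H) (C : ℝ) (D : Set H), (∀ i, ‖T i‖ ≤ C) →
    Dense (Submodule.span ℂ D : Set H) → (∀ ξ ∈ D, CauchySeq fun i => T i ξ) →
    ∃ S : Op H, ‖S‖ ≤ C ∧ ∀ ξ, Tendsto (fun i => T i ξ) atTop (𝓝 (S ξ))
  /-- comparison of projections -/
  cmp : ∀ (M : VonNeumannAlgebra H) (p q : Op H), Pj M p → Pj M q → Conn M p q →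
    ∃ v ∈ M, (star v * v = p ∧ q * v = v) ∨ (v * star v = q ∧ v * p = v)
  /-- chains of projections -/
  chain : ∀ (M : VonNeumannAlgebra H) (c : Set (Op H)), c.Nonempty → (∀ p ∈ c, Pj M p) →
    (∀ p ∈ c, ∀ q ∈ c, q * p = p ∨ p * q = q) →
    ∃ (e : Op H) (l : Filter (Op H)), Pj M e ∧ (∀ p ∈ c, e * p = p) ∧ l.NeBot ∧ (∀ᶠ p in l, p ∈ c) ∧
      ∀ ξ, Tendsto (fun p : Op H => p ξ) l (𝓝 (e ξ))

def GenAStmt : Prop :=
  ∀ (H : Type u) [NormedAddCommGroup H] [InnerProductSpace ℂ H] [CompleteSpace H], GenA H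

def GenBStmt : Prop :=
  ∀ (H : Type u) [NormedAddCommGroup H] [InnerProductSpace ℂ H] [CompleteSpace H], GenB H

variable {H K : Type u} [NormedAddCommGroup H] [InnerProductSpace ℂ H] [CompleteSpace H]
  [NormedAddCommGroup K] [InnerProductSpace ℂ K] [CompleteSpace K]

theorem GenA.conn (h : GenA H) {M : VonNeumannAlgebra H} (hM : Fac M) (p q : Op H) : Conn M p q :=
  fun p' q' hp _ _ _ h1 h2 => by
    by_contra hc
    push Not at hc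
    exact h2 (h.fac M hM p' hp.1 h1 q' hc)

/-! ## TRA, TRB: traces -/

structure TrA (M : VonNeumannAlgebra H) (τ : Op H →ₗ[ℂ] ℂ) : Prop where
  nonneg : ∀ x ∈ M, 0 ≤ x → 0 ≤ τ x
  eq_zero : ∀ x ∈ M, 0 ≤ x → τ x = 0 → x = 0
  /-- the corner of a minimal projection -/
  scal : ∀ p, Pj M p → (∀ r, Pj M r → p * r = r → r = 0 ∨ r = p) →
    ∀ x ∈ M, ∃ c : ℂ, p * x * p = c • p
  /-- comparison by the trace -/
  le : ∀ p q, Pj M p → Pj M q → Conn M p q → (τ p).re ≤ (τ q).re →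
    ∃ v ∈ M, star v * v = p ∧ q * v = v ∧ ((τ p).re = (τ q).re → v * star v = q)
  /-- projections of prescribed trace -/
  exact : ∀ p, Pj M p → Dif M p → ∀ t : ℝ, 0 ≤ t → t ≤ (τ p).re →
    ∃ q, Pj M q ∧ p * q = q ∧ τ q = t
  /-- matrix units -/
  units : Fac M → ∀ (n : ℕ) (c q : Op H), Pj M c → Pj M q → n * τ c = τ q →
    ∃ w : Fin n → Op H, (∀ i, w i ∈ M) ∧ (∀ i, star (w i) * w i = c) ∧
      (∀ i j, i ≠ j → star (w i) * w j = 0) ∧ ∑ i, w i * star (w i) = q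
  small : Fac M → (∀ ε : ℝ, 0 < ε → ∃ p, Pj M p ∧ p ≠ 0 ∧ (τ p).re < ε) → Dif M 1
  /-- the centre of a corner of a factor -/
  corner : Fac M → ∀ p, Pj M p → ∀ x ∈ M, (∀ y ∈ M, p * y * p = y → y * x = x * y) →
    ∃ c : ℂ, p * x * p = c • p

def TrAStmt : Prop :=
  ∀ (H : Type u) [NormedAddCommGroup H] [InnerProductSpace ℂ H] [CompleteSpace H]
    (M : VonNeumannAlgebra H) (τ : Op H →ₗ[ℂ] ℂ), IsTr M τ → TrA M τ

structure TrB (M : VonNeumannAlgebra H) (τ : Op H →ₗ[ℂ] ℂ) : Prop where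
  inf : Fac M → ¬ FiniteDimensional ℂ M.toStarSubalgebra → Dif M 1
  /-- uniqueness of the trace -/
  uniq : Fac M → Dif M 1 → ∀ σ : Op H →ₗ[ℂ] ℂ, σ 1 = 1 → (∀ x ∈ M, 0 ≤ σ (star x * x)) →
    (∀ x ∈ M, ∀ y ∈ M, σ (x * y) = σ (y * x)) → ∀ x ∈ M, σ x = τ x
  /-- orthogonal symmetries -/
  orth : ∀ p, Pj M p → Dif M p → ∃ g : ℕ → Op H, (∀ n, Uni M p (g n)) ∧
    ∀ m n, m ≠ n → τ (star (g m) * g n) = 0

def TrBStmt : Prop :=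
  ∀ (H : Type u) [NormedAddCommGroup H] [InnerProductSpace ℂ H] [CompleteSpace H]
    (M : VonNeumannAlgebra H) (τ : Op H →ₗ[ℂ] ℂ), IsTr M τ → TrB M τ

/-! ## STD: standard form, Kaplansky type approximation, conditional expectations -/

structure StdF (Ω : H) (J : H ≃ₗᵢ⋆[ℂ] H) (P : VonNeumannAlgebra H) : Prop where
  /-- bounded vectors -/
  exp : ∀ D : VonNeumannAlgebra H, D ≤ P → ∀ R : Op H, R * eP D Ω = eP D Ω * R →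
    (∀ d ∈ D, kap J d * R = R * kap J d) → ∃ d ∈ D, d Ω = R Ω
  /-- conditional expectations -/
  cond : ∀ D : VonNeumannAlgebra H, D ≤ P → ∀ x ∈ P, ∃ d ∈ D, d Ω = eP D Ω (x Ω)
  comm : ∀ R : Op H, (∀ d ∈ P, kap J d * R = R * kap J d) → R ∈ P
  /-- a subalgebra with complete unit ball is a von Neumann algebra -/
  bicomm : ∀ D : StarSubalgebra ℂ (Op H), (∀ d ∈ D, d ∈ P) →
    (∀ a ∈ D, IsSelfAdjoint a → ∀ f : ℝ → ℝ, Continuous f → f 0 = 0 → cfcₙ f a ∈ D) →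
    (∀ (ξ : H) (C : ℝ), (∀ ε : ℝ, 0 < ε → ∃ d ∈ D, ‖d‖ ≤ C ∧ ‖d Ω - ξ‖ ≤ ε) → ∃ d ∈ D, d Ω = ξ) →
    ∃ A : VonNeumannAlgebra H, ∀ x, x ∈ A ↔ x ∈ D
  basFac : ∀ B : VonNeumannAlgebra H, Fac B → Fac (bas J B)

def StdStmt : Prop :=
  ∀ (H : Type u) [NormedAddCommGroup H] [InnerProductSpace ℂ H] [CompleteSpace H]
    (Ω : H) (J : H ≃ₗᵢ⋆[ℂ] H) (P : VonNeumannAlgebra H), Std Ω J P → StdF Ω J P

/-- bounded intertwiners from intertwining vectors -/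
def GraphStmt : Prop :=
  ∀ (H : Type u) [NormedAddCommGroup H] [InnerProductSpace ℂ H] [CompleteSpace H]
    (Ω : H) (J : H ≃ₗᵢ⋆[ℂ] H) (P : VonNeumannAlgebra H), Std Ω J P →
    ∀ ξ : H, ξ ≠ 0 → ∃ y ∈ P, y ≠ 0 ∧ ∀ x ∈ P, ∀ b ∈ P, x ξ = kap J (star b) ξ →
      star x ξ = kap J b ξ → x * y = y * b ∧ star x * y = y * star b

/-! ## TC: commutants in tensor products -/

structure TcF (Ω : H) (P D₁ D₂ : VonNeumannAlgebra H) : Prop where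
  /-- the slice lemma -/
  tc : ∀ (Q : Set (Op H)) (c : Op H), (∀ s ∈ Q, s ∈ D₁) → Pj D₁ c →
    (∀ x ∈ D₁, (∀ s ∈ Q, s * x = x * s) → c * x * c = x → ∃ l : ℂ, x = l • c) →
    ∀ y ∈ P, (∀ s ∈ Q, s * y = y * s) → c * y * c = y → ∃ a ∈ D₂, y = c * a
  inj : ∀ c ∈ D₁, c ≠ 0 → ∀ a ∈ D₂, c * a = 0 → a = 0
  norm : ∀ c ∈ D₁, ∀ a ∈ D₂, ‖(c * a) Ω‖ = ‖c Ω‖ * ‖a Ω‖
  eP : ∀ c ∈ D₁, ∀ a ∈ D₂, eP D₁ Ω ((c * a) Ω) = vec Ω a • c Ω
  fac : Fac D₁ → Fac D₂ → Fac P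
  /-- approximation by algebraic tensors -/
  approx : ∀ (ξ : H) (ε : ℝ), 0 < ε → ∃ (n : ℕ) (c d : Fin n → Op H), (∀ i, c i ∈ D₁) ∧
    (∀ i, d i ∈ D₂) ∧ ‖ξ - (∑ i, c i * d i) Ω‖ ≤ ε
  /-- products of weakly null sequences are mixing -/
  mix : ∀ g h : ℕ → Op H, (∀ n, g n ∈ D₁ ∧ ‖g n‖ ≤ 1) → (∀ n, h n ∈ D₂ ∧ ‖h n‖ ≤ 1) →
    (∀ ξ, Tendsto (fun n => ⟪ξ, h n Ω⟫_ℂ) atTop (𝓝 0)) → ∀ x ∈ P, ∀ x' ∈ P,
    Tendsto (fun n => Pool.Agent.MP_ad85d3_an.eP D₁ Ω ((x * (g n * h n) * x') Ω)) atTop (𝓝 0)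

def TcStmt : Prop :=
  ∀ (H : Type u) [NormedAddCommGroup H] [InnerProductSpace ℂ H] [CompleteSpace H]
    (Ω : H) (J : H ≃ₗᵢ⋆[ℂ] H) (P D₁ D₂ : VonNeumannAlgebra H), Std Ω J P → Tens Ω P D₁ D₂ →
    TcF Ω P D₁ D₂

/-! ## THA, THB: rigidity of saturated subfactors -/

def ThAStmt : Prop :=
  ∀ (H : Type u) [NormedAddCommGroup H] [InnerProductSpace ℂ H] [CompleteSpace H]
    (Ω : H) (J : H ≃ₗᵢ⋆[ℂ] H) (P A B₁ B₂ : VonNeumannAlgebra H), Std Ω J P → Tens Ω P B₁ B₂ →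
    A ≤ P → Fac A → Dif A 1 → Sat A Ω → ∀ a, Pj A a → a ≠ 0 →
    ∃ q, Pj A q ∧ a * q = q ∧ ∃ δ : ℝ, 0 < δ ∧ ∀ u, Uni A q u → ¬ Small Ω B₁ B₂ (u Ω) δ

def ThBStmt : Prop :=
  ∀ (H : Type u) [NormedAddCommGroup H] [InnerProductSpace ℂ H] [CompleteSpace H]
    (Ω : H) (J : H ≃ₗᵢ⋆[ℂ] H) (P A B₁ B₂ : VonNeumannAlgebra H), Std Ω J P → Tens Ω P B₁ B₂ →
    A ≤ P → Dif A 1 → ∀ (q : Op H) (δ : ℝ), Pj A q → 0 < δ →
    (∀ u, Uni A q u → ¬ Small Ω B₁ B₂ (u Ω) δ) →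
    ∃ q', Pj A q' ∧ q * q' = q' ∧ NoMix Ω P A B₁ B₂ q'

/-! ## FRAME, AVG, INT: intertwining by bimodules -/

/-- an orthonormal basis of `H` as a right `B`-module -/
def Frame (Ω : H) (J : H ≃ₗᵢ⋆[ℂ] H) (B : VonNeumannAlgebra H) : Prop :=
  ∃ (ι : Type u) (V : ι → Op H), (∀ j, V j ∈ bas J B ∧ V j * eP B Ω = V j) ∧
    ∀ η : H, HasSum (fun j => ‖star (V j) η‖ ^ 2) (‖η‖ ^ 2)

def FrameStmt : Prop :=
  ∀ (H : Type u) [NormedAddCommGroup H] [InnerProductSpace ℂ H] [CompleteSpace H]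
    (Ω : H) (J : H ≃ₗᵢ⋆[ℂ] H) (P B₁ B₂ : VonNeumannAlgebra H), Std Ω J P → Tens Ω P B₁ B₂ →
    Frame Ω J B₁

def AvgStmt : Prop :=
  ∀ (H : Type u) [NormedAddCommGroup H] [InnerProductSpace ℂ H] [CompleteSpace H]
    (Ω : H) (J : H ≃ₗᵢ⋆[ℂ] H) (P A B₁ B₂ : VonNeumannAlgebra H), Std Ω J P → A ≤ P → B₁ ≤ P →
    B₂ ≤ P → Frame Ω J B₁ → Frame Ω J B₂ → ∀ q, Pj A q → NoMix Ω P A B₁ B₂ q →
    ∃ T : Op H, T ≠ 0 ∧ IsSelfAdjoint T ∧ q * T = T ∧ (∀ u, Uni A q u → u * T = T * u) ∧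
      (FinT Ω J B₁ T ∨ FinT Ω J B₂ T)

def IntStmt : Prop :=
  ∀ (H : Type u) [NormedAddCommGroup H] [InnerProductSpace ℂ H] [CompleteSpace H]
    (Ω : H) (J : H ≃ₗᵢ⋆[ℂ] H) (P A B : VonNeumannAlgebra H), Std Ω J P → A ≤ P → B ≤ P →
    Fac A → Dif A 1 → Fac B → ∀ q T : Op H, Pj A q → T ≠ 0 → IsSelfAdjoint T → q * T = T →
    (∀ u, Uni A q u → u * T = T * u) → FinT Ω J B T → Emb P A B

/-! ## PRIME, END, AMP: unique factorisation -/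

def PrimeStmt : Prop :=
  ∀ (H : Type u) [NormedAddCommGroup H] [InnerProductSpace ℂ H] [CompleteSpace H]
    (Ω : H) (J : H ≃ₗᵢ⋆[ℂ] H) (P A₁ A₂ B₁ B₂ C D : VonNeumannAlgebra H), Std Ω J P →
    Tens Ω P A₁ A₂ → Tens Ω P B₁ B₂ → Fac A₁ → Dif A₁ 1 → Dif B₂ 1 → Rig Ω P A₂ B₁ B₂ →
    C ≤ B₁ → C ≤ D → B₂ ≤ D → D ≤ P → ∀ z b p v : Op H, Pj C z → Pj B₂ b → Pj A₁ p → v ∈ P →
    v ≠ 0 → star v * v = z * b → p * v = v → (∀ y ∈ D, ∃ a ∈ A₂, v * y * star v = p * a) →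
    (∀ a ∈ A₂, star v * a * v ∈ D) → Conn D z z → ¬ Dif C z

def EndStmt : Prop :=
  ∀ (H : Type u) [NormedAddCommGroup H] [InnerProductSpace ℂ H] [CompleteSpace H]
    (Ω : H) (J : H ≃ₗᵢ⋆[ℂ] H) (P A₁ A₂ B₁ B₂ : VonNeumannAlgebra H), Std Ω J P →
    Tens Ω P A₁ A₂ → Tens Ω P B₁ B₂ → Fac A₁ → Fac A₂ → Fac B₂ → Dif A₁ 1 → Dif B₂ 1 →
    Rig Ω P A₂ B₁ B₂ → Emb P A₁ B₁ →
    ∃ v p c a b : Op H, v ∈ P ∧ v ≠ 0 ∧ Link A₁ B₁ v p c a b ∧ Link A₂ B₂ v a b p c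

structure AmpF (H : Type u) [NormedAddCommGroup H] [InnerProductSpace ℂ H] [CompleteSpace H] :
    Prop where
  symm : ∀ (A B : VonNeumannAlgebra H) (v p c a b : Op H), Link A B v p c a b →
    Link B A (star v) c p b a
  iso : ∀ (A B : VonNeumannAlgebra H) (v p c a b : Op H) (h : Link A B v p c a b),
    Nonempty (cor A h.pA.2 ≃⋆ₐ[ℂ] cor B h.cB.2)
  amp : ∀ (P A B : VonNeumannAlgebra H) (τ : Op H →ₗ[ℂ] ℂ) (v p c a b q : Op H), IsTr P τ →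
    A ≤ P → B ≤ P → Fac A → Fac B → Dif A 1 → v ∈ P → v ≠ 0 → a ∈ P → b ∈ P →
    (∀ x ∈ A, τ (x * a) = τ x * τ a) → (∀ y ∈ B, τ (y * b) = τ y * τ b) →
    Link A B v p c a b → Pj B q → τ q * τ p = τ c → ∃ w : Op H, Link A B w 1 q a b

def AmpStmt : Prop :=
  ∀ (H : Type u) [NormedAddCommGroup H] [InnerProductSpace ℂ H] [CompleteSpace H], AmpF H

/-! ## ULTA, ULTB, ISO, TEN: ultrapowers and tensor products -/

/-- constant sequences -/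
def Linf.const {A : Type u} [NonUnitalCStarAlgebra A] (a : A) : Linf A :=
  BoundedContinuousFunction.const ℕ a

/-- a trace preserving unital representation of `ℓ^∞(ℕ, N)` in `P` -/
structure Rep (N : TwoOne K) (U : Ultrafilter ℕ) (Ω : H) (P : VonNeumannAlgebra H)
    (π : Linf N.M.toStarSubalgebra →⋆ₙₐ[ℂ] Op H) : Prop where
  one : π (Linf.const 1) = 1
  mem : ∀ x, π x ∈ P
  tr : ∀ x, vec Ω (π x) = ultraTrace N.τ N.pos U x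

def UltAStmt : Prop :=
  ∀ (H K : Type u) [NormedAddCommGroup H] [InnerProductSpace ℂ H] [CompleteSpace H]
    [NormedAddCommGroup K] [InnerProductSpace ℂ K] [CompleteSpace K]
    (Ω : H) (J : H ≃ₗᵢ⋆[ℂ] H) (P : VonNeumannAlgebra H) (N : TwoOne K) (U : Ultrafilter ℕ)
    (π : Linf N.M.toStarSubalgebra →⋆ₙₐ[ℂ] Op H), (U : Filter ℕ) ≤ cofinite → Std Ω J P →
    Rep N U Ω P π → ∃ A : VonNeumannAlgebra H, (∀ y, y ∈ A ↔ ∃ x, π x = y) ∧ Sat A Ω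

/-- the trace of a II₁ factor as a functional on all operators -/
def ExtStmt : Prop :=
  ∀ (K : Type u) [NormedAddCommGroup K] [InnerProductSpace ℂ K] [CompleteSpace K] (N : TwoOne K),
    Fac N.M ∧ ∃ τ : Op K →ₗ[ℂ] ℂ, IsTr N.M τ ∧ ∀ x : N.M.toStarSubalgebra, τ x = N.τ x

def UltBStmt : Prop :=
  ∀ (H K : Type u) [NormedAddCommGroup H] [InnerProductSpace ℂ H] [CompleteSpace H]
    [NormedAddCommGroup K] [InnerProductSpace ℂ K] [CompleteSpace K]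
    (Ω : H) (J : H ≃ₗᵢ⋆[ℂ] H) (P A : VonNeumannAlgebra H) (N : TwoOne K) (U : Ultrafilter ℕ)
    (π : Linf N.M.toStarSubalgebra →⋆ₙₐ[ℂ] Op H), Std Ω J P → Rep N U Ω P π →
    (∀ y, y ∈ A ↔ ∃ x, π x = y) → Fac A ∧ Dif A 1 ∧ ∀ t : ℝ, 0 ≤ t → t ≤ 1 →
      ∃ q : N.M.toStarSubalgebra, IsStarProjection q ∧ N.τ q = t

/-- two representations in tensor position -/
structure Pair {K' : Type u} [NormedAddCommGroup K'] [InnerProductSpace ℂ K'] [CompleteSpace K']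
    (N : TwoOne K) (N' : TwoOne K') (U : Ultrafilter ℕ) (Ω : H) (P : VonNeumannAlgebra H)
    (π : Linf N.M.toStarSubalgebra →⋆ₙₐ[ℂ] Op H)
    (π' : Linf N'.M.toStarSubalgebra →⋆ₙₐ[ℂ] Op H) : Prop where
  rep : Rep N U Ω P π
  rep' : Rep N' U Ω P π'
  comm : ∀ x y, π x * π' y = π' y * π x
  indep : ∀ x y, vec Ω (π x * π' y) = vec Ω (π x) * vec Ω (π' y)
  dense : Dense (Submodule.span ℂ {ξ : H | ∃ x y, ξ = (π x * π' y) Ω} : Set H)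

/-- existence of the standard form -/
def ExistStmt : Prop :=
  ∀ (H : Type u) [NormedAddCommGroup H] [InnerProductSpace ℂ H] [CompleteSpace H]
    (Ω : H) (S : Set (Op H)), ‖Ω‖ = 1 → 1 ∈ S → (∀ x ∈ S, star x ∈ S) →
    (∀ x ∈ S, ∀ y ∈ S, x * y ∈ S) → (∀ x ∈ S, ∀ y ∈ S, vec Ω (x * y) = vec Ω (y * x)) →
    Dense (Submodule.span ℂ ((fun x : Op H => x Ω) '' S) : Set H) →
    ∃ J : H ≃ₗᵢ⋆[ℂ] H, Std Ω J (vn (vn S : Set (Op H)))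

end Pool.Agent.MP_ad85d3_an
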