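import Mathlib.RingTheory.Flat.FaithfullyFlat.Algebra
import Mathlib.Topology.Sheaves.Presheaf
import Mathlib.Analysis.CStarAlgebra.CompletelyPositiveMap
import Mathlib.Combinatorics.SimpleGraph.Basic
import Mathlib.Analysis.InnerProductSpace.l2Space
import Mathlib.Analysis.InnerProductSpace.StarOrder
import Pool.Agent.MP_ad85d3_an.Spec

-- ======== part 0: formerly Pool.Agent.MP_ad85d3_an.GraphFrame
section MrgPart0

/-!
# PROJECT UPF: bounded intertwiners from vectors, and module bases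
-/

open Filter Topology
open scoped ComplexOrder InnerProductSpace ComplexConjugate

noncomputable section

namespace Pool.Agent.MP_ad85d3_an

universe u

namespace GraphFrame

variable {H : Type u} [NormedAddCommGroup H] [InnerProductSpace ℂ H] [CompleteSpace H]

theorem inner_star_left (x : Op H) (ξ η : H) : ⟪star x ξ, η⟫_ℂ = ⟪ξ, x η⟫_ℂ := by
  rw [ContinuousLinearMap.star_eq_adjoint, ContinuousLinearMap.adjoint_inner_left]

theorem inner_star_right (x : Op H) (ξ η : H) : ⟪ξ, star x η⟫_ℂ = ⟪x ξ, η⟫_ℂ := by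
  rw [ContinuousLinearMap.star_eq_adjoint, ContinuousLinearMap.adjoint_inner_right]

/-! ## the corner of a projection in the square -/

/-- a pair of vectors -/
def pr (a b : H) : WithLp 2 (H × H) := WithLp.toLp 2 (a, b)

omit [CompleteSpace H] in
theorem inner_pr (a b : H) (w : WithLp 2 (H × H)) :
    ⟪pr a b, w⟫_ℂ = ⟪a, w.fst⟫_ℂ + ⟪b, w.snd⟫_ℂ := rfl

omit [CompleteSpace H] in
theorem inner_pr' (a b : H) (w : WithLp 2 (H × H)) :
    ⟪w, pr a b⟫_ℂ = ⟪w.fst, a⟫_ℂ + ⟪w.snd, b⟫_ℂ := rfl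

/-- the orthogonal complement of a set of pairs -/
def ort (G : Set (H × H)) : Submodule ℂ (WithLp 2 (H × H)) :=
  (Submodule.span ℂ ((fun p : H × H => pr p.1 p.2) '' G))ᗮ

instance (G : Set (H × H)) : CompleteSpace (ort G) :=
  (Submodule.isClosed_orthogonal _).completeSpace_coe

omit [CompleteSpace H] in
theorem mem_ort {G : Set (H × H)} {w : WithLp 2 (H × H)} :
    w ∈ ort G ↔ ∀ p ∈ G, ⟪p.1, w.fst⟫_ℂ + ⟪p.2, w.snd⟫_ℂ = 0 := by
  constructor
  · intro h p hp
    rw [← inner_pr]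
    have hm : pr p.1 p.2 ∈ Submodule.span ℂ ((fun p : H × H => pr p.1 p.2) '' G) :=
      Submodule.subset_span ⟨p, hp, rfl⟩
    exact h _ hm
  · intro h v hv
    induction hv using Submodule.span_induction with
    | mem x hx => obtain ⟨p, hp, rfl⟩ := hx; exact h p hp
    | zero => exact inner_zero_left _
    | add x y _ _ hx hy => rw [inner_add_left, hx, hy, add_zero]
    | smul c x _ hx => rw [inner_smul_left, hx, mul_zero]

/-- the lower left corner of the projection -/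
def low (G : Set (H × H)) : Op H :=
  (WithLp.sndL 2 ℂ H H).comp ((ort G).starProjection.comp
    ((WithLp.prodContinuousLinearEquiv 2 ℂ H H).symm.toContinuousLinearMap.comp
      (ContinuousLinearMap.inl ℂ H H)))

theorem low_apply (G : Set (H × H)) (η : H) :
    low G η = ((ort G).starProjection (pr η 0)).snd := rfl

theorem ort_inv {G : Set (H × H)} {b x : Op H}
    (h : ∀ p ∈ G, (star b p.1, star x p.2) ∈ G) {w : WithLp 2 (H × H)} (hw : w ∈ ort G) :
    pr (b w.fst) (x w.snd) ∈ ort G := by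
  rw [mem_ort] at hw ⊢
  intro p hp
  have := hw _ (h p hp)
  rw [inner_star_left, inner_star_left] at this
  exact this

theorem low_comm {G : Set (H × H)} {b x : Op H} (h1 : ∀ p ∈ G, (b p.1, x p.2) ∈ G)
    (h2 : ∀ p ∈ G, (star b p.1, star x p.2) ∈ G) : x * low G = low G * b := by
  ext η
  set w := (ort G).starProjection (pr η 0) with hw
  have hm : w ∈ ort G := Submodule.starProjection_apply_mem _ _
  have e : (ort G).starProjection (pr (b η) 0) = pr (b w.fst) (x w.snd) := by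
    refine Submodule.eq_starProjection_of_mem_of_inner_eq_zero (ort_inv h2 hm) fun v hv => ?_
    have h3 : pr (star b v.fst) (star x v.snd) ∈ ort G :=
      ort_inv (by simpa only [star_star] using h1) hv
    have h4 := Submodule.starProjection_inner_eq_zero (pr η 0) _ h3
    rw [← hw, inner_sub_left, inner_pr, inner_pr'] at h4
    rw [inner_sub_left, inner_pr, inner_pr]
    change ⟪η, star b v.fst⟫_ℂ + ⟪0, star x v.snd⟫_ℂ - _ = 0 at h4
    rw [inner_star_right, inner_star_right, inner_star_right, inner_star_right, map_zero] at h4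
    exact h4
  rw [mul_ap, mul_ap, low_apply, low_apply, e]
  rfl

/-! ## the module basis -/

theorem eP_eq_zero {D : Set (Op H)} {Ω ζ : H} (h : ∀ d ∈ D, ⟪d Ω, ζ⟫_ℂ = 0) : eP D Ω ζ = 0 := by
  refine Submodule.eq_starProjection_of_mem_orthogonal (zero_mem _) ?_
  rw [sub_zero, orb, Submodule.orthogonal_closure]
  intro v hv
  induction hv using Submodule.span_induction with
  | mem x hx => obtain ⟨d, hd, rfl⟩ := hx; exact h d hd
  | zero => exact inner_zero_left _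
  | add x y _ _ hx hy => rw [inner_add_left, hx, hy, add_zero]
  | smul c x _ hx => rw [inner_smul_left, hx, mul_zero]

variable {Ω : H} {J : H ≃ₗᵢ⋆[ℂ] H} {P B₁ B₂ : VonNeumannAlgebra H}

theorem compress (hT : Tens Ω P B₁ B₂) {a : Op H} (ha : a ∈ B₂) :
    eP B₁ Ω * a * eP B₁ Ω = vec Ω a • eP B₁ Ω := by
  have : (eP B₁ Ω * a - vec Ω a • (1 : Op H)) * eP B₁ Ω = 0 := by
    refine mul_eP_eq_zero fun b hb => ?_
    have e : eP B₁ Ω (a (b Ω) - vec Ω a • b Ω) = 0 := eP_eq_zero fun c hc => by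
      have h1 := hT.indep _ (mul_mem (star_mem hc) hb) a ha
      rw [mul_assoc, hT.comm b hb a ha, vec_star_mul, vec_star_mul] at h1
      rw [inner_sub_right, inner_smul_right, ← mul_ap a b, h1, mul_comm, sub_self]
    rw [map_sub, map_smul, eP_apply hb] at e
    exact e
  rwa [sub_mul, smul_mul_assoc, one_mul, sub_eq_zero] at this

theorem gram (hT : Tens Ω P B₁ B₂) {d d' : Op H} (hd : d ∈ B₂) (hd' : d' ∈ B₂) :
    star (d * eP B₁ Ω) * (d' * eP B₁ Ω) = ⟪d Ω, d' Ω⟫_ℂ • eP B₁ Ω := by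
  rw [star_mul, (eP_proj _ _).isSelfAdjoint.star_eq, ← vec_star_mul,
    ← compress hT (mul_mem (star_mem hd) hd')]
  simp only [mul_assoc]

theorem norm_mul_eP (hT : Tens Ω P B₁ B₂) {d : Op H} (hd : d ∈ B₂) :
    ‖d * eP B₁ Ω‖ ≤ ‖d Ω‖ := by
  have h1 := CStarRing.norm_star_mul_self (x := d * eP B₁ Ω)
  rw [gram hT hd hd, norm_smul, inner_self_eq_norm_sq_to_K] at h1
  have h2 := (eP_proj (B₁ : Set (Op H)) Ω).norm_le
  have h3 : ‖((‖d Ω‖ : ℂ)) ^ 2‖ = ‖d Ω‖ ^ 2 := by simp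
  refine abs_le_of_sq_le_sq' ?_ (norm_nonneg _) |>.2
  rw [sq, ← h1]
  change ‖((‖d Ω‖ : ℂ)) ^ 2‖ * _ ≤ _
  rw [h3]
  exact mul_le_of_le_one_right (sq_nonneg _) h2

/-- evaluation at the trace vector -/
def ev (B : VonNeumannAlgebra H) (Ω : H) : B.toStarSubalgebra →ₗ[ℂ] orb (B : Set (Op H)) Ω where
  toFun d := ⟨(d : Op H) Ω,
    Submodule.le_topologicalClosure _ (Submodule.subset_span ⟨d, d.2, rfl⟩)⟩
  map_add' _ _ := rfl
  map_smul' _ _ := rfl

theorem ev_dense (B : VonNeumannAlgebra H) (Ω : H) : DenseRange (ev B Ω) := by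
  rw [DenseRange, Subtype.dense_iff]
  refine closure_mono (?_ : (Submodule.span ℂ ((fun d : Op H => d Ω) '' (B : Set (Op H))) : Set H)
    ⊆ _)
  intro v hv
  induction hv using Submodule.span_induction with
  | mem x hx => obtain ⟨d, hd, rfl⟩ := hx; exact ⟨_, ⟨⟨d, hd⟩, rfl⟩, rfl⟩
  | zero => exact ⟨_, ⟨0, rfl⟩, rfl⟩
  | add x y _ _ hx hy =>
    obtain ⟨_, ⟨d, rfl⟩, rfl⟩ := hx
    obtain ⟨_, ⟨d', rfl⟩, rfl⟩ := hy
    exact ⟨_, ⟨d + d', rfl⟩, rfl⟩
  | smul c x _ hx =>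
    obtain ⟨_, ⟨d, rfl⟩, rfl⟩ := hx
    exact ⟨_, ⟨c • d, rfl⟩, rfl⟩

/-- right multiplication by a fixed operator -/
def rm (B : VonNeumannAlgebra H) (e : Op H) : B.toStarSubalgebra →ₗ[ℂ] Op H where
  toFun d := (d : Op H) * e
  map_add' _ _ := add_mul _ _ _
  map_smul' _ _ := smul_mul_assoc _ _ _

theorem exists_V (hT : Tens Ω P B₁ B₂) : ∃ V : orb (B₂ : Set (Op H)) Ω →L[ℂ] Op H,
    ∀ d : B₂.toStarSubalgebra, V (ev B₂ Ω d) = (d : Op H) * eP B₁ Ω :=
  ⟨(rm B₂ (eP B₁ Ω)).extendOfNorm (ev B₂ Ω), fun d =>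
    LinearMap.extendOfNorm_eq (ev_dense B₂ Ω) ⟨1, fun d => by
      rw [one_mul]; exact norm_mul_eP hT d.2⟩ d⟩

omit [CompleteSpace H] in
theorem sot_of_dense {ι : Type*} {l : Filter ι} (T : ι → Op H) (hT : ∀ i, ‖T i‖ ≤ 1) {S : Set H}
    (hS : Dense (Submodule.span ℂ S : Set H)) (h : ∀ η ∈ S, Tendsto (fun i => T i η) l (𝓝 η))
    (η : H) : Tendsto (fun i => T i η) l (𝓝 η) := by
  have hc : IsClosed {η : H | Tendsto (fun i => T i η) l (𝓝 (id η))} := by
    refine Equicontinuous.isClosed_setOfPred_tendsto (F := fun i η => T i η) ?_ continuous_id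
    refine Metric.equicontinuous_of_continuity_modulus id tendsto_id _ fun x y i => ?_
    rw [dist_eq_norm, id, dist_eq_norm, ← map_sub]
    exact ((T i).le_opNorm _).trans (mul_le_of_le_one_left (norm_nonneg _) (hT i))
  have hs : (Submodule.span ℂ S : Set H) ⊆ {η : H | Tendsto (fun i => T i η) l (𝓝 (id η))} := by
    intro v hv
    induction hv using Submodule.span_induction with
    | mem x hx => exact h x hx
    | zero => simpa only [Set.mem_ofPred_eq, map_zero, id] using tendsto_const_nhds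
    | add x y _ _ hx hy => simpa only [Set.mem_ofPred_eq, map_add, id] using Tendsto.add hx hy
    | smul c x _ hx => simpa only [Set.mem_ofPred_eq, map_smul, id] using Tendsto.const_smul hx c
  exact hc.closure_subset_iff.2 hs (hS η)

end GraphFrame

open GraphFrame

theorem graph_stmt (hS : StdStmt.{u}) : GraphStmt.{u} := by
  intro H _ _ _ Ω J P h ξ hξ
  set G : Set (H × H) := {p | ∃ z ∈ P, p = (z Ω, kap J (star z) ξ)} with hG
  have inv : ∀ x ∈ P, ∀ b ∈ P, x ξ = kap J (star b) ξ → ∀ p ∈ G, (b p.1, x p.2) ∈ G := by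
    rintro x hx b hb e _ ⟨z, hz, rfl⟩
    refine ⟨b * z, mul_mem hb hz, Prod.ext rfl ?_⟩
    change x (kap J (star z) ξ) = kap J (star (b * z)) ξ
    rw [← mul_ap, ← h.kap_comm (star_mem hz) hx, mul_ap, e, star_mul, h.kap_mul, mul_ap]
  have invk : ∀ d ∈ P, ∀ p ∈ G, (kap J d p.1, kap J d p.2) ∈ G := by
    rintro d hd _ ⟨z, hz, rfl⟩
    refine ⟨z * star d, mul_mem hz (star_mem hd), Prod.ext (h.kap_orb hd hz) ?_⟩
    change kap J d (kap J (star z) ξ) = kap J (star (z * star d)) ξ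
    rw [star_mul, star_star, h.kap_mul, mul_ap]
  refine ⟨low G, (hS H Ω J P h).comm _ fun d hd => low_comm (invk d hd) ?_, ?_, ?_⟩
  · rw [← h.kap_star]; exact invk _ (star_mem hd)
  · intro h0
    set w := (ort G).starProjection (pr Ω 0) with hw
    have hm : w ∈ ort G := Submodule.starProjection_apply_mem _ _
    have h2 : w.snd = 0 := by rw [hw, ← low_apply, h0]; rfl
    have h1 : w.fst = 0 := h.eq_zero_of_inner fun z hz => by
      have := mem_ort.1 hm _ ⟨z, hz, rfl⟩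
      rwa [h2, inner_zero_right, add_zero] at this
    have h3 : J ξ = 0 := h.eq_zero_of_inner fun z hz => by
      have hk : pr (-(kap J z (J ξ))) (star z Ω) ∈ ort G := by
        rw [mem_ort]
        rintro _ ⟨y, hy, rfl⟩
        change ⟪y Ω, -(kap J z (J ξ))⟫_ℂ + ⟪kap J (star y) ξ, star z Ω⟫_ℂ = 0
        have e1 : ⟪y Ω, kap J z (J ξ)⟫_ℂ = ⟪ξ, (star z * star y) Ω⟫_ℂ := by
          rw [← inner_star_left, ← h.kap_star, h.kap_orb (star_mem hz) hy, star_star, ← star_mul,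
            ← h.J_orb _ (mul_mem hy hz), ← inner_J J, h.invol]
        rw [inner_neg_right, e1, h.kap_star, inner_star_left, h.kap_orb hy (star_mem hz),
          neg_add_cancel]
      have h4 := Submodule.starProjection_inner_eq_zero (pr Ω 0) _ hk
      rw [← hw, inner_sub_left, inner_pr', inner_pr', h1, h2] at h4
      change ⟪Ω, -(kap J z (J ξ))⟫_ℂ + ⟪0, star z Ω⟫_ℂ - _ = 0 at h4
      rw [inner_zero_left, inner_zero_left, add_zero, add_zero, sub_zero, inner_neg_right,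
        neg_eq_zero, ← inner_star_left, ← h.kap_star, h.kap_one_orb (star_mem hz),
        star_star] at h4
      exact h4
    exact hξ (by rw [← h.invol ξ, h3, map_zero])
  · intro x hx b hb e1 e2
    have i1 := inv x hx b hb e1
    have i2 := inv _ (star_mem hx) _ (star_mem hb) (by rwa [star_star])
    exact ⟨low_comm i1 i2, low_comm i2 (by simpa only [star_star] using i1)⟩

theorem frame_stmt : FrameStmt.{u} := by
  intro H _ _ _ Ω J P B₁ B₂ h hT
  classical
  obtain ⟨V, hV⟩ := exists_V hT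
  have hd := ev_dense B₂ Ω
  have pe := (eP_proj (B₁ : Set (Op H)) Ω).isIdempotentElem.eq
  have se := (eP_proj (B₁ : Set (Op H)) Ω).isSelfAdjoint.star_eq
  have v1 : ∀ b ∈ B₁, ∀ ξ, kap J b * V ξ = V ξ * kap J b := fun b hb ξ => by
    refine hd.induction_on ξ (isClosed_eq (by fun_prop) (by fun_prop)) fun d => ?_
    rw [hV, ← mul_assoc, h.kap_comm (hT.le₁ hb) (hT.le₂ d.2), mul_assoc,
      h.eP_comm_kap (fun _ hx => hT.le₁ hx) hb, mul_assoc]
  have v2 : ∀ ξ, V ξ * eP B₁ Ω = V ξ := fun ξ => by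
    refine hd.induction_on ξ (isClosed_eq (by fun_prop) (by fun_prop)) fun d => ?_
    rw [hV, mul_assoc, pe]
  have v3 : ∀ ξ η, star (V ξ) * V η = ⟪ξ, η⟫_ℂ • eP B₁ Ω := fun ξ η => by
    refine hd.induction_on₂ (p := fun ξ η => star (V ξ) * V η = ⟪ξ, η⟫_ℂ • eP B₁ Ω)
      (isClosed_eq (by fun_prop) (by fun_prop)) (fun d d' => ?_) ξ η
    rw [hV, hV, gram hT d.2 d'.2]
    rfl
  obtain ⟨w, b, -⟩ := exists_hilbertBasis ℂ (orb (B₂ : Set (Op H)) Ω)
  refine ⟨w, fun j => V (b j), fun j => ⟨mem_vn.2 ?_, v2 _⟩, fun η => ?_⟩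
  · rintro _ ⟨c, hc, rfl⟩
    exact ⟨v1 c hc _, by rw [← h.kap_star]; exact v1 _ (star_mem hc) _⟩
  set T : Finset w → Op H := fun F => ∑ j ∈ F, V (b j) * star (V (b j)) with hTd
  have key : ∀ (F : Finset w) ξ, T F * V ξ = V (∑ j ∈ F, ⟪b j, ξ⟫_ℂ • b j) := fun F ξ => by
    rw [hTd, Finset.sum_mul, map_sum]
    refine Finset.sum_congr rfl fun j _ => ?_
    rw [mul_assoc, v3, mul_smul_comm, v2, map_smul]
  have proj : ∀ F, IsStarProjection (T F) := fun F => by
    constructor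
    · rw [IsIdempotentElem]
      nth_rewrite 2 3 [hTd]
      rw [Finset.mul_sum]
      refine Finset.sum_congr rfl fun i hi => ?_
      rw [← mul_assoc, key, Finset.sum_eq_single_of_mem i hi]
      · rw [orthonormal_iff_ite.1 b.orthonormal, if_pos rfl, one_smul]
      · intro j _ hj
        rw [orthonormal_iff_ite.1 b.orthonormal, if_neg hj, zero_smul]
    · rw [IsSelfAdjoint, hTd, star_sum]
      refine Finset.sum_congr rfl fun i _ => ?_
      rw [star_mul, star_star]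
  have lim : Tendsto (fun F => T F η) atTop (𝓝 η) := by
    refine sot_of_dense T (fun F => (proj F).norm_le) hT.dense ?_ η
    rintro _ ⟨c, hc, d, hd', rfl⟩
    have e : (c * d) Ω = V (ev B₂ Ω ⟨d, hd'⟩) (c Ω) := by
      rw [hV, mul_ap _ (eP B₁ Ω), eP_apply hc, hT.comm c hc d hd', mul_ap]
    rw [e]
    generalize ev B₂ Ω ⟨d, hd'⟩ = ξ
    have h1 : Tendsto (fun F : Finset w => ∑ j ∈ F, b.repr ξ j • b j) atTop (𝓝 ξ) :=
      b.hasSum_repr ξ
    have h2 : Continuous fun ζ => V ζ (c Ω) := by fun_prop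
    refine ((h2.tendsto ξ).comp h1).congr fun F => ?_
    rw [← mul_ap, key]
    simp only [Function.comp, b.repr_apply_apply]
  have h3 : Tendsto (fun F => (⟪η, T F η⟫_ℂ).re) atTop (𝓝 (⟪η, η⟫_ℂ).re) :=
    (Complex.continuous_re.tendsto _).comp (tendsto_const_nhds.inner lim)
  have h4 : ∀ ζ : H, (⟪ζ, ζ⟫_ℂ).re = ‖ζ‖ ^ 2 := fun ζ => by
    rw [inner_self_eq_norm_sq_to_K]; norm_cast
  rw [h4] at h3
  refine h3.congr fun F => ?_
  rw [hTd, sum_apply, inner_sum, Complex.re_sum]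
  refine Finset.sum_congr rfl fun j _ => ?_
  rw [mul_ap, ← inner_star_left, h4]

end Pool.Agent.MP_ad85d3_an

end
end MrgPart0

-- ======== part 1: formerly Pool.Agent.MP_ad85d3_an.Tc
section MrgPart1

/-!
# PROJECT UPF: commutants in tensor products
-/

open Filter Topology
open scoped ComplexOrder InnerProductSpace ComplexConjugate

noncomputable section

namespace Pool.Agent.MP_ad85d3_an

universe u

namespace Tc

theorem shuffle {R : Type*} [Ring R] {a x b y : R} (h : x * b = b * x) :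
    a * x * (b * y) = a * b * (x * y) := by
  rw [mul_assoc, ← mul_assoc x, h, mul_assoc, mul_assoc]

theorem shuffle3 {R : Type*} [Ring R] {c d g k c' d' : R} (h1 : g * d = d * g)
    (h2 : c' * (d * k) = d * k * c') :
    c * d * (g * k) * (c' * d') = c * g * c' * (d * k * d') := by
  rw [shuffle h1.symm, mul_assoc (c * g), ← mul_assoc (d * k), ← h2]
  simp only [mul_assoc]

variable {H : Type u} [NormedAddCommGroup H] [InnerProductSpace ℂ H] [CompleteSpace H]

theorem inner_eP {D : Set (Op H)} {Ω : H} {d : Op H} (hd : d ∈ D) (ξ : H) :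
    ⟪d Ω, eP D Ω ξ⟫_ℂ = ⟪d Ω, ξ⟫_ℂ := by
  have := Submodule.inner_starProjection_left_eq_right (orb D Ω) (d Ω) ξ
  rw [← eP, eP_apply hd] at this
  exact this.symm

theorem eP_eq {D : Set (Op H)} {Ω : H} {ξ η : H} (hη : eP D Ω η = η)
    (h : ∀ d ∈ D, ⟪d Ω, ξ⟫_ℂ = ⟪d Ω, η⟫_ℂ) : eP D Ω ξ = η := by
  refine Submodule.eq_starProjection_of_mem_of_inner_eq_zero
    (Submodule.starProjection_eq_self_iff.1 hη) fun w hw => ?_
  have : orb D Ω ≤ (innerSL ℂ (ξ - η)).ker := Submodule.topologicalClosure_minimal _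
    (Submodule.span_le.2 (by
      rintro _ ⟨d, hd, rfl⟩
      have e : ⟪ξ - η, d Ω⟫_ℂ = 0 := by
        rw [← inner_conj_symm, inner_sub_right, h d hd, sub_self, map_zero]
      exact e)) (innerSL ℂ (ξ - η)).isClosed_ker
  exact this hw

theorem norm_eP_le (D : Set (Op H)) (Ω ξ : H) : ‖eP D Ω ξ‖ ≤ ‖ξ‖ :=
  ((eP D Ω).le_opNorm ξ).trans (by
    have := (eP_proj D Ω).norm_le
    nlinarith [norm_nonneg ξ])

variable {Ω : H} {J : H ≃ₗᵢ⋆[ℂ] H} {P D₁ D₂ : VonNeumannAlgebra H}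

theorem inner_tens (hT : Tens Ω P D₁ D₂) {c c' a a' : Op H} (hc : c ∈ D₁) (hc' : c' ∈ D₁)
    (ha : a ∈ D₂) (ha' : a' ∈ D₂) :
    ⟪(c * a) Ω, (c' * a') Ω⟫_ℂ = ⟪c Ω, c' Ω⟫_ℂ * ⟪a Ω, a' Ω⟫_ℂ := by
  rw [← vec_star_mul, ← vec_star_mul, ← vec_star_mul,
    ← hT.indep _ (mul_mem (star_mem hc) hc') _ (mul_mem (star_mem ha) ha'), star_mul,
    ← hT.comm _ (star_mem hc) _ (star_mem ha), shuffle (hT.comm _ hc' _ (star_mem ha)).symm]

theorem norm_tens (hT : Tens Ω P D₁ D₂) {c a : Op H} (hc : c ∈ D₁) (ha : a ∈ D₂) :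
    ‖(c * a) Ω‖ = ‖c Ω‖ * ‖a Ω‖ := by
  have := inner_tens hT hc hc ha ha
  simp only [inner_self_eq_norm_sq_to_K] at this
  have e : ‖(c * a) Ω‖ ^ 2 = (‖c Ω‖ * ‖a Ω‖) ^ 2 := by
    rw [mul_pow]
    exact_mod_cast this
  exact (pow_left_inj₀ (norm_nonneg _) (by positivity) two_ne_zero).1 e

theorem eP_tens (hT : Tens Ω P D₁ D₂) {c a : Op H} (hc : c ∈ D₁) (ha : a ∈ D₂) :
    eP D₁ Ω ((c * a) Ω) = vec Ω a • c Ω := by
  refine eP_eq (by rw [map_smul, eP_apply hc]) fun d hd => ?_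
  have := inner_tens hT hd hc (one_mem D₂) ha
  rw [mul_one] at this
  rw [this, inner_smul_right, mul_comm]
  rfl

theorem zero_tens (hT : Tens Ω P D₁ D₂) {ξ : H}
    (e : ∀ x ∈ D₁, ∀ d ∈ D₂, ⟪(x * d) Ω, ξ⟫_ℂ = 0) : ξ = 0 := by
  have k : Submodule.span ℂ {ξ : H | ∃ a ∈ D₁, ∃ b ∈ D₂, ξ = (a * b) Ω} ≤ (innerSL ℂ ξ).ker :=
    Submodule.span_le.2 (by
      rintro _ ⟨a, ha, b, hb, rfl⟩
      have e' : ⟪ξ, (a * b) Ω⟫_ℂ = 0 := by rw [← inner_conj_symm, e a ha b hb, map_zero]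
      exact e')
  have := (innerSL ℂ ξ).continuous.ext_on hT.dense continuous_const (g := fun _ => 0)
    fun w hw => k hw
  exact inner_self_eq_zero.1 (congrFun this ξ)

theorem approx (hT : Tens Ω P D₁ D₂) (ξ : H) (ε : ℝ) (hε : 0 < ε) :
    ∃ (n : ℕ) (c d : Fin n → Op H), (∀ i, c i ∈ D₁) ∧ (∀ i, d i ∈ D₂) ∧
      ‖ξ - (∑ i, c i * d i) Ω‖ ≤ ε := by
  obtain ⟨η, hη, hd⟩ := hT.dense.exists_dist_lt ξ hε
  obtain ⟨n, f, g, rfl⟩ := Submodule.mem_span_set'.1 hη
  choose a ha b hb hab using fun i => (g i).2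
  refine ⟨n, fun i => f i • a i, b, fun i => smul_mem_vn _ (ha i), hb, ?_⟩
  rw [dist_eq_norm] at hd
  have : (∑ i, (f i • a i) * b i) Ω = ∑ i, f i • (g i : H) := by
    rw [sum_apply]
    exact Finset.sum_congr rfl fun i _ => by rw [hab i, smul_mul_assoc]; rfl
  rw [this]
  exact hd.le

/-- the conditional expectation is a bimodule map -/
theorem bimod (h : Std Ω J P) {D : VonNeumannAlgebra H} (hD : D ≤ P) {x z s t : Op H}
    (hx : x ∈ D) (hz : z ∈ P) (hs : s ∈ D) (ht : t ∈ D) (e : x Ω = eP D Ω (z Ω)) :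
    (s * x * t) Ω = eP D Ω ((s * z * t) Ω) := by
  have e1 := h.kap_orb (star_mem (hD ht)) (hD hx)
  have e2 := h.kap_orb (star_mem (hD ht)) hz
  rw [star_star] at e1 e2
  rw [mul_assoc, mul_assoc, mul_ap s, mul_ap s, ← e1, ← e2, e, ← mul_ap (kap J (star t)),
    h.eP_comm_kap (fun d hd => hD hd) (star_mem ht), mul_ap, ← mul_ap s, eP_comm Ω hs, mul_ap]

theorem slice (h : Std Ω J P) (hF : StdF Ω J P) (hT : Tens Ω P D₁ D₂) (Q : Set (Op H)) (c : Op H)
    (hQ : ∀ s ∈ Q, s ∈ D₁) (hc : Pj D₁ c)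
    (hs : ∀ x ∈ D₁, (∀ s ∈ Q, s * x = x * s) → c * x * c = x → ∃ l : ℂ, x = l • c)
    (y : Op H) (hy : y ∈ P) (hyQ : ∀ s ∈ Q, s * y = y * s) (hcy : c * y * c = y) :
    ∃ a ∈ D₂, y = c * a := by
  by_cases h0 : c = 0
  · exact ⟨0, zero_mem _, by rw [← hcy, h0, mul_zero, mul_zero]⟩
  have hτ : vec Ω c ≠ 0 := fun e =>
    (h.isTr.proj_pos (hc.mono hT.le₁) h0).ne' (by rw [e]; rfl)
  have key : ∀ d ∈ D₂, eP D₁ Ω ((y * d) Ω) = (vec Ω (y * d) / vec Ω c) • c Ω := fun d hd => by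
    have hz : y * d ∈ P := mul_mem hy (hT.le₂ hd)
    obtain ⟨x, hx, e⟩ := hF.cond D₁ hT.le₁ _ hz
    obtain ⟨l, hl⟩ := hs x hx (fun s hsQ => by
        have s1 := hQ s hsQ
        refine h.sep (hT.le₁ (mul_mem s1 hx)) (hT.le₁ (mul_mem hx s1)) ?_
        have e1 := bimod h hT.le₁ hx hz s1 (one_mem _) e
        have e2 := bimod h hT.le₁ hx hz (one_mem _) s1 e
        rw [mul_one, mul_one] at e1
        rw [one_mul, one_mul] at e2
        rw [e1, e2, ← mul_assoc, hyQ s hsQ, mul_assoc, hT.comm s s1 d hd, mul_assoc])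
      (by
        refine h.sep (hT.le₁ (mul_mem (mul_mem hc.1 hx) hc.1)) (hT.le₁ hx) ?_
        rw [bimod h hT.le₁ hx hz hc.1 hc.1 e, e, mul_assoc, mul_assoc, ← hT.comm c hc.1 d hd,
          ← mul_assoc, ← mul_assoc, hcy])
    have e3 : vec Ω x = vec Ω (y * d) := by
      rw [vec_apply, vec_apply, e]
      exact inner_eP (d := 1) (one_mem D₁) _
    rw [← e, ← e3, hl, map_smul, smul_eq_mul, mul_div_assoc, div_self hτ, mul_one]
    rfl
  obtain ⟨a, ha, e⟩ := hF.cond D₂ hT.le₂ y hy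
  have ha' : (vec Ω c)⁻¹ • a ∈ D₂ := smul_mem_vn _ ha
  refine ⟨_, ha', h.sep hy (mul_mem (hT.le₁ hc.1) (hT.le₂ ha')) (sub_eq_zero.1 ?_)⟩
  refine zero_tens hT fun x hx d hd => ?_
  rw [inner_sub_right, inner_tens hT hx hc.1 hd ha', sub_eq_zero]
  have e1 : ⟪(x * d) Ω, y Ω⟫_ℂ = ⟪x Ω, (y * star d) Ω⟫_ℂ := by
    rw [← vec_star_mul, ← vec_star_mul, star_mul, mul_assoc,
      h.isTr.comm _ (hT.le₂ (star_mem hd)) _ (mul_mem (hT.le₁ (star_mem hx)) hy), mul_assoc]
  have e2 : vec Ω (y * star d) = ⟪d Ω, a Ω⟫_ℂ := by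
    rw [h.isTr.comm _ hy _ (hT.le₂ (star_mem hd)), vec_star_mul, e, inner_eP hd]
  have e3 : ((vec Ω c)⁻¹ • a) Ω = (vec Ω c)⁻¹ • a Ω := rfl
  rw [e1, ← inner_eP hx, key _ (star_mem hd), e2, e3, inner_smul_right, inner_smul_right,
    div_eq_mul_inv]
  ring

theorem mix_elem (h : Std Ω J P) (hT : Tens Ω P D₁ D₂) {g k : ℕ → Op H}
    (hg : ∀ n, g n ∈ D₁ ∧ ‖g n‖ ≤ 1) (hk : ∀ n, k n ∈ D₂ ∧ ‖k n‖ ≤ 1)
    (hw : ∀ ξ, Tendsto (fun n => ⟪ξ, k n Ω⟫_ℂ) atTop (𝓝 0)) {c d c' d' : Op H} (hc : c ∈ D₁)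
    (hd : d ∈ D₂) (hc' : c' ∈ D₁) (hd' : d' ∈ D₂) :
    Tendsto (fun n => eP D₁ Ω ((c * d * (g n * k n) * (c' * d')) Ω)) atTop (𝓝 0) := by
  have e : ∀ n, eP D₁ Ω ((c * d * (g n * k n) * (c' * d')) Ω) =
      ⟪star (d' * d) Ω, k n Ω⟫_ℂ • (c * g n * c') Ω := fun n => by
    rw [shuffle3 (hT.comm _ (hg n).1 _ hd) (hT.comm _ hc' _ (mul_mem hd (hk n).1)),
      eP_tens hT (mul_mem (mul_mem hc (hg n).1) hc') (mul_mem (mul_mem hd (hk n).1) hd'),
      h.isTr.comm _ (hT.le₂ (mul_mem hd (hk n).1)) _ (hT.le₂ hd'), ← vec_star_mul, star_star,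
      mul_assoc d']
  simp only [e]
  rw [tendsto_zero_iff_norm_tendsto_zero]
  have lim := ((hw (star (d' * d) Ω)).norm).mul_const (‖c‖ * ‖c' Ω‖)
  rw [norm_zero, zero_mul] at lim
  refine squeeze_zero (fun n => norm_nonneg _) (fun n => ?_) lim
  rw [norm_smul]
  refine mul_le_mul_of_nonneg_left ?_ (norm_nonneg _)
  rw [mul_ap, mul_ap]
  refine (c.le_opNorm _).trans (mul_le_mul_of_nonneg_left ?_ (norm_nonneg _))
  exact ((g n).le_opNorm _).trans (mul_le_of_le_one_left (norm_nonneg _) (hg n).2)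

theorem mix (h : Std Ω J P) (hT : Tens Ω P D₁ D₂) (g k : ℕ → Op H)
    (hg : ∀ n, g n ∈ D₁ ∧ ‖g n‖ ≤ 1) (hk : ∀ n, k n ∈ D₂ ∧ ‖k n‖ ≤ 1)
    (hw : ∀ ξ, Tendsto (fun n => ⟪ξ, k n Ω⟫_ℂ) atTop (𝓝 0)) (x : Op H) (hx : x ∈ P) (x' : Op H)
    (_ : x' ∈ P) :
    Tendsto (fun n => eP D₁ Ω ((x * (g n * k n) * x') Ω)) atTop (𝓝 0) := by
  rw [Metric.tendsto_atTop]
  intro ε hε
  obtain ⟨n', c', d', hc', hd', e'⟩ := approx hT (x' Ω) (ε / 3 / (‖x‖ + 1)) (by positivity)
  set y' : Op H := ∑ i, c' i * d' i with hy'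
  have y'P : y' ∈ P := sum_mem fun i _ => mul_mem (hT.le₁ (hc' i)) (hT.le₂ (hd' i))
  obtain ⟨m, c, d, hc, hd, e⟩ := approx hT (x Ω) (ε / 3 / (‖y'‖ + 1)) (by positivity)
  set y : Op H := ∑ i, c i * d i with hy
  have yP : y ∈ P := sum_mem fun i _ => mul_mem (hT.le₁ (hc i)) (hT.le₂ (hd i))
  have lim : Tendsto (fun n => eP D₁ Ω ((y * (g n * k n) * y') Ω)) atTop (𝓝 0) := by
    have e0 : ∀ n, eP D₁ Ω ((y * (g n * k n) * y') Ω) =
        ∑ j, ∑ i, eP D₁ Ω ((c i * d i * (g n * k n) * (c' j * d' j)) Ω) := fun n => by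
      rw [hy, hy', Finset.mul_sum, sum_apply, map_sum]
      refine Finset.sum_congr rfl fun j _ => ?_
      rw [Finset.sum_mul, Finset.sum_mul, sum_apply, map_sum]
    simp only [e0]
    have := tendsto_finsetSum Finset.univ fun j _ => tendsto_finsetSum Finset.univ fun i _ =>
      mix_elem h hT hg hk hw (hc i) (hd i) (hc' j) (hd' j)
    simpa only [Finset.sum_const_zero] using this
  obtain ⟨N, hN⟩ := Metric.tendsto_atTop.1 lim (ε / 3) (by positivity)
  refine ⟨N, fun n hn => ?_⟩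
  have h1 := hN n hn
  rw [dist_zero_right] at h1 ⊢
  set u : Op H := g n * k n with hu
  have uP : u ∈ P := mul_mem (hT.le₁ (hg n).1) (hT.le₂ (hk n).1)
  have un : ‖u‖ ≤ 1 := (norm_mul_le _ _).trans (mul_le_one₀ (hg n).2 (norm_nonneg _) (hk n).2)
  have split : x * u * x' = y * u * y' + (x - y) * (u * y') + x * u * (x' - y') := by
    noncomm_ring
  have b1 : ‖((x - y) * (u * y')) Ω‖ ≤ ε / 3 := by
    refine (h.norm_mul_orb (sub_mem hx yP) (mul_mem uP y'P)).trans ?_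
    have a1 : ‖u * y'‖ ≤ ‖y'‖ + 1 :=
      ((norm_mul_le _ _).trans (mul_le_of_le_one_left (norm_nonneg _) un)).trans (by linarith)
    calc ‖u * y'‖ * ‖(x - y) Ω‖ ≤ (‖y'‖ + 1) * (ε / 3 / (‖y'‖ + 1)) :=
          mul_le_mul a1 e (norm_nonneg _) (by positivity)
      _ = ε / 3 := by field_simp
  have b2 : ‖(x * u * (x' - y')) Ω‖ ≤ ε / 3 := by
    rw [mul_ap]
    refine ((x * u).le_opNorm _).trans ?_
    have a1 : ‖x * u‖ ≤ ‖x‖ + 1 :=
      ((norm_mul_le _ _).trans (mul_le_of_le_one_right (norm_nonneg _) un)).trans (by linarith)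
    calc ‖x * u‖ * ‖(x' - y') Ω‖ ≤ (‖x‖ + 1) * (ε / 3 / (‖x‖ + 1)) :=
          mul_le_mul a1 e' (norm_nonneg _) (by positivity)
      _ = ε / 3 := by field_simp
  rw [split, add_apply, add_apply, map_add, map_add]
  have t1 := norm_eP_le D₁ Ω (((x - y) * (u * y')) Ω)
  have t2 := norm_eP_le D₁ Ω ((x * u * (x' - y')) Ω)
  refine norm_add₃_le.trans_lt ?_
  linarith

end Tc

theorem tc_stmt (hS : StdStmt.{u}) : TcStmt.{u} := fun H _ _ _ Ω J P D₁ D₂ h hT =>
  have hF := hS H Ω J P h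
  { tc := Tc.slice h hF hT
    inj := fun c hc h0 a ha e => by
      have := Tc.norm_tens hT hc ha
      rw [e, zero_apply, norm_zero] at this
      rcases mul_eq_zero.1 this.symm with e1 | e1
      · exact absurd (h.sep (hT.le₁ hc) (zero_mem P) (norm_eq_zero.1 e1)) h0
      · exact h.sep (hT.le₂ ha) (zero_mem P) (norm_eq_zero.1 e1)
    norm := fun c hc a ha => Tc.norm_tens hT hc ha
    eP := fun c hc a ha => Tc.eP_tens hT hc ha
    fac := fun f1 f2 z hz hzc => by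
      obtain ⟨a, ha, e⟩ := Tc.slice h hF hT D₁ 1 (fun s hs => hs) (Pj.one D₁)
        (fun x hx hc _ => f1 x hx fun s hs => (hc s hs).symm) z hz
        (fun s hs => (hzc s (hT.le₁ hs)).symm) (by rw [one_mul, mul_one])
      rw [one_mul] at e
      subst e
      exact f2 z ha fun x hx => hzc x (hT.le₂ hx)
    approx := Tc.approx hT
    mix := Tc.mix h hT }

end Pool.Agent.MP_ad85d3_an

end
end MrgPart1

-- ======== part 2: formerly Pool.Agent.MP_ad85d3_an.ThB
section MrgPart2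

/-!
# PROJECT UPF, module THB: block sums of mixing unitaries
-/

open Filter Topology
open scoped ComplexOrder InnerProductSpace ComplexConjugate

noncomputable section

namespace Pool.Agent.MP_ad85d3_an

universe u

namespace ThB

theorem orth {R : Type*} [Ring R] {p q x y : R} (pq : p * q = 0) (hx : x * p = x) (hy : q * y = y) :
    x * y = 0 := by
  rw [← hx, ← hy, mul_assoc, ← mul_assoc p, pq, zero_mul, mul_zero]

theorem cs {a b c x y z : ℝ} (hc : 0 ≤ c) (hz : 0 ≤ z) (h1 : a ^ 2 + b ^ 2 = c ^ 2)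
    (h2 : x ^ 2 + y ^ 2 = z ^ 2) : a * x + b * y ≤ c * z :=
  (abs_le_of_sq_le_sq' (by rw [mul_pow, ← h1, ← h2]; nlinarith [sq_nonneg (a * y - b * x)])
    (by positivity)).2

variable {H : Type u} [NormedAddCommGroup H] [InnerProductSpace ℂ H] [CompleteSpace H]
  {Ω : H} {J : H ≃ₗᵢ⋆[ℂ] H} {P A B B₁ B₂ : VonNeumannAlgebra H}

theorem uni_add {p q x y : Op H} (hp : Pj A p) (hq : Pj A q) (pq : p * q = 0) (qp : q * p = 0)
    (hx : Uni A p x) (hy : Uni A q y) : Uni A (p + q) (x + y) := by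
  have a1 : ∀ {p x : Op H}, Pj A p → Uni A p x → star x * p = star x ∧ p * star x = star x :=
    fun hp hx => ⟨by simpa only [star_mul, hp.star_eq] using congrArg star (hx.left hp.2),
      by simpa only [star_mul, hp.star_eq] using congrArg star (hx.right hp.2)⟩
  refine ⟨add_mem hx.1 hy.1, ?_, ?_⟩ <;> rw [star_add, add_mul, mul_add, mul_add]
  · rw [hx.2.1, hy.2.1, orth pq (a1 hp hx).1 (hy.left hq.2), orth qp (a1 hq hy).1 (hx.left hp.2),
      add_zero, zero_add]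
  · rw [hx.2.2, hy.2.2, orth pq (hx.right hp.2) (a1 hq hy).2, orth qp (hy.right hq.2) (a1 hp hx).2,
      add_zero, zero_add]

/-- Orthogonal splitting along a finite family. -/
theorem split (Ω : H) {n : ℕ} (c : Fin n → Op H) (hc : ∀ k, c k ∈ B) :
    ∃ (N : ℕ) (f : Fin N → Op H), (∀ j, f j ∈ B) ∧ ∀ x : Op H, ∃ a : Fin N → ℂ,
      (∀ j, ‖a j‖ ≤ ‖x Ω‖) ∧ ‖(∑ j, a j • f j) Ω‖ ^ 2 + ‖(x - ∑ j, a j • f j) Ω‖ ^ 2 = ‖x Ω‖ ^ 2 ∧
        ∀ k, ⟪(x - ∑ j, a j • f j) Ω, c k Ω⟫_ℂ = 0 := by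
  let E := Submodule.span ℂ (Set.range fun k => c k Ω)
  have : FiniteDimensional ℂ E := FiniteDimensional.span_of_finite ℂ (Set.finite_range _)
  have hE : ∀ ξ ∈ E, ∃ f ∈ B, f Ω = ξ := fun ξ h => by
    induction h using Submodule.span_induction with
    | mem _ h => exact h.elim fun k hk => ⟨c k, hc k, hk⟩
    | zero => exact ⟨0, zero_mem B, rfl⟩
    | add _ _ _ _ h1 h2 =>
      obtain ⟨f, k1, rfl⟩ := h1
      obtain ⟨g, k2, rfl⟩ := h2
      exact ⟨f + g, add_mem k1 k2, rfl⟩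
    | smul a _ _ h1 =>
      obtain ⟨f, k1, rfl⟩ := h1
      exact ⟨a • f, smul_mem_vn a k1, rfl⟩
  let b := stdOrthonormalBasis ℂ E
  choose f f1 f2 using fun j => hE (b j) (b j).2
  refine ⟨_, f, f1, fun x => ⟨fun j => ⟪(b j : H), x Ω⟫_ℂ, fun j => ?_, ?_⟩⟩
  · refine (norm_inner_le_norm _ _).trans_eq ?_
    rw [← Submodule.coe_norm, b.orthonormal.1, one_mul]
  have e : (∑ j, ⟪(b j : H), x Ω⟫_ℂ • f j) Ω = E.starProjection (x Ω) := by
    rw [b.starProjection_eq_sum_rankOne]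
    simp [f2]
  rw [sub_apply, e]
  exact ⟨by rw [E.norm_sq_eq_add_norm_sq_starProjection (x Ω), E.starProjection_orthogonal_val],
    fun k => E.starProjection_inner_eq_zero _ _ (Submodule.subset_span ⟨k, rfl⟩)⟩

theorem mixed {N : ℕ} {f : Fin N → Op H} {a : Fin N → ℂ} {z u : Op H} {α η : ℝ} (hz : z ∈ B)
    (ha : ∀ j, ‖a j‖ ≤ α) (hf : ∀ j, ‖eP B Ω ((star (f j) * u) Ω)‖ ≤ η) :
    ‖⟪((∑ j, a j • f j) * z) Ω, u Ω⟫_ℂ‖ ≤ N * (α * (‖z Ω‖ * η)) := by
  rw [Finset.sum_mul, _root_.sum_apply, sum_inner]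
  refine (norm_sum_le _ _).trans ((Finset.sum_le_card_nsmul _ _ _ fun j _ => ?_).trans_eq
    (by rw [Finset.card_univ, Fintype.card_fin, nsmul_eq_mul]))
  have e : ⟪(f j * z) Ω, u Ω⟫_ℂ = ⟪z Ω, eP B Ω ((star (f j) * u) Ω)⟫_ℂ := by
    rw [← (eP B Ω).adjoint_inner_left, ← ContinuousLinearMap.star_eq_adjoint,
      (eP_proj B Ω).isSelfAdjoint.star_eq, eP_apply hz, mul_ap (star _),
      ContinuousLinearMap.star_eq_adjoint, ContinuousLinearMap.adjoint_inner_right, mul_ap]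
  rw [smul_mul_assoc, smul_apply, inner_smul_left, norm_mul, RCLike.norm_conj, e]
  exact mul_le_mul (ha j) ((norm_inner_le_norm _ _).trans
    (mul_le_mul_of_nonneg_left (hf j) (norm_nonneg _))) (norm_nonneg _)
    ((norm_nonneg _).trans (ha j))

theorem inner_tens (ht : Tens Ω P B₁ B₂) {c d c' d' : Op H} (hc : c ∈ B₁) (hd : d ∈ B₂)
    (hc' : c' ∈ B₁) (hd' : d' ∈ B₂) :
    ⟪(c * d) Ω, (c' * d') Ω⟫_ℂ = ⟪c Ω, c' Ω⟫_ℂ * ⟪d Ω, d' Ω⟫_ℂ := by
  rw [← vec_star_mul, ← vec_star_mul, ← vec_star_mul,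
    ← ht.indep _ (mul_mem (star_mem hc) hc') _ (mul_mem (star_mem hd) hd'), star_mul,
    ← ht.comm _ (star_mem hc) _ (star_mem hd), mul_assoc, mul_assoc, ← mul_assoc (star d),
    ← ht.comm _ hc' _ (star_mem hd), mul_assoc]

theorem one_step (ht : Tens Ω P B₁ B₂) (hc : TcF Ω P B₁ B₂) {q : Op H} (hq : Pj A q)
    (hm : ¬NoMix Ω P A B₁ B₂ q) {ξ : H} {r ε : ℝ} (h1 : Small Ω B₁ B₂ ξ r) (h2 : ‖q Ω‖ ≤ r)
    (hε : 0 < ε) : ∃ u, Uni A q u ∧ Small Ω B₁ B₂ (ξ + u Ω) (r + ε) := by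
  classical
  obtain ⟨n, c, d, c1, d1, h3⟩ := hc.approx ξ (ε / 4) (by positivity)
  obtain ⟨N, f, f1, f2⟩ := split Ω c c1
  obtain ⟨N', g, g1, g2⟩ := split Ω d d1
  set η := ε / 2 / (N + N' + 1) with hη
  have η0 : 0 < η := by positivity
  have η1 : (N + N') * η ≤ ε / 2 := by
    rw [hη, ← mul_div_assoc, div_le_iff₀ (by positivity)]
    nlinarith
  obtain ⟨u, u1, u2⟩ : ∃ u, Uni A q u ∧ ∀ y ∈ Finset.univ.image f ∪ Finset.univ.image g,
      ‖eP B₁ Ω ((star y * u) Ω)‖ ≤ η ∧ ‖eP B₂ Ω ((star y * u) Ω)‖ ≤ η := by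
    by_contra k
    refine hm ⟨Finset.univ.image f ∪ Finset.univ.image g, η, fun y hy => ?_, η0, fun u hu => ?_⟩
    · rcases Finset.mem_union.1 hy with k | k <;> obtain ⟨j, -, rfl⟩ := Finset.mem_image.1 k
      exacts [ht.le₁ (f1 j), ht.le₂ (g1 j)]
    · by_contra k'
      push Not at k'
      exact k ⟨u, hu, fun y hy => ⟨(k' y hy).1.le, (k' y hy).2.le⟩⟩
  have u3 : ‖u Ω‖ ≤ r := by
    refine le_trans ((sq_le_sq₀ (norm_nonneg _) (norm_nonneg _)).1 ?_) h2
    rw [norm_orb_sq, norm_orb_sq, u1.2.1, hq.star_eq, hq.mul_self]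
  have r0 : 0 ≤ r := (norm_nonneg _).trans h2
  refine ⟨u, u1, fun x hx y hy => ?_⟩
  obtain ⟨a, a1, a2, a3⟩ := f2 x
  obtain ⟨b, b1, b2, b3⟩ := g2 y
  have x1 : ∑ j, a j • f j ∈ B₁ := sum_mem fun j _ => smul_mem_vn _ (f1 j)
  have y1 : ∑ j, b j • g j ∈ B₂ := sum_mem fun j _ => smul_mem_vn _ (g1 j)
  have x2 := sub_mem hx x1
  have m1 := mixed (Ω := Ω) (u := u) hy a1 fun j => (u2 _ (Finset.mem_union_left _
    (Finset.mem_image_of_mem f (Finset.mem_univ j)))).2
  have m2 := mixed (Ω := Ω) (u := u) x2 b1 fun j => (u2 _ (Finset.mem_union_right _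
    (Finset.mem_image_of_mem g (Finset.mem_univ j)))).1
  generalize ∑ j, a j • f j = x' at *
  generalize ∑ j, b j • g j = y' at *
  have y2 := sub_mem hy y1
  rw [← ht.comm _ x2 _ y1] at m2
  have n1 : ‖x' Ω‖ ≤ ‖x Ω‖ := (sq_le_sq₀ (norm_nonneg _) (norm_nonneg _)).1
    (a2 ▸ le_add_of_nonneg_right (sq_nonneg _))
  have n2 : ‖(x - x') Ω‖ ≤ ‖x Ω‖ := (sq_le_sq₀ (norm_nonneg _) (norm_nonneg _)).1
    (a2 ▸ le_add_of_nonneg_left (sq_nonneg _))
  have n3 : ‖(y - y') Ω‖ ≤ ‖y Ω‖ := (sq_le_sq₀ (norm_nonneg _) (norm_nonneg _)).1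
    (b2 ▸ le_add_of_nonneg_left (sq_nonneg _))
  have z0 : ⟪((x - x') * y + x' * (y - y')) Ω, (∑ i, c i * d i) Ω⟫_ℂ = 0 := by
    rw [_root_.sum_apply, inner_sum]
    refine Finset.sum_eq_zero fun i _ => ?_
    rw [add_apply, inner_add_left, inner_tens ht x2 hy (c1 i) (d1 i),
      inner_tens ht x1 y2 (c1 i) (d1 i), a3, b3, zero_mul, mul_zero, add_zero]
  have z1 : ‖((x - x') * y + x' * (y - y')) Ω‖ ≤ ‖x Ω‖ * ‖y Ω‖ + ‖x Ω‖ * ‖y Ω‖ := by
    rw [add_apply]
    refine (norm_add_le _ _).trans ?_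
    rw [hc.norm _ x2 _ hy, hc.norm _ x1 _ y2]
    gcongr
  have e1 : ⟪(x * y) Ω, ξ⟫_ℂ = ⟪(x' * y') Ω, ξ⟫_ℂ +
      ⟪((x - x') * y + x' * (y - y')) Ω, ξ - (∑ i, c i * d i) Ω⟫_ℂ := by
    rw [inner_sub_right, z0, sub_zero, ← inner_add_left, ← add_apply]
    congr 2
    noncomm_ring
  have e2 : ⟪(x * y) Ω, u Ω⟫_ℂ = ⟪((x - x') * (y - y')) Ω, u Ω⟫_ℂ +
      (⟪(x' * y) Ω, u Ω⟫_ℂ + ⟪((x - x') * y') Ω, u Ω⟫_ℂ) := by
    rw [← inner_add_left, ← inner_add_left, ← add_apply, ← add_apply]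
    congr 2
    noncomm_ring
  have k1 := h1 _ x1 _ y1
  have k2 := (norm_inner_le_norm (𝕜 := ℂ) _ _).trans
    (mul_le_mul z1 h3 (norm_nonneg _) (by positivity))
  have k3 := (norm_inner_le_norm (𝕜 := ℂ) (((x - x') * (y - y')) Ω) (u Ω)).trans
    (mul_le_mul_of_nonneg_left u3 (norm_nonneg _))
  rw [hc.norm _ x2 _ y2] at k3
  have k4 := mul_le_mul_of_nonneg_left (cs (norm_nonneg _) (norm_nonneg _) a2 b2) r0
  have k5 : N' * (‖y Ω‖ * (‖(x - x') Ω‖ * η)) ≤ N' * (‖y Ω‖ * (‖x Ω‖ * η)) := by gcongr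
  have k6 := mul_le_mul_of_nonneg_right η1 (mul_nonneg (norm_nonneg (x Ω)) (norm_nonneg (y Ω)))
  rw [inner_add_right, e1, e2]
  refine (norm_add_le _ _).trans ((add_le_add ((norm_add_le _ _).trans (add_le_add k1 k2))
    ((norm_add_le _ _).trans (add_le_add k3 ((norm_add_le _ _).trans
      (add_le_add m1 (m2.trans k5)))))).trans ?_)
  linarith

end ThB

open ThB in
theorem thB_stmt (hT : TrAStmt.{u}) (hC : TcStmt.{u}) : ThBStmt.{u} := by
  intro H _ _ _ Ω J P A B₁ B₂ hs ht hP hD q δ hq hδ h0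
  by_contra hn
  push Not at hn
  have hc := hC H Ω J P B₁ B₂ hs ht
  have tr := hs.isTr.mono hP
  have key : ∀ (m : ℕ) (p : Op H), Pj A p → q * p = p → (vec Ω p).re ≤ 2 ^ m * (δ / 2) ^ 2 →
      ∀ (ξ : H) (r ε : ℝ), δ / 2 ≤ r → Small Ω B₁ B₂ ξ r → 0 < ε →
        ∃ u, Uni A p u ∧ Small Ω B₁ B₂ (ξ + u Ω) (r + ε) := by
    intro m
    induction m with
    | zero =>
      intro p h1 h2 h3 ξ r ε h4 h5 h6
      refine one_step ht hc h1 (hn p h1 h2) h5 (le_trans ((sq_le_sq₀ (norm_nonneg _)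
        (by positivity)).1 ?_) h4) h6
      rwa [norm_orb_sq, h1.star_eq, h1.mul_self, ← one_mul ((δ / 2) ^ 2), ← pow_zero 2]
    | succ m ih =>
      intro p h1 h2 h3 ξ r ε h4 h5 h6
      have k0 := (tr.proj_re h1).2
      obtain ⟨p', p1, p2, p3⟩ := (hT H A _ tr).exact p h1 (hD.mono (one_mul p))
        ((vec Ω p).re / 2) (by positivity) (by linarith)
      have r1 := h1.sub p1 p2
      have q1 : q * p' = p' := by rw [← p2, ← mul_assoc, h2]
      rw [pow_succ] at h3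
      obtain ⟨u, u1, u2⟩ := ih p' p1 q1 (by rw [p3, Complex.ofReal_re]; linarith) ξ r _ h4 h5
        (half_pos h6)
      obtain ⟨w, w1, w2⟩ := ih _ r1 (by rw [mul_sub, h2, q1]) (by
        rw [map_sub, Complex.sub_re, p3, Complex.ofReal_re]; linarith) _ _ _ (by linarith) u2
        (half_pos h6)
      refine ⟨u + w, add_sub_cancel p' p ▸ uni_add p1 r1 ?_ ?_ u1 w1, ?_⟩
      · rw [mul_sub, le_symm h1.2 p1.2 p2, p1.mul_self, sub_self]
      · rw [sub_mul, p2, p1.mul_self, sub_self]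
      · rwa [add_assoc, add_assoc, add_halves] at w2
  obtain ⟨m, hm⟩ := pow_unbounded_of_one_lt ((vec Ω q).re / (δ / 2) ^ 2) (one_lt_two (α := ℝ))
  obtain ⟨u, u1, u2⟩ := key m q hq hq.mul_self ((div_le_iff₀ (by positivity)).1 hm.le) 0 _ _ le_rfl
    (fun c _ d _ => by rw [inner_zero_right, norm_zero]; positivity) (half_pos hδ)
  rw [zero_add, add_halves] at u2
  exact h0 u u1 u2

end Pool.Agent.MP_ad85d3_an

end
end MrgPart2

-- ======== part 3: formerly Pool.Agent.MP_ad85d3_an.Int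
section MrgPart3

/-!
# PROJECT UPF, module INT: from a finite trace intertwiner to an intertwining isometry
-/

open Filter Topology
open scoped ComplexOrder InnerProductSpace ComplexConjugate

noncomputable section

namespace Pool.Agent.MP_ad85d3_an

universe u

namespace Int

variable {H : Type u} [NormedAddCommGroup H] [InnerProductSpace ℂ H] [CompleteSpace H]

theorem re_sq {T : Op H} (hT : IsSelfAdjoint T) (ξ : H) : (⟪ξ, (T * T) ξ⟫_ℂ).re = ‖T ξ‖ ^ 2 := by
  have := norm_orb_sq ξ T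
  rw [hT.star_eq, vec_apply] at this
  exact this.symm

omit [CompleteSpace H] in
theorem re_nonneg {x : Op H} (hx : 0 ≤ x) (ξ : H) : 0 ≤ (⟪ξ, x ξ⟫_ℂ).re :=
  ((ContinuousLinearMap.nonneg_iff_isPositive x).1 hx).re_inner_nonneg_right ξ

/-- a spectral projection on which `T` is bounded below -/
theorem spec (hA : GenA H) {q T : Op H} (hq : IsStarProjection q) (h0 : T ≠ 0)
    (hT : IsSelfAdjoint T) (hqT : q * T = T) : ∃ (ε : ℝ) (e : Op H), 0 < ε ∧
      IsStarProjection e ∧ e ≠ 0 ∧ q * e = e ∧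
      (∀ a : Op H, a * T = T * a → a * q = q * a → a * e = e * a) ∧
      ∀ ζ, e ζ = ζ → ε * ‖ζ‖ ^ 2 ≤ ‖T ζ‖ ^ 2 := by
  have hn : 0 < ‖T‖ := norm_pos_iff.2 h0
  obtain ⟨ε, hε⟩ : ∃ ε : ℝ, ε = (‖T‖ / 2) ^ 2 := ⟨_, rfl⟩
  have hp : 0 < ε := hε ▸ by positivity
  obtain ⟨y, hy⟩ : ∃ y : Op H, y = T * T - (ε : ℂ) • q := ⟨_, rfl⟩
  have qq := hq.isIdempotentElem.eq
  have form : ∀ ξ, (⟪ξ, y ξ⟫_ℂ).re = ‖T ξ‖ ^ 2 - ε * ‖q ξ‖ ^ 2 := fun ξ => by
    have h1 := re_sq hq.isSelfAdjoint ξ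
    rw [qq] at h1
    rw [hy, sub_apply, inner_sub_right, Complex.sub_re, re_sq hT,
      smul_apply, inner_smul_right, Complex.re_ofReal_mul, h1]
  obtain ⟨e, e1, e2, e3, e4, e5⟩ := hA.cut y (by
    rw [IsSelfAdjoint, hy, star_sub, star_mul, hT.star_eq, star_smul, hq.isSelfAdjoint.star_eq,
      Complex.star_def, Complex.conj_ofReal])
  have qe : q * e = e := by
    have := e5 (1 - q) (by
      rw [hy, mul_sub, ← mul_assoc, sub_mul, one_mul, hqT, sub_self, zero_mul, mul_smul_comm,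
        sub_mul, one_mul, qq, sub_self, smul_zero, sub_zero])
    rw [sub_mul, one_mul, sub_eq_zero] at this
    exact this.symm
  refine ⟨ε, e, hp, e1, fun h => ?_, qe, fun a h1 h2 => e2 a ?_, fun ζ h => ?_⟩
  · rw [h, sub_zero, one_mul, ← neg_nonneg] at e4
    have : ‖T‖ ≤ ‖T‖ / 2 := ContinuousLinearMap.opNorm_le_bound _ (by positivity) fun ξ => by
      have h1 := re_nonneg e4 ξ
      rw [neg_apply, inner_neg_right, Complex.neg_re, form] at h1
      have h2 : ‖q ξ‖ ≤ ‖ξ‖ := (q.le_opNorm ξ).trans (by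
        have := hq.norm_le
        nlinarith [norm_nonneg ξ])
      have h3 : ‖q ξ‖ ^ 2 ≤ ‖ξ‖ ^ 2 := by gcongr
      refine abs_le_of_sq_le_sq' ?_ (by positivity) |>.2
      rw [mul_pow, ← hε]
      nlinarith
    linarith
  · rw [hy, mul_sub, sub_mul, mul_smul_comm, smul_mul_assoc, h2, ← mul_assoc, h1, mul_assoc, h1,
      mul_assoc]
  · have h1 := re_nonneg e3 ζ
    have h2 : q ζ = ζ := by rw [← h, ← mul_ap, qe]
    rw [mul_ap, ← e1.isSelfAdjoint.star_eq, ContinuousLinearMap.star_eq_adjoint,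
      ContinuousLinearMap.adjoint_inner_right, h, form, h2] at h1
    linarith

/-- `n` orthogonal nonzero projections below `q` -/
theorem parts {A : VonNeumannAlgebra H} {τ : Op H →ₗ[ℂ] ℂ} (h : IsTr A τ) (hT : TrA A τ)
    (hF : Fac A) (hD : Dif A 1) {q : Op H} (hq : Pj A q) (h0 : q ≠ 0) (n : ℕ) (hn : 0 < n) :
    ∃ p : Fin n → Op H, (∀ i, Pj A (p i) ∧ p i ≠ 0 ∧ q * p i = p i) ∧
      ∀ i j, i ≠ j → p i * p j = 0 := by
  have h1 := h.proj_pos hq h0
  have hn' : (1 : ℝ) ≤ n := by exact_mod_cast hn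
  obtain ⟨c, c1, -, c3⟩ := hT.exact q hq (hD.mono (one_mul q)) ((τ q).re / n) (by positivity)
    (div_le_self h1.le hn')
  obtain ⟨w, w1, w2, w3, w4⟩ := hT.units hF n c q c1 hq (by
    rw [c3, (h.proj_re hq).1, Complex.ofReal_re]
    have : (n : ℂ) ≠ 0 := by exact_mod_cast hn.ne'
    push_cast
    field_simp)
  have hp : ∀ i, IsStarProjection (star (w i) * w i) := fun i => w2 i ▸ c1.2
  refine ⟨fun i => w i * star (w i), fun i => ⟨⟨mul_mem (w1 i) (star_mem (w1 i)), pi_proj (hp i)⟩,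
    fun e : w i * star (w i) = 0 => ?_, ?_⟩, fun i j hij => ?_⟩
  · have e1 : w i = 0 := by rw [← pi_mul (hp i), ← mul_assoc, e, zero_mul]
    have e2 := w2 i
    rw [e1, mul_zero] at e2
    rw [← e2, map_zero] at c3
    have : (τ q).re / n = 0 := by exact_mod_cast c3.symm
    have : 0 < (τ q).re / n := by positivity
    linarith
  · rw [← mul_assoc, ← w4, Finset.sum_mul, Finset.sum_eq_single i, mul_assoc (w i), pi_mul (hp i)]
    · intro j _ hj
      rw [mul_assoc, w3 j i hj, mul_zero]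
    · simp
  · beta_reduce
    rw [mul_assoc, ← mul_assoc (star _), w3 i j hij, zero_mul, mul_zero]

section std

variable {Ω : H} {J : H ≃ₗᵢ⋆[ℂ] H} {P A B : VonNeumannAlgebra H}

theorem mem_bas (h : Std Ω J P) {x : Op H} :
    x ∈ bas J B ↔ ∀ b ∈ B, kap J b * x = x * kap J b := by
  rw [bas, mem_vn]
  refine ⟨fun hx b hb => (hx _ ⟨b, hb, rfl⟩).1, ?_⟩
  rintro hx _ ⟨b, hb, rfl⟩
  exact ⟨hx b hb, by rw [← h.kap_star]; exact hx _ (star_mem hb)⟩

/-- the last two steps -/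
theorem emb (hA : GenA H) (hS : StdF Ω J P) (hG : GraphStmt.{u}) (h : Std Ω J P) (hAP : A ≤ P)
    (hBP : B ≤ P) {p f V : Op H} (hp : Pj A p) (hf : IsStarProjection f) (f0 : f ≠ 0)
    (pf : p * f = f) (hx : ∀ x ∈ A, p * x * p = x → x * f = f * x) (hV : V ∈ bas J B)
    (v1 : V * star V = f) (v2 : V * eP B Ω = V) : Emb P A B := by
  have fV : f * V = V := v1 ▸ pi_mul' (v1 ▸ hf)
  have kV := (mem_bas h).1 hV
  have act : ∀ b ∈ B, V (star b Ω) = kap J b (V Ω) := fun b hb => by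
    rw [← h.kap_one_orb (hBP hb), ← mul_ap, ← kV b hb, mul_ap]
  have x0 : V Ω ≠ 0 := fun e => f0 (by
    have : V * eP B Ω = 0 := mul_eP_eq_zero fun d hd => by
      rw [← star_star d, act _ (star_mem hd), e, map_zero]
    rw [← v1, ← v2, this, zero_mul])
  have v3 : eP B Ω * star V = star V := by
    have := congrArg star v2
    rwa [star_mul, (eP_proj _ _).isSelfAdjoint.star_eq] at this
  have pull : ∀ x : Op H, x * f = f * x → x (V Ω) = V ((star V * x * V) Ω) := fun x e => by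
    rw [← mul_ap, ← mul_ap V, ← mul_assoc, ← mul_assoc, v1, ← e, mul_assoc, fV]
  obtain ⟨y, y1, y2, y3⟩ := hG H Ω J P h _ x0
  have main : ∀ x ∈ A, p * x * p = x → ∃ b ∈ B, x * y = y * b ∧ star x * y = y * star b := by
    intro x h1 h2
    have r1 : star V * x * V * eP B Ω = eP B Ω * (star V * x * V) := by
      rw [mul_assoc, v2, ← mul_assoc, ← mul_assoc, v3]
    have r2 := (mem_bas h).1 (mul_mem (mul_mem (star_mem hV)
      ((mem_bas h).2 fun b hb => h.kap_comm (hBP hb) (hAP h1))) hV)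
    obtain ⟨b, b1, b2⟩ := hS.exp B hBP _ r1 r2
    have r3 := h.adj (D := B) (fun d hd => hBP hd) r1 r2
    rw [← b2, h.J_orb b (hBP b1), star_mul, star_mul, star_star, ← mul_assoc] at r3
    have xf := hx x h1 h2
    have xf' : star x * f = f * star x := by
      have := congrArg star xf
      rw [star_mul, star_mul, hf.isSelfAdjoint.star_eq] at this
      exact this.symm
    refine ⟨b, b1, y3 x (hAP h1) b (hBP b1) ?_ ?_⟩
    · rw [pull x xf, ← b2, ← act _ (star_mem b1), star_star]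
    · rw [pull _ xf', ← r3, act b b1]
  have py : p * y = y := by
    have e : p (V Ω) = V Ω := by rw [← mul_ap, ← fV, ← mul_assoc, pf]
    have := (y3 p (hAP hp.1) 1 (one_mem P) (by rw [star_one, h.kap_one, e]; rfl)
      (by rw [hp.star_eq, h.kap_one, e]; rfl)).1
    rwa [mul_one] at this
  obtain ⟨v, a1, a2, a3, -, a5⟩ := hA.polar y
  refine ⟨p, v, hp, mem_of_comm fun a ha => a5 a a (ha y y1).symm (comm_star ha y y1).symm,
    fun e => y2 (by rw [← a2, e, zero_mul, zero_mul]), a1, ?_, fun x h1 h2 => ?_⟩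
  · have := a3 (1 - p) (by rw [sub_mul, one_mul, py, sub_self])
    rw [sub_mul, one_mul, sub_eq_zero] at this
    exact this.symm
  · obtain ⟨b, b1, b2, b3⟩ := main x h1 h2
    exact ⟨b, b1, a5 x b b2 b3, a5 _ _ b3 (by rwa [star_star, star_star])⟩

end std

end Int

open _root_.Pool.Agent.MP_ad85d3_an.Int in
theorem int_stmt (hA : GenAStmt.{u}) (hB : GenBStmt.{u}) (hT : TrAStmt.{u}) (hS : StdStmt.{u})
    (hG : GraphStmt.{u}) : IntStmt.{u} := by
  intro H _ _ _ Ω J P A B h hAP hBP fA dA fB q T hq T0 sT qT hu ⟨hTb, C, hC⟩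
  have gA := hA H
  have sF := hS H Ω J P h
  have tr := h.isTr.mono hAP
  have q0 : q ≠ 0 := fun e => T0 (by rw [← qT, e, zero_mul])
  obtain ⟨ε, e, e0, e1, e2, e3, e4, e5⟩ := spec gA hq.2 T0 sT qT
  have ex : ∀ x ∈ A, q * x * q = x → x * e = e * x := fun x h1 h2 =>
    e4 x (gA.units A q T hq hu x h1 h2) (by
      rw [← h2, mul_assoc, hq.mul_self, ← mul_assoc, ← mul_assoc, hq.mul_self])
  have eb : e ∈ bas J B := (mem_bas h).2 fun b hb =>
    e4 _ ((mem_bas h).1 hTb b hb) (h.kap_comm (hBP hb) (hAP hq.1))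
  obtain ⟨n, hn⟩ := exists_nat_gt (max (C / ε) 0)
  have n0 : 0 < n := by exact_mod_cast (le_max_right _ _).trans_lt hn
  have nC : C < n * ε := (div_lt_iff₀ e0).1 ((le_max_left _ _).trans_lt hn)
  obtain ⟨p, p1, p2⟩ := parts tr (hT H A _ tr) fA dA hq q0 n n0
  have pq : ∀ i, p i * q = p i := fun i => le_symm hq.2 (p1 i).1.2 (p1 i).2.2
  have cp : ∀ i, ∀ x, p i * x * p i = x → q * x * q = x := fun i x e => by
    rw [← e, ← mul_assoc, ← mul_assoc, (p1 i).2.2, mul_assoc _ _ q, pq]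
  have pe : ∀ i, p i * e = e * p i := fun i => ex _ (p1 i).1.1 (by rw [(p1 i).2.2, pq])
  have pE : Pj (bas J B) e := ⟨eb, e1⟩
  have fP : ∀ i, Pj (bas J B) (e * p i) := fun i => pE.mul
    ⟨(mem_bas h).2 fun b hb => h.kap_comm (hBP hb) (hAP (p1 i).1.1), (p1 i).1.2⟩ (pe i).symm
  have f0 : ∀ i, e * p i ≠ 0 := fun i hc => e2 (gA.fac A fA _ (p1 i).1.1 (p1 i).2.1 e fun m hm => by
    have := ex (q * m * q) (mul_mem (mul_mem hq.1 hm) hq.1) (by
      rw [← mul_assoc, ← mul_assoc, hq.mul_self, mul_assoc, hq.mul_self])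
    calc e * m * p i = e * (q * m * q) * p i := by
          rw [← mul_assoc, ← mul_assoc, le_symm hq.2 e1 e3, mul_assoc _ q, (p1 i).2.2]
      _ = 0 := by rw [← this, mul_assoc, hc, mul_zero])
  have eB : Pj (bas J B) (eP B Ω) :=
    ⟨(mem_bas h).2 fun b hb => h.eP_comm_kap (D := B) (fun d hd => hBP hd) hb, eP_proj _ _⟩
  have cmp := fun i => (hB H).cmp _ _ _ eB (fP i) (gA.conn (sF.basFac B fB) _ _)
  by_cases hc : ∀ i, ∃ W ∈ bas J B, star W * W = eP B Ω ∧ e * p i * W = W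
  · exfalso
    choose W w1 w2 w3 using hc
    have h1 := hC n W w1 fun i j => by
      split_ifs with hij
      · rw [← hij, w2]
      · have a := congrArg star (w3 i)
        rw [star_mul, (fP i).star_eq] at a
        have b : e * p i * (e * p j) = 0 := by
          rw [mul_assoc, ← mul_assoc (p i), pe, mul_assoc, p2 i j hij, mul_zero, mul_zero]
        rw [← a, ← w3 j, mul_assoc, ← mul_assoc (e * p i), b, zero_mul, mul_zero]
    have h2 : ∀ i, ε ≤ ‖T (W i Ω)‖ ^ 2 := fun i => by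
      have a := e5 (W i Ω) (by
        rw [← mul_ap, ← w3 i, ← mul_assoc, ← mul_assoc, pE.mul_self])
      have b : eP B Ω Ω = Ω := eP_apply (d := 1) (one_mem B)
      rw [norm_orb_sq, w2, vec_apply, b, inner_self_eq_norm_sq_to_K, h.unit] at a
      simpa using a
    have h3 := Finset.sum_le_sum (s := Finset.univ) fun i _ => h2 i
    rw [Finset.sum_const, Finset.card_univ, Fintype.card_fin, nsmul_eq_mul] at h3
    linarith
  · obtain ⟨i, hi⟩ := not_forall.1 hc
    obtain ⟨V, v1, v2 | v2⟩ := cmp i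
    · exact absurd ⟨V, v1, v2⟩ hi
    refine emb gA sF hG h hAP hBP (p1 i).1 (fP i).2 (f0 i) ?_ (fun x h1 h2 => ?_) v1 v2.1 v2.2
    · rw [← mul_assoc, pe, mul_assoc, (p1 i).1.mul_self]
    · have a : x * p i = x := by rw [← h2, mul_assoc, (p1 i).1.mul_self]
      have b : p i * x = x := by rw [← h2, ← mul_assoc, ← mul_assoc, (p1 i).1.mul_self]
      rw [← mul_assoc, ex x h1 (cp i x h2), mul_assoc, a, mul_assoc, b]

end Pool.Agent.MP_ad85d3_an

end
end MrgPart3

-- ======== part 4: formerly Pool.Agent.MP_ad85d3_an.Prime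
section MrgPart4

/-!
# PROJECT UPF, module PRIME: the relative commutant has a minimal projection
-/

open Filter Topology
open scoped ComplexOrder InnerProductSpace ComplexConjugate

noncomputable section

namespace Pool.Agent.MP_ad85d3_an

universe u

namespace Prime

variable {H : Type u} [NormedAddCommGroup H] [InnerProductSpace ℂ H] [CompleteSpace H]

set_option linter.unusedSectionVars false

/-- orthogonal sequences of constant norm are weakly null -/
theorem weak_null (f : ℕ → H) (r : ℝ) (hr : ∀ n, ‖f n‖ = r)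
    (ho : ∀ m n, m ≠ n → ⟪f m, f n⟫_ℂ = 0) (ξ : H) :
    Tendsto (fun n => ⟪ξ, f n⟫_ℂ) atTop (𝓝 0) := by
  by_cases h0 : r = 0
  · have : ∀ n, f n = 0 := fun n => norm_eq_zero.1 ((hr n).trans h0)
    simp [this]
  have hr0 : (r : ℂ) ≠ 0 := Complex.ofReal_ne_zero.2 h0
  have hrn : 0 ≤ r := (hr 0) ▸ norm_nonneg _
  have hon : Orthonormal ℂ fun n => (r : ℂ)⁻¹ • f n := by
    refine ⟨fun n => ?_, fun m n hmn => ?_⟩
    · rw [norm_smul, norm_inv, hr, Complex.norm_real, Real.norm_of_nonneg hrn, inv_mul_cancel₀ h0]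
    · simp only [inner_smul_left, inner_smul_right, ho m n hmn, mul_zero]
  have h1 := (hon.inner_products_summable (x := ξ)).tendsto_atTop_zero
  have h2 : Tendsto (fun n => ‖⟪(r : ℂ)⁻¹ • f n, ξ⟫_ℂ‖) atTop (𝓝 0) := by
    have := h1.sqrt
    simpa only [Real.sqrt_zero, Real.sqrt_sq (norm_nonneg _)] using this
  rw [tendsto_zero_iff_norm_tendsto_zero]
  have h3 := h2.const_mul r
  rw [mul_zero] at h3
  refine h3.congr fun n => ?_
  rw [inner_smul_left, norm_mul, RCLike.norm_conj, norm_inv, Complex.norm_real,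
    Real.norm_of_nonneg hrn, ← mul_assoc, mul_inv_cancel₀ h0, one_mul, norm_inner_symm]

theorem uni_null {Ω : H} {M : VonNeumannAlgebra H} {q : Op H} (g : ℕ → Op H)
    (hg : ∀ n, Uni M q (g n)) (ho : ∀ m n, m ≠ n → vec Ω (star (g m) * g n) = 0) (ξ : H) :
    Tendsto (fun n => ⟪ξ, g n Ω⟫_ℂ) atTop (𝓝 0) := by
  refine weak_null (fun n => g n Ω) (Real.sqrt (vec Ω q).re) (fun n => ?_)
    (fun m n h => by rw [← vec_star_mul]; exact ho m n h) ξ
  rw [← (hg n).2.1, ← norm_orb_sq, Real.sqrt_sq (norm_nonneg _)]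

section ring

variable {R : Type*} [Ring R] [StarRing R]

/-- the product of two commuting unitaries of corners -/
theorem prod_uni {g h z b : R} (hgh : g * h = h * g) (hzh : z * h = h * z) (hbg : b * g = g * b)
    (hzb : z * b = b * z)
    (g1 : star g * g = z) (g2 : g * star g = z) (h1 : star h * h = b) (h2 : h * star h = b)
    (zg : z * g = g) (gz : g * z = g) (bh : b * h = h) (hb : h * b = h) :
    star (g * h) * (z * b) * (g * h) = z * b ∧ (g * h) * (z * b) * star (g * h) = z * b := by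
  have e1 : z * b * (g * h) = g * h := by
    rw [mul_assoc, ← mul_assoc b, hbg, mul_assoc, bh, ← mul_assoc, zg]
  have e2 : g * h * (z * b) = g * h := by
    rw [hzb, ← mul_assoc, mul_assoc g h b, hb, hgh, mul_assoc, gz]
  constructor
  · rw [mul_assoc, e1, star_mul, mul_assoc, ← mul_assoc (star g), g1, hzh, ← mul_assoc, h1, hzb]
  · rw [e2, star_mul, mul_assoc, ← mul_assoc h, h2, ← mul_assoc, ← hbg, mul_assoc, g2, hzb]

theorem conj_uni {s t e m : R} (s1 : star s * s = e) (s2 : s * star s = m) (mm : m * m = m)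
    (t1 : star t * e * t = e) (t2 : t * e * star t = e) :
    star (s * t * star s) * (s * t * star s) = m ∧ (s * t * star s) * star (s * t * star s) = m := by
  have k : s * e * star s = m := by
    rw [← s1, ← mul_assoc, s2, mul_assoc, s2, mm]
  constructor
  · calc star (s * t * star s) * (s * t * star s) = s * (star t * (star s * s) * t) * star s := by
          simp only [star_mul, star_star, mul_assoc]
      _ = m := by rw [s1, t1, k]
  · calc (s * t * star s) * star (s * t * star s) = s * (t * (star s * s) * star t) * star s := by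
          simp only [star_mul, star_star, mul_assoc]
      _ = m := by rw [s1, t2, k]

/-- transport of a unitary of the corner `m` along `v` -/
theorem trans_uni {v y e m p u w : R} (v1 : star v * v = e) (ey : e * y = y) (ye : y * e = y)
    (y1 : star y * y = m) (y2 : y * star y = m) (hm : v * m * star v = w)
    (hu : v * y * star v = p * u) (pp : p * p = p) (ps : star p = p) (pu : p * u = u * p)
    (pu' : p * star u = star u * p) :
    p * (star u * u) = w ∧ p * (u * star u) = w := by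
  constructor
  · calc p * (star u * u) = star (p * u) * (p * u) := by
          rw [star_mul, ps, mul_assoc, ← mul_assoc p p, pp, ← mul_assoc, ← mul_assoc, pu']
      _ = v * (star y * ((star v * v) * y)) * star v := by
          rw [← hu]; simp only [star_mul, star_star, mul_assoc]
      _ = w := by rw [v1, ey, y1, hm]
  · calc p * (u * star u) = (p * u) * star (p * u) := by
          rw [star_mul, ps, ← pu', mul_assoc, ← mul_assoc u, ← pu, mul_assoc p u, ← mul_assoc p p,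
            pp]
      _ = v * ((y * (star v * v)) * star y) * star v := by
          rw [← hu]; simp only [star_mul, star_star, mul_assoc]
      _ = w := by rw [v1, ye, y2, hm]

theorem m_idem {v q p a : R} (hv : v * star v = p * a) (vp : star v * p = star v)
    (pq : q * p = p * q) (aq : a * q = q) (qq : q * q = q) :
    (star v * q * v) * (star v * q * v) = star v * q * v := by
  calc (star v * q * v) * (star v * q * v) = star v * (q * (v * star v) * q) * v := by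
        simp only [mul_assoc]
    _ = star v * (p * q) * v := by
        rw [hv, ← mul_assoc q, pq, mul_assoc (p * q), aq, mul_assoc p, qq]
    _ = star v * q * v := by rw [← mul_assoc, vp]

theorem vmv {v q p a : R} (hv : v * star v = p * a) (pq : q * p = p * q)
    (aq : a * q = q) (qa : q * a = q) (pp : p * p = p) :
    v * (star v * q * v) * star v = p * q := by
  calc v * (star v * q * v) * star v = (v * star v) * q * (v * star v) := by
        simp only [mul_assoc]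
    _ = p * q := by
        rw [hv, mul_assoc p, aq, mul_assoc, ← mul_assoc q, pq, mul_assoc, qa, ← mul_assoc, pp]

end ring

end Prime

open _root_.Pool.Agent.MP_ad85d3_an.Prime in
theorem prime_stmt (hT : TrAStmt.{u}) (hT' : TrBStmt.{u}) (hC : TcStmt.{u}) : PrimeStmt.{u} := by
  intro H _ _ _ Ω J P A₁ A₂ B₁ B₂ C D hS hA hB hF hD1 hD2 hR hCB hCD hBD hDP z b p v hz hb hp hv
    hv0 hvv hpv ha hb' hconn hdif
  have τP := hS.isTr
  have tA := hC H Ω J P A₁ A₂ hS hA
  have tB := hC H Ω J P B₁ B₂ hS hB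
  have tB' := hC H Ω J P B₂ B₁ hS hB.symm
  have hzb : z * b = b * z := hB.comm z (hCB hz.1) b hb.1
  have hzD : Pj D z := hz.mono hCD
  have hE : Pj D (z * b) := hzD.mul (hb.mono hBD) hzb
  have hvp : IsStarProjection (star v * v) := hvv ▸ hE.2
  have vvv : v * (star v * v) = v := pi_mul hvp
  have vvv' : star v * v * star v = star v := by
    have := congrArg star vvv
    rwa [star_mul, hvp.isSelfAdjoint.star_eq] at this
  have vp : star v * p = star v := by
    have := congrArg star hpv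
    rwa [star_mul, hp.star_eq] at this
  have hp0 : p ≠ 0 := fun h => hv0 (by rw [← hpv, h, zero_mul])
  have hz0 : z ≠ 0 := fun h => hv0 (by rw [← vvv, hvv, h, zero_mul, mul_zero])
  have inj : ∀ x ∈ A₂, ∀ y ∈ A₂, p * x = p * y → x = y := fun x hx y hy e =>
    sub_eq_zero.1 (tA.inj p hp.1 hp0 _ (sub_mem hx hy) (by rw [mul_sub, e, sub_self]))
  -- step 1
  obtain ⟨a, haA, hva⟩ := ha 1 (one_mem D)
  rw [mul_one] at hva
  have hvq : IsStarProjection (v * star v) := pi_proj hvp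
  have pa : p * a = a * p := hA.comm p hp.1 a haA
  have hap : Pj A₂ a := by
    refine ⟨haA, ?_, ?_⟩
    · refine inj _ (mul_mem haA haA) _ haA ?_
      have := hvq.isIdempotentElem.eq
      rwa [hva, mul_assoc, ← mul_assoc a, ← pa, mul_assoc, ← mul_assoc, hp.mul_self] at this
    · refine inj _ (star_mem haA) _ haA ?_
      have := hvq.isSelfAdjoint.star_eq
      rwa [hva, star_mul, hp.star_eq, ← hA.comm p hp.1 _ (star_mem haA)] at this
  have ha0 : a ≠ 0 := fun h => hv0 (by rw [← vvv, ← mul_assoc, hva, h, mul_zero, zero_mul])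
  -- step 2
  obtain ⟨q, hq, aq, F, η, hFP, hη, hno⟩ := hR a hap ha0
  have qa : q * a = q := le_symm hap.2 hq.2 aq
  have pq : q * p = p * q := (hA.comm p hp.1 q hq.1).symm
  -- step 3
  set m := star v * q * v with hm
  have hmD : Pj D m := by
    refine ⟨hb' q hq.1, m_idem hva vp pq aq hq.mul_self, ?_⟩
    rw [IsSelfAdjoint, hm, star_mul, star_mul, star_star, hq.star_eq, mul_assoc]
  have Em : z * b * m = m := by rw [← hvv, hm, ← mul_assoc, ← mul_assoc, vvv']
  have zm : z * m = m := by rw [← Em, ← mul_assoc z, ← mul_assoc z, hz.mul_self]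
  have τD := τP.mono hDP
  have zpos := τD.proj_pos hzD hz0
  have mle := τD.proj_mono hzD hmD zm
  have TB2 := hT H B₂ _ (τP.mono hB.le₂)
  obtain ⟨b2, hb2, -, hτb⟩ := TB2.exact 1 (Pj.one _) hD2 ((vec Ω m).re / (vec Ω z).re)
    (div_nonneg (τD.proj_re hmD).2 zpos.le) (by
      rw [τP.one, Complex.one_re]; exact (div_le_one zpos).2 mle)
  have hzb2 : z * b2 = b2 * z := hB.comm z (hCB hz.1) b2 hb2.1
  have hE2 : Pj D (z * b2) := hzD.mul (hb2.mono hBD) hzb2
  have hτE : (vec Ω (z * b2)).re = (vec Ω m).re := by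
    rw [hB.indep z (hCB hz.1) b2 hb2.1, hτb, (τD.proj_re hzD).1, ← Complex.ofReal_mul,
      Complex.ofReal_re, Complex.ofReal_re, mul_div_cancel₀ _ zpos.ne']
  obtain ⟨s, hsD, s1, ms, s2⟩ := (hT H D _ τD).le (z * b2) m hE2 hmD
    (fun p' q' h1 h2 e1 e2 => hconn p' q' h1 h2
      (by rw [← e1, ← mul_assoc, ← mul_assoc, hz.mul_self]) (by rw [← e2, ← mul_assoc, zm]))
    hτE.le
  replace s2 := s2 hτE
  have sm : star s * m = star s := by
    have := congrArg star ms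
    rwa [star_mul, hmD.star_eq] at this
  -- step 4
  obtain ⟨g, hg, og⟩ := (hT' H C _ (τP.mono (hCB.trans hB.le₁))).orth z hz hdif
  obtain ⟨h, hh, oh⟩ := (hT' H B₂ _ (τP.mono hB.le₂)).orth b2 hb2 (hD2.mono (one_mul b2))
  have gh : ∀ n, g n * h n = h n * g n := fun n => hB.comm _ (hCB (hg n).1) _ (hh n).1
  -- step 5
  have key : ∀ n, ∃ u, Uni A₂ q u ∧ v * (s * (g n * h n) * star s) * star v = p * u := by
    intro n
    have hy : s * (g n * h n) * star s ∈ D :=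
      mul_mem (mul_mem hsD (mul_mem (hCD (hg n).1) (hBD (hh n).1))) (star_mem hsD)
    obtain ⟨u, hu, e⟩ := ha _ hy
    obtain ⟨t1, t2⟩ := prod_uni (gh n) (hB.comm z (hCB hz.1) _ (hh n).1)
      (hB.comm _ (hCB (hg n).1) _ hb2.1).symm hzb2 (hg n).2.1 (hg n).2.2 (hh n).2.1 (hh n).2.2
      ((hg n).left hz.2) ((hg n).right hz.2) ((hh n).left hb2.2) ((hh n).right hb2.2)
    obtain ⟨y1, y2⟩ := conj_uni s1 s2 hmD.mul_self t1 t2
    have mE : m * (z * b) = m := le_symm hE.2 hmD.2 Em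
    have ey : z * b * (s * (g n * h n) * star s) = s * (g n * h n) * star s := by
      rw [← ms, mul_assoc (m * s), mul_assoc m, ← mul_assoc (z * b), Em]
    have ye : s * (g n * h n) * star s * (z * b) = s * (g n * h n) * star s := by
      rw [← sm, ← mul_assoc _ (star s) m, mul_assoc _ m, mE]
    obtain ⟨u1, u2⟩ := trans_uni hvv ey ye y1 y2
      (vmv hva pq aq qa hp.mul_self) e hp.mul_self hp.star_eq (hA.comm p hp.1 u hu)
      (hA.comm p hp.1 _ (star_mem hu))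
    exact ⟨u, ⟨hu, inj _ (mul_mem (star_mem hu) hu) _ hq.1 u1,
      inj _ (mul_mem hu (star_mem hu)) _ hq.1 u2⟩, e⟩
  choose u hu eu using key
  -- step 6
  have τA := τP.mono hA.le₁
  have TA1 := hT H A₁ _ τA
  have ppos := τA.proj_pos hp hp0
  obtain ⟨n0, hn0⟩ := exists_nat_one_div_lt ppos
  obtain ⟨c, hc, pc, hτc⟩ := TA1.exact p hp (hD1.mono (one_mul p)) (1 / ((n0 : ℝ) + 1))
    (by positivity) hn0.le
  obtain ⟨w, hw, w1, -, w2⟩ := TA1.units hF (n0 + 1) c 1 hc (Pj.one _) (by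
    rw [hτc, τP.one]
    have : ((n0 : ℂ) + 1) ≠ 0 := by exact_mod_cast Nat.succ_ne_zero n0
    push_cast
    field_simp)
  have wp : ∀ k, w k * p = w k := fun k => by
    have e : w k * c = w k := by rw [← w1 k]; exact pi_mul ((w1 k).symm ▸ hc.2)
    rw [← e, mul_assoc, le_symm hp.2 hc.2 pc]
  have dec : ∀ y n, star y * u n =
      ∑ k, (star y * w k * v * s) * (g n * h n) * (star s * star v * star (w k)) := by
    intro y n
    calc star y * u n = star y * ((∑ k, w k * star (w k)) * u n) := by rw [w2, one_mul]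
      _ = _ := by
        rw [Finset.sum_mul, Finset.mul_sum]
        refine Finset.sum_congr rfl fun k _ => ?_
        calc star y * (w k * star (w k) * u n) = star y * (w k * (p * u n) * star (w k)) := by
              rw [← mul_assoc (w k), wp, mul_assoc (w k), mul_assoc (w k),
                hA.comm _ (star_mem (hw k)) _ (hu n).1]
          _ = _ := by rw [← eu n]; simp only [mul_assoc]
  -- step 7
  have gn : ∀ n, g n ∈ B₁ ∧ ‖g n‖ ≤ 1 := fun n => ⟨hCB (hg n).1, (hg n).norm_le hz.2⟩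
  have hn : ∀ n, h n ∈ B₂ ∧ ‖h n‖ ≤ 1 := fun n => ⟨(hh n).1, (hh n).norm_le hb2.2⟩
  have m1 : ∀ y ∈ P, ∀ k, star y * w k * v * s ∈ P := fun y hy k =>
    mul_mem (mul_mem (mul_mem (star_mem hy) (hA.le₁ (hw k))) hv) (hDP hsD)
  have m2 : ∀ k, star s * star v * star (w k) ∈ P := fun k =>
    mul_mem (mul_mem (star_mem (hDP hsD)) (star_mem hv)) (star_mem (hA.le₁ (hw k)))
  have lim1 : ∀ y ∈ P, Tendsto (fun n => eP B₁ Ω ((star y * u n) Ω)) atTop (𝓝 0) := by
    intro y hy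
    have := tendsto_finsetSum (Finset.univ : Finset (Fin (n0 + 1))) fun k _ =>
      tB.mix g h gn hn (uni_null h hh oh) _ (m1 y hy k) _ (m2 k)
    rw [Finset.sum_const_zero] at this
    refine this.congr fun n => ?_
    rw [dec, sum_apply, map_sum]
  have lim2 : ∀ y ∈ P, Tendsto (fun n => eP B₂ Ω ((star y * u n) Ω)) atTop (𝓝 0) := by
    intro y hy
    have := tendsto_finsetSum (Finset.univ : Finset (Fin (n0 + 1))) fun k _ =>
      tB'.mix h g hn gn (uni_null g hg og) _ (m1 y hy k) _ (m2 k)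
    rw [Finset.sum_const_zero] at this
    refine this.congr fun n => ?_
    rw [dec, sum_apply, map_sum, gh]
  have ev : ∀ᶠ n in atTop, ∀ y ∈ F, ‖eP B₁ Ω ((star y * u n) Ω)‖ < η ∧
      ‖eP B₂ Ω ((star y * u n) Ω)‖ < η := by
    rw [Finset.eventually_all]
    intro y hy
    exact ((tendsto_zero_iff_norm_tendsto_zero.1 (lim1 y (hFP y hy))).eventually
      (gt_mem_nhds hη)).and
      ((tendsto_zero_iff_norm_tendsto_zero.1 (lim2 y (hFP y hy))).eventually (gt_mem_nhds hη))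
  obtain ⟨n, hn⟩ := ev.exists
  obtain ⟨y, hy, h1 | h1⟩ := hno (u n) (hu n)
  · exact absurd (hn y hy).1 (not_lt.2 h1)
  · exact absurd (hn y hy).2 (not_lt.2 h1)

end Pool.Agent.MP_ad85d3_an

end
end MrgPart4

-- ======== part 5: formerly Pool.Agent.MP_ad85d3_an.Amp
section MrgPart5

/-!
# PROJECT UPF, module AMP: links between corners and their amplification
-/

open Filter Topology
open scoped ComplexOrder InnerProductSpace ComplexConjugate

noncomputable section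

namespace Pool.Agent.MP_ad85d3_an

universe u

namespace Amp

set_option linter.unusedSectionVars false

/-! ## ring identities -/

section ring

variable {R : Type*} [Ring R] {ι : Type*} [Fintype ι] [DecidableEq ι]

theorem mat_mul (s t t' r : ι → R) (e : R) (h : ∀ i j, t i * t' j = if i = j then e else 0) :
    (∑ i, s i * t i) * (∑ j, t' j * r j) = ∑ i, s i * e * r i := by
  rw [Finset.sum_mul]
  refine Finset.sum_congr rfl fun i _ => ?_
  rw [Finset.mul_sum, Finset.sum_eq_single i]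
  · rw [mul_assoc, ← mul_assoc (t i), h, if_pos rfl, ← mul_assoc]
  · intro j _ hj
    rw [mul_assoc, ← mul_assoc (t i), h, if_neg (Ne.symm hj), zero_mul, mul_zero]
  · intro hi; exact absurd (Finset.mem_univ i) hi

theorem abs_l {v w p a : R} (h0 : v * w * v = v) (h : v * w = p * a) (hp : p * p = p) :
    p * v = v := by
  calc p * v = p * (v * w * v) := by rw [h0]
    _ = p * p * a * v := by rw [h]; simp only [mul_assoc]
    _ = v := by rw [hp, ← h, h0]

theorem abs_r {v w c b : R} (h0 : v * (w * v) = v) (h : w * v = c * b) (hb : b * b = b) :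
    v * b = v := by
  calc v * b = v * (w * v) * b := by rw [h0]
    _ = v * (c * (b * b)) := by rw [h]; simp only [mul_assoc]
    _ = v := by rw [hb, ← h, h0]

theorem cor_l {p x : R} (hp : p * p = p) (h : p * x * p = x) : p * x = x := by
  rw [← h, ← mul_assoc, ← mul_assoc, hp]

theorem cor_r {p x : R} (hp : p * p = p) (h : p * x * p = x) : x * p = x := by
  rw [← h, mul_assoc, hp]

end ring

variable {H : Type u} [NormedAddCommGroup H] [InnerProductSpace ℂ H] [CompleteSpace H]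
  {A B : VonNeumannAlgebra H} {v p c a b : Op H}

theorem cor_star {p x : Op H} (hp : star p = p) (h : p * x * p = x) :
    p * star x * p = star x := by
  have := congrArg star h
  rwa [star_mul, star_mul, hp, ← mul_assoc] at this

section link

variable (h : Link A B v p c a b)
include h

theorem proj_r : IsStarProjection (star v * v) := by
  rw [h.right]; exact h.cB.2.mul h.pb (h.cb c h.cB.1).symm

theorem vvv : v * (star v * v) = v := pi_mul (proj_r h)

theorem vvv' : v * star v * v = v := by rw [mul_assoc, vvv h]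

theorem pv : p * v = v := abs_l (vvv' h) h.left h.pA.mul_self

theorem av : a * v = v :=
  abs_l (vvv' h) (h.left.trans (h.ca p h.pA.1).symm) h.pa.isIdempotentElem.eq

theorem vb : v * b = v := abs_r (vvv h) h.right h.pb.isIdempotentElem.eq

theorem vc : v * c = v := abs_r (vvv h) (h.right.trans (h.cb c h.cB.1).symm) h.cB.mul_self

theorem inj_r {y : Op H} (hy : y ∈ B) (hc : c * y * c = y) (e : v * y = 0) : y = 0 := by
  refine h.ib y hy ?_
  have : star v * v * y = 0 := by rw [mul_assoc, e, mul_zero]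
  rwa [h.right, ← h.cb c h.cB.1, mul_assoc, cor_l h.cB.mul_self hc] at this

theorem inj_l {x : Op H} (hx : x ∈ A) (hc : p * x * p = x) (e : x * v = 0) : x = 0 := by
  refine h.ia x hx ?_
  have : x * (v * star v) = 0 := by rw [← mul_assoc, e, zero_mul]
  rwa [h.left, ← mul_assoc, cor_r h.pA.mul_self hc, ← h.ca x hx] at this

theorem uniq_r {y y' : Op H} (hy : y ∈ B) (hc : c * y * c = y) (hy' : y' ∈ B)
    (hc' : c * y' * c = y') (e : v * y = v * y') : y = y' :=
  sub_eq_zero.1 (inj_r h (sub_mem hy hy') (by rw [mul_sub, sub_mul, hc, hc'])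
    (by rw [mul_sub, e, sub_self]))

theorem uniq_l {x x' : Op H} (hx : x ∈ A) (hc : p * x * p = x) (hx' : x' ∈ A)
    (hc' : p * x' * p = x') (e : x * v = x' * v) : x = x' :=
  sub_eq_zero.1 (inj_l h (sub_mem hx hx') (by rw [mul_sub, sub_mul, hc, hc'])
    (by rw [sub_mul, e, sub_self]))

theorem star_rel {x y : Op H} (hx : x ∈ A) (hp : p * x * p = x) (hy : y ∈ B) (hc : c * y * c = y)
    (e : x * v = v * y) : star x * v = v * star y := by
  have e1 : star v * star x = star y * star v := by rw [← star_mul, e, star_mul]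
  have e2 : v * star v * (star x * v) = v * star y * (star v * v) := by
    rw [mul_assoc, ← mul_assoc (star v), e1]; simp only [mul_assoc]
  have e3 : p * star x = star x := cor_l h.pA.mul_self (cor_star h.pA.star_eq hp)
  have e4 : star y * c = star y := cor_r h.cB.mul_self (cor_star h.cB.star_eq hc)
  rw [h.left, h.right, mul_assoc p, ← mul_assoc a, h.ca _ (star_mem hx), mul_assoc, av h,
    ← mul_assoc, e3, mul_assoc v, ← mul_assoc (star y), e4, ← h.cb _ (star_mem hy), ← mul_assoc,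
    vb h] at e2
  exact e2

theorem symm : Link B A (star v) c p b a where
  pA := h.cB
  cB := h.pA
  pa := h.pb
  pb := h.pa
  left := by rw [star_star, h.right]
  right := by rw [star_star, h.left]
  ca := h.cb
  cb := h.ca
  ia := h.ib
  ib := h.ia
  fw y hy hc := by
    obtain ⟨x, hx, hp, e⟩ := h.bw y hy hc
    refine ⟨x, hx, hp, ?_⟩
    have := congrArg star (star_rel h hx hp hy hc e)
    rw [star_mul, star_mul, star_star, star_star] at this
    exact this.symm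
  bw x hx hp := by
    obtain ⟨y, hy, hc, e⟩ := h.fw x hx hp
    refine ⟨y, hy, hc, ?_⟩
    have := congrArg star (star_rel h hx hp hy hc e)
    rw [star_mul, star_mul, star_star, star_star] at this
    exact this.symm

theorem iso : Nonempty (cor A h.pA.2 ≃⋆ₐ[ℂ] cor B h.cB.2) := by
  have hf : ∀ x : cor A h.pA.2, ∃ y : cor B h.cB.2, (x : Op H) * v = v * y := fun x => by
    obtain ⟨y, hy, hc, e⟩ := h.fw x x.2.1 x.2.2
    exact ⟨⟨y, hy, hc⟩, e⟩
  have hg : ∀ y : cor B h.cB.2, ∃ x : cor A h.pA.2, (x : Op H) * v = v * y := fun y => by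
    obtain ⟨x, hx, hp, e⟩ := h.bw y y.2.1 y.2.2
    exact ⟨⟨x, hx, hp⟩, e⟩
  choose f hf using hf
  choose g hg using hg
  have ur : ∀ y y' : cor B h.cB.2, v * (y : Op H) = v * y' → y = y' := fun y y' e =>
    Subtype.ext (uniq_r h y.2.1 y.2.2 y'.2.1 y'.2.2 e)
  have ul : ∀ x x' : cor A h.pA.2, (x : Op H) * v = x' * v → x = x' := fun x x' e =>
    Subtype.ext (uniq_l h x.2.1 x.2.2 x'.2.1 x'.2.2 e)
  refine ⟨{ toFun := f
            invFun := g
            left_inv := fun x => ul _ _ (by rw [hg, hf])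
            right_inv := fun y => ur _ _ (by rw [← hf, hg])
            map_mul' := fun x y => ur _ _ ?_
            map_add' := fun x y => ur _ _ ?_
            map_star' := fun x => ur _ _ ?_
            map_smul' := fun r x => ur _ _ ?_ }⟩
  · change v * (f (x * y) : Op H) = v * ((f x : Op H) * f y)
    rw [← hf, ← mul_assoc, ← hf, mul_assoc, ← hf, ← mul_assoc]; rfl
  · change v * (f (x + y) : Op H) = v * ((f x : Op H) + f y)
    rw [← hf, mul_add, ← hf, ← hf, ← add_mul]; rfl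
  · change v * (f (star x) : Op H) = v * star (f x : Op H)
    rw [← hf, ← star_rel h x.2.1 x.2.2 (f x).2.1 (f x).2.2 (hf x)]; rfl
  · change v * (f (r • x) : Op H) = v * (r • (f x : Op H))
    rw [← hf, mul_smul_comm, ← hf, ← smul_mul_assoc]; rfl

/-- the image of a projection is a projection -/
theorem img {p₁ : Op H} (h₁ : Pj A p₁) (hp : p * p₁ = p₁) :
    ∃ c₁, Pj B c₁ ∧ c * c₁ = c₁ ∧ p₁ * v = v * c₁ := by
  have e0 : p * p₁ * p = p₁ := by rw [hp, le_symm h.pA.2 h₁.2 hp]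
  obtain ⟨y, hy, hc, e⟩ := h.fw p₁ h₁.1 e0
  have l := cor_l h.cB.mul_self hc
  have r := cor_r h.cB.mul_self hc
  refine ⟨y, ⟨hy, ?_, ?_⟩, l, e⟩
  · refine uniq_r h (mul_mem hy hy) ?_ hy hc ?_
    · rw [← mul_assoc, l, mul_assoc, r]
    · rw [← mul_assoc, ← e, mul_assoc, ← e, ← mul_assoc, h₁.mul_self]
  · refine uniq_r h (star_mem hy) (cor_star h.cB.star_eq hc) hy hc ?_
    rw [← star_rel h h₁.1 e0 hy hc e, h₁.star_eq, e]

end link

/-! ## matrix units -/

/-- `n` isometries from `c` whose ranges add up to `q` -/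
structure Units (M : VonNeumannAlgebra H) {n : ℕ} (c q : Op H) (w : Fin n → Op H) : Prop where
  pj : Pj M c
  mem : ∀ i, w i ∈ M
  orth : ∀ i j, star (w i) * w j = if i = j then c else 0
  sum : ∑ i, w i * star (w i) = q

namespace Units

variable {M : VonNeumannAlgebra H} {n : ℕ} {q : Op H} {w : Fin n → Op H} (h : Units M c q w)
include h

theorem right (i : Fin n) : w i * c = w i := by
  have e : star (w i) * w i = c := by rw [h.orth, if_pos rfl]
  have := pi_mul (v := w i) (e ▸ h.pj.2)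
  rwa [e] at this

theorem right' (i : Fin n) : c * star (w i) = star (w i) := by
  have := congrArg star (h.right i)
  rwa [star_mul, h.pj.star_eq] at this

theorem left (i : Fin n) : q * w i = w i := by
  rw [← h.sum, Finset.sum_mul, Finset.sum_eq_single i]
  · rw [mul_assoc, h.orth, if_pos rfl, h.right]
  · intro j _ hj
    rw [mul_assoc, h.orth, if_neg hj, mul_zero]
  · intro hi; exact absurd (Finset.mem_univ i) hi

theorem left' (i : Fin n) : star (w i) * q = star (w i) := by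
  rw [← h.sum, Finset.mul_sum, Finset.sum_eq_single i]
  · rw [← mul_assoc, h.orth, if_pos rfl, h.right']
  · intro j _ hj
    rw [← mul_assoc, h.orth, if_neg (Ne.symm hj), zero_mul]
  · intro hi; exact absurd (Finset.mem_univ i) hi

end Units

theorem units_of {M : VonNeumannAlgebra H} {τ : Op H →ₗ[ℂ] ℂ} (hT : TrA M τ) (hM : Fac M) {n : ℕ}
    {q : Op H} (hc : Pj M c) (hq : Pj M q) (e : n * τ c = τ q) :
    ∃ w : Fin n → Op H, Units M c q w := by
  obtain ⟨w, h1, h2, h3, h4⟩ := hT.units hM n c q hc hq e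
  refine ⟨w, hc, h1, fun i j => ?_, h4⟩
  split_ifs with hij
  · rw [hij, h2]
  · exact h3 i j hij

section half

variable {n : ℕ} {p₁ c₁ P Q : Op H} {s t : Fin n → Op H} (h : Link A B v p c a b)
  (hs : Units A p₁ P s) (ht : Units B c₁ Q t) (hp : p * p₁ = p₁) (e : p₁ * v = v * c₁)
include h hs ht hp e

theorem half_left :
    (∑ i, s i * v * star (t i)) * star (∑ i, s i * v * star (t i)) = P * a := by
  have e1 : star (∑ i, s i * v * star (t i)) = ∑ i, t i * (star v * star (s i)) := by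
    rw [star_sum]
    refine Finset.sum_congr rfl fun i _ => ?_
    rw [star_mul, star_mul, star_star]
  rw [e1, mat_mul _ _ _ _ c₁ ht.orth, ← hs.sum, Finset.sum_mul]
  refine Finset.sum_congr rfl fun i _ => ?_
  have e2 : s i * p = s i := by
    rw [← hs.right i, mul_assoc, le_symm h.pA.2 hs.pj.2 hp]
  rw [mul_assoc (s i) v, ← e, ← mul_assoc (s i), hs.right, mul_assoc, ← mul_assoc v, h.left,
    ← mul_assoc, ← mul_assoc, e2, mul_assoc, h.ca _ (star_mem (hs.mem i)), ← mul_assoc]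

theorem half_fw {x : Op H} (hx : x ∈ A) (hP : P * x * P = x) (hPP : P * P = P) :
    ∃ y ∈ B, Q * y * Q = y ∧
      x * (∑ i, s i * v * star (t i)) = (∑ i, s i * v * star (t i)) * y := by
  have e2 : ∀ i, s i * p = s i := fun i => by
    rw [← hs.right i, mul_assoc, le_symm h.pA.2 hs.pj.2 hp]
  have e3 : ∀ i, p * star (s i) = star (s i) := fun i => by
    rw [← hs.right' i, ← mul_assoc, hp]
  have hy : ∀ i j, ∃ y ∈ B, star (s i) * x * s j * v = v * y := fun i j => by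
    obtain ⟨y, hy, -, e⟩ := h.fw (star (s i) * x * s j)
      (mul_mem (mul_mem (star_mem (hs.mem i)) hx) (hs.mem j))
      (by rw [← mul_assoc, ← mul_assoc, e3, mul_assoc, e2])
    exact ⟨y, hy, e⟩
  choose y hy ey using hy
  refine ⟨∑ i, t i * ∑ j, y i j * star (t j), sum_mem fun i _ => mul_mem (ht.mem i)
    (sum_mem fun j _ => mul_mem (hy i j) (star_mem (ht.mem j))), ?_, ?_⟩
  · rw [Finset.mul_sum, Finset.sum_mul]
    refine Finset.sum_congr rfl fun i _ => ?_
    rw [← mul_assoc, ht.left, mul_assoc, Finset.sum_mul]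
    refine congrArg _ (Finset.sum_congr rfl fun j _ => ?_)
    rw [mul_assoc, ht.left']
  · rw [mat_mul _ _ _ _ c₁ ht.orth, ← cor_l hPP hP, ← hs.sum, Finset.sum_mul, Finset.sum_mul]
    refine Finset.sum_congr rfl fun i _ => ?_
    rw [mul_assoc (s i) v, ← e, ← mul_assoc (s i), hs.right, Finset.mul_sum, Finset.mul_sum]
    refine Finset.sum_congr rfl fun j _ => ?_
    rw [mul_assoc (s i) v, ← mul_assoc v, ← ey]
    simp only [mul_assoc]

end half

/-- the amplified link -/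
theorem amp_link {n : ℕ} {p₁ c₁ P Q : Op H} {s t : Fin n → Op H} (h : Link A B v p c a b)
    (hP : Pj A P) (hQ : Pj B Q) (hs : Units A p₁ P s) (ht : Units B c₁ Q t) (hp : p * p₁ = p₁)
    (hc : c * c₁ = c₁) (e : p₁ * v = v * c₁) :
    Link A B (∑ i, s i * v * star (t i)) P Q a b := by
  have e' : c₁ * star v = star v * p₁ := by
    have := congrArg star e
    rw [star_mul, star_mul, hs.pj.star_eq, ht.pj.star_eq] at this
    exact this.symm
  have e1 : star (∑ i, s i * v * star (t i)) = ∑ i, t i * star v * star (s i) := by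
    rw [star_sum]
    refine Finset.sum_congr rfl fun i _ => ?_
    rw [star_mul, star_mul, star_star, mul_assoc]
  refine ⟨hP, hQ, h.pa, h.pb, half_left h hs ht hp e, ?_, h.ca, h.cb, h.ia, h.ib,
    fun x hx hx' => half_fw h hs ht hp e hx hx' hP.mul_self, fun y hy hy' => ?_⟩
  · have := half_left (symm h) ht hs hc e'
    rwa [← e1, star_star] at this
  · obtain ⟨x, hx, hx', ex⟩ := half_fw (symm h) ht hs hc e' (star_mem hy)
      (cor_star hQ.star_eq hy') hQ.mul_self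
    refine ⟨star x, star_mem hx, cor_star hP.star_eq hx', ?_⟩
    rw [← e1, ← star_mul] at ex
    have := congrArg star ex
    rw [star_star, star_mul, star_star] at this
    exact this.symm

theorem amp (hT : TrAStmt.{u}) {P : VonNeumannAlgebra H} {τ : Op H →ₗ[ℂ] ℂ} {q : Op H}
    (hτ : IsTr P τ) (hA : A ≤ P) (hB : B ≤ P) (fA : Fac A) (fB : Fac B) (dA : Dif A 1)
    (hv : v ∈ P) (h0 : v ≠ 0) (ta : ∀ x ∈ A, τ (x * a) = τ x * τ a)
    (tb : ∀ y ∈ B, τ (y * b) = τ y * τ b) (h : Link A B v p c a b) (hq : Pj B q)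
    (e : τ q * τ p = τ c) : ∃ w : Op H, Link A B w 1 q a b := by
  have TA := hT H A τ (hτ.mono hA)
  have TB := hT H B τ (hτ.mono hB)
  have n0 : τ (star v * v) ≠ 0 := fun e0 => h0 (hτ.faith v hv e0)
  have e1 : τ (star v * v) = τ c * τ b := by rw [h.right, tb c h.cB.1]
  have e2 : τ (star v * v) = τ p * τ a := by
    rw [hτ.comm _ (star_mem hv) v hv, h.left, ta p h.pA.1]
  have hp0 : τ p ≠ 0 := left_ne_zero_of_mul (e2 ▸ n0)
  have hb0 : τ b ≠ 0 := right_ne_zero_of_mul (e1 ▸ n0)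
  have hpos : 0 < (τ p).re := (hτ.mono hA).proj_pos h.pA fun e0 => hp0 (by rw [e0, map_zero])
  obtain ⟨m, hm⟩ := exists_nat_one_div_lt hpos
  obtain ⟨p₁, h₁, hp, t₁⟩ := TA.exact p h.pA (dA.mono (one_mul p)) (1 / ((m : ℝ) + 1))
    (by positivity) hm.le
  obtain ⟨c₁, k₁, hc, ec⟩ := img h h₁ hp
  have e3 : τ p₁ * τ a = τ c₁ * τ b := by
    have f1 : p₁ * a = v * c₁ * star v := by
      rw [← ec, mul_assoc, h.left, ← mul_assoc, le_symm h.pA.2 h₁.2 hp]
    have f2 : star v * (v * c₁) = c₁ * b := by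
      rw [← mul_assoc, h.right, mul_assoc, h.cb _ k₁.1, ← mul_assoc, hc]
    rw [← ta _ h₁.1, ← tb _ k₁.1, f1, hτ.comm _ (mul_mem hv (hB k₁.1)) _ (star_mem hv), f2]
  have e4 : ((m + 1 : ℕ) : ℂ) * τ p₁ = τ 1 := by
    have : ((m : ℂ) + 1) ≠ 0 := by exact_mod_cast Nat.succ_ne_zero m
    rw [t₁, hτ.one]; push_cast; field_simp
  have e5 : ((m + 1 : ℕ) : ℂ) * τ c₁ = τ q := by
    rw [hτ.one] at e4
    refine mul_right_cancel₀ hb0 (mul_left_cancel₀ hp0 ?_)
    rw [mul_assoc, ← e3, ← mul_assoc _ (τ p₁), e4, one_mul, ← e2, e1, ← e]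
    ring
  obtain ⟨s, hs⟩ := units_of TA fA h₁ (Pj.one A) e4
  obtain ⟨t, ht⟩ := units_of TB fB k₁ hq e5
  exact ⟨_, amp_link h (Pj.one A) hq hs ht hp hc ec⟩

end Amp

theorem amp_stmt (hT : TrAStmt.{u}) : AmpStmt.{u} := fun _ _ _ _ =>
  { symm := fun _ _ _ _ _ _ _ h => Amp.symm h
    iso := fun _ _ _ _ _ _ _ h => Amp.iso h
    amp := fun _ _ _ _ _ _ _ _ _ _ hτ hA hB fA fB dA hv h0 _ _ ta tb h hq e =>
      Amp.amp hT hτ hA hB fA fB dA hv h0 ta tb h hq e }

end Pool.Agent.MP_ad85d3_an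

end
end MrgPart5

-- ======== part 6: formerly Pool.Agent.MP_ad85d3_an.UltA
section MrgPart6

/-!
# PROJECT UPF, module ULTA: the ultrapower is a von Neumann algebra and is countably saturated
-/

open Filter Topology
open scoped ComplexOrder InnerProductSpace ComplexConjugate

noncomputable section

namespace Pool.Agent.MP_ad85d3_an.UltA

universe u

/-! ## lifting with control of the norm -/

section Lift

variable {X Y : Type u} [NonUnitalCStarAlgebra X] [NonUnitalCStarAlgebra Y]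

theorem cont (π : X →⋆ₙₐ[ℂ] Y) : Continuous π :=
  AddMonoidHomClass.continuous_of_bound π 1 fun a => by
    rw [one_mul]; exact NonUnitalStarAlgHom.norm_apply_le π a

theorem map_cfc (π : X →⋆ₙₐ[ℂ] Y) {a : X} (ha : IsSelfAdjoint a) {f : ℝ → ℝ} (hf : Continuous f)
    (h0 : f 0 = 0) : π (cfcₙ f a) = cfcₙ f (π a) :=
  NonUnitalStarAlgHom.map_cfcₙ π f a hf.continuousOn h0 (cont π) ha (ha.map π)

theorem lift_sa (π : X →⋆ₙₐ[ℂ] Y) {a : X} (ha : IsSelfAdjoint a) {C : ℝ} (hC : ‖π a‖ ≤ C) :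
    ∃ a' : X, ‖a'‖ ≤ C ∧ π a' = π a := by
  have C0 : 0 ≤ C := (norm_nonneg _).trans hC
  have hb : IsSelfAdjoint (π a) := ha.map π
  refine ⟨cfcₙ (fun t : ℝ => max (-C) (min t C)) a, norm_cfcₙ_le fun t _ => ?_, ?_⟩
  · rw [Real.norm_eq_abs, abs_le]
    exact ⟨le_max_left _ _, max_le (by linarith) (min_le_right _ _)⟩
  · rw [map_cfc π ha (by fun_prop) (by simp [C0])]
    conv_rhs => rw [← cfcₙ_id' ℝ (π a) hb]
    refine cfcₙ_congr fun t ht => ?_
    have h1 := norm_apply_le_norm_cfcₙ (fun t : ℝ => t) (π a) ht (by fun_prop) rfl hb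
    rw [cfcₙ_id' ℝ (π a) hb, Real.norm_eq_abs] at h1
    have h2 := abs_le.1 (h1.trans hC)
    show max (-C) (min t C) = t
    rw [min_eq_left h2.2, max_eq_right h2.1]

theorem lift (π : X →⋆ₙₐ[ℂ] Y) (x : X) {C : ℝ} (hC : ‖π x‖ ≤ C) :
    ∃ x' : X, ‖x'‖ ≤ 2 * C ∧ π x' = π x := by
  obtain ⟨a, ha, ea⟩ := lift_sa π (realPart x).2 (C := C)
    (by rw [map_realPart]; exact (realPart.norm_le _).trans hC)
  obtain ⟨b, hb, eb⟩ := lift_sa π (imaginaryPart x).2 (C := C)
    (by rw [map_imaginaryPart]; exact (imaginaryPart.norm_le _).trans hC)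
  refine ⟨a + Complex.I • b, ?_, ?_⟩
  · refine (norm_add_le _ _).trans ?_
    rw [norm_smul, Complex.norm_I, one_mul]; linarith
  · rw [map_add, map_smul, ea, eb, ← map_smul, ← map_add, realPart_add_I_smul_imaginaryPart]

theorem cfc_range (π : X →⋆ₙₐ[ℂ] Y) (x : X) (hx : IsSelfAdjoint (π x)) {f : ℝ → ℝ}
    (hf : Continuous f) (h0 : f 0 = 0) : ∃ x', π x' = cfcₙ f (π x) :=
  ⟨cfcₙ f (realPart x : X), by
    rw [map_cfc π (realPart x).2 hf h0, map_realPart, hx.coe_realPart]⟩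

end Lift

/-! ## the diagonal argument -/

theorem diag {U : Ultrafilter ℕ} (hU : (U : Filter ℕ) ≤ cofinite) (S : ℕ → Set ℕ)
    (hS : ∀ k, S k ∈ U) : ∃ kk : ℕ → ℕ, ∀ j, ∀ᶠ n in (U : Filter ℕ), j ≤ kk n ∧ n ∈ S (kk n) := by
  classical
  refine ⟨fun n => Nat.findGreatest (fun k => n ∈ S k) n, fun j => ?_⟩
  have h1 : ∀ᶠ n in (U : Filter ℕ), j ≤ n := by
    rw [Nat.cofinite_eq_atTop] at hU
    exact hU (eventually_ge_atTop j)
  filter_upwards [h1, hS j] with n hn hj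
  exact ⟨Nat.le_findGreatest hn hj, Nat.findGreatest_spec (P := fun k => n ∈ S k) hn hj⟩

variable {X : Type u} [NonUnitalCStarAlgebra X]

theorem saturate {U : Ultrafilter ℕ} (hU : (U : Filter ℕ) ≤ cofinite) (V : ℕ → Linf X) {C : ℝ}
    (hV : ∀ m, ‖V m‖ ≤ C) (φ : ℕ → ℕ → X → Prop)
    (h : ∀ j m, j ≤ m → ∀ᶠ n in (U : Filter ℕ), φ j n ((V m).term n)) :
    ∃ W : Linf X, ∀ j, ∀ᶠ n in (U : Filter ℕ), φ j n (W.term n) := by
  obtain ⟨kk, hk⟩ := diag hU (fun m => {n | ∀ j ∈ Set.Iic m, φ j n ((V m).term n)}) fun m =>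
    (eventually_all_finite (Set.finite_Iic m)).2 fun j hj => h j m hj
  refine ⟨BoundedContinuousFunction.ofNormedAddCommGroupDiscrete (fun n => (V (kk n)).term n) C
    fun n => ((V _).norm_term_le n).trans (hV _), fun j => ?_⟩
  filter_upwards [hk j] with n hn
  exact hn.2 j hn.1

variable {H : Type u} [NormedAddCommGroup H] [InnerProductSpace ℂ H] [CompleteSpace H]
  {τ : X →L[ℂ] ℂ} {hτ : ∀ x, 0 ≤ τ (star x * x)} {U : Ultrafilter ℕ} {Ω : H}
  {π : Linf X →⋆ₙₐ[ℂ] Op H}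

theorem lim_sq (tr : ∀ x, vec Ω (π x) = ultraTrace τ hτ U x) (z : Linf X) :
    Tendsto (fun n => (τ (star (z.term n) * z.term n)).re) U (𝓝 (‖π z Ω‖ ^ 2)) := by
  rw [norm_orb_sq, ← map_star, ← map_mul, tr]
  exact (Complex.continuous_re.tendsto _).comp (tendsto_ultraTrace τ hτ U (star z * z))

theorem complete (hU : (U : Filter ℕ) ≤ cofinite) (tr : ∀ x, vec Ω (π x) = ultraTrace τ hτ U x)
    (ξ : H) (C : ℝ) (h : ∀ ε : ℝ, 0 < ε → ∃ x, ‖π x‖ ≤ C ∧ ‖π x Ω - ξ‖ ≤ ε) :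
    ∃ x, π x Ω = ξ := by
  have h' : ∀ k : ℕ, ∃ x : Linf X, ‖x‖ ≤ 2 * C ∧ ‖π x Ω - ξ‖ ≤ 1 / ((k : ℝ) + 1) := fun k => by
    obtain ⟨x, h1, h2⟩ := h (1 / ((k : ℝ) + 1)) (by positivity)
    obtain ⟨x', h3, h4⟩ := lift π x h1
    exact ⟨x', h3, by rw [h4]; exact h2⟩
  choose V hV hV' using h'
  obtain ⟨W, hW⟩ := saturate hU V hV
    (fun j n a => (τ (star ((V j).term n - a) * ((V j).term n - a))).re < (3 / ((j : ℝ) + 1)) ^ 2)
    fun j m hjm => by
      refine (lim_sq tr (V j - V m)).eventually (gt_mem_nhds ?_)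
      have e : π (V j - V m) Ω = (π (V j) Ω - ξ) - (π (V m) Ω - ξ) := by
        rw [map_sub, sub_apply]; abel
      have h1 : 1 / ((m : ℝ) + 1) ≤ 1 / ((j : ℝ) + 1) := Nat.one_div_le_one_div hjm
      have h2 : ‖π (V j - V m) Ω‖ < 3 / ((j : ℝ) + 1) := by
        rw [e]
        refine (norm_sub_le _ _).trans_lt ?_
        have h3 : 0 < 1 / ((j : ℝ) + 1) := by positivity
        have h4 : 3 / ((j : ℝ) + 1) = 3 * (1 / ((j : ℝ) + 1)) := by ring
        linarith [hV' j, hV' m]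
      gcongr
  refine ⟨W, ?_⟩
  have key : ∀ j : ℕ, ‖π W Ω - ξ‖ ≤ 4 * (1 / ((j : ℝ) + 1)) := fun j => by
    have h1 : ‖π (V j - W) Ω‖ ^ 2 ≤ (3 / ((j : ℝ) + 1)) ^ 2 :=
      le_of_tendsto (lim_sq tr (V j - W)) ((hW j).mono fun n hn => hn.le)
    have h2 : ‖π (V j - W) Ω‖ ≤ 3 / ((j : ℝ) + 1) :=
      (pow_le_pow_iff_left₀ (norm_nonneg _) (by positivity) two_ne_zero).1 h1
    have e : π W Ω - ξ = (π (V j) Ω - ξ) - π (V j - W) Ω := by
      rw [map_sub, sub_apply]; abel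
    have h4 : 3 / ((j : ℝ) + 1) = 3 * (1 / ((j : ℝ) + 1)) := by ring
    rw [e]
    refine (norm_sub_le _ _).trans ?_
    linarith [hV' j]
  have lim : Tendsto (fun j : ℕ => 4 * (1 / ((j : ℝ) + 1))) atTop (𝓝 (4 * 0)) :=
    tendsto_one_div_add_atTop_nhds_zero_nat.const_mul 4
  rw [mul_zero] at lim
  exact sub_eq_zero.1 (norm_le_zero_iff.1 (ge_of_tendsto' lim key))

theorem sat (hU : (U : Filter ℕ) ≤ cofinite) (tr : ∀ x, vec Ω (π x) = ultraTrace τ hτ U x)
    (x y v : ℕ → Linf X) {κ : ℝ} (hκ : 0 < κ) (h1 : ∀ m, ‖π (v m)‖ ≤ 1)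
    (h2 : ∀ m, κ ≤ ‖π (v m) Ω‖) (h3 : ∀ m, ∀ k < m, π (v m) * π (x k) = π (y k) * π (v m)) :
    ∃ w, κ ≤ ‖π w Ω‖ ∧ ∀ k, (π w * π (x k)) Ω = (π (y k) * π w) Ω := by
  choose V hV hV' using fun m => lift π (v m) (h1 m)
  obtain ⟨W, hW⟩ := saturate hU V hV
    (fun j n a => κ ^ 2 - 1 / ((j : ℝ) + 1) < (τ (star a * a)).re ∧ ∀ k ∈ Set.Iio j,
      (τ (star (a * (x k).term n - (y k).term n * a) * (a * (x k).term n - (y k).term n * a))).re
        < 1 / ((j : ℝ) + 1))
    fun j m hjm => by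
      have h0 : 0 < 1 / ((j : ℝ) + 1) := by positivity
      refine Eventually.and ((lim_sq tr (V m)).eventually (lt_mem_nhds ?_))
        ((eventually_all_finite (Set.finite_Iio j)).2 fun k hk => ?_)
      · have : κ ^ 2 ≤ ‖π (V m) Ω‖ ^ 2 := by rw [hV']; gcongr; exact h2 m
        linarith
      · refine (lim_sq tr (V m * x k - y k * V m)).eventually (gt_mem_nhds ?_)
        rw [map_sub, map_mul, map_mul, hV', h3 m k (lt_of_lt_of_le hk hjm), sub_self]
        simpa using h0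
  have lim : Tendsto (fun j : ℕ => 1 / ((j : ℝ) + 1)) atTop (𝓝 0) :=
    tendsto_one_div_add_atTop_nhds_zero_nat
  refine ⟨W, ?_, fun k => ?_⟩
  · have key : ∀ j : ℕ, κ ^ 2 - 1 / ((j : ℝ) + 1) ≤ ‖π W Ω‖ ^ 2 := fun j =>
      ge_of_tendsto (lim_sq tr W) ((hW j).mono fun n hn => hn.1.le)
    have := le_of_tendsto' (tendsto_const_nhds.sub lim) key
    rw [sub_zero] at this
    exact (pow_le_pow_iff_left₀ hκ.le (norm_nonneg _) two_ne_zero).1 this
  · have key : ∀ᶠ j : ℕ in atTop, ‖π (W * x k - y k * W) Ω‖ ^ 2 ≤ 1 / ((j : ℝ) + 1) :=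
      (eventually_gt_atTop k).mono fun j hj =>
        le_of_tendsto (lim_sq tr (W * x k - y k * W)) ((hW j).mono fun n hn => (hn.2 k hj).le)
    have h4 := ge_of_tendsto lim key
    have h5 : ‖π (W * x k - y k * W) Ω‖ = 0 := by nlinarith [norm_nonneg (π (W * x k - y k * W) Ω)]
    rw [norm_eq_zero, map_sub, map_mul, map_mul, sub_apply] at h5
    exact sub_eq_zero.1 h5

/-- the range of a unital representation -/
def ran (π : Linf X →⋆ₙₐ[ℂ] Op H) {e : Linf X} (he : π e = 1) : StarSubalgebra ℂ (Op H) where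
  carrier := {y | ∃ x, π x = y}
  mul_mem' := by rintro _ _ ⟨a, rfl⟩ ⟨b, rfl⟩; exact ⟨a * b, map_mul π a b⟩
  add_mem' := by rintro _ _ ⟨a, rfl⟩ ⟨b, rfl⟩; exact ⟨a + b, map_add π a b⟩
  algebraMap_mem' c := ⟨c • e, by rw [map_smul, he, Algebra.algebraMap_eq_smul_one]⟩
  star_mem' := by rintro _ ⟨a, rfl⟩; exact ⟨star a, map_star π a⟩

theorem main {J : H ≃ₗᵢ⋆[ℂ] H} {P : VonNeumannAlgebra H} (hU : (U : Filter ℕ) ≤ cofinite)
    (h : Std Ω J P) (hS : StdF Ω J P) {e : Linf X} (he : π e = 1) (mem : ∀ x, π x ∈ P)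
    (tr : ∀ x, vec Ω (π x) = ultraTrace τ hτ U x) :
    ∃ A : VonNeumannAlgebra H, (∀ y, y ∈ A ↔ ∃ x, π x = y) ∧ Sat A Ω := by
  obtain ⟨A, hA⟩ := hS.bicomm (ran π he) (by rintro _ ⟨a, rfl⟩; exact mem a)
    (by rintro _ ⟨a, rfl⟩ ha f hf h0; exact cfc_range π a ha hf h0)
    (fun ξ C hξ => by
      obtain ⟨x, hx⟩ := complete hU tr ξ C fun ε hε => by
        obtain ⟨_, ⟨a, rfl⟩, h1, h2⟩ := hξ ε hε
        exact ⟨a, h1, h2⟩
      exact ⟨π x, ⟨x, rfl⟩, hx⟩)
  have hA' : ∀ y, y ∈ A ↔ ∃ x, π x = y := hA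
  refine ⟨A, hA', fun x y κ hxy hv => ?_⟩
  rcases le_or_gt κ 0 with hκ | hκ
  · exact ⟨0, zero_mem A, hκ.trans (norm_nonneg _), fun k => by rw [zero_mul, mul_zero]⟩
  choose v hvA h1 h2 h3 using hv
  choose x' hx using fun k => (hA' _).1 (hxy k).1
  choose y' hy using fun k => (hA' _).1 (hxy k).2
  choose v' hv' using fun k => (hA' _).1 (hvA k)
  obtain ⟨w, hw, hw'⟩ := sat hU tr x' y' v' hκ (fun m => by rw [hv']; exact h1 m)
    (fun m => by rw [hv']; exact h2 m) (fun m k hk => by rw [hv', hx, hy]; exact h3 m k hk)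
  refine ⟨π w, (hA' _).2 ⟨w, rfl⟩, hw, fun k => ?_⟩
  rw [← hx, ← hy]
  exact h.sep (mul_mem (mem _) (mem _)) (mul_mem (mem _) (mem _)) (hw' k)

end Pool.Agent.MP_ad85d3_an.UltA

namespace Pool.Agent.MP_ad85d3_an

universe u

theorem ultA_stmt (hS : StdStmt.{u}) : UltAStmt.{u} :=
  fun H _ _ _ _ _ _ _ Ω J P _ _ _ hU h hR => UltA.main hU h (hS H Ω J P h) hR.one hR.mem hR.tr

end Pool.Agent.MP_ad85d3_an

end
end MrgPart6

-- marker of a merged file
example : 731051 + 10249 = 731051 + 10249 := rfl
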