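import Mathlib.Topology.Sheaves.Presheaf
import Mathlib.Algebra.Ring.IsFormallyReal
import Mathlib.Combinatorics.SimpleGraph.Basic
import Pool.Agent.MP_ad85d3_an.Spec

/-!
# PROJECT UPF, module AVG: averaging in the basic construction
-/

open Filter Topology
open scoped ComplexOrder InnerProductSpace ComplexConjugate ENNReal

noncomputable section

namespace Pool.Agent.MP_ad85d3_an.Avg

universe u

variable {H : Type u} [NormedAddCommGroup H] [InnerProductSpace ℂ H] [CompleteSpace H]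

set_option linter.unusedSectionVars false

/-- the squared norm as an extended real -/
def nn (x : H) : ℝ≥0∞ := ENNReal.ofReal (‖x‖ ^ 2)

theorem nn_mono {x y : H} (h : ‖x‖ ≤ ‖y‖) : nn x ≤ nn y :=
  ENNReal.ofReal_le_ofReal (by gcongr)

theorem nn_congr {x y : H} (h : ‖x‖ = ‖y‖) : nn x = nn y := by rw [nn, nn, h]

theorem nn_par (a b : H) :
    nn (a - b) + 4 * nn ((2⁻¹ : ℂ) • (a + b)) = 2 * nn a + 2 * nn b := by
  have h := parallelogram_law_with_norm ℂ a b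
  have e4 : (4 : ℝ≥0∞) = ENNReal.ofReal 4 := by simp
  have e2 : (2 : ℝ≥0∞) = ENNReal.ofReal 2 := by simp
  rw [nn, nn, nn, nn, e4, e2, ← ENNReal.ofReal_mul (by norm_num), ← ENNReal.ofReal_mul (by norm_num),
    ← ENNReal.ofReal_mul (by norm_num), ← ENNReal.ofReal_add (by positivity) (by positivity),
    ← ENNReal.ofReal_add (by positivity) (by positivity)]
  congr 1
  rw [norm_smul]
  have : ‖(2⁻¹ : ℂ)‖ = 2⁻¹ := by simp
  rw [this]
  nlinarith [h]

theorem continuous_nn : Continuous (nn : H → ℝ≥0∞) :=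
  ENNReal.continuous_ofReal.comp (by fun_prop)

section Min

variable {X κ : Type*} [AddCommGroup X] [Module ℂ X]

/-- the quadratic functional of a family of evaluations -/
def Phi (ev : κ → X →ₗ[ℂ] H) (x : X) : ℝ≥0∞ := ∑' j, nn (ev j x)

theorem Phi_par (ev : κ → X →ₗ[ℂ] H) (x y : X) :
    Phi ev (x - y) + 4 * Phi ev ((2⁻¹ : ℂ) • (x + y)) = 2 * Phi ev x + 2 * Phi ev y := by
  simp only [Phi]
  rw [← ENNReal.tsum_mul_left, ← ENNReal.tsum_mul_left, ← ENNReal.tsum_mul_left,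
    ← ENNReal.tsum_add, ← ENNReal.tsum_add]
  refine tsum_congr fun j => ?_
  rw [map_sub, map_smul, map_add, nn_par]

/-- the distance of two almost minimal points -/
theorem Phi_sub_le (ev : κ → X →ₗ[ℂ] H) {x y : X} {m a b : ℝ≥0∞} (hm : m ≠ ⊤)
    (h : m ≤ Phi ev ((2⁻¹ : ℂ) • (x + y))) (hx : Phi ev x ≤ m + a) (hy : Phi ev y ≤ m + b) :
    Phi ev (x - y) ≤ 2 * a + 2 * b := by
  have h1 : Phi ev (x - y) + 4 * m ≤ (2 * a + 2 * b) + 4 * m :=
    calc Phi ev (x - y) + 4 * m ≤ Phi ev (x - y) + 4 * Phi ev ((2⁻¹ : ℂ) • (x + y)) := by gcongr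
      _ = 2 * Phi ev x + 2 * Phi ev y := Phi_par ev x y
      _ ≤ 2 * (m + a) + 2 * (m + b) := by gcongr
      _ = (2 * a + 2 * b) + 4 * m := by ring
  exact (ENNReal.add_le_add_iff_right (ENNReal.mul_ne_top (by simp) hm)).1 h1

/-- existence and uniqueness of the minimiser on a midpoint convex complete set -/
theorem exists_min (ev : κ → X →ₗ[ℂ] H) (C : Set X)
    (mid : ∀ x ∈ C, ∀ y ∈ C, (2⁻¹ : ℂ) • (x + y) ∈ C) {x₀ : X} (h₀ : x₀ ∈ C)
    (fin : Phi ev x₀ ≠ ⊤)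
    (compl : ∀ x : ℕ → X, (∀ n, x n ∈ C) → (∀ j, CauchySeq fun n => ev j (x n)) →
      ∃ t ∈ C, ∀ j, Tendsto (fun n => ev j (x n)) atTop (𝓝 (ev j t))) :
    ∃ t ∈ C, Phi ev t ≠ ⊤ ∧ ∀ t' ∈ C, Phi ev t' ≤ Phi ev t → ∀ j, ev j t' = ev j t := by
  set m : ℝ≥0∞ := ⨅ x : C, Phi ev x with hm
  have hle : ∀ x ∈ C, m ≤ Phi ev x := fun x hx => iInf_le (fun x : C => Phi ev x) ⟨x, hx⟩
  have hmt : m ≠ ⊤ := ne_top_of_le_ne_top fin (hle _ h₀)
  have hpos : ∀ n : ℕ, (0 : ℝ) < 1 / ((n : ℝ) + 1) := fun n => by positivity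
  have hex : ∀ n : ℕ, ∃ x : C, Phi ev x < m + ENNReal.ofReal (1 / ((n : ℝ) + 1)) := fun n =>
    iInf_lt_iff.1 (ENNReal.lt_add_right hmt (ENNReal.ofReal_pos.2 (hpos n)).ne')
  choose x hx using hex
  have hc : ∀ j, CauchySeq fun n => ev j (x n) := fun j => by
    refine cauchySeq_of_le_tendsto_0 (fun N : ℕ => √(4 * (1 / ((N : ℝ) + 1)))) (fun n k N hn hk => ?_) ?_
    · have h1 := Phi_sub_le ev hmt (hle _ (mid _ (x n).2 _ (x k).2)) (hx n).le (hx k).le
      have h2 : nn (ev j ((x n : X) - x k)) ≤ Phi ev ((x n : X) - x k) :=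
        ENNReal.le_tsum (f := fun j => nn (ev j ((x n : X) - x k))) j
      have h4 : nn (ev j ((x n : X) - x k)) ≤ ENNReal.ofReal (4 * (1 / ((N : ℝ) + 1))) := by
        refine h2.trans (h1.trans ?_)
        rw [ENNReal.ofReal_mul (by norm_num)]
        calc _ ≤ 2 * ENNReal.ofReal (1 / ((N : ℝ) + 1)) + 2 * ENNReal.ofReal (1 / ((N : ℝ) + 1)) := by
              gcongr
          _ = _ := by rw [← add_mul]; norm_num
      rw [nn, ENNReal.ofReal_le_ofReal_iff (by positivity), map_sub] at h4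
      rw [dist_eq_norm]
      exact Real.le_sqrt_of_sq_le h4
    · have := (tendsto_one_div_add_atTop_nhds_zero_nat (𝕜 := ℝ)).const_mul 4
      rw [mul_zero] at this
      simpa using this.sqrt
  obtain ⟨t, ht, hl⟩ := compl (fun n => x n) (fun n => (x n).2) hc
  have htm : Phi ev t ≤ m := by
    rw [Phi, ENNReal.tsum_eq_iSup_sum]
    refine iSup_le fun s => ?_
    have h1 : Tendsto (fun n => ∑ j ∈ s, nn (ev j (x n))) atTop (𝓝 (∑ j ∈ s, nn (ev j t))) :=
      tendsto_finsetSum s fun j _ => (continuous_nn.tendsto _).comp (hl j)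
    have h2 : Tendsto (fun n : ℕ => m + ENNReal.ofReal (1 / ((n : ℝ) + 1))) atTop (𝓝 m) := by
      have := (ENNReal.tendsto_ofReal (tendsto_one_div_add_atTop_nhds_zero_nat (𝕜 := ℝ))).const_add m
      simpa using this
    refine le_of_tendsto_of_tendsto' h1 h2 fun n => ?_
    exact (ENNReal.sum_le_tsum s).trans (hx n).le
  refine ⟨t, ht, ne_top_of_le_ne_top hmt htm, fun t' ht' hh j => ?_⟩
  have h1 := Phi_sub_le ev (a := 0) (b := 0) hmt (hle _ (mid _ ht' _ ht))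
    (by rw [add_zero]; exact hh.trans htm) (by rw [add_zero]; exact htm)
  have h2 : nn (ev j (t' - t)) ≤ Phi ev (t' - t) :=
    ENNReal.le_tsum (f := fun j => nn (ev j (t' - t))) j
  have h3 := h2.trans h1
  rw [mul_zero, add_zero, nonpos_iff_eq_zero, nn, ENNReal.ofReal_eq_zero, map_sub] at h3
  exact sub_eq_zero.1 (norm_eq_zero.1 (pow_eq_zero_iff two_ne_zero |>.1
    (le_antisymm h3 (by positivity))))

end Min

/-! ## the trace norm of a frame -/

section Fr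

variable {Ω : H} {J : H ≃ₗᵢ⋆[ℂ] H} {P B : VonNeumannAlgebra H}

theorem bas_comm {S : Op H} (hS : S ∈ bas J B) {d : Op H} (hd : d ∈ B) :
    kap J d * S = S * kap J d := (mem_vn.1 hS _ ⟨d, hd, rfl⟩).1

theorem mem_bas (h : Std Ω J P) {S : Op H} (hS : ∀ d ∈ B, kap J d * S = S * kap J d) :
    S ∈ bas J B := mem_vn.2 (by
  rintro _ ⟨d, hd, rfl⟩
  exact ⟨hS d hd, by rw [← h.kap_star]; exact hS _ (star_mem hd)⟩)

theorem e_mem (h : Std Ω J P) (hB : B ≤ P) : eP B Ω ∈ bas J B :=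
  mem_bas h fun _ hd => h.eP_comm_kap (D := B) (fun _ hx => hB hx) hd

theorem P_mem (h : Std Ω J P) (hB : B ≤ P) {x : Op H} (hx : x ∈ P) : x ∈ bas J B :=
  mem_bas h fun _ hd => h.kap_comm (hB hd) hx

/-- the trace property of matrix coefficients -/
theorem coeff (h : Std Ω J P) (hB : B ≤ P) {X W W' : Op H} (hX : X ∈ bas J B) (hW : W ∈ bas J B)
    (hW' : W' ∈ bas J B) (e : W * eP B Ω = W) (e' : W' * eP B Ω = W') :
    ‖star W (X (W' Ω))‖ = ‖star W' (star X (W Ω))‖ := by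
  have e1 : eP B Ω * star W = star W := by
    have := congrArg star e
    rwa [star_mul, (eP_proj (B : Set (Op H)) Ω).isSelfAdjoint.star_eq] at this
  have hR : star W * X * W' ∈ bas J B := mul_mem (mul_mem (star_mem hW) hX) hW'
  have h1 := h.adj (D := B) (fun _ hx => hB hx) (R := star W * X * W')
    (by rw [mul_assoc _ W', e', ← mul_assoc, ← mul_assoc, e1]) fun d hd => bas_comm hR hd
  have h2 := congrArg norm h1
  rw [J.norm_map, star_mul, star_mul, star_star] at h2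
  exact h2

variable {ι : Type u} {V : ι → Op H}

/-- the squared trace norm -/
def N (Ω : H) (V : ι → Op H) (S : Op H) : ℝ≥0∞ := ∑' j, nn (S (V j Ω))

theorem pars (hV : ∀ η : H, HasSum (fun j => ‖star (V j) η‖ ^ 2) (‖η‖ ^ 2)) (η : H) :
    nn η = ∑' j, nn (star (V j) η) := by
  rw [nn, ← (hV η).tsum_eq, ENNReal.ofReal_tsum_of_nonneg (fun _ => by positivity) (hV η).summable]
  rfl

theorem key (h : Std Ω J P) (hB : B ≤ P) (h1 : ∀ j, V j ∈ bas J B ∧ V j * eP B Ω = V j)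
    (hV : ∀ η : H, HasSum (fun j => ‖star (V j) η‖ ^ 2) (‖η‖ ^ 2)) {κ : Type*} {W : κ → Op H}
    (hW : ∀ i, W i ∈ bas J B ∧ W i * eP B Ω = W i)
    (bes : ∀ η : H, ∑' i, nn (star (W i) η) ≤ nn η) {S : Op H} (hS : S ∈ bas J B) :
    ∑' i, nn (S (W i Ω)) ≤ N Ω V (star S) :=
  calc ∑' i, nn (S (W i Ω)) = ∑' i, ∑' j, nn (star (W i) (star S (V j Ω))) :=
        tsum_congr fun i => by
          rw [pars hV]
          exact tsum_congr fun j => nn_congr (coeff h hB hS (h1 j).1 (hW i).1 (h1 j).2 (hW i).2)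
    _ = ∑' j, ∑' i, nn (star (W i) (star S (V j Ω))) := ENNReal.tsum_comm
    _ ≤ _ := ENNReal.tsum_le_tsum fun j => bes _

theorem N_star (h : Std Ω J P) (hB : B ≤ P) (h1 : ∀ j, V j ∈ bas J B ∧ V j * eP B Ω = V j)
    (hV : ∀ η : H, HasSum (fun j => ‖star (V j) η‖ ^ 2) (‖η‖ ^ 2)) {S : Op H}
    (hS : S ∈ bas J B) : N Ω V S ≤ N Ω V (star S) :=
  key h hB h1 hV h1 (fun η => (pars hV η).ge) hS

theorem N_mul {u : Op H} (hu : ‖u‖ ≤ 1) (S : Op H) : N Ω V (u * S) ≤ N Ω V S :=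
  ENNReal.tsum_le_tsum fun _ => nn_mono ((u.le_opNorm _).trans (mul_le_of_le_one_left
    (norm_nonneg _) hu))

theorem N_conj (h : Std Ω J P) (hB : B ≤ P) (h1 : ∀ j, V j ∈ bas J B ∧ V j * eP B Ω = V j)
    (hV : ∀ η : H, HasSum (fun j => ‖star (V j) η‖ ^ 2) (‖η‖ ^ 2)) {S u : Op H}
    (hS : S ∈ bas J B) (hs : IsSelfAdjoint S) (hu : u ∈ P) (hn : ‖u‖ ≤ 1) :
    N Ω V (u * S * star u) ≤ N Ω V S := by
  rw [mul_assoc]
  refine (N_mul hn _).trans ((N_star h hB h1 hV (mul_mem hS (P_mem h hB (star_mem hu)))).trans ?_)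
  rw [star_mul, star_star, hs.star_eq]
  exact N_mul hn _

theorem N_e (h : Std Ω J P) (hB : B ≤ P) (h1 : ∀ j, V j ∈ bas J B ∧ V j * eP B Ω = V j)
    (hV : ∀ η : H, HasSum (fun j => ‖star (V j) η‖ ^ 2) (‖η‖ ^ 2)) : N Ω V (eP B Ω) ≠ ⊤ := by
  have e0 : eP B Ω Ω = Ω := eP_apply (d := 1) (one_mem B)
  have : N Ω V (eP B Ω) = nn Ω := by
    rw [pars hV Ω]
    refine tsum_congr fun j => nn_congr ?_
    have := coeff h hB (one_mem _) (e_mem h hB) (h1 j).1 (eP_proj _ _).isIdempotentElem.eq (h1 j).2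
    rwa [(eP_proj (B : Set (Op H)) Ω).isSelfAdjoint.star_eq, star_one, one_apply_eq_self,
      one_apply_eq_self, e0] at this
  rw [this]
  exact ENNReal.ofReal_ne_top

theorem norm_sq_star (W : Op H) (η : H) : ‖star W η‖ ^ 2 = (⟪η, (W * star W) η⟫_ℂ).re := by
  rw [mul_ap, ← ContinuousLinearMap.adjoint_inner_left, ← ContinuousLinearMap.star_eq_adjoint,
    inner_self_eq_norm_sq_to_K]
  norm_cast

open Classical in
theorem finT (h : Std Ω J P) (hB : B ≤ P) (h1 : ∀ j, V j ∈ bas J B ∧ V j * eP B Ω = V j)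
    (hV : ∀ η : H, HasSum (fun j => ‖star (V j) η‖ ^ 2) (‖η‖ ^ 2)) {T : Op H}
    (hT : T ∈ bas J B) (hs : IsSelfAdjoint T) (hf : N Ω V T ≠ ⊤) : FinT Ω J B T := by
  refine ⟨hT, (N Ω V T).toReal, fun n W hW hW' => ?_⟩
  have he : ∀ i, star (W i) * W i = eP B Ω := fun i => by rw [hW', if_pos rfl]
  have hWe : ∀ i, W i * eP B Ω = W i := fun i => by
    rw [← he i]; exact pi_mul (by rw [he i]; exact eP_proj _ _)
  have hp : IsStarProjection (∑ i, W i * star (W i)) := by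
    refine ⟨?_, isSelfAdjoint_sum _ fun i _ => IsSelfAdjoint.mul_star_self _⟩
    rw [IsIdempotentElem, Finset.sum_mul]
    refine Finset.sum_congr rfl fun i _ => ?_
    rw [Finset.mul_sum, Finset.sum_eq_single i]
    · rw [mul_assoc, ← mul_assoc (star (W i)), he, ← mul_assoc, hWe]
    · intro j _ hj
      rw [mul_assoc, ← mul_assoc (star (W i)), hW', if_neg hj.symm, zero_mul, mul_zero]
    · simp
  have bes : ∀ η : H, ∑' i, nn (star (W i) η) ≤ nn η := fun η => by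
    rw [tsum_fintype]
    simp only [nn]
    rw [← ENNReal.ofReal_sum_of_nonneg fun _ _ => by positivity]
    refine ENNReal.ofReal_le_ofReal ?_
    simp only [norm_sq_star]
    rw [← Complex.re_sum, ← inner_sum, ← sum_apply]
    refine (Complex.re_le_norm _).trans ((norm_inner_le_norm _ _).trans ?_)
    rw [sq]
    gcongr
    exact (ContinuousLinearMap.le_opNorm _ _).trans (mul_le_of_le_one_left (norm_nonneg _) hp.norm_le)
  have := key h hB h1 hV (fun i => ⟨hW i, hWe i⟩) bes hT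
  rw [hs.star_eq, tsum_fintype] at this
  simp only [nn] at this
  rwa [← ENNReal.ofReal_sum_of_nonneg fun _ _ => by positivity,
    ENNReal.ofReal_le_iff_le_toReal hf] at this

/-- the vectors `V j d Ω` are total -/
theorem dense_fr (h1 : ∀ j, V j ∈ bas J B ∧ V j * eP B Ω = V j)
    (hV : ∀ η : H, HasSum (fun j => ‖star (V j) η‖ ^ 2) (‖η‖ ^ 2)) :
    Dense (Submodule.span ℂ {ξ : H | ∃ j, ∃ d ∈ B, ξ = V j (d Ω)} : Set H) := by
  rw [Submodule.dense_iff_topologicalClosure_eq_top, Submodule.topologicalClosure_eq_top_iff,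
    Submodule.eq_bot_iff]
  intro ζ hζ
  have h2 : ∀ j, star (V j) ζ = 0 := fun j => by
    have h3 : (InnerProductSpace.rankOne ℂ ζ ζ : Op H) * V j * eP B Ω = 0 :=
      mul_eP_eq_zero fun d hd => by
        have h0 : ⟪ζ, V j (d Ω)⟫_ℂ = 0 :=
          (Submodule.mem_orthogonal' _ _).1 hζ _ (Submodule.subset_span ⟨j, d, hd, rfl⟩)
        rw [mul_ap, InnerProductSpace.rankOne_apply, h0, zero_smul]
    rw [mul_assoc, (h1 j).2] at h3
    have h4 := congrArg (fun y : Op H => y (star (V j) ζ)) h3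
    simp only [mul_ap, InnerProductSpace.rankOne_apply, zero_apply, smul_eq_zero] at h4
    rcases h4 with h4 | h4
    · rwa [← ContinuousLinearMap.adjoint_inner_left, ← ContinuousLinearMap.star_eq_adjoint,
        inner_self_eq_zero] at h4
    · rw [h4, map_zero]
  have h5 := hV ζ
  simp only [h2, norm_zero, sq (0 : ℝ), mul_zero] at h5
  have h6 := h5.unique hasSum_zero
  exact norm_eq_zero.1 (pow_eq_zero_iff two_ne_zero |>.1 h6)

theorem ap_fr (h : Std Ω J P) (hB : B ≤ P) {S W d : Op H} (hS : S ∈ bas J B) (hW : W ∈ bas J B)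
    (hd : d ∈ B) : S (W (d Ω)) = kap J (star d) (S (W Ω)) := by
  have e1 : d Ω = kap J (star d) Ω := by rw [h.kap_one_orb (hB (star_mem hd)), star_star]
  rw [e1, ← mul_ap S W, ← mul_ap (S * W), ← bas_comm (mul_mem hS hW) (star_mem hd)]
  rfl

theorem ext_fr (h : Std Ω J P) (hB : B ≤ P) (h1 : ∀ j, V j ∈ bas J B ∧ V j * eP B Ω = V j)
    (hV : ∀ η : H, HasSum (fun j => ‖star (V j) η‖ ^ 2) (‖η‖ ^ 2)) {S S' : Op H}
    (hS : S ∈ bas J B) (hS' : S' ∈ bas J B) (e : ∀ j, S (V j Ω) = S' (V j Ω)) : S = S' :=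
  ContinuousLinearMap.ext_on (dense_fr h1 hV) (by
    rintro _ ⟨j, d, hd, rfl⟩
    rw [ap_fr h hB hS (h1 j).1 hd, ap_fr h hB hS' (h1 j).1 hd, e])

/-- the admissible operators -/
structure Adm (J : H ≃ₗᵢ⋆[ℂ] H) (B : VonNeumannAlgebra H) (q S : Op H) : Prop where
  sa : IsSelfAdjoint S
  nm : ‖S‖ ≤ 1
  mem : S ∈ bas J B
  sup : q * S = S

theorem Adm.mid {q S S' : Op H} (a : Adm J B q S) (b : Adm J B q S') :
    Adm J B q ((2⁻¹ : ℂ) • (S + S')) where
  sa := by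
    rw [IsSelfAdjoint, star_smul, star_add, a.sa.star_eq, b.sa.star_eq]
    simp
  nm := by
    rw [norm_smul]
    have : ‖(2⁻¹ : ℂ)‖ = 2⁻¹ := by simp
    rw [this]
    linarith [norm_add_le S S', a.nm, b.nm]
  mem := smul_mem_vn _ (add_mem a.mem b.mem)
  sup := by rw [mul_smul_comm, mul_add, a.sup, b.sup]

theorem adm_conj (h : Std Ω J P) (hB : B ≤ P) {q S u : Op H} (hs : IsSelfAdjoint S)
    (hn : ‖S‖ ≤ 1) (hm : S ∈ bas J B) (hu : u ∈ P) (hun : ‖u‖ ≤ 1) (hq : q * u = u) :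
    Adm J B q (u * S * star u) where
  sa := by rw [IsSelfAdjoint, star_mul, star_mul, star_star, hs.star_eq, mul_assoc]
  nm := by
    refine (norm_mul_le _ _).trans ?_
    rw [norm_star]
    exact mul_le_one₀ ((norm_mul_le _ _).trans (mul_le_one₀ hun (norm_nonneg _) hn))
      (norm_nonneg _) hun
  mem := mul_mem (mul_mem (P_mem h hB hu) hm) (P_mem h hB (star_mem hu))
  sup := by rw [← mul_assoc, ← mul_assoc, hq]

theorem adm_lim (hG : GenB H) (h : Std Ω J P) (hB : B ≤ P)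
    (h1 : ∀ j, V j ∈ bas J B ∧ V j * eP B Ω = V j)
    (hV : ∀ η : H, HasSum (fun j => ‖star (V j) η‖ ^ 2) (‖η‖ ^ 2)) {q : Op H} {S : ℕ → Op H}
    (hS : ∀ n, Adm J B q (S n)) (hc : ∀ j, CauchySeq fun n => S n (V j Ω)) :
    ∃ T, Adm J B q T ∧ ∀ ξ, Tendsto (fun n => S n ξ) atTop (𝓝 (T ξ)) := by
  obtain ⟨T, hT, hl⟩ := hG.sotN S 1 _ (fun n => (hS n).nm) (dense_fr h1 hV) (by
    rintro _ ⟨j, d, hd, rfl⟩
    simp only [fun n => ap_fr h hB (hS n).mem (h1 j).1 hd]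
    exact (kap J (star d)).uniformContinuous.comp_cauchySeq (hc j))
  refine ⟨T, ⟨?_, hT, mem_of_sot (Eventually.of_forall fun n => (hS n).mem) hl, ?_⟩, hl⟩
  · rw [ContinuousLinearMap.isSelfAdjoint_iff_isSymmetric]
    intro ξ ζ
    refine tendsto_nhds_unique ((hl ξ).inner (𝕜 := ℂ) (tendsto_const_nhds (x := ζ)))
      (((tendsto_const_nhds (x := ξ)).inner (𝕜 := ℂ) (hl ζ)).congr fun n => ?_)
    exact ((ContinuousLinearMap.isSelfAdjoint_iff_isSymmetric.1 (hS n).sa) ξ ζ).symm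
  · ext ξ
    refine tendsto_nhds_unique ((q.continuous.tendsto _).comp (hl ξ)) ((hl ξ).congr fun n => ?_)
    exact (congrArg (fun y : Op H => y ξ) (hS n).sup).symm

end Fr

/-- the test functional -/
def L (Ω : H) (F : Finset (Op H)) (S : Op H) : ℝ := ∑ y ∈ F, (⟪y Ω, S (y Ω)⟫_ℂ).re

theorem L_mid (Ω : H) (F : Finset (Op H)) (u S S' : Op H) :
    L Ω F (u * ((2⁻¹ : ℂ) • (S + S')) * star u) =
      2⁻¹ * (L Ω F (u * S * star u) + L Ω F (u * S' * star u)) := by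
  simp only [L]
  rw [← Finset.sum_add_distrib, Finset.mul_sum]
  refine Finset.sum_congr rfl fun y _ => ?_
  rw [mul_smul_comm, smul_mul_assoc, mul_add, add_mul, smul_apply, add_apply, inner_smul_right,
    inner_add_right]
  simp

theorem L_lim (Ω : H) (F : Finset (Op H)) (u : Op H) {S : ℕ → Op H} {T : Op H}
    (hl : ∀ ξ, Tendsto (fun n => S n ξ) atTop (𝓝 (T ξ))) :
    Tendsto (fun n => L Ω F (u * S n * star u)) atTop (𝓝 (L Ω F (u * T * star u))) :=
  tendsto_finsetSum F fun y _ => (Complex.continuous_re.tendsto _).comp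
    (tendsto_const_nhds.inner (𝕜 := ℂ) ((u.continuous.tendsto _).comp (hl (star u (y Ω)))))

theorem L_e {Ω : H} {J : H ≃ₗᵢ⋆[ℂ] H} {P B : VonNeumannAlgebra H} (h : Std Ω J P) (hB : B ≤ P)
    {F : Finset (Op H)} (hF : ∀ y ∈ F, y ∈ P) {u : Op H} (hu : u ∈ P) :
    L Ω F (u * eP B Ω * star u) = ∑ y ∈ F, ‖eP B Ω ((star y * u) Ω)‖ ^ 2 := by
  refine Finset.sum_congr rfl fun y hy => ?_
  have he := eP_proj (B : Set (Op H)) Ω
  have e1 : u * eP B Ω * star u = (u * eP B Ω) * star (u * eP B Ω) := by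
    rw [star_mul, he.isSelfAdjoint.star_eq, mul_assoc u _ (_ * _), ← mul_assoc (eP B Ω),
      he.isIdempotentElem.eq, mul_assoc]
  rw [e1, ← norm_sq_star, star_mul, he.isSelfAdjoint.star_eq, mul_ap, ← mul_ap (star u),
    ← J.norm_map, h.J_eP (D := B) fun _ hx => hB hx, h.J_orb _ (mul_mem (star_mem hu) (hF y hy)),
    star_mul, star_star]

theorem uni_mul {A : VonNeumannAlgebra H} {q u w : Op H} (hq : IsStarProjection q)
    (hu : Uni A q u) (hw : Uni A q w) : Uni A q (u * w) :=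
  ⟨mul_mem hu.1 hw.1,
    by rw [star_mul, mul_assoc, ← mul_assoc (star u), hu.2.1, hw.left hq, hw.2.1],
    by rw [star_mul, mul_assoc, ← mul_assoc w, hw.2.2, ← mul_assoc, hu.right hq, hu.2.2]⟩

theorem comm_of_conj {A : VonNeumannAlgebra H} {q u T : Op H} (hq : IsStarProjection q)
    (hu : Uni A q u) (hs : IsSelfAdjoint T) (hT : q * T = T) (e : u * T * star u = T) :
    u * T = T * u := by
  have h1 : T * q = T := by
    have := congrArg star hT
    rwa [star_mul, hs.star_eq, hq.isSelfAdjoint.star_eq] at this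
  nth_rewrite 2 [← e]
  rw [mul_assoc _ (star u), hu.2.1, mul_assoc, h1]

/-- the evaluations attached to two frames -/
def ev (Ω : H) {ι ι' : Type u} (V : ι → Op H) (V' : ι' → Op H) :
    ι ⊕ ι' → (Op H × Op H) →ₗ[ℂ] H
  | Sum.inl j => (ContinuousLinearMap.apply ℂ H (V j Ω)).toLinearMap.comp (LinearMap.fst ℂ _ _)
  | Sum.inr j => (ContinuousLinearMap.apply ℂ H (V' j Ω)).toLinearMap.comp (LinearMap.snd ℂ _ _)

theorem Phi_ev (Ω : H) {ι ι' : Type u} (V : ι → Op H) (V' : ι' → Op H) (S : Op H × Op H) :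
    Phi (ev Ω V V') S = N Ω V S.1 + N Ω V' S.2 :=
  ENNReal.summable.tsum_sum ENNReal.summable

end Pool.Agent.MP_ad85d3_an.Avg

namespace Pool.Agent.MP_ad85d3_an

universe u

open Avg

theorem avg_stmt (hB : GenBStmt.{u}) : AvgStmt.{u} := by
  intro H _ _ _ Ω J P A B₁ B₂ h hA h₁ h₂ ⟨ι, V, a1, a2⟩ ⟨ι', V', b1, b2⟩ q hq ⟨F, η, hF, hη, hN⟩
  let C : Set (Op H × Op H) := {S | Adm J B₁ q S.1 ∧ Adm J B₂ q S.2 ∧
    ∀ u, Uni A q u → η ^ 2 ≤ L Ω F (u * S.1 * star u) + L Ω F (u * S.2 * star u)}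
  have hqq : Uni A q q := ⟨hq.1, by rw [hq.star_eq, hq.mul_self], by rw [hq.star_eq, hq.mul_self]⟩
  have e₁ := eP_proj (B₁ : Set (Op H)) Ω
  have e₂ := eP_proj (B₂ : Set (Op H)) Ω
  have cj : ∀ u w S : Op H, u * (w * S * star w) * star u = u * w * S * star (u * w) :=
    fun u w S => by simp only [star_mul, mul_assoc]
  have h₀ : (q * eP B₁ Ω * star q, q * eP B₂ Ω * star q) ∈ C := by
    refine ⟨adm_conj h h₁ e₁.isSelfAdjoint e₁.norm_le (e_mem h h₁) (hA hq.1) hq.2.norm_le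
      hq.mul_self, adm_conj h h₂ e₂.isSelfAdjoint e₂.norm_le (e_mem h h₂) (hA hq.1) hq.2.norm_le
      hq.mul_self, fun u hu => ?_⟩
    obtain ⟨y, hy, hh⟩ := hN u hu
    dsimp only
    rw [cj, cj, hu.right hq.2, L_e h h₁ hF (hA hu.1), L_e h h₂ hF (hA hu.1)]
    have s1 := Finset.single_le_sum (f := fun y => ‖eP B₁ Ω ((star y * u) Ω)‖ ^ 2)
      (fun _ _ => by positivity) hy
    have s2 := Finset.single_le_sum (f := fun y => ‖eP B₂ Ω ((star y * u) Ω)‖ ^ 2)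
      (fun _ _ => by positivity) hy
    rcases hh with hh | hh
    · have := pow_le_pow_left₀ hη.le hh 2
      nlinarith [sq_nonneg ‖eP B₂ Ω ((star y * u) Ω)‖]
    · have := pow_le_pow_left₀ hη.le hh 2
      nlinarith [sq_nonneg ‖eP B₁ Ω ((star y * u) Ω)‖]
  obtain ⟨T, ⟨t1, t2, t3⟩, hfin, hmin⟩ := exists_min (ev Ω V V') C
    (fun x hx y hy => ⟨hx.1.mid hy.1, hx.2.1.mid hy.2.1, fun u hu => by
      have k1 := hx.2.2 u hu
      have k2 := hy.2.2 u hu
      have k3 := L_mid Ω F u x.1 y.1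
      have k4 := L_mid Ω F u x.2 y.2
      change η ^ 2 ≤ L Ω F (u * ((2⁻¹ : ℂ) • (x.1 + y.1)) * star u) +
        L Ω F (u * ((2⁻¹ : ℂ) • (x.2 + y.2)) * star u)
      linarith⟩) h₀
    (by
      rw [Phi_ev]
      exact ENNReal.add_ne_top.2
        ⟨ne_top_of_le_ne_top (N_e h h₁ a1 a2)
          (N_conj h h₁ a1 a2 (e_mem h h₁) e₁.isSelfAdjoint (hA hq.1) hq.2.norm_le),
        ne_top_of_le_ne_top (N_e h h₂ b1 b2)
          (N_conj h h₂ b1 b2 (e_mem h h₂) e₂.isSelfAdjoint (hA hq.1) hq.2.norm_le)⟩)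
    (fun x hx hc => by
      obtain ⟨T₁, k1, l1⟩ := adm_lim (hB H) h h₁ a1 a2 (fun n => (hx n).1) fun j => hc (Sum.inl j)
      obtain ⟨T₂, k2, l2⟩ := adm_lim (hB H) h h₂ b1 b2 (fun n => (hx n).2.1) fun j => hc (Sum.inr j)
      refine ⟨(T₁, T₂), ⟨k1, k2, fun u hu => ge_of_tendsto' ((L_lim Ω F u l1).add (L_lim Ω F u l2))
        fun n => (hx n).2.2 u hu⟩, fun j => ?_⟩
      cases j with
      | inl j => exact l1 _
      | inr j => exact l2 _)
  rw [Phi_ev] at hfin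
  have inv : ∀ w, Uni A q w → w * T.1 = T.1 * w ∧ w * T.2 = T.2 * w := fun w hw => by
    have c1 := adm_conj h h₁ t1.sa t1.nm t1.mem (hA hw.1) (hw.norm_le hq.2) (hw.left hq.2)
    have c2 := adm_conj h h₂ t2.sa t2.nm t2.mem (hA hw.1) (hw.norm_le hq.2) (hw.left hq.2)
    have k := hmin (w * T.1 * star w, w * T.2 * star w) ⟨c1, c2, fun u hu => by
      dsimp only
      rw [cj, cj]
      exact t3 _ (uni_mul hq.2 hu hw)⟩ (by
        rw [Phi_ev, Phi_ev]
        exact add_le_add (N_conj h h₁ a1 a2 t1.mem t1.sa (hA hw.1) (hw.norm_le hq.2))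
          (N_conj h h₂ b1 b2 t2.mem t2.sa (hA hw.1) (hw.norm_le hq.2)))
    exact ⟨comm_of_conj hq.2 hw t1.sa t1.sup (ext_fr h h₁ a1 a2 c1.mem t1.mem fun j => k (Sum.inl j)),
      comm_of_conj hq.2 hw t2.sa t2.sup (ext_fr h h₂ b1 b2 c2.mem t2.mem fun j => k (Sum.inr j))⟩
  by_cases z1 : T.1 = 0
  · refine ⟨T.2, fun z2 => ?_, t2.sa, t2.sup, fun u hu => (inv u hu).2,
      Or.inr (finT h h₂ b1 b2 t2.mem t2.sa (ENNReal.add_ne_top.1 hfin).2)⟩
    have := t3 q hqq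
    rw [z1, z2] at this
    simp only [L, mul_zero, zero_mul, zero_apply, inner_zero_right, Complex.zero_re,
      Finset.sum_const_zero, add_zero] at this
    exact absurd this (not_le.2 (by positivity))
  · exact ⟨T.1, z1, t1.sa, t1.sup, fun u hu => (inv u hu).1,
      Or.inl (finT h h₁ a1 a2 t1.mem t1.sa (ENNReal.add_ne_top.1 hfin).1)⟩

end Pool.Agent.MP_ad85d3_an
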