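import Pool.Agent.MP_ad85d3_an.Spec

-- ======== part 0: formerly Pool.Agent.MP_ad85d3_an.Ten
section MrgPart0

/-!
# PROJECT UPF, module TEN: the standard form and the tensor product of two ultrapowers
-/

open Filter Topology
open scoped ComplexOrder InnerProductSpace ComplexConjugate TensorProduct

noncomputable section

namespace Pool.Agent.MP_ad85d3_an

universe u

namespace Ten

set_option linter.unusedSectionVars false

section exist

variable {H : Type u} [NormedAddCommGroup H] [InnerProductSpace ℂ H] [CompleteSpace H]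

theorem span_star {S : Set (Op H)} (hs : ∀ x ∈ S, star x ∈ S) {x : Op H}
    (hx : x ∈ Submodule.span ℂ S) : star x ∈ Submodule.span ℂ S := by
  induction hx using Submodule.span_induction with
  | mem x hx => exact Submodule.subset_span (hs x hx)
  | zero => rw [star_zero]; exact zero_mem _
  | add x y _ _ hx hy => rw [star_add]; exact add_mem hx hy
  | smul c x _ hx => rw [star_smul]; exact Submodule.smul_mem _ _ hx

theorem span_mul {S : Set (Op H)} (hm : ∀ x ∈ S, ∀ y ∈ S, x * y ∈ S) {x y : Op H}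
    (hx : x ∈ Submodule.span ℂ S) (hy : y ∈ Submodule.span ℂ S) :
    x * y ∈ Submodule.span ℂ S := by
  induction hx using Submodule.span_induction with
  | mem x hx =>
    induction hy using Submodule.span_induction with
    | mem y hy => exact Submodule.subset_span (hm x hx y hy)
    | zero => rw [mul_zero]; exact zero_mem _
    | add y z _ _ hy hz => rw [mul_add]; exact add_mem hy hz
    | smul c y _ hy => rw [mul_smul_comm]; exact Submodule.smul_mem _ _ hy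
  | zero => rw [zero_mul]; exact zero_mem _
  | add x z _ _ hx hz => rw [add_mul]; exact add_mem hx hz
  | smul c x _ hx => rw [smul_mul_assoc]; exact Submodule.smul_mem _ _ hx

theorem span_tr {S : Set (Op H)} {τ : Op H →ₗ[ℂ] ℂ} (ht : ∀ x ∈ S, ∀ y ∈ S, τ (x * y) = τ (y * x))
    {x y : Op H} (hx : x ∈ Submodule.span ℂ S) (hy : y ∈ Submodule.span ℂ S) :
    τ (x * y) = τ (y * x) := by
  induction hx using Submodule.span_induction with
  | mem x hx =>
    induction hy using Submodule.span_induction with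
    | mem y hy => exact ht x hx y hy
    | zero => rw [mul_zero, zero_mul]
    | add y z _ _ hy hz => rw [mul_add, add_mul, map_add, map_add, hy, hz]
    | smul c y _ hy => rw [mul_smul_comm, smul_mul_assoc, map_smul, map_smul, hy]
  | zero => rw [mul_zero, zero_mul]
  | add x z _ _ hx hz => rw [mul_add, add_mul, map_add, map_add, hx, hz]
  | smul c x _ hx => rw [mul_smul_comm, smul_mul_assoc, map_smul, map_smul, hx]

/-- the adjoint on a star closed subspace -/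
def starEq (V : Submodule ℂ (Op H)) (hV : ∀ x ∈ V, star x ∈ V) : V ≃ₛₗ[starRingEnd ℂ] V where
  toFun x := ⟨star x.1, hV _ x.2⟩
  invFun x := ⟨star x.1, hV _ x.2⟩
  map_add' x y := Subtype.ext (star_add x.1 y.1)
  map_smul' c x := Subtype.ext (star_smul c x.1)
  left_inv x := Subtype.ext (star_star x.1)
  right_inv x := Subtype.ext (star_star x.1)

/-- evaluation at `Ω` -/
def ev (V : Submodule ℂ (Op H)) (Ω : H) : V →ₗ[ℂ] H where
  toFun x := x.1 Ω
  map_add' _ _ := rfl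
  map_smul' _ _ := rfl

theorem kap_star' {J : H ≃ₗᵢ⋆[ℂ] H} (h : ∀ ξ, J (J ξ) = ξ) (x : Op H) :
    kap J (star x) = star (kap J x) := by
  rw [ContinuousLinearMap.star_eq_adjoint (kap J x), ContinuousLinearMap.eq_adjoint_iff]
  intro ξ η
  rw [kap_apply, kap_apply, ← h η, inner_J, h, ← h ξ, inner_J, h,
    ContinuousLinearMap.star_eq_adjoint, ContinuousLinearMap.adjoint_inner_right]

theorem exist_aux (Ω : H) (V : Submodule ℂ (Op H)) (hs : ∀ x ∈ V, star x ∈ V)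
    (ht : ∀ x ∈ V, ∀ y ∈ V, vec Ω (x * y) = vec Ω (y * x)) (hd : DenseRange (ev V Ω)) :
    ∃ J : H ≃ₗᵢ⋆[ℂ] H, (∀ x ∈ V, J (x Ω) = star x Ω) ∧ ∀ ξ, J (J ξ) = ξ := by
  have hn : ∀ x : V, ‖ev V Ω (starEq V hs x)‖ = ‖ev V Ω x‖ := fun x => by
    have h1 := norm_orb_sq Ω (star x.1)
    rw [ht _ (hs _ (hs _ x.2)) _ (hs _ x.2), star_star, ← norm_orb_sq] at h1
    exact (sq_eq_sq₀ (norm_nonneg _) (norm_nonneg _)).1 h1
  have key : ∀ x ∈ V, (starEq V hs).extendOfIsometry (ev V Ω) (ev V Ω) hd hd hn (x Ω) =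
      star x Ω := fun x hx =>
    (starEq V hs).extendOfIsometry_eq (ev V Ω) (ev V Ω) hd hd hn ⟨x, hx⟩
  refine ⟨_, key, fun ξ => ?_⟩
  refine hd.induction_on ξ (isClosed_eq (by fun_prop) continuous_id) fun x => ?_
  change _ = x.1 Ω
  rw [show ev V Ω x = x.1 Ω from rfl, key _ x.2, key _ (hs _ x.2), star_star]

end exist

section tensor

variable {H K : Type u} [NormedAddCommGroup H] [InnerProductSpace ℂ H] [CompleteSpace H]
  [NormedAddCommGroup K] [InnerProductSpace ℂ K] [CompleteSpace K]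

/-- the operator `a ⊗ b` -/
def tm (a : Op H) (b : Op K) : Op (HTensor H K) := (TensorProduct.mapL a b).completion

/-- the vector `ξ ⊗ η` -/
def tv (ξ : H) (η : K) : HTensor H K := ((ξ ⊗ₜ[ℂ] η : H ⊗[ℂ] K) : HTensor H K)

theorem tm_coe (a : Op H) (b : Op K) (x : H ⊗[ℂ] K) :
    tm a b (x : HTensor H K) = (TensorProduct.mapL a b x : HTensor H K) :=
  ContinuousLinearMap.completion_apply_coe _ _

theorem tm_tv (a : Op H) (b : Op K) (ξ : H) (η : K) : tm a b (tv ξ η) = tv (a ξ) (b η) :=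
  tm_coe a b _

theorem inner_tv (ξ ξ' : H) (η η' : K) : ⟪tv ξ η, tv ξ' η'⟫_ℂ = ⟪ξ, ξ'⟫_ℂ * ⟪η, η'⟫_ℂ := by
  rw [tv, tv, UniformSpace.Completion.inner_coe, TensorProduct.inner_tmul]

theorem norm_tv (ξ : H) (η : K) : ‖tv ξ η‖ = ‖ξ‖ * ‖η‖ := by
  rw [tv, UniformSpace.Completion.norm_coe, TensorProduct.norm_tmul]

theorem continuous_tv : Continuous fun p : H × K => tv p.1 p.2 :=
  (UniformSpace.Completion.continuous_coe _).comp TensorProduct.continuous_tmul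

theorem dense_tv {A : Set H} {B : Set K} (hA : Dense A) (hB : Dense B) :
    Dense (Submodule.span ℂ {ζ : HTensor H K | ∃ a ∈ A, ∃ b ∈ B, ζ = tv a b} :
      Set (HTensor H K)) := by
  set W := Submodule.span ℂ {ζ : HTensor H K | ∃ a ∈ A, ∃ b ∈ B, ζ = tv a b} with hW
  have h1 : ∀ p : H × K, tv p.1 p.2 ∈ W.topologicalClosure := fun p => by
    refine (hA.prod hB).induction (P := fun p => tv p.1 p.2 ∈ W.topologicalClosure) ?_
      (W.isClosed_topologicalClosure.preimage continuous_tv) p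
    rintro ⟨a, b⟩ ⟨ha, hb⟩
    exact W.le_topologicalClosure (Submodule.subset_span ⟨a, ha, b, hb, rfl⟩)
  have h2 : ∀ x : H ⊗[ℂ] K, (x : HTensor H K) ∈ W.topologicalClosure := fun x => by
    induction x using TensorProduct.induction_on with
    | zero => rw [UniformSpace.Completion.coe_zero]; exact zero_mem _
    | tmul a b => exact h1 (a, b)
    | add x y hx hy => rw [UniformSpace.Completion.coe_add]; exact add_mem hx hy
  intro ζ
  induction ζ using UniformSpace.Completion.induction_on with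
  | hp => exact isClosed_closure
  | ih x => exact h2 x

theorem tv_ext {S T : Op (HTensor H K)} (h : ∀ ξ η, S (tv ξ η) = T (tv ξ η)) : S = T :=
  ContinuousLinearMap.ext_on
    (s := {ζ : HTensor H K | ∃ a ∈ Set.univ, ∃ b ∈ Set.univ, ζ = tv a b})
    (dense_tv dense_univ dense_univ) (by rintro _ ⟨a, -, b, -, rfl⟩; exact h a b)

theorem tv_add_left (ξ ξ' : H) (η : K) : tv (ξ + ξ') η = tv ξ η + tv ξ' η := by
  rw [tv, TensorProduct.add_tmul, UniformSpace.Completion.coe_add]; rfl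

theorem tv_add_right (ξ : H) (η η' : K) : tv ξ (η + η') = tv ξ η + tv ξ η' := by
  rw [tv, TensorProduct.tmul_add, UniformSpace.Completion.coe_add]; rfl

theorem tv_smul_left (c : ℂ) (ξ : H) (η : K) : tv (c • ξ) η = c • tv ξ η := by
  rw [tv, ← TensorProduct.smul_tmul', UniformSpace.Completion.coe_smul]; rfl

theorem tv_smul_right (c : ℂ) (ξ : H) (η : K) : tv ξ (c • η) = c • tv ξ η := by
  rw [tv, TensorProduct.tmul_smul, UniformSpace.Completion.coe_smul]; rfl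

theorem tm_mul (a a' : Op H) (b b' : Op K) : tm (a * a') (b * b') = tm a b * tm a' b' :=
  tv_ext fun ξ η => by rw [mul_ap, tm_tv, tm_tv, tm_tv, mul_ap, mul_ap]

theorem tm_one : tm (1 : Op H) (1 : Op K) = 1 := tv_ext fun ξ η => by rw [tm_tv]; rfl

theorem tm_add_left (a a' : Op H) (b : Op K) : tm (a + a') b = tm a b + tm a' b :=
  tv_ext fun ξ η => by rw [add_apply, tm_tv, tm_tv, tm_tv, add_apply, tv_add_left]

theorem tm_add_right (a : Op H) (b b' : Op K) : tm a (b + b') = tm a b + tm a b' :=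
  tv_ext fun ξ η => by rw [add_apply, tm_tv, tm_tv, tm_tv, add_apply, tv_add_right]

theorem tm_smul_left (c : ℂ) (a : Op H) (b : Op K) : tm (c • a) b = c • tm a b :=
  tv_ext fun ξ η => by rw [smul_apply, tm_tv, tm_tv, smul_apply, tv_smul_left]

theorem tm_smul_right (c : ℂ) (a : Op H) (b : Op K) : tm a (c • b) = c • tm a b :=
  tv_ext fun ξ η => by rw [smul_apply, tm_tv, tm_tv, smul_apply, tv_smul_right]

theorem inner_ext {ζ ζ' : HTensor H K} (h : ∀ ξ η, ⟪tv ξ η, ζ⟫_ℂ = ⟪tv ξ η, ζ'⟫_ℂ) : ζ = ζ' := by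
  have : innerSL ℂ ζ = innerSL ℂ ζ' := ContinuousLinearMap.ext_on
    (s := {ζ : HTensor H K | ∃ a ∈ Set.univ, ∃ b ∈ Set.univ, ζ = tv a b})
    (dense_tv dense_univ dense_univ) (by
      rintro _ ⟨a, -, b, -, rfl⟩
      rw [innerSL_apply_apply, innerSL_apply_apply, ← inner_conj_symm, h, inner_conj_symm])
  exact ext_inner_right ℂ fun v => congrArg (fun f : HTensor H K →L[ℂ] ℂ => f v) this

theorem tm_star (a : Op H) (b : Op K) : tm (star a) (star b) = star (tm a b) :=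
  tv_ext fun ξ η => inner_ext fun ξ' η' => by
    rw [tm_tv, inner_tv, ContinuousLinearMap.star_eq_adjoint, ContinuousLinearMap.star_eq_adjoint,
      ContinuousLinearMap.star_eq_adjoint, ContinuousLinearMap.adjoint_inner_right,
      ContinuousLinearMap.adjoint_inner_right, ContinuousLinearMap.adjoint_inner_right, tm_tv,
      inner_tv]

theorem vec_tm (ξ : H) (η : K) (a : Op H) (b : Op K) :
    vec (tv ξ η) (tm a b) = vec ξ a * vec η b := by
  rw [vec_apply, tm_tv, inner_tv, vec_apply, vec_apply]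

variable (K) in
/-- `a ↦ a ⊗ 1` -/
def piL : Op H →⋆ₙₐ[ℂ] Op (HTensor H K) where
  toFun a := tm a 1
  map_smul' c a := tm_smul_left c a 1
  map_zero' := by simpa only [zero_smul] using tm_smul_left (0 : ℂ) (0 : Op H) (1 : Op K)
  map_add' a a' := tm_add_left a a' 1
  map_mul' a a' := by rw [← tm_mul, one_mul]
  map_star' a := by rw [← tm_star, star_one]

variable (H) in
/-- `b ↦ 1 ⊗ b` -/
def piR : Op K →⋆ₙₐ[ℂ] Op (HTensor H K) where
  toFun b := tm 1 b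
  map_smul' c b := tm_smul_right c 1 b
  map_zero' := by simpa only [zero_smul] using tm_smul_right (0 : ℂ) (1 : Op H) (0 : Op K)
  map_add' b b' := tm_add_right 1 b b'
  map_mul' b b' := by rw [← tm_mul, one_mul]
  map_star' b := by rw [← tm_star, star_one]

theorem piL_apply (a : Op H) : piL K a = tm a 1 := rfl

theorem piR_apply (b : Op K) : piR H b = tm 1 b := rfl

theorem tm_mem {A : NonUnitalStarSubalgebra ℂ (Op H)} {B : NonUnitalStarSubalgebra ℂ (Op K)}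
    {a : Op H} {b : Op K} (ha : a ∈ A) (hb : b ∈ B) : tm a b ∈ vnTensor A B := by
  have e : vnTensor A B = vn (vn {T | ∃ a ∈ A, ∃ b ∈ B, T = tm a b} : Set (Op (HTensor H K))) :=
    rfl
  rw [e]
  exact mem_vn.2 fun t h' =>
    ⟨((mem_vn.1 h') _ ⟨a, ha, b, hb, rfl⟩).1.symm,
      ((mem_vn.1 (star_mem h')) _ ⟨a, ha, b, hb, rfl⟩).1.symm⟩

theorem std_tensor (hE : ExistStmt.{u}) {A : NonUnitalStarSubalgebra ℂ (Op H)}
    {B : NonUnitalStarSubalgebra ℂ (Op K)} {ξ : H} {η : K} (hξ : ‖ξ‖ = 1) (hη : ‖η‖ = 1)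
    (hA1 : 1 ∈ A) (hB1 : 1 ∈ B) (tA : ∀ x ∈ A, ∀ y ∈ A, vec ξ (x * y) = vec ξ (y * x))
    (tB : ∀ x ∈ B, ∀ y ∈ B, vec η (x * y) = vec η (y * x))
    (dA : Dense ((fun x : Op H => x ξ) '' A)) (dB : Dense ((fun x : Op K => x η) '' B)) :
    ∃ J, Std (tv ξ η) J (vnTensor A B) := by
  refine hE (HTensor H K) (tv ξ η) {T | ∃ a ∈ A, ∃ b ∈ B, T = tm a b}
    (by rw [norm_tv, hξ, hη, one_mul]) ⟨1, hA1, 1, hB1, tm_one.symm⟩ ?_ ?_ ?_ ?_
  · rintro _ ⟨a, ha, b, hb, rfl⟩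
    exact ⟨_, star_mem ha, _, star_mem hb, (tm_star a b).symm⟩
  · rintro _ ⟨a, ha, b, hb, rfl⟩ _ ⟨a', ha', b', hb', rfl⟩
    exact ⟨_, mul_mem ha ha', _, mul_mem hb hb', (tm_mul a a' b b').symm⟩
  · rintro _ ⟨a, ha, b, hb, rfl⟩ _ ⟨a', ha', b', hb', rfl⟩
    rw [← tm_mul, ← tm_mul, vec_tm, vec_tm, tA a ha a' ha', tB b hb b' hb']
  · refine (dense_tv dA dB).mono (Submodule.span_mono ?_)
    rintro _ ⟨_, ⟨a, ha, rfl⟩, _, ⟨b, hb, rfl⟩, rfl⟩
    exact ⟨tm a b, ⟨a, ha, b, hb, rfl⟩, tm_tv a b ξ η⟩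

end tensor

section gns

variable {X : Type u} [NonUnitalCStarAlgebra X] [PartialOrder X] [StarOrderedRing X]
  (f : X →ₚ[ℂ] ℂ)

/-- the class of `x` in the GNS space -/
def cl (x : X) : f.GNS := (f.toPreGNS x : f.GNS)

theorem gns_cl (x y : X) : f.gnsNonUnitalStarAlgHom x (cl f y) = cl f (x * y) :=
  f.gnsNonUnitalStarAlgHom_apply_coe

theorem inner_cl (x y : X) : ⟪cl f x, cl f y⟫_ℂ = f (star x * y) :=
  UniformSpace.Completion.inner_coe _ _

theorem dense_cl : DenseRange (cl f) := UniformSpace.Completion.denseRange_coe (α := f.PreGNS)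

theorem gns_facts {e : X} (h1 : ∀ x, e * x = x) (h2 : ∀ x, x * e = x) (h3 : star e = e)
    (h4 : f e = 1) : ‖cl f e‖ = 1 ∧ f.gnsNonUnitalStarAlgHom e = 1 ∧
      (∀ x, vec (cl f e) (f.gnsNonUnitalStarAlgHom x) = f x) ∧
      DenseRange fun x => f.gnsNonUnitalStarAlgHom x (cl f e) := by
  refine ⟨?_, ?_, fun x => ?_, ?_⟩
  · have := inner_cl f e e
    rw [h3, h1, h4, inner_self_eq_norm_sq_to_K] at this
    have h5 : ‖cl f e‖ ^ 2 = 1 := by
      have := congrArg Complex.re this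
      rwa [← RCLike.ofReal_pow, Complex.one_re] at this
    exact (pow_eq_one_iff_of_nonneg (norm_nonneg _) two_ne_zero).1 h5
  · refine ContinuousLinearMap.ext fun ζ => ?_
    refine (dense_cl f).induction_on ζ (isClosed_eq (by fun_prop) (by fun_prop)) fun x => ?_
    rw [gns_cl, h1]; rfl
  · rw [vec_apply, gns_cl, inner_cl, h3, h2, h1]
  · simpa only [gns_cl, h2] using dense_cl f

end gns

section pair

variable {H K : Type u} [NormedAddCommGroup H] [InnerProductSpace ℂ H] [CompleteSpace H]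
  [NormedAddCommGroup K] [InnerProductSpace ℂ K] [CompleteSpace K]
  {X Y : Type u} [NonUnitalCStarAlgebra X] [NonUnitalCStarAlgebra Y]

theorem pair_aux (hE : ExistStmt.{u}) (ρ : X →⋆ₙₐ[ℂ] Op H) (ρ' : Y →⋆ₙₐ[ℂ] Op K) {ξ : H} {η : K}
    {e : X} {e' : Y} {f : X → ℂ} {f' : Y → ℂ} (hξ : ‖ξ‖ = 1) (hη : ‖η‖ = 1) (he : ρ e = 1)
    (he' : ρ' e' = 1) (hf : ∀ x, vec ξ (ρ x) = f x) (hf' : ∀ y, vec η (ρ' y) = f' y)
    (tf : ∀ x y, f (x * y) = f (y * x)) (tf' : ∀ x y, f' (x * y) = f' (y * x))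
    (hd : DenseRange fun x => ρ x ξ) (hd' : DenseRange fun y => ρ' y η) :
    ∃ (Ω : HTensor H K) (J : HTensor H K ≃ₗᵢ⋆[ℂ] HTensor H K)
      (π : X →⋆ₙₐ[ℂ] Op (HTensor H K)) (π' : Y →⋆ₙₐ[ℂ] Op (HTensor H K)),
      Std Ω J (vnTensor (NonUnitalStarAlgHom.range ρ) (NonUnitalStarAlgHom.range ρ')) ∧
      (π e = 1 ∧ (∀ x, π x ∈ vnTensor (NonUnitalStarAlgHom.range ρ)
        (NonUnitalStarAlgHom.range ρ')) ∧ ∀ x, vec Ω (π x) = f x) ∧
      (π' e' = 1 ∧ (∀ y, π' y ∈ vnTensor (NonUnitalStarAlgHom.range ρ)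
        (NonUnitalStarAlgHom.range ρ')) ∧ ∀ y, vec Ω (π' y) = f' y) ∧
      (∀ x y, π x * π' y = π' y * π x) ∧
      (∀ x y, vec Ω (π x * π' y) = vec Ω (π x) * vec Ω (π' y)) ∧
      Dense (Submodule.span ℂ {ζ : HTensor H K | ∃ x y, ζ = (π x * π' y) Ω} :
        Set (HTensor H K)) := by
  have h1 : (1 : Op H) ∈ NonUnitalStarAlgHom.range ρ := ⟨e, he⟩
  have h1' : (1 : Op K) ∈ NonUnitalStarAlgHom.range ρ' := ⟨e', he'⟩
  have v1 : vec ξ 1 = 1 := by simp [vec_apply, hξ]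
  have v1' : vec η 1 = 1 := by simp [vec_apply, hη]
  obtain ⟨J, hJ⟩ := std_tensor hE hξ hη h1 h1'
    (by
      rintro _ ⟨x, rfl⟩ _ ⟨y, rfl⟩
      change vec ξ (ρ x * ρ y) = vec ξ (ρ y * ρ x)
      rw [← map_mul, ← map_mul, hf, hf, tf])
    (by
      rintro _ ⟨x, rfl⟩ _ ⟨y, rfl⟩
      change vec η (ρ' x * ρ' y) = vec η (ρ' y * ρ' x)
      rw [← map_mul, ← map_mul, hf', hf', tf'])
    (hd.mono (by rintro _ ⟨x, rfl⟩; exact ⟨ρ x, ⟨x, rfl⟩, rfl⟩))
    (hd'.mono (by rintro _ ⟨y, rfl⟩; exact ⟨ρ' y, ⟨y, rfl⟩, rfl⟩))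
  have a1 : ∀ x, ((piL K).comp ρ) x = tm (ρ x) 1 := fun _ => rfl
  have a2 : ∀ y, ((piR H).comp ρ') y = tm 1 (ρ' y) := fun _ => rfl
  refine ⟨tv ξ η, J, (piL K).comp ρ, (piR H).comp ρ', hJ, ⟨?_, fun x => ?_, fun x => ?_⟩,
    ⟨?_, fun y => ?_, fun y => ?_⟩, fun x y => ?_, fun x y => ?_, ?_⟩
  · rw [a1, he, tm_one]
  · rw [a1]; exact tm_mem ⟨x, rfl⟩ h1'
  · rw [a1, vec_tm, v1', mul_one, hf]
  · rw [a2, he', tm_one]
  · rw [a2]; exact tm_mem h1 ⟨y, rfl⟩
  · rw [a2, vec_tm, v1, one_mul, hf']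
  · rw [a1, a2, ← tm_mul, ← tm_mul, one_mul, mul_one, one_mul, mul_one]
  · rw [a1, a2, ← tm_mul, vec_tm, vec_tm, vec_tm, v1, v1', one_mul, mul_one, one_mul, mul_one]
  · refine (dense_tv hd hd').mono (Submodule.span_mono ?_)
    rintro _ ⟨_, ⟨x, rfl⟩, _, ⟨y, rfl⟩, rfl⟩
    refine ⟨x, y, ?_⟩
    rw [a1, a2, ← tm_mul, mul_one, one_mul, tm_tv]

end pair

section ultra

variable {A : Type u} [NonUnitalCStarAlgebra A]

theorem ultra_facts (τ : A →L[ℂ] ℂ) (hτ : ∀ x, 0 ≤ τ (star x * x)) {e : A} (h1 : ∀ x, e * x = x)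
    (h2 : ∀ x, x * e = x) (h3 : star e = e) (h4 : τ e = 1)
    (htr : ∀ x y, τ (x * y) = τ (y * x)) (U : Ultrafilter ℕ) :
    (‖cl (ultraTrace τ hτ U) (Linf.const e)‖ = 1 ∧
      (ultraTrace τ hτ U).gnsNonUnitalStarAlgHom (Linf.const e) = 1 ∧
      (∀ x, vec (cl (ultraTrace τ hτ U) (Linf.const e))
        ((ultraTrace τ hτ U).gnsNonUnitalStarAlgHom x) = ultraTrace τ hτ U x) ∧
      DenseRange fun x => (ultraTrace τ hτ U).gnsNonUnitalStarAlgHom x
        (cl (ultraTrace τ hτ U) (Linf.const e))) ∧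
      ∀ x y, ultraTrace τ hτ U (x * y) = ultraTrace τ hτ U (y * x) := by
  refine ⟨gns_facts _ (fun x => BoundedContinuousFunction.ext fun n => h1 _)
    (fun x => BoundedContinuousFunction.ext fun n => h2 _)
    (BoundedContinuousFunction.ext fun n => h3) ?_, fun x y => ?_⟩
  · refine tendsto_nhds_unique (tendsto_ultraTrace τ hτ U _) ?_
    rw [← h4]
    exact tendsto_const_nhds
  · exact tendsto_nhds_unique (tendsto_ultraTrace τ hτ U (x * y))
      ((tendsto_ultraTrace τ hτ U (y * x)).congr fun n => htr _ _)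

end ultra

section side

variable {H H' K K' : Type u} [NormedAddCommGroup H] [InnerProductSpace ℂ H] [CompleteSpace H]
  [NormedAddCommGroup H'] [InnerProductSpace ℂ H'] [CompleteSpace H']
  [NormedAddCommGroup K] [InnerProductSpace ℂ K] [CompleteSpace K]
  [NormedAddCommGroup K'] [InnerProductSpace ℂ K'] [CompleteSpace K']

/-- `A` is the image of a cyclic trace preserving representation -/
structure Side (N : TwoOne K) (U : Ultrafilter ℕ) (A : NonUnitalStarSubalgebra ℂ (Op H)) :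
    Prop where
  ex : ∃ (ρ : Linf N.M.toStarSubalgebra →⋆ₙₐ[ℂ] Op H) (ξ : H),
    A = NonUnitalStarAlgHom.range ρ ∧ (‖ξ‖ = 1 ∧ ρ (Linf.const 1) = 1 ∧
      (∀ x, vec ξ (ρ x) = ultraTrace N.τ N.pos U x) ∧ DenseRange fun x => ρ x ξ) ∧
      ∀ x y, ultraTrace N.τ N.pos U (x * y) = ultraTrace N.τ N.pos U (y * x)

theorem ultrapower_eq {A : Type u} [NonUnitalCStarAlgebra A] (τ : A →L[ℂ] ℂ)
    (hτ : ∀ x, 0 ≤ τ (star x * x)) (U : Ultrafilter ℕ) :
    ultrapower τ hτ U = NonUnitalStarAlgHom.range (ultraTrace τ hτ U).gnsNonUnitalStarAlgHom := rfl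

theorem ultra_eq (N : TwoOne K) (U : Ultrafilter ℕ) : N.ultra U = ultrapower N.τ N.pos U := rfl

theorem side (N : TwoOne K) (U : Ultrafilter ℕ) : Side N U (N.ultra U) :=
  ⟨_, _, (ultra_eq N U).trans (ultrapower_eq N.τ N.pos U),
    ultra_facts N.τ N.pos (e := 1) (fun x => Subtype.ext (one_mul x.1))
      (fun x => Subtype.ext (mul_one x.1)) (Subtype.ext (star_one _)) N.one N.tracial U⟩

theorem pair_two (hE : ExistStmt.{u}) {N : TwoOne K} {N' : TwoOne K'} {U : Ultrafilter ℕ}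
    {A : NonUnitalStarSubalgebra ℂ (Op H)} {A' : NonUnitalStarSubalgebra ℂ (Op H')}
    (h : Side N U A) (h' : Side N' U A') :
    ∃ Ω J π π', Std Ω J (vnTensor A A') ∧ Pair N N' U Ω (vnTensor A A') π π' := by
  obtain ⟨ρ, ξ, rfl, ⟨a1, a2, a3, a4⟩, a5⟩ := h
  obtain ⟨ρ', η, rfl, ⟨b1, b2, b3, b4⟩, b5⟩ := h'
  obtain ⟨Ω, J, π, π', h1, ⟨h2, h3, h4⟩, ⟨h5, h6, h7⟩, h8, h9, h10⟩ :=
    pair_aux hE ρ ρ' a1 b1 a2 b2 a3 b3 a5 b5 a4 b4
  exact ⟨Ω, J, π, π', h1, ⟨h2, h3, h4⟩, ⟨h5, h6, h7⟩, h8, h9, h10⟩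

end side

end Ten

open Ten in
theorem exist_stmt : ExistStmt.{u} := by
  intro H _ _ _ Ω S hΩ h1 hs hm ht hd
  set V := Submodule.span ℂ S with hV
  have hsV : ∀ x ∈ V, star x ∈ V := fun x hx => span_star hs hx
  have hmV : ∀ x ∈ V, ∀ y ∈ V, x * y ∈ V := fun x hx y hy => span_mul hm hx hy
  have h1V : (1 : Op H) ∈ V := Submodule.subset_span h1
  have hd' : DenseRange (ev V Ω) := by
    refine hd.mono ?_
    change _ ⊆ (LinearMap.range (ev V Ω) : Set H)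
    refine Submodule.span_le.2 ?_
    rintro _ ⟨x, hx, rfl⟩
    exact ⟨⟨x, Submodule.subset_span hx⟩, rfl⟩
  obtain ⟨J, hJ, hJJ⟩ := exist_aux Ω V hsV (fun x hx y hy => span_tr ht hx hy) hd'
  have ko : ∀ x ∈ V, ∀ y ∈ V, kap J x (y Ω) = (y * star x) Ω := fun x hx y hy => by
    rw [kap_apply, hJ y hy, ← mul_ap, hJ _ (hmV _ hx _ (hsV _ hy)), star_mul, star_star]
  have kc : ∀ x ∈ V, ∀ y ∈ V, y * kap J x = kap J x * y := fun x hx y hy => by
    refine ContinuousLinearMap.ext fun ξ => ?_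
    refine hd'.induction_on ξ (isClosed_eq (by fun_prop) (by fun_prop)) fun z => ?_
    rw [show ev V Ω z = z.1 Ω from rfl, mul_ap, ko x hx _ z.2, mul_ap (kap J x), ← mul_ap y z.1,
      ko x hx _ (hmV _ hy _ z.2), mul_assoc]
    rfl
  have kv : ∀ x ∈ V, kap J x ∈ vn S := fun x hx => mem_vn.2 fun s h =>
    ⟨kc x hx s (Submodule.subset_span h), kc x hx _ (Submodule.subset_span (hs s h))⟩
  have hVP : ∀ x ∈ V, x ∈ vn (vn S : Set (Op H)) := fun x hx => by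
    have : V ≤ (vn (vn S : Set (Op H))).toStarSubalgebra.toSubalgebra.toSubmodule :=
      Submodule.span_le.2 fun s h => mem_vn.2 fun t h' =>
        ⟨((mem_vn.1 h') s h).1.symm, ((mem_vn.1 (star_mem h')) s h).1.symm⟩
    exact this hx
  refine ⟨J, hΩ, hd'.mono ?_, hJJ, fun x hx => ?_⟩
  · rintro _ ⟨x, rfl⟩
    exact ⟨x.1, hVP _ x.2, rfl⟩
  · have e : ∀ η : H, ⟪η, J (x Ω)⟫_ℂ = ⟪η, star x Ω⟫_ℂ := fun η => by
      refine hd'.induction_on η (isClosed_eq (by fun_prop) (by fun_prop)) fun y => ?_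
      have e1 : y.1 Ω = kap J (star y.1) Ω := by
        have := ko _ (hsV _ y.2) 1 h1V
        rw [star_star, one_mul] at this
        exact this.symm
      have e2 : star y.1 Ω = kap J y.1 Ω := by
        have := ko _ y.2 1 h1V
        rw [one_mul] at this
        exact this.symm
      have e3 : x * kap J (star y.1) = kap J (star y.1) * x :=
        ((mem_vn.1 hx) _ (kv _ (hsV _ y.2))).1.symm
      rw [show ev V Ω y = y.1 Ω from rfl]
      calc ⟪y.1 Ω, J (x Ω)⟫_ℂ = ⟪J (star y.1 Ω), J (x Ω)⟫_ℂ := by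
            rw [hJ _ (hsV _ y.2), star_star]
        _ = ⟪x Ω, kap J y.1 Ω⟫_ℂ := by rw [inner_J, e2]
        _ = ⟪(kap J (star y.1) * x) Ω, Ω⟫_ℂ := by
            rw [mul_ap, kap_star' hJJ, ContinuousLinearMap.star_eq_adjoint,
              ContinuousLinearMap.adjoint_inner_left]
        _ = ⟪y.1 Ω, star x Ω⟫_ℂ := by
            rw [← e3, mul_ap, ← e1, ContinuousLinearMap.star_eq_adjoint,
              ContinuousLinearMap.adjoint_inner_right]
    exact ext_inner_left ℂ e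

end Pool.Agent.MP_ad85d3_an

end
end MrgPart0

-- ======== part 1: formerly Pool.Agent.MP_ad85d3_an.Core
section MrgPart1

/-!
# PROJECT UPF: the glue
-/

open Filter Topology
open scoped ComplexOrder InnerProductSpace ComplexConjugate

noncomputable section

namespace Pool.Agent.MP_ad85d3_an

universe u

variable {H K K' : Type u} [NormedAddCommGroup H] [InnerProductSpace ℂ H] [CompleteSpace H]
  [NormedAddCommGroup K] [InnerProductSpace ℂ K] [CompleteSpace K]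
  [NormedAddCommGroup K'] [InnerProductSpace ℂ K'] [CompleteSpace K']

namespace Core

/-- `A` is isomorphic to the corners of `B` of trace `t` -/
def AI (Ω : H) (A B : VonNeumannAlgebra H) (t : ℝ) : Prop :=
  ∀ (q : Op H) (hq : Pj B q), vec Ω q = t →
    Nonempty (cor A (IsStarProjection.one (Op H)) ≃⋆ₐ[ℂ] cor B hq.2)

/-- a saturated diffuse factor -/
structure Good (Ω : H) (A : VonNeumannAlgebra H) : Prop where
  fac : Fac A
  dif : Dif A 1
  sat : Sat A Ω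

theorem ai_of_link (hM : AmpStmt.{u}) {Ω : H} {J : H ≃ₗᵢ⋆[ℂ] H}
    {P A A' B B' : VonNeumannAlgebra H} (h : Std Ω J P) (hA : Tens Ω P A A') (hB : Tens Ω P B B')
    (gA : Good Ω A) (gB : Good Ω B) {v p c a b : Op H} (hv : v ∈ P) (h0 : v ≠ 0) (ha : a ∈ A')
    (hb : b ∈ B') (l : Link A B v p c a b) {t : ℝ} (ht : t * vec Ω p = vec Ω c) : AI Ω A B t := by
  intro q hq e
  obtain ⟨w, hw⟩ := (hM H).amp P A B (vec Ω) v p c a b q h.isTr hA.le₁ hB.le₁ gA.fac gB.fac gA.dif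
    hv h0 (hA.le₂ ha) (hB.le₂ hb) (fun x hx => hA.indep x hx a ha) (fun x hx => hB.indep x hx b hb)
    l hq (by rw [e, ht])
  exact (hM H).iso A B w 1 q a b hw

theorem half (hE : EndStmt.{u}) (hM : AmpStmt.{u}) {Ω : H} {J : H ≃ₗᵢ⋆[ℂ] H}
    {P A₁ A₂ B₁ B₂ : VonNeumannAlgebra H} (h : Std Ω J P) (hA : Tens Ω P A₁ A₂)
    (hB : Tens Ω P B₁ B₂) (a₁ : Good Ω A₁) (a₂ : Good Ω A₂) (b₁ : Good Ω B₁) (b₂ : Good Ω B₂)
    (hR : Rig Ω P A₂ B₁ B₂) (he : Emb P A₁ B₁) : ∃ t : ℝ, 0 < t ∧ t ≤ 1 ∧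
      ((AI Ω A₁ B₁ t ∧ AI Ω B₂ A₂ t) ∨ (AI Ω B₁ A₁ t ∧ AI Ω A₂ B₂ t)) := by
  obtain ⟨v, p, c, a, b, hv, h0, l₁, l₂⟩ :=
    hE H Ω J P A₁ A₂ B₁ B₂ h hA hB a₁.fac a₂.fac b₂.fac a₁.dif b₂.dif hR he
  have hv' : star v ∈ P := star_mem hv
  have h0' : star v ≠ 0 := star_ne_zero.2 h0
  have e : vec Ω p * vec Ω a = vec Ω c * vec Ω b := by
    rw [← hA.indep p l₁.pA.1 a l₂.pA.1, ← hB.indep c l₁.cB.1 b l₂.cB.1, ← l₁.left, ← l₁.right]
    exact h.isTr.comm _ hv _ hv'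
  have n1 : p * a ≠ 0 := by
    rw [← l₁.left]; exact fun e => h0 (CStarRing.mul_star_self_eq_zero_iff v |>.1 e)
  have n2 : c * b ≠ 0 := by
    rw [← l₁.right]; exact fun e => h0 (CStarRing.star_mul_self_eq_zero_iff v |>.1 e)
  have pp := l₁.pA.mono hA.le₁
  have pa := l₂.pA.mono hA.le₂
  have pc := l₁.cB.mono hB.le₁
  have pb := l₂.cB.mono hB.le₂
  have tp := h.isTr.proj_pos pp (left_ne_zero_of_mul n1)
  have ta := h.isTr.proj_pos pa (right_ne_zero_of_mul n1)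
  have tc := h.isTr.proj_pos pc (left_ne_zero_of_mul n2)
  have tb := h.isTr.proj_pos pb (right_ne_zero_of_mul n2)
  have rp := (h.isTr.proj_re pp).1
  have ra := (h.isTr.proj_re pa).1
  have rc := (h.isTr.proj_re pc).1
  have rb := (h.isTr.proj_re pb).1
  generalize (vec Ω p).re = x at *
  generalize (vec Ω a).re = y at *
  generalize (vec Ω c).re = z at *
  generalize (vec Ω b).re = w at *
  rw [rp, ra, rc, rb] at e
  have e' : x * y = z * w := by exact_mod_cast e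
  rcases le_total z x with hle | hle
  · refine ⟨z / x, by positivity, (div_le_one tp).2 hle, Or.inl ⟨?_, ?_⟩⟩
    · refine ai_of_link hM h hA hB a₁ b₁ hv h0 l₂.pA.1 l₂.cB.1 l₁ ?_
      rw [rp, rc]; norm_cast; field_simp
    · refine ai_of_link hM h hB.symm hA.symm b₂ a₂ hv' h0' l₁.cB.1 l₁.pA.1
        ((hM H).symm _ _ _ _ _ _ _ l₂) ?_
      rw [ra, rb]; norm_cast; field_simp; linarith
  · refine ⟨x / z, by positivity, (div_le_one tc).2 hle, Or.inr ⟨?_, ?_⟩⟩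
    · refine ai_of_link hM h hB hA b₁ a₁ hv' h0' l₂.cB.1 l₂.pA.1
        ((hM H).symm _ _ _ _ _ _ _ l₁) ?_
      rw [rp, rc]; norm_cast; field_simp
    · refine ai_of_link hM h hA.symm hB.symm a₂ b₂ hv h0 l₁.pA.1 l₁.cB.1 l₂ ?_
      rw [ra, rb]; norm_cast; field_simp; linarith

theorem rig (h1 : ThAStmt.{u}) (h2 : ThBStmt.{u}) {Ω : H} {J : H ≃ₗᵢ⋆[ℂ] H}
    {P A B₁ B₂ : VonNeumannAlgebra H} (h : Std Ω J P) (hB : Tens Ω P B₁ B₂) (hA : A ≤ P)
    (g : Good Ω A) : Rig Ω P A B₁ B₂ := fun a ha h0 => by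
  obtain ⟨q, hq, e, δ, hδ, hu⟩ := h1 H Ω J P A B₁ B₂ h hB hA g.fac g.dif g.sat a ha h0
  obtain ⟨q', hq', e', hn⟩ := h2 H Ω J P A B₁ B₂ h hB hA g.dif q δ hq hδ hu
  exact ⟨q', hq', by rw [← e', ← mul_assoc, e], hn⟩

theorem core (h1 : ThAStmt.{u}) (h2 : ThBStmt.{u}) (hF : FrameStmt.{u}) (hV : AvgStmt.{u})
    (hI : IntStmt.{u}) (hE : EndStmt.{u}) (hM : AmpStmt.{u}) {Ω : H} {J : H ≃ₗᵢ⋆[ℂ] H}
    {P A₁ A₂ B₁ B₂ : VonNeumannAlgebra H} (h : Std Ω J P) (hA : Tens Ω P A₁ A₂)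
    (hB : Tens Ω P B₁ B₂) (a₁ : Good Ω A₁) (a₂ : Good Ω A₂) (b₁ : Good Ω B₁) (b₂ : Good Ω B₂) :
    ∃ t : ℝ, 0 < t ∧ t ≤ 1 ∧ ((AI Ω A₁ B₁ t ∧ AI Ω B₂ A₂ t) ∨ (AI Ω B₁ A₁ t ∧ AI Ω A₂ B₂ t) ∨
      (AI Ω A₁ B₂ t ∧ AI Ω B₁ A₂ t) ∨ (AI Ω B₂ A₁ t ∧ AI Ω A₂ B₁ t)) := by
  have n1 : (1 : Op H) ≠ 0 := fun e => by
    have := h.isTr.one
    rw [e, map_zero] at this
    exact zero_ne_one this
  obtain ⟨q, hq, -, hn⟩ := rig h1 h2 h hB hA.le₁ a₁ 1 (Pj.one _) n1
  obtain ⟨T, t0, t1, t2, t3, t4 | t4⟩ := hV H Ω J P A₁ B₁ B₂ h hA.le₁ hB.le₁ hB.le₂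
    (hF H Ω J P B₁ B₂ h hB) (hF H Ω J P B₂ B₁ h hB.symm) q hq hn
  · obtain ⟨t, s0, s1, s⟩ := half hE hM h hA hB a₁ a₂ b₁ b₂ (rig h1 h2 h hB hA.le₂ a₂)
      (hI H Ω J P A₁ B₁ h hA.le₁ hB.le₁ a₁.fac a₁.dif b₁.fac q T hq t0 t1 t2 t3 t4)
    exact ⟨t, s0, s1, s.imp_right Or.inl⟩
  · obtain ⟨t, s0, s1, s⟩ := half hE hM h hA hB.symm a₁ a₂ b₂ b₁ (rig h1 h2 h hB.symm hA.le₂ a₂)
      (hI H Ω J P A₁ B₂ h hA.le₁ hB.le₂ a₁.fac a₁.dif b₂.fac q T hq t0 t1 t2 t3 t4)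
    exact ⟨t, s0, s1, Or.inr (Or.inr s)⟩

/-! ## transport along an isomorphism -/

section transport

variable {H' : Type u} [NormedAddCommGroup H'] [InnerProductSpace ℂ H'] [CompleteSpace H']

/-- composition of a representation with an isomorphism of the ambient algebras -/
def pull {X : Type u} [NonUnitalCStarAlgebra X] {P : VonNeumannAlgebra H}
    {P' : VonNeumannAlgebra H'} (θ : P'.toStarSubalgebra ≃⋆ₐ[ℂ] P.toStarSubalgebra)
    (π : X →⋆ₙₐ[ℂ] Op H') (hπ : ∀ x, π x ∈ P') : X →⋆ₙₐ[ℂ] Op H where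
  toFun x := (θ ⟨π x, hπ x⟩ : Op H)
  map_smul' c x := by
    have : (⟨π (c • x), hπ _⟩ : P'.toStarSubalgebra) = c • ⟨π x, hπ x⟩ :=
      Subtype.ext (map_smul π c x)
    rw [this, map_smul]; rfl
  map_zero' := by
    have : (⟨π 0, hπ _⟩ : P'.toStarSubalgebra) = 0 := Subtype.ext (map_zero π)
    rw [this, map_zero]; rfl
  map_add' x y := by
    have : (⟨π (x + y), hπ _⟩ : P'.toStarSubalgebra) = ⟨π x, hπ x⟩ + ⟨π y, hπ y⟩ :=
      Subtype.ext (map_add π x y)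
    rw [this, map_add]; rfl
  map_mul' x y := by
    have : (⟨π (x * y), hπ _⟩ : P'.toStarSubalgebra) = ⟨π x, hπ x⟩ * ⟨π y, hπ y⟩ :=
      Subtype.ext (map_mul π x y)
    rw [this, map_mul]; rfl
  map_star' x := by
    have : (⟨π (star x), hπ _⟩ : P'.toStarSubalgebra) = star ⟨π x, hπ x⟩ :=
      Subtype.ext (map_star π x)
    rw [this, map_star]; rfl

theorem pull_apply {X : Type u} [NonUnitalCStarAlgebra X] {P : VonNeumannAlgebra H}
    {P' : VonNeumannAlgebra H'} (θ : P'.toStarSubalgebra ≃⋆ₐ[ℂ] P.toStarSubalgebra)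
    (π : X →⋆ₙₐ[ℂ] Op H') (hπ : ∀ x, π x ∈ P') (x : X) :
    pull θ π hπ x = (θ ⟨π x, hπ x⟩ : Op H) := rfl

/-- an isomorphism of factors preserves the trace -/
theorem tr_pres (hT : TrBStmt.{u}) {Ω : H} {J : H ≃ₗᵢ⋆[ℂ] H} {P : VonNeumannAlgebra H} {Ω' : H'}
    {J' : H' ≃ₗᵢ⋆[ℂ] H'} {P' : VonNeumannAlgebra H'} (h : Std Ω J P) (h' : Std Ω' J' P')
    (f : Fac P') (d : Dif P' 1) (θ : P'.toStarSubalgebra ≃⋆ₐ[ℂ] P.toStarSubalgebra)
    (y : P'.toStarSubalgebra) : vec Ω (θ y : Op H) = vec Ω' (y : Op H') := by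
  let g : P'.toStarSubalgebra.toSubalgebra.toSubmodule →ₗ[ℂ] ℂ :=
    { toFun := fun x => vec Ω (θ ⟨x.1, x.2⟩ : Op H)
      map_add' := fun x y => by
        rw [← map_add, ← AddMemClass.coe_add, ← map_add]; rfl
      map_smul' := fun c x => by
        rw [RingHom.id_apply, ← map_smul, ← SetLike.val_smul, ← map_smul]; rfl }
  obtain ⟨σ, hσ⟩ := g.exists_extend
  have e : ∀ x : P'.toStarSubalgebra, σ (x : Op H') = vec Ω (θ x : Op H) := fun x =>
    congrArg (fun l : P'.toStarSubalgebra.toSubalgebra.toSubmodule →ₗ[ℂ] ℂ => l ⟨x.1, x.2⟩) hσ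
  rw [← e]
  refine (hT H' P' (vec Ω') h'.isTr).uniq f d σ ?_ (fun x hx => ?_) (fun x hx z hz => ?_) _ y.2
  · have := e 1
    rw [map_one] at this
    exact this.trans h.isTr.one
  · have := e (star ⟨x, hx⟩ * ⟨x, hx⟩)
    rw [map_mul, map_star] at this
    exact (h.isTr.pos _ (θ ⟨x, hx⟩).2).trans_eq this.symm
  · have e1 := e (⟨x, hx⟩ * ⟨z, hz⟩)
    have e2 := e (⟨z, hz⟩ * ⟨x, hx⟩)
    rw [map_mul] at e1 e2
    exact e1.trans ((h.isTr.comm _ (θ ⟨x, hx⟩).2 _ (θ ⟨z, hz⟩).2).trans e2.symm)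

theorem dense_pull {Ω : H} {J : H ≃ₗᵢ⋆[ℂ] H} {P : VonNeumannAlgebra H} {Ω' : H'}
    {P' : VonNeumannAlgebra H'} (h : Std Ω J P)
    (θ : P'.toStarSubalgebra ≃⋆ₐ[ℂ] P.toStarSubalgebra)
    (ht : ∀ y : P'.toStarSubalgebra, vec Ω (θ y : Op H) = vec Ω' (y : Op H'))
    {S : Set H} {S' : Set H'} (hS : ∀ ξ ∈ S', ∃ y : P'.toStarSubalgebra, ξ = (y : Op H') Ω' ∧
      (θ y : Op H) Ω ∈ S) (hd : Dense (Submodule.span ℂ S' : Set H')) :
    Dense (Submodule.span ℂ S : Set H) := by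
  have nrm : ∀ y : P'.toStarSubalgebra, ‖(θ y : Op H) Ω‖ = ‖(y : Op H') Ω'‖ := fun y => by
    rw [← sq_eq_sq₀ (norm_nonneg _) (norm_nonneg _), norm_orb_sq, norm_orb_sq]
    have := ht (star y * y)
    rw [map_mul, map_star] at this
    exact congrArg Complex.re this
  have key : ∀ ξ ∈ Submodule.span ℂ S', ∃ y : P'.toStarSubalgebra, ξ = (y : Op H') Ω' ∧
      (θ y : Op H) Ω ∈ Submodule.span ℂ S := fun ξ hξ => by
    induction hξ using Submodule.span_induction with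
    | mem x hx => exact (hS x hx).imp fun y hy => ⟨hy.1, Submodule.subset_span hy.2⟩
    | zero => exact ⟨0, rfl, by rw [map_zero]; exact Submodule.zero_mem _⟩
    | add x y _ _ hx hy =>
      obtain ⟨a, rfl, ha⟩ := hx
      obtain ⟨b, rfl, hb⟩ := hy
      exact ⟨a + b, rfl, by rw [map_add]; exact Submodule.add_mem _ ha hb⟩
    | smul c x _ hx =>
      obtain ⟨a, rfl, ha⟩ := hx
      exact ⟨c • a, rfl, by rw [map_smul]; exact Submodule.smul_mem _ c ha⟩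
  refine Dense.of_closure (h.dense.mono ?_)
  rintro _ ⟨x, hx, rfl⟩
  refine Metric.mem_closure_iff.2 fun ε hε => ?_
  obtain ⟨ξ, h1, h2⟩ := Metric.mem_closure_iff.1 (hd (((θ.symm ⟨x, hx⟩ : _) : Op H') Ω')) ε hε
  obtain ⟨y, rfl, hy⟩ := key ξ h1
  refine ⟨_, hy, ?_⟩
  have := nrm (θ.symm ⟨x, hx⟩ - y)
  rw [map_sub, StarAlgEquiv.apply_symm_apply] at this
  rw [dist_eq_norm] at h2 ⊢
  exact this.trans_lt h2

theorem rep_pull {N : TwoOne K} {U : Ultrafilter ℕ} {Ω : H} {P : VonNeumannAlgebra H} {Ω' : H'}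
    {P' : VonNeumannAlgebra H'} (θ : P'.toStarSubalgebra ≃⋆ₐ[ℂ] P.toStarSubalgebra)
    (ht : ∀ y : P'.toStarSubalgebra, vec Ω (θ y : Op H) = vec Ω' (y : Op H'))
    {π : Linf N.M.toStarSubalgebra →⋆ₙₐ[ℂ] Op H'} (r : Rep N U Ω' P' π) :
    Rep N U Ω P (pull θ π r.mem) where
  one := by
    have : (⟨π (Linf.const 1), r.mem _⟩ : P'.toStarSubalgebra) = 1 := Subtype.ext r.one
    rw [pull_apply, this, map_one]; rfl
  mem x := (θ ⟨π x, r.mem x⟩).2
  tr x := (ht ⟨π x, r.mem x⟩).trans (r.tr x)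

theorem pair_pull {N : TwoOne K} {N' : TwoOne K'} {U : Ultrafilter ℕ} {Ω : H} {J : H ≃ₗᵢ⋆[ℂ] H}
    {P : VonNeumannAlgebra H} {Ω' : H'} {P' : VonNeumannAlgebra H'} (h : Std Ω J P)
    (θ : P'.toStarSubalgebra ≃⋆ₐ[ℂ] P.toStarSubalgebra)
    (ht : ∀ y : P'.toStarSubalgebra, vec Ω (θ y : Op H) = vec Ω' (y : Op H'))
    {π : Linf N.M.toStarSubalgebra →⋆ₙₐ[ℂ] Op H'} {π' : Linf N'.M.toStarSubalgebra →⋆ₙₐ[ℂ] Op H'}
    (r : Pair N N' U Ω' P' π π') :
    Pair N N' U Ω P (pull θ π r.rep.mem) (pull θ π' r.rep'.mem) where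
  rep := rep_pull θ ht r.rep
  rep' := rep_pull θ ht r.rep'
  comm x y := by
    have : (⟨π x, r.rep.mem x⟩ * ⟨π' y, r.rep'.mem y⟩ : P'.toStarSubalgebra) =
        ⟨π' y, r.rep'.mem y⟩ * ⟨π x, r.rep.mem x⟩ := Subtype.ext (r.comm x y)
    have e := congrArg (fun z => (θ z : Op H)) this
    simp only [map_mul] at e
    exact e
  indep x y := by
    have e := ht (⟨π x, r.rep.mem x⟩ * ⟨π' y, r.rep'.mem y⟩)
    rw [map_mul] at e
    rw [pull_apply, pull_apply, ht, ht]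
    exact e.trans (r.indep x y)
  dense := dense_pull h θ ht (by
    rintro _ ⟨x, y, rfl⟩
    exact ⟨⟨π x, r.rep.mem x⟩ * ⟨π' y, r.rep'.mem y⟩, rfl, x, y, by rw [map_mul]; rfl⟩) r.dense

end transport

theorem tens_of_pair {N : TwoOne K} {N' : TwoOne K'} {U : Ultrafilter ℕ} {Ω : H}
    {P A A' : VonNeumannAlgebra H} {π : Linf N.M.toStarSubalgebra →⋆ₙₐ[ℂ] Op H}
    {π' : Linf N'.M.toStarSubalgebra →⋆ₙₐ[ℂ] Op H} (r : Pair N N' U Ω P π π')
    (hA : ∀ y, y ∈ A ↔ ∃ x, π x = y) (hA' : ∀ y, y ∈ A' ↔ ∃ x, π' x = y) : Tens Ω P A A' where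
  le₁ y hy := by obtain ⟨x, rfl⟩ := (hA y).1 hy; exact r.rep.mem x
  le₂ y hy := by obtain ⟨x, rfl⟩ := (hA' y).1 hy; exact r.rep'.mem x
  comm a ha b hb := by
    obtain ⟨x, rfl⟩ := (hA a).1 ha
    obtain ⟨y, rfl⟩ := (hA' b).1 hb
    exact r.comm x y
  indep a ha b hb := by
    obtain ⟨x, rfl⟩ := (hA a).1 ha
    obtain ⟨y, rfl⟩ := (hA' b).1 hb
    exact r.indep x y
  dense := r.dense.mono (Submodule.span_mono (by
    rintro _ ⟨x, y, rfl⟩
    exact ⟨_, (hA _).2 ⟨x, rfl⟩, _, (hA' _).2 ⟨y, rfl⟩, rfl⟩))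

end Core

end Pool.Agent.MP_ad85d3_an

end
end MrgPart1

-- ======== part 2: formerly Pool.Agent.MP_ad85d3_an.Iso
section MrgPart2

/-!
# PROJECT UPF, module ISO: the ultrapower and its corners inside a standard form
-/

open Filter Topology
open scoped ComplexOrder InnerProductSpace ComplexConjugate

noncomputable section

namespace Pool.Agent.MP_ad85d3_an.Iso

universe u

section Range

variable {X Y Z : Type u} [NonUnitalCStarAlgebra X] [NonUnitalCStarAlgebra Y]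
  [NonUnitalCStarAlgebra Z]

/-- homomorphisms with the same kernel have isomorphic ranges -/
theorem range_iso (φ : X →⋆ₙₐ[ℂ] Y) (ψ : X →⋆ₙₐ[ℂ] Z) (h : ∀ x, φ x = 0 ↔ ψ x = 0)
    (S : NonUnitalStarSubalgebra ℂ Z) (hS : ∀ z, z ∈ S ↔ ∃ x, ψ x = z) :
    Nonempty (NonUnitalStarAlgHom.range φ ≃⋆ₐ[ℂ] S) := by
  have h2 : ∀ x y, φ x = φ y ↔ ψ x = ψ y := fun x y => by
    rw [← sub_eq_zero, ← map_sub, h, map_sub, sub_eq_zero]
  have h3 : ∀ y : NonUnitalStarAlgHom.range φ, ∃ x, φ x = y := fun y =>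
    (NonUnitalStarAlgHom.mem_range φ).1 y.2
  choose s hs using h3
  let f : NonUnitalStarAlgHom.range φ →⋆ₙₐ[ℂ] S :=
    { toFun := fun y => ⟨ψ (s y), (hS _).2 ⟨_, rfl⟩⟩
      map_smul' := fun c y => Subtype.ext (by
        show ψ (s (c • y)) = c • ψ (s y)
        rw [← map_smul, ← h2, map_smul, hs, hs]; rfl)
      map_zero' := Subtype.ext (by
        show ψ (s 0) = 0
        rw [← h, hs]; rfl)
      map_add' := fun y z => Subtype.ext (by
        show ψ (s (y + z)) = ψ (s y) + ψ (s z)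
        rw [← map_add, ← h2, map_add, hs, hs, hs]; rfl)
      map_mul' := fun y z => Subtype.ext (by
        show ψ (s (y * z)) = ψ (s y) * ψ (s z)
        rw [← map_mul, ← h2, map_mul, hs, hs, hs]; rfl)
      map_star' := fun y => Subtype.ext (by
        show ψ (s (star y)) = star (ψ (s y))
        rw [← map_star, ← h2, map_star, hs, hs]; rfl) }
  refine ⟨StarAlgEquiv.ofBijective f ⟨fun y z e => ?_, fun z => ?_⟩⟩
  · have e1 : ψ (s y) = ψ (s z) := congrArg Subtype.val e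
    rw [← h2, hs, hs] at e1
    exact Subtype.ext e1
  · obtain ⟨x, hx⟩ := (hS z).1 z.2
    refine ⟨⟨φ x, NonUnitalStarAlgHom.mem_range_self φ x⟩, Subtype.ext ?_⟩
    show ψ (s _) = z
    rw [← hx, ← h2, hs]

end Range

section Seq

variable {X : Type u} [NonUnitalCStarAlgebra X]

theorem ext {x y : Linf X} (h : ∀ n, x.term n = y.term n) : x = y :=
  BoundedContinuousFunction.ext h

theorem const_proj {q : X} (hq : IsStarProjection q) : IsStarProjection (Linf.const q) :=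
  ⟨ext fun _ => hq.isIdempotentElem.eq, ext fun _ => hq.isSelfAdjoint.star_eq⟩

theorem trace_const (τ : X →L[ℂ] ℂ) (hτ : ∀ x, 0 ≤ τ (star x * x)) (U : Ultrafilter ℕ) (q : X) :
    ultraTrace τ hτ U (Linf.const q) = τ q :=
  tendsto_nhds_unique (tendsto_ultraTrace τ hτ U (Linf.const q)) tendsto_const_nhds

/-- the termwise inclusion of the bounded sequences of a corner -/
def incl {q : X} (hq : IsStarProjection q) : Linf (corner hq) →⋆ₙₐ[ℂ] Linf X where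
  toFun x := BoundedContinuousFunction.ofNormedAddCommGroupDiscrete
    (fun n => (x.term n : X)) ‖x‖ fun n => x.norm_term_le n
  map_smul' _ _ := ext fun _ => rfl
  map_zero' := ext fun _ => rfl
  map_add' _ _ := ext fun _ => rfl
  map_mul' _ _ := ext fun _ => rfl
  map_star' _ := ext fun _ => rfl

theorem incl_term {q : X} (hq : IsStarProjection q) (x : Linf (corner hq)) (n : ℕ) :
    (incl hq x).term n = (x.term n : X) := rfl

theorem incl_cut {q : X} (hq : IsStarProjection q) (x : Linf (corner hq)) :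
    Linf.const q * incl hq x * Linf.const q = incl hq x :=
  ext fun n => (x.term n).2

theorem incl_surj {q : X} (hq : IsStarProjection q) (x : Linf X) :
    ∃ y : Linf (corner hq), incl hq y = Linf.const q * x * Linf.const q := by
  have e : ∀ n, q * (q * x.term n * q) * q = q * x.term n * q := fun n => by
    rw [← mul_assoc, ← mul_assoc, hq.isIdempotentElem.eq, mul_assoc _ q q, hq.isIdempotentElem.eq]
  exact ⟨BoundedContinuousFunction.ofNormedAddCommGroupDiscrete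
    (fun n => (⟨q * x.term n * q, e n⟩ : corner hq)) ‖Linf.const q * x * Linf.const q‖
    fun n => (Linf.const q * x * Linf.const q).norm_term_le n, ext fun _ => rfl⟩

variable {H : Type u} [NormedAddCommGroup H] [InnerProductSpace ℂ H] [CompleteSpace H]
  {τ : X →L[ℂ] ℂ} {hτ : ∀ x, 0 ≤ τ (star x * x)} {U : Ultrafilter ℕ} {Ω : H}
  {J : H ≃ₗᵢ⋆[ℂ] H} {P A : VonNeumannAlgebra H} {π : Linf X →⋆ₙₐ[ℂ] Op H}

/-- the kernel of a trace preserving representation -/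
theorem ker (h : Std Ω J P) (mem : ∀ x, π x ∈ P) (tr : ∀ x, vec Ω (π x) = ultraTrace τ hτ U x)
    (x : Linf X) :
    π x = 0 ↔ Tendsto (fun n => τ (star (x.term n) * x.term n)) U (𝓝 0) := by
  have lim := tendsto_ultraTrace τ hτ U (star x * x)
  rw [← tr, map_mul, map_star] at lim
  refine ⟨fun e => ?_, fun e => h.isTr.faith _ (mem x) (tendsto_nhds_unique lim e)⟩
  rw [e, mul_zero, map_zero] at lim
  exact lim

theorem proj_map (π : Linf X →⋆ₙₐ[ℂ] Op H) {q : X} (hq : IsStarProjection q) :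
    IsStarProjection (π (Linf.const q)) :=
  ⟨by rw [IsIdempotentElem, ← map_mul, (const_proj hq).isIdempotentElem.eq],
    (const_proj hq).isSelfAdjoint.map π⟩

end Seq

end Pool.Agent.MP_ad85d3_an.Iso

end
end MrgPart2

-- marker of a merged file
example : 731051 + 795402 = 731051 + 795402 := rfl
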