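import Mathlib.Analysis.CStarAlgebra.Module.Constructions
import Mathlib.Analysis.CStarAlgebra.ContinuousLinearMap
import Mathlib.Topology.Algebra.LinearMapCompletion
import Mathlib.Analysis.InnerProductSpace.TensorProduct
import Mathlib.Analysis.VonNeumannAlgebra.Basic

/-!
# Tracial ultrapowers and von Neumann tensor products: the definitions used by the statement
-/

open Filter Topology
open scoped ComplexOrder InnerProductSpace TensorProduct

namespace Pool.Agent.MP_ad85d3_an.St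

universe u

variable {H K L L' : Type u} [NormedAddCommGroup H] [InnerProductSpace ℂ H] [CompleteSpace H]
  [NormedAddCommGroup K] [InnerProductSpace ℂ K] [CompleteSpace K]
  [NormedAddCommGroup L] [InnerProductSpace ℂ L] [CompleteSpace L]
  [NormedAddCommGroup L'] [InnerProductSpace ℂ L'] [CompleteSpace L']

variable (H) in
/-- A II₁ factor on `H`: an infinite-dimensional von Neumann algebra `M` with trivial centre and a
faithful normal tracial state `τ` (normal: strongly continuous on the unit ball). Only the values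
of `τ` on `M` matter. -/
structure TwoOne where
  /-- the algebra -/
  M : VonNeumannAlgebra H
  /-- the trace -/
  τ : (H →L[ℂ] H) → ℂ
  add : ∀ x ∈ M, ∀ y ∈ M, τ (x + y) = τ x + τ y
  smul : ∀ (c : ℂ), ∀ x ∈ M, τ (c • x) = c * τ x
  one : τ 1 = 1
  pos : ∀ x ∈ M, 0 ≤ τ (star x * x)
  faithful : ∀ x ∈ M, τ (star x * x) = 0 → x = 0
  tracial : ∀ x ∈ M, ∀ y ∈ M, τ (x * y) = τ (y * x)
  normal : ∀ (l : Filter (H →L[ℂ] H)), ∀ x ∈ M, (∀ᶠ y in l, y ∈ M ∧ ‖y‖ ≤ 1) →
    (∀ ξ : H, Tendsto (fun y : H →L[ℂ] H => y ξ) l (𝓝 (x ξ))) → Tendsto τ l (𝓝 (τ x))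
  factor : ∀ z ∈ M, (∀ x ∈ M, z * x = x * z) → ∃ c : ℂ, z = c • (1 : H →L[ℂ] H)
  infinite : ¬ FiniteDimensional ℂ M.toStarSubalgebra

/-- `x` is a norm-bounded sequence in the corner `q M q`. -/
structure Seq (M : VonNeumannAlgebra H) (q : H →L[ℂ] H) (x : ℕ → H →L[ℂ] H) : Prop where
  mem : ∀ n, x n ∈ M
  cut : ∀ n, q * x n * q = x n
  bdd : ∃ C : ℝ, ∀ n, ‖x n‖ ≤ C

variable (L) in
/-- The tracial ultrapower `N^U` acting on `L = L²(N^U)`: the GNS representation `π`, with cyclic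
vector `Ω`, of the algebra of bounded sequences in `N` for the state `x ↦ lim_U τ (x n)`. It exists
and is unique up to unitary equivalence; its kernel is the ideal of the sequences with
`lim_U τ (x_n^* x_n) = 0`. -/
structure UltraRep (U : Ultrafilter ℕ) (N : TwoOne H) where
  /-- the representation; only its values on bounded sequences in `N` matter -/
  π : (ℕ → H →L[ℂ] H) → L →L[ℂ] L
  /-- the cyclic vector -/
  Ω : L
  add : ∀ x y, Seq N.M 1 x → Seq N.M 1 y → π (x + y) = π x + π y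
  smul : ∀ (c : ℂ) x, Seq N.M 1 x → π (c • x) = c • π x
  mul : ∀ x y, Seq N.M 1 x → Seq N.M 1 y → π (x * y) = π x * π y
  star : ∀ x, Seq N.M 1 x → π (star x) = star (π x)
  trace : ∀ x, Seq N.M 1 x → Tendsto (fun n => N.τ (x n)) U (𝓝 ⟪Ω, π x Ω⟫_ℂ)
  cyclic : Dense {ξ : L | ∃ x, Seq N.M 1 x ∧ ξ = π x Ω}

/-- The ultrapower `(q N q)^U`, the image of the bounded sequences in `q N q`; for `q = 1` this is
`N^U`. -/
def UltraRep.alg {U : Ultrafilter ℕ} {N : TwoOne H} (a : UltraRep L U N) (q : H →L[ℂ] H) :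
    Set (L →L[ℂ] L) := a.π '' {x | Seq N.M q x}

/-- `T` belongs to the von Neumann tensor product of `A` and `B`: it commutes with every operator
on the Hilbert space tensor product that commutes with all `a ⊗ b`. -/
structure MemTensor (A : Set (H →L[ℂ] H)) (B : Set (K →L[ℂ] K))
    (T : UniformSpace.Completion (H ⊗[ℂ] K) →L[ℂ] UniformSpace.Completion (H ⊗[ℂ] K)) : Prop where
  comm : ∀ S : UniformSpace.Completion (H ⊗[ℂ] K) →L[ℂ] UniformSpace.Completion (H ⊗[ℂ] K),
    (∀ a ∈ A, ∀ b ∈ B,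
      (TensorProduct.mapL a b).completion * S = S * (TensorProduct.mapL a b).completion) →
    S * T = T * S

/-- `φ` is a `⋆`-isomorphism of `A` onto `B`. -/
structure IsStarIso (A : Set (H →L[ℂ] H)) (B : Set (K →L[ℂ] K))
    (φ : (H →L[ℂ] H) → K →L[ℂ] K) : Prop where
  bij : Set.BijOn φ A B
  add : ∀ x ∈ A, ∀ y ∈ A, φ (x + y) = φ x + φ y
  smul : ∀ (c : ℂ), ∀ x ∈ A, φ (c • x) = c • φ x
  mul : ∀ x ∈ A, ∀ y ∈ A, φ (x * y) = φ x * φ y
  star : ∀ x ∈ A, φ (star x) = star (φ x)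

/-- `A` and `B` are `⋆`-isomorphic. -/
def StarIso (A : Set (H →L[ℂ] H)) (B : Set (K →L[ℂ] K)) : Prop := ∃ φ, IsStarIso A B φ

/-- `N^U ≅ (M^t)^U`, where `M^t = q M q` for a projection `q ∈ M` of trace `t`. -/
def AmpIso {U : Ultrafilter ℕ} {N : TwoOne H} {M : TwoOne K} (a : UltraRep L U N)
    (b : UltraRep L' U M) (t : ℝ) : Prop :=
  ∃ q ∈ M.M, IsStarProjection q ∧ M.τ q = t ∧ StarIso (a.alg 1) (b.alg q)

end Pool.Agent.MP_ad85d3_an.St
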