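import Mathlib.Topology.Sheaves.Presheaf
import Mathlib.Analysis.CStarAlgebra.CompletelyPositiveMap
import Mathlib.Analysis.CStarAlgebra.Unitary.Span
import Mathlib.Analysis.InnerProductSpace.StarOrder
import Pool.Agent.MP_ad85d3_an.Iso
import Pool.Agent.MP_ad85d3_an.St
import Pool.Agent.MP_ad85d3_an.Spec

-- ======== part 0: formerly Pool.Agent.MP_ad85d3_an.Bridge
section MrgPart0

/-!
# PROJECT UPF: from the working definitions to the definitions of the statement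
-/

open Filter Topology
open scoped ComplexOrder InnerProductSpace ComplexConjugate

noncomputable section

namespace Pool.Agent.MP_ad85d3_an.Br

universe u

set_option linter.unusedSectionVars false

variable {H K K' L L' : Type u} [NormedAddCommGroup H] [InnerProductSpace ℂ H] [CompleteSpace H]
  [NormedAddCommGroup K] [InnerProductSpace ℂ K] [CompleteSpace K]
  [NormedAddCommGroup K'] [InnerProductSpace ℂ K'] [CompleteSpace K']
  [NormedAddCommGroup L] [InnerProductSpace ℂ L] [CompleteSpace L]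
  [NormedAddCommGroup L'] [InnerProductSpace ℂ L'] [CompleteSpace L']

/-! ## isomorphisms -/

theorem starIso_of {A : NonUnitalStarSubalgebra ℂ (Op H)} {B : NonUnitalStarSubalgebra ℂ (Op K)}
    (h : Nonempty (A ≃⋆ₐ[ℂ] B)) : St.StarIso (A : Set (Op H)) (B : Set (Op K)) := by
  classical
  obtain ⟨e⟩ := h
  let φ : Op H → Op K := fun x => if h : x ∈ A then (e ⟨x, h⟩ : Op K) else 0
  have k : ∀ x : A, φ x = e x := fun x => dif_pos x.2
  refine ⟨φ, ⟨fun x hx => ?_, fun x hx y hy h => ?_, fun y hy => ?_⟩, fun x hx y hy => ?_,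
    fun c x hx => ?_, fun x hx y hy => ?_, fun x hx => ?_⟩
  · rw [k ⟨x, hx⟩]; exact (e ⟨x, hx⟩).2
  · rw [k ⟨x, hx⟩, k ⟨y, hy⟩] at h
    exact congrArg Subtype.val (e.injective (Subtype.ext h))
  · refine ⟨e.symm ⟨y, hy⟩, (e.symm ⟨y, hy⟩).2, ?_⟩
    rw [k, e.apply_symm_apply]
  · rw [k ⟨x, hx⟩, k ⟨y, hy⟩]
    exact (k (⟨x, hx⟩ + ⟨y, hy⟩)).trans (congrArg Subtype.val (map_add e _ _))
  · rw [k ⟨x, hx⟩]
    exact (k (c • ⟨x, hx⟩)).trans (congrArg Subtype.val (map_smul e _ _))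
  · rw [k ⟨x, hx⟩, k ⟨y, hy⟩]
    exact (k (⟨x, hx⟩ * ⟨y, hy⟩)).trans (congrArg Subtype.val (map_mul e _ _))
  · rw [k ⟨x, hx⟩]
    exact (k (star ⟨x, hx⟩)).trans (congrArg Subtype.val (map_star e _))

theorem equiv_of {P : VonNeumannAlgebra H} {Q : VonNeumannAlgebra K}
    (h : St.StarIso (P : Set (Op H)) (Q : Set (Op K))) :
    Nonempty (P.toStarSubalgebra ≃⋆ₐ[ℂ] Q.toStarSubalgebra) := by
  obtain ⟨φ, h⟩ := h
  exact ⟨{ h.bij.equiv φ with
    map_add' := fun x y => Subtype.ext (h.add _ x.2 _ y.2)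
    map_mul' := fun x y => Subtype.ext (h.mul _ x.2 _ y.2)
    map_smul' := fun c x => Subtype.ext (h.smul c _ x.2)
    map_star' := fun x => Subtype.ext (h.star _ x.2) }⟩

theorem iso_trans {X Y Z W : Type u} {_ : Add X} {_ : Add Y} {_ : Add Z} {_ : Add W} {_ : Mul X}
    {_ : Mul Y} {_ : Mul Z} {_ : Mul W} {_ : SMul ℂ X} {_ : SMul ℂ Y} {_ : SMul ℂ Z} {_ : SMul ℂ W}
    {_ : Star X} {_ : Star Y} {_ : Star Z} {_ : Star W} (j : Nonempty (X ≃⋆ₐ[ℂ] Y))
    (k : Nonempty (Y ≃⋆ₐ[ℂ] Z)) (i : Nonempty (W ≃⋆ₐ[ℂ] Z)) : Nonempty (X ≃⋆ₐ[ℂ] W) :=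
  ⟨(j.some.trans k.some).trans i.some.symm⟩

theorem tensor_eq (A : NonUnitalStarSubalgebra ℂ (Op H)) (B : NonUnitalStarSubalgebra ℂ (Op K)) :
    {T | St.MemTensor (A : Set (Op H)) (B : Set (Op K)) T} =
      (vnTensor A B : Set (Op (HTensor H K))) := by
  have e : vnTensor A B =
      vn (vn {T | ∃ a ∈ A, ∃ b ∈ B, T = Ten.tm a b} : Set (Op (HTensor H K))) := rfl
  have k : ∀ S : Op (HTensor H K), S ∈ vn {T | ∃ a ∈ A, ∃ b ∈ B, T = Ten.tm a b} ↔
      ∀ a ∈ A, ∀ b ∈ B, Ten.tm a b * S = S * Ten.tm a b := fun S => by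
    rw [mem_vn]
    refine ⟨fun h a ha b hb => (h _ ⟨a, ha, b, hb, rfl⟩).1, ?_⟩
    rintro h _ ⟨a, ha, b, hb, rfl⟩
    exact ⟨h a ha b hb, by rw [← Ten.tm_star]; exact h _ (star_mem ha) _ (star_mem hb)⟩
  ext T
  rw [e, SetLike.mem_coe, mem_vn]
  exact ⟨fun h S hS => ⟨h.comm S ((k S).1 hS), h.comm _ ((k _).1 (star_mem hS))⟩,
    fun h => ⟨fun S hS => (h S ((k S).2 hS)).1⟩⟩

/-! ## ranges of trace preserving representations -/

section range

variable {X : Type u} [NonUnitalCStarAlgebra X] {τ : X →L[ℂ] ℂ} {hτ : ∀ x, 0 ≤ τ (star x * x)}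
  {U : Ultrafilter ℕ} {A : VonNeumannAlgebra H} {π : Linf X →⋆ₙₐ[ℂ] Op H}
  {ρ : Linf X →⋆ₙₐ[ℂ] Op L}

theorem iso_one (k : ∀ x, ρ x = 0 ↔ π x = 0) (hA : ∀ y, y ∈ A ↔ ∃ x, π x = y) :
    Nonempty (NonUnitalStarAlgHom.range ρ ≃⋆ₐ[ℂ] cor A (IsStarProjection.one (Op H))) :=
  Iso.range_iso ρ π k _ fun z => by rw [mem_cor, one_mul, mul_one, hA, and_iff_left rfl]

theorem iso_cor (k : ∀ x, ρ x = 0 ↔ π x = 0) (hA : ∀ y, y ∈ A ↔ ∃ x, π x = y) {q : X}
    (hq : IsStarProjection q) (hq' : IsStarProjection (π (Linf.const q))) :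
    Nonempty (NonUnitalStarAlgHom.range (ρ.comp (Iso.incl hq)) ≃⋆ₐ[ℂ] cor A hq') := by
  refine Iso.range_iso _ (π.comp (Iso.incl hq)) (fun x => k (Iso.incl hq x)) _ fun z => ?_
  rw [mem_cor, hA]
  refine ⟨?_, ?_⟩
  · rintro ⟨⟨x, rfl⟩, hx⟩
    obtain ⟨y, hy⟩ := Iso.incl_surj hq x
    refine ⟨y, ?_⟩
    show π (Iso.incl hq y) = π x
    rw [hy, map_mul, map_mul, hx]
  · rintro ⟨y, rfl⟩
    refine ⟨⟨Iso.incl hq y, rfl⟩, ?_⟩
    show π (Linf.const q) * π (Iso.incl hq y) * π (Linf.const q) = π (Iso.incl hq y)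
    rw [← map_mul, ← map_mul, Iso.incl_cut]

theorem mem_range_cor {q : X} (hq : IsStarProjection q) (y : Op L) :
    y ∈ (NonUnitalStarAlgHom.range (ρ.comp (Iso.incl hq)) : Set (Op L)) ↔
      ∃ x : Linf X, (∀ n, q * x.term n * q = x.term n) ∧ ρ x = y := by
  refine ⟨?_, ?_⟩
  · rintro ⟨x, rfl⟩
    exact ⟨Iso.incl hq x, fun n => (x.term n).2, rfl⟩
  · rintro ⟨x, hx, rfl⟩
    obtain ⟨z, hz⟩ := Iso.incl_surj hq x
    have e : Linf.const q * x * Linf.const q = x := Iso.ext hx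
    exact ⟨z, congrArg ρ (hz.trans e)⟩

theorem ker_cyc {ξ : L} {e : Linf X} (h1 : ‖ξ‖ = 1) (h2 : ρ e = 1)
    (h3 : ∀ x, vec ξ (ρ x) = ultraTrace τ hτ U x) (h4 : DenseRange fun x => ρ x ξ)
    (h5 : ∀ x y, ultraTrace τ hτ U (x * y) = ultraTrace τ hτ U (y * x)) (x : Linf X) :
    ρ x = 0 ↔ Tendsto (fun n => τ (star (x.term n) * x.term n)) U (𝓝 0) := by
  obtain ⟨J, hJ⟩ := exist_stmt L ξ (Set.range ρ) h1 ⟨e, h2⟩
    (by rintro _ ⟨x, rfl⟩; exact ⟨star x, map_star ρ x⟩)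
    (by rintro _ ⟨x, rfl⟩ _ ⟨y, rfl⟩; exact ⟨x * y, map_mul ρ x y⟩)
    (by rintro _ ⟨x, rfl⟩ _ ⟨y, rfl⟩; rw [← map_mul, ← map_mul, h3, h3, h5])
    (h4.mono (by rintro _ ⟨x, rfl⟩; exact Submodule.subset_span ⟨ρ x, ⟨x, rfl⟩, rfl⟩))
  refine Iso.ker hJ (fun x => mem_vn.2 fun t ht => ?_) h3 x
  exact ⟨((mem_vn.1 ht) _ ⟨x, rfl⟩).1.symm, ((mem_vn.1 (star_mem ht)) _ ⟨x, rfl⟩).1.symm⟩

end range

/-! ## factors -/

theorem cont_of_pos {X : Type u} [NonUnitalCStarAlgebra X] (f : X →ₗ[ℂ] ℂ)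
    (h : ∀ x, 0 ≤ f (star x * x)) : Continuous f := by
  let _ := CStarAlgebra.spectralOrder X
  have _ := CStarAlgebra.spectralOrderedRing X
  let g : X →ₚ[ℂ] ℂ := PositiveLinearMap.mk₀ f fun x hx => by
    obtain ⟨y, rfl⟩ := CStarAlgebra.nonneg_iff_eq_star_mul_self.1 hx
    exact h y
  exact map_continuous g

/-- the trace as a linear map -/
def lin (N : St.TwoOne K) : N.M.toStarSubalgebra →ₗ[ℂ] ℂ where
  toFun x := N.τ x
  map_add' x y := N.add _ x.2 _ y.2
  map_smul' c x := N.smul c _ x.2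

/-- the bundled form of a factor -/
def old (N : St.TwoOne K) : TwoOne K where
  M := N.M
  τ := ⟨lin N, cont_of_pos (lin N) fun x => N.pos _ x.2⟩
  one := N.one
  pos x := N.pos _ x.2
  faithful x h := Subtype.ext (N.faithful _ x.2 h)
  tracial x y := N.tracial _ x.2 _ y.2
  normal l x h1 h2 := N.normal (l.map Subtype.val) _ x.2 (h1.mono fun y hy => ⟨y.2, hy⟩) h2
  factor z h := (N.factor _ z.2 fun x hx => congrArg Subtype.val (h ⟨x, hx⟩)).imp
    fun _ e => Subtype.ext e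
  infinite := N.infinite

variable {N : St.TwoOne K} {U : Ultrafilter ℕ}

/-- the underlying sequence of operators -/
def sq (x : Linf (old N).M.toStarSubalgebra) : ℕ → Op K := fun n => (x.term n : Op K)

theorem sq_seq (x : Linf (old N).M.toStarSubalgebra) : St.Seq N.M 1 (sq x) :=
  ⟨fun n => (x.term n).2, fun n => by rw [one_mul, mul_one], ‖x‖, fun n => x.norm_term_le n⟩

theorem sq_surj {q : Op K} {x : ℕ → Op K} (h : St.Seq N.M q x) :
    ∃ y : Linf (old N).M.toStarSubalgebra, sq y = x := by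
  obtain ⟨C, hC⟩ := h.bdd
  exact ⟨BoundedContinuousFunction.ofNormedAddCommGroupDiscrete
    (fun n => (⟨x n, h.mem n⟩ : (old N).M.toStarSubalgebra)) C hC, rfl⟩

theorem sq_inj {x y : Linf (old N).M.toStarSubalgebra} (h : sq x = sq y) : x = y :=
  Iso.ext fun n => Subtype.ext (congrFun h n)

/-- the bundled form of a representation -/
def rho (a : St.UltraRep L U N) : Linf (old N).M.toStarSubalgebra →⋆ₙₐ[ℂ] Op L where
  toFun x := a.π (sq x)
  map_smul' c x := a.smul c _ (sq_seq x)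
  map_zero' := by
    have := a.smul 0 _ (sq_seq (N := N) 0)
    rw [zero_smul, zero_smul] at this
    exact this
  map_add' x y := a.add _ _ (sq_seq x) (sq_seq y)
  map_mul' x y := a.mul _ _ (sq_seq x) (sq_seq y)
  map_star' x := a.star _ (sq_seq x)

theorem rho_apply (a : St.UltraRep L U N) (x : Linf (old N).M.toStarSubalgebra) :
    rho a x = a.π (sq x) := rfl

theorem rho_facts (a : St.UltraRep L U N) : (‖a.Ω‖ = 1 ∧ rho a (Linf.const 1) = 1 ∧
    (∀ x, vec a.Ω (rho a x) = ultraTrace (old N).τ (old N).pos U x) ∧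
    DenseRange fun x => rho a x a.Ω) ∧ ∀ x y, ultraTrace (old N).τ (old N).pos U (x * y) =
      ultraTrace (old N).τ (old N).pos U (y * x) := by
  have d : DenseRange fun x => rho a x a.Ω := a.cyclic.mono (by
    rintro _ ⟨x, hx, rfl⟩
    obtain ⟨y, rfl⟩ := sq_surj hx
    exact ⟨y, rfl⟩)
  have t : ∀ x, vec a.Ω (rho a x) = ultraTrace (old N).τ (old N).pos U x := fun x =>
    tendsto_nhds_unique (a.trace _ (sq_seq x)) (tendsto_ultraTrace (old N).τ (old N).pos U x)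
  have o : rho a (Linf.const 1) = 1 := ContinuousLinearMap.ext fun ζ => by
    refine d.induction_on ζ (isClosed_eq (by fun_prop) (by fun_prop)) fun x => ?_
    have e : Linf.const 1 * x = x := Iso.ext fun n => Subtype.ext (one_mul _)
    rw [← mul_ap, ← map_mul, e]; rfl
  refine ⟨⟨?_, o, t, d⟩, fun x y => ?_⟩
  · have e := (t (Linf.const 1)).trans ((Iso.trace_const _ _ U _).trans (old N).one)
    have e2 := norm_orb_sq a.Ω 1
    rw [o] at e
    rw [star_one, one_mul, e, Complex.one_re] at e2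
    exact (pow_eq_one_iff_of_nonneg (norm_nonneg _) two_ne_zero).1 e2
  · exact tendsto_nhds_unique (tendsto_ultraTrace (old N).τ (old N).pos U (x * y))
      ((tendsto_ultraTrace (old N).τ (old N).pos U (y * x)).congr fun n => (old N).tracial _ _)

theorem side (a : St.UltraRep L U N) : Ten.Side (old N) U (NonUnitalStarAlgHom.range (rho a)) :=
  ⟨rho a, a.Ω, rfl, rho_facts a⟩

theorem range_one (a : St.UltraRep L U N) :
    (NonUnitalStarAlgHom.range (rho a) : Set (Op L)) = a.alg 1 := by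
  ext y
  refine ⟨?_, ?_⟩
  · rintro ⟨x, rfl⟩; exact ⟨sq x, sq_seq x, rfl⟩
  · rintro ⟨x, hx, rfl⟩
    obtain ⟨y, rfl⟩ := sq_surj hx
    exact ⟨y, rfl⟩

theorem range_cor (a : St.UltraRep L U N) {q : (old N).M.toStarSubalgebra}
    (hq : IsStarProjection q) :
    (NonUnitalStarAlgHom.range ((rho a).comp (Iso.incl hq)) : Set (Op L)) = a.alg q := by
  refine Set.ext fun y => (mem_range_cor hq y).trans ⟨?_, ?_⟩
  · rintro ⟨x, hx, rfl⟩
    exact ⟨sq x, ⟨(sq_seq _).mem, fun n => congrArg Subtype.val (hx n), (sq_seq _).bdd⟩, rfl⟩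
  · rintro ⟨x, hx, rfl⟩
    obtain ⟨y, rfl⟩ := sq_surj hx
    exact ⟨y, fun n => Subtype.ext (hx.cut n), rfl⟩

theorem rep_of_side {A : NonUnitalStarSubalgebra ℂ (Op L)} (h : Ten.Side (old N) U A) :
    Nonempty (St.UltraRep L U N) := by
  classical
  obtain ⟨ρ, ξ, -, ⟨-, -, h3, h4⟩, -⟩ := h
  let π : (ℕ → Op K) → Op L := fun x => if h : St.Seq N.M 1 x then ρ (sq_surj h).choose else 0
  have k : ∀ x, π (sq x) = ρ x := fun x =>
    (dif_pos (sq_seq x)).trans (congrArg ρ (sq_inj (sq_surj (sq_seq x)).choose_spec))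
  refine ⟨⟨π, ξ, fun x y hx hy => ?_, fun c x hx => ?_, fun x y hx hy => ?_, fun x hx => ?_,
    fun x hx => ?_, h4.mono ?_⟩⟩
  · obtain ⟨x, rfl⟩ := sq_surj hx
    obtain ⟨y, rfl⟩ := sq_surj hy
    rw [k, k, ← map_add, ← k]; rfl
  · obtain ⟨x, rfl⟩ := sq_surj hx
    rw [k, ← map_smul, ← k]; rfl
  · obtain ⟨x, rfl⟩ := sq_surj hx
    obtain ⟨y, rfl⟩ := sq_surj hy
    rw [k, k, ← map_mul, ← k]; rfl
  · obtain ⟨x, rfl⟩ := sq_surj hx
    rw [k, ← map_star, ← k]; rfl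
  · obtain ⟨x, rfl⟩ := sq_surj hx
    rw [k, ← vec_apply, h3]
    exact tendsto_ultraTrace (old N).τ (old N).pos U x
  · rintro _ ⟨x, rfl⟩
    exact ⟨sq x, sq_seq x, by rw [k]⟩

theorem exists_rep (N : St.TwoOne K) (U : Ultrafilter ℕ) :
    ∃ (L : Type u) (_ : NormedAddCommGroup L) (_ : InnerProductSpace ℂ L) (_ : CompleteSpace L),
      Nonempty (St.UltraRep L U N) :=
  ⟨_, _, _, _, rep_of_side (Ten.side (old N) U)⟩

/-! ## the theorem -/

open Pool.Agent.MP_ad85d3_an.Core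

/-- what is needed about the ultrapower of `N` realised as `A` -/
structure Rz (a : St.UltraRep L U N) (Ω : H) (A : VonNeumannAlgebra H) : Prop where
  good : Good Ω A
  iso : ∃ S : NonUnitalStarSubalgebra ℂ (Op L), (S : Set (Op L)) = a.alg 1 ∧
    Nonempty (S ≃⋆ₐ[ℂ] cor A (IsStarProjection.one (Op H)))
  cut : ∀ t : ℝ, 0 ≤ t → t ≤ 1 → ∃ q ∈ N.M, IsStarProjection q ∧ N.τ q = t ∧
    ∃ (S : NonUnitalStarSubalgebra ℂ (Op L)) (q' : Op H) (hq' : Pj A q'),
      (S : Set (Op L)) = a.alg q ∧ vec Ω q' = t ∧ Nonempty (S ≃⋆ₐ[ℂ] cor A hq'.2)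

theorem rz_of_rep (h1 : UltAStmt.{u}) (h2 : UltBStmt.{u}) (hU : (U : Filter ℕ) ≤ cofinite)
    (a : St.UltraRep L U N) {Ω : H} {J : H ≃ₗᵢ⋆[ℂ] H} {P : VonNeumannAlgebra H} (h : Std Ω J P)
    {π : Linf (old N).M.toStarSubalgebra →⋆ₙₐ[ℂ] Op H} (r : Rep (old N) U Ω P π) :
    ∃ A : VonNeumannAlgebra H, (∀ y, y ∈ A ↔ ∃ x, π x = y) ∧ Rz a Ω A := by
  obtain ⟨A, hA, hs⟩ := h1 H K Ω J P (old N) U π hU h r
  obtain ⟨f, d, e⟩ := h2 H K Ω J P A (old N) U π h r hA
  obtain ⟨⟨f1, f2, f3, f4⟩, f5⟩ := rho_facts a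
  have k : ∀ x, rho a x = 0 ↔ π x = 0 := fun x =>
    (ker_cyc f1 f2 f3 f4 f5 x).trans (Iso.ker h r.mem r.tr x).symm
  refine ⟨A, hA, ⟨f, d, hs⟩, ⟨_, range_one a, iso_one k hA⟩, fun t t0 t1 => ?_⟩
  obtain ⟨q, hq, e1⟩ := e t t0 t1
  exact ⟨q, q.2, ⟨congrArg Subtype.val hq.isIdempotentElem.eq,
    congrArg Subtype.val hq.isSelfAdjoint.star_eq⟩, e1, _, _,
    ⟨(hA _).2 ⟨_, rfl⟩, Iso.proj_map π hq⟩, range_cor a hq,
    ((r.tr _).trans (Iso.trace_const _ _ U q)).trans e1, iso_cor k hA hq _⟩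

theorem ampIso {M : St.TwoOne K'} {a : St.UltraRep L U N} {b : St.UltraRep L' U M} {Ω : H}
    {A B : VonNeumannAlgebra H} (ha : Rz a Ω A) (hb : Rz b Ω B) {t : ℝ} (t0 : 0 < t) (t1 : t ≤ 1)
    (h : AI Ω A B t) : St.AmpIso a b t := by
  obtain ⟨q, m, hq, e, S, q', hq', e1, e2, i⟩ := hb.cut t t0.le t1
  obtain ⟨T, e3, j⟩ := ha.iso
  refine ⟨q, m, hq, e, ?_⟩
  rw [← e1, ← e3]
  exact starIso_of (iso_trans j (h q' hq' e2) i)

theorem dif_of_rz (hT : TrAStmt.{u}) {a : St.UltraRep L U N} {Ω : H} {J : H ≃ₗᵢ⋆[ℂ] H}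
    {P A : VonNeumannAlgebra H} (h : Std Ω J P) (f : Fac P) (hA : A ≤ P) (ha : Rz a Ω A) :
    Dif P 1 := by
  refine (hT H P (vec Ω) h.isTr).small f fun ε hε => ?_
  obtain ⟨-, -, -, -, -, q, hq, -, e, -⟩ :=
    ha.cut (min (ε / 2) 1) (by positivity) (min_le_right _ _)
  refine ⟨q, hq.mono hA, fun e0 => ?_, ?_⟩
  · rw [e0, map_zero, eq_comm, Complex.ofReal_eq_zero] at e
    exact (by positivity : 0 < min (ε / 2) 1).ne' e
  · rw [e, Complex.ofReal_re]
    exact (min_le_left _ _).trans_lt (half_lt_self hε)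

theorem main (hT : TrAStmt.{u}) (hT' : TrBStmt.{u}) (hC : TcStmt.{u}) (h1 : ThAStmt.{u})
    (h2 : ThBStmt.{u}) (hF : FrameStmt.{u}) (hV : AvgStmt.{u}) (hI : IntStmt.{u})
    (hE : EndStmt.{u}) (hM : AmpStmt.{u}) (u1 : UltAStmt.{u}) (u2 : UltBStmt.{u})
    {H₁ H₂ K₁ K₂ L₁ L₂ L₃ L₄ : Type u}
    [NormedAddCommGroup H₁] [InnerProductSpace ℂ H₁] [CompleteSpace H₁]
    [NormedAddCommGroup H₂] [InnerProductSpace ℂ H₂] [CompleteSpace H₂]
    [NormedAddCommGroup K₁] [InnerProductSpace ℂ K₁] [CompleteSpace K₁]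
    [NormedAddCommGroup K₂] [InnerProductSpace ℂ K₂] [CompleteSpace K₂]
    [NormedAddCommGroup L₁] [InnerProductSpace ℂ L₁] [CompleteSpace L₁]
    [NormedAddCommGroup L₂] [InnerProductSpace ℂ L₂] [CompleteSpace L₂]
    [NormedAddCommGroup L₃] [InnerProductSpace ℂ L₃] [CompleteSpace L₃]
    [NormedAddCommGroup L₄] [InnerProductSpace ℂ L₄] [CompleteSpace L₄]
    {N₁ : St.TwoOne H₁} {N₂ : St.TwoOne H₂} {M₁ : St.TwoOne K₁} {M₂ : St.TwoOne K₂}
    (hU : (U : Filter ℕ) ≤ cofinite) (n₁ : St.UltraRep L₁ U N₁) (n₂ : St.UltraRep L₂ U N₂)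
    (m₁ : St.UltraRep L₃ U M₁) (m₂ : St.UltraRep L₄ U M₂)
    (e : St.StarIso {T | St.MemTensor (n₁.alg 1) (n₂.alg 1) T}
      {T | St.MemTensor (m₁.alg 1) (m₂.alg 1) T}) : ∃ t : ℝ, 0 < t ∧ t ≤ 1 ∧
      ((St.AmpIso n₁ m₁ t ∧ St.AmpIso m₂ n₂ t) ∨ (St.AmpIso m₁ n₁ t ∧ St.AmpIso n₂ m₂ t) ∨
        (St.AmpIso n₁ m₂ t ∧ St.AmpIso m₁ n₂ t) ∨ (St.AmpIso m₂ n₁ t ∧ St.AmpIso n₂ m₁ t)) := by
  rw [← range_one n₁, ← range_one n₂, ← range_one m₁, ← range_one m₂, tensor_eq, tensor_eq] at e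
  obtain ⟨θ⟩ := equiv_of e
  obtain ⟨Ω, J, π₁, π₂, h, r⟩ := Ten.pair_two exist_stmt (side n₁) (side n₂)
  obtain ⟨Ω', J', ρ₁, ρ₂, h', r'⟩ := Ten.pair_two exist_stmt (side m₁) (side m₂)
  obtain ⟨C₁, hC₁, c₁⟩ := rz_of_rep u1 u2 hU m₁ h' r'.rep
  obtain ⟨C₂, hC₂, c₂⟩ := rz_of_rep u1 u2 hU m₂ h' r'.rep'
  have tC := tens_of_pair r' hC₁ hC₂
  have f := (hC _ _ _ _ _ _ h' tC).fac c₁.good.fac c₂.good.fac
  have s := pair_pull h θ.symm (tr_pres hT' h h' f (dif_of_rz hT h' f tC.le₁ c₁) θ.symm) r'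
  obtain ⟨A₁, hA₁, a₁⟩ := rz_of_rep u1 u2 hU n₁ h r.rep
  obtain ⟨A₂, hA₂, a₂⟩ := rz_of_rep u1 u2 hU n₂ h r.rep'
  obtain ⟨B₁, hB₁, b₁⟩ := rz_of_rep u1 u2 hU m₁ h s.rep
  obtain ⟨B₂, hB₂, b₂⟩ := rz_of_rep u1 u2 hU m₂ h s.rep'
  obtain ⟨t, t0, t1, ht⟩ := core h1 h2 hF hV hI hE hM h (tens_of_pair r hA₁ hA₂)
    (tens_of_pair s hB₁ hB₂) a₁.good a₂.good b₁.good b₂.good
  refine ⟨t, t0, t1, ?_⟩
  rcases ht with ⟨x, y⟩ | ⟨x, y⟩ | ⟨x, y⟩ | ⟨x, y⟩
  · exact Or.inl ⟨ampIso a₁ b₁ t0 t1 x, ampIso b₂ a₂ t0 t1 y⟩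
  · exact Or.inr (Or.inl ⟨ampIso b₁ a₁ t0 t1 x, ampIso a₂ b₂ t0 t1 y⟩)
  · exact Or.inr (Or.inr (Or.inl ⟨ampIso a₁ b₂ t0 t1 x, ampIso b₁ a₂ t0 t1 y⟩))
  · exact Or.inr (Or.inr (Or.inr ⟨ampIso b₂ a₁ t0 t1 x, ampIso a₂ b₁ t0 t1 y⟩))

end Pool.Agent.MP_ad85d3_an.Br

end
end MrgPart0

-- ======== part 1: formerly Pool.Agent.MP_ad85d3_an.GenA
section MrgPart1

/-! PROJECT UPF, module GENA: supports, polar parts, spectral cuts -/

open Filter Topology
open scoped ComplexOrder InnerProductSpace ComplexConjugate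

noncomputable section

namespace Pool.Agent.MP_ad85d3_an

universe u

namespace GenAAux

variable {H : Type u} [NormedAddCommGroup H] [InnerProductSpace ℂ H] [CompleteSpace H]

theorem comm_of_corner {R : Type*} [Ring R] [StarRing R] {e a : R} (he : star e = e)
    (h1 : (1 - e) * a * e = 0) (h2 : (1 - e) * star a * e = 0) : a * e = e * a := by
  have h3 := congrArg star h2
  simp only [star_mul, star_sub, star_one, he, star_star, star_zero] at h3
  have e1 : a * e = e * a * e := by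
    rw [sub_mul, sub_mul, one_mul, sub_eq_zero] at h1; exact h1
  have e2 : e * a = e * a * e := by
    rw [mul_sub, mul_one, mul_sub, ← mul_assoc, sub_eq_zero] at h3; exact h3
  rw [e1, ← e2]

/-- a projection characterised as a left support commutes with the invariant operators -/
theorem supp_comm {S : Set (Op H)} {e : Op H} (he : IsStarProjection e) (h1 : ∀ x ∈ S, e * x = x)
    (h2 : ∀ y : Op H, (∀ x ∈ S, y * x = 0) → y * e = 0) (a : Op H)
    (ha : ∀ x ∈ S, ∃ x' ∈ S, ∃ b : Op H, a * x = x' * b)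
    (ha' : ∀ x ∈ S, ∃ x' ∈ S, ∃ b : Op H, star a * x = x' * b) : a * e = e * a := by
  have k : ∀ a : Op H, (∀ x ∈ S, ∃ x' ∈ S, ∃ b : Op H, a * x = x' * b) →
      (1 - e) * a * e = 0 := fun a ha => h2 _ fun x hx => by
    obtain ⟨x', hx', b, hb⟩ := ha x hx
    rw [mul_assoc, hb, ← mul_assoc, sub_mul, one_mul, h1 x' hx', sub_self, zero_mul]
  exact comm_of_corner he.isSelfAdjoint.star_eq (k a ha) (k _ ha')

theorem supp (S : Set (Op H)) : ∃ e : Op H, IsStarProjection e ∧ (∀ x ∈ S, e * x = x) ∧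
    (∀ y : Op H, (∀ x ∈ S, y * x = 0) → y * e = 0) ∧
    ∀ a : Op H, (∀ x ∈ S, ∃ x' ∈ S, ∃ b : Op H, a * x = x' * b) →
      (∀ x ∈ S, ∃ x' ∈ S, ∃ b : Op H, star a * x = x' * b) → a * e = e * a := by
  let V : Submodule ℂ H := (Submodule.span ℂ {η | ∃ x ∈ S, ∃ ξ, η = x ξ}).topologicalClosure
  have : CompleteSpace V := (Submodule.isClosed_topologicalClosure _).completeSpace_coe
  have h0 : IsStarProjection V.starProjection := isStarProjection_starProjection
  have h1 : ∀ x ∈ S, V.starProjection * x = x := fun x hx => ContinuousLinearMap.ext fun ξ =>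
    Submodule.starProjection_eq_self_iff.2
      (Submodule.le_topologicalClosure _ (Submodule.subset_span ⟨x, hx, ξ, rfl⟩))
  have h2 : ∀ y : Op H, (∀ x ∈ S, y * x = 0) → y * V.starProjection = 0 := fun y hy => by
    have : V ≤ y.ker := Submodule.topologicalClosure_minimal _
      (Submodule.span_le.2 (by
        rintro _ ⟨x, hx, ξ, rfl⟩
        exact congrArg (fun z : Op H => z ξ) (hy x hx))) y.isClosed_ker
    exact ContinuousLinearMap.ext fun ξ => this (V.starProjection_apply_mem ξ)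
  exact ⟨_, h0, h1, h2, supp_comm h0 h1 h2⟩

theorem exists_polar (x h : Op H) (hn : ∀ ξ, ‖x ξ‖ = ‖h ξ‖) :
    ∃ v f : Op H, IsStarProjection f ∧ f * h = h ∧ (∀ y : Op H, y * h = 0 → y * f = 0) ∧
      v * h = x ∧ v * f = v := by
  let V : Submodule ℂ H := h.range.topologicalClosure
  have : CompleteSpace V := (Submodule.isClosed_topologicalClosure _).completeSpace_coe
  have hm : ∀ ξ, h ξ ∈ V := fun ξ => Submodule.le_topologicalClosure _ ⟨ξ, rfl⟩
  let e : H →ₗ[ℂ] V := h.toLinearMap.codRestrict V hm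
  have hd : DenseRange e := by
    rw [DenseRange, Subtype.dense_iff]
    refine closure_mono (t := Subtype.val '' Set.range e) ?_
    rintro _ ⟨ξ, rfl⟩
    exact ⟨e ξ, ⟨ξ, rfl⟩, rfl⟩
  let v₀ : V →L[ℂ] H := x.toLinearMap.extendOfNorm e
  have hv : ∀ ξ, v₀ (e ξ) = x ξ := fun ξ =>
    LinearMap.extendOfNorm_eq hd ⟨1, fun ξ => by rw [one_mul]; exact (hn ξ).le⟩ ξ
  refine ⟨v₀ ∘L V.orthogonalProjectionOnto, V.starProjection, isStarProjection_starProjection,
    ContinuousLinearMap.ext fun ξ => Submodule.starProjection_eq_self_iff.2 (hm ξ),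
    fun y hy => ?_, ContinuousLinearMap.ext fun ξ => ?_, ContinuousLinearMap.ext fun ξ => ?_⟩
  · have : V ≤ y.ker := Submodule.topologicalClosure_minimal _ (by
      rintro _ ⟨ξ, rfl⟩
      exact congrArg (fun z : Op H => z ξ) hy) y.isClosed_ker
    exact ContinuousLinearMap.ext fun ξ => this (V.starProjection_apply_mem ξ)
  · rw [← hv]
    exact congrArg v₀ (V.orthogonalProjectionOnto_mem_subspace_eq_self (e ξ))
  · exact congrArg v₀ (V.orthogonalProjectionOnto_mem_subspace_eq_self (V.orthogonalProjectionOnto ξ))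

theorem polar (x : Op H) : ∃ v : Op H, IsStarProjection (star v * v) ∧ v * star v * x = x ∧
    (∀ y : Op H, y * x = 0 → y * v = 0) ∧ (∀ y : Op H, x * y = 0 → v * y = 0) ∧
    ∀ a b : Op H, a * x = x * b → star a * x = x * star b → a * v = v * b := by
  set h := CFC.sqrt (star x * x) with hh
  have hs : star h = h := (IsSelfAdjoint.of_nonneg (CFC.sqrt_nonneg _)).star_eq
  have h2 : h * h = star x * x := CFC.sqrt_mul_sqrt_self _ (star_mul_self_nonneg x)
  have hn : ∀ ξ, ‖x ξ‖ = ‖h ξ‖ := fun ξ => by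
    have e1 := norm_orb_sq ξ x
    have e2 := norm_orb_sq ξ h
    rw [hs, h2, ← e1] at e2
    exact (pow_left_inj₀ (norm_nonneg _) (norm_nonneg _) two_ne_zero).1 e2.symm
  obtain ⟨v, f, hf, f1, f2, v1, v2⟩ := exists_polar x h hn
  have fs : star f = f := hf.isSelfAdjoint.star_eq
  have f1' : h * f = h := by
    have := congrArg star f1
    rwa [star_mul, hs, fs] at this
  have xv : star x = h * star v := by rw [← v1, star_mul, hs]
  have vv : star v * v = f := by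
    have a1 : h * (star v * v - f) * h = 0 := by
      rw [mul_sub, f1', sub_mul, ← mul_assoc, ← xv, mul_assoc, v1, h2, sub_self]
    have a2 : h * (star v * v - f) = 0 := by
      have := f2 _ a1
      rwa [mul_assoc, sub_mul, mul_assoc, v2, hf.isIdempotentElem.eq] at this
    have a3 := congrArg star a2
    rw [star_mul, star_sub, star_mul, star_star, fs, hs, star_zero] at a3
    have := f2 _ a3
    rwa [sub_mul, mul_assoc, v2, hf.isIdempotentElem.eq, sub_eq_zero] at this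
  refine ⟨v, vv ▸ hf, ?_, fun y hy => ?_, fun y hy => ?_, fun a b h3 h4 => ?_⟩
  · rw [← v1, ← mul_assoc, mul_assoc v, vv, v2]
  · rw [← v2, ← mul_assoc]
    exact f2 _ (by rw [mul_assoc, v1, hy])
  · have a1 : h * y = 0 := ContinuousLinearMap.ext fun ξ => by
      have : ‖x (y ξ)‖ = 0 := by rw [← mul_ap, hy]; simp
      rw [hn] at this
      exact norm_eq_zero.1 this
    have a2 := congrArg star a1
    rw [star_mul, hs, star_zero] at a2
    have a3 := congrArg star (f2 _ a2)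
    rw [star_mul, fs, star_star, star_zero] at a3
    rw [← v2, mul_assoc, a3, mul_zero]
  · have a1 : star x * a = b * star x := by
      have := congrArg star h4
      rwa [star_mul, star_mul, star_star, star_star] at this
    have a2 : Commute (star x * x) b := by
      rw [Commute, SemiconjBy, mul_assoc, ← h3, ← mul_assoc, a1, mul_assoc]
    have a3 : h * b = b * h := a2.cfcₙ_nnreal _
    have a4 : star b * h = h * star b := by
      have := congrArg star a3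
      rwa [star_mul, star_mul, hs] at this
    have a5 : b * f = f * b := supp_comm (S := {h}) hf (by simpa using f1) (by simpa using f2) b
      (by simpa using ⟨b, a3.symm⟩) (by simpa using ⟨_, a4⟩)
    have a6 := f2 (a * v - v * b) (by
      rw [sub_mul, mul_assoc, v1, mul_assoc, ← a3, ← mul_assoc, v1, h3, sub_self])
    rwa [sub_mul, mul_assoc, v2, mul_assoc, a5, ← mul_assoc, v2, sub_eq_zero] at a6

theorem cut (y : Op H) (hy : IsSelfAdjoint y) : ∃ e : Op H, IsStarProjection e ∧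
    (∀ a : Op H, a * y = y * a → a * e = e * a) ∧ 0 ≤ e * y ∧ (1 - e) * y ≤ 0 ∧
    ∀ z : Op H, z * y = 0 → z * e = 0 := by
  obtain ⟨e, he, h1, h2, h3⟩ := supp ({y⁺} : Set (Op H))
  simp only [Set.mem_singleton_iff, forall_eq, exists_eq_left] at h1 h2 h3
  have es : star e = e := he.isSelfAdjoint.star_eq
  have a1 : y⁻ * e = 0 := h2 _ (CFC.negPart_mul_posPart y)
  have a2 : e * y⁻ = 0 := by
    have := congrArg star a1
    rwa [star_mul, es, (IsSelfAdjoint.of_nonneg (CFC.negPart_nonneg y)).star_eq, star_zero] at this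
  have a3 : e * y = y⁺ := by
    nth_rewrite 1 [← CFC.posPart_sub_negPart y hy]
    rw [mul_sub, h1, a2, sub_zero]
  have a4 : y * e = y⁺ := by
    have := congrArg star a3
    rwa [star_mul, es, hy.star_eq, (IsSelfAdjoint.of_nonneg (CFC.posPart_nonneg y)).star_eq] at this
  have k : ∀ a : Op H, y * a = a * y → a * y⁺ = y⁺ * a := fun a ha =>
    (Commute.cfcₙ_real (a := y) (b := a) ha _).symm.eq
  refine ⟨e, he, fun a ha => h3 a ⟨a, k a ha.symm⟩ ⟨star a, k _ ?_⟩,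
    a3 ▸ CFC.posPart_nonneg y, ?_, fun z hz => h2 z (by rw [← a4, ← mul_assoc, hz, zero_mul])⟩
  · have := congrArg star ha
    rwa [star_mul, star_mul, hy.star_eq] at this
  · rw [sub_mul, one_mul, a3]
    nth_rewrite 1 [← CFC.posPart_sub_negPart y hy]
    rw [sub_sub_cancel_left, neg_nonpos]
    exact CFC.negPart_nonneg y

theorem fac (M : VonNeumannAlgebra H) (hM : Fac M) (p : Op H) (hp : p ∈ M) (h0 : p ≠ 0) (x : Op H)
    (hx : ∀ m ∈ M, x * m * p = 0) : x = 0 := by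
  obtain ⟨e, -, h1, h2, h3⟩ := supp {z : Op H | ∃ m ∈ M, z = m * p}
  have a1 : ∀ a ∈ M, a * e = e * a := fun a ha => by
    refine h3 a ?_ ?_ <;> rintro _ ⟨m, hm, rfl⟩
    · exact ⟨_, ⟨_, mul_mem ha hm, rfl⟩, 1, by rw [mul_one, mul_assoc]⟩
    · exact ⟨_, ⟨_, mul_mem (star_mem ha) hm, rfl⟩, 1, by rw [mul_one, mul_assoc]⟩
  have a2 : e ∈ M := mem_of_comm fun a ha => by
    refine h3 a ?_ ?_ <;> rintro _ ⟨m, hm, rfl⟩
    · exact ⟨_, ⟨m, hm, rfl⟩, a, (ha _ (mul_mem hm hp)).symm⟩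
    · exact ⟨_, ⟨m, hm, rfl⟩, star a, (comm_star ha _ (mul_mem hm hp)).symm⟩
  obtain ⟨c, hc⟩ := hM e a2 fun a ha => (a1 a ha).symm
  have a3 := h1 _ ⟨1, one_mem M, rfl⟩
  rw [one_mul, hc, smul_mul_assoc, one_mul] at a3
  have a4 : c = 1 := by
    by_contra h
    refine h0 ((smul_eq_zero.1 (?_ : (c - 1) • p = 0)).resolve_left (sub_ne_zero.2 h))
    rw [sub_smul, a3, one_smul, sub_self]
  have a5 := h2 x (by rintro _ ⟨m, hm, rfl⟩; rw [← mul_assoc, hx m hm])
  rwa [hc, a4, one_smul, mul_one] at a5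

theorem units (M : VonNeumannAlgebra H) (p T : Op H) (hp : Pj M p)
    (hT : ∀ u, Uni M p u → u * T = T * u) (x : Op H) (hx : x ∈ M) (hxp : p * x * p = x) :
    x * T = T * x := by
  have hD : ∀ y : Op H, y ∈ rel M {p} ↔ y ∈ M ∧ p * y = y * p := fun y => by
    simp [mem_rel, hp.star_eq]
  have key : ∀ y : (rel M {p}).toStarSubalgebra, (y.1 * p) * T = T * (y.1 * p) := by
    intro y
    have hy : y ∈ Submodule.span ℂ (unitary (rel M {p}).toStarSubalgebra :
        Set (rel M {p}).toStarSubalgebra) := by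
      rw [CStarAlgebra.span_unitary]; trivial
    induction hy using Submodule.span_induction with
    | mem y hy =>
      obtain ⟨h1, h2⟩ := (hD y.1).1 y.2
      have u1 : star y.1 * y.1 = 1 := congrArg Subtype.val (Unitary.star_mul_self_of_mem hy)
      have u2 : y.1 * star y.1 = 1 := congrArg Subtype.val (Unitary.mul_star_self_of_mem hy)
      refine hT _ ⟨mul_mem h1 hp.1, ?_, ?_⟩
      · rw [star_mul, hp.star_eq, mul_assoc, ← mul_assoc (star y.1), u1, one_mul, hp.mul_self]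
      · rw [star_mul, hp.star_eq, mul_assoc, ← mul_assoc p, hp.mul_self, ← mul_assoc, ← h2,
          mul_assoc, u2, mul_one]
    | zero => simp
    | add y z _ _ h1 h2 =>
      change (y.1 + z.1) * p * T = T * ((y.1 + z.1) * p)
      rw [add_mul, add_mul, mul_add, h1, h2]
    | smul c y _ h1 =>
      change (c • y.1) * p * T = T * ((c • y.1) * p)
      rw [smul_mul_assoc, smul_mul_assoc, mul_smul_comm, h1]
  have a1 : x * p = x := by rw [← hxp, mul_assoc, hp.mul_self]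
  have a2 : p * x = x := by rw [← hxp, ← mul_assoc, ← mul_assoc, hp.mul_self]
  have := key ⟨x, (hD x).2 ⟨hx, by rw [a1, a2]⟩⟩
  rwa [a1] at this

end GenAAux

theorem genA_stmt : GenAStmt.{u} := fun _ _ _ _ =>
  ⟨GenAAux.supp, GenAAux.polar, GenAAux.cut, fun M hM p hp h0 x hx => GenAAux.fac M hM p hp h0 x hx,
    fun M p T hp hT x hx hxp => GenAAux.units M p T hp hT x hx hxp⟩

end Pool.Agent.MP_ad85d3_an

end
end MrgPart1

-- ======== part 2: formerly Pool.Agent.MP_ad85d3_an.TrA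
section MrgPart2

/-!
# PROJECT UPF, module TRA: traces on projections, comparison by the trace, matrix units
-/

open Filter Topology
open scoped ComplexOrder InnerProductSpace ComplexConjugate

noncomputable section

namespace Pool.Agent.MP_ad85d3_an

universe u

namespace TrA

variable {H : Type u} [NormedAddCommGroup H] [InnerProductSpace ℂ H] [CompleteSpace H]
  {M : VonNeumannAlgebra H} {τ : Op H →ₗ[ℂ] ℂ}

theorem exists_sqrt {x : Op H} (hx : x ∈ M) (h0 : 0 ≤ x) : ∃ s ∈ M, star s * s = x := by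
  refine ⟨CFC.sqrt x, mem_of_comm fun a ha => ?_, ?_⟩
  · have hc : Commute x a := ha x hx
    exact (hc.cfcₙ_nnreal NNReal.sqrt).symm.eq
  · rw [(CFC.sqrt_nonneg x).isSelfAdjoint.star_eq]
    exact CFC.sqrt_mul_sqrt_self x h0

theorem tr_nonneg (h : IsTr M τ) {x : Op H} (hx : x ∈ M) (h0 : 0 ≤ x) : 0 ≤ τ x := by
  obtain ⟨s, hs, rfl⟩ := exists_sqrt hx h0
  exact h.pos s hs

theorem tr_eq_zero (h : IsTr M τ) {x : Op H} (hx : x ∈ M) (h0 : 0 ≤ x) (e : τ x = 0) : x = 0 := by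
  obtain ⟨s, hs, rfl⟩ := exists_sqrt hx h0
  rw [h.faith s hs e, mul_zero]

theorem tr_real (h : IsTr M τ) {x : Op H} (hx : x ∈ M) (hs : star x = x) : (τ x).im = 0 := by
  have h1 := (Complex.nonneg_iff.1 (h.pos (1 + x) (add_mem (one_mem M) hx))).2
  have h2 := (Complex.nonneg_iff.1 (h.pos x hx)).2
  have e : star (1 + x) * (1 + x) = 1 + x + x + star x * x := by
    rw [star_add, star_one, hs]; noncomm_ring
  rw [e, map_add, map_add, map_add, h.one] at h1
  simp only [Complex.add_im, Complex.one_im] at h1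
  linarith

theorem scal_sa (hA : GenA H) (h : IsTr M τ) {p : Op H} (hp : Pj M p)
    (hm : ∀ r, Pj M r → p * r = r → r = 0 ∨ r = p) {x : Op H} (hx : x ∈ M) (hs : star x = x) :
    ∃ c : ℂ, p * x * p = c • p := by
  by_cases h0 : p = 0
  · exact ⟨0, by rw [h0, mul_zero, smul_zero]⟩
  have hpos := h.proj_pos hp h0
  have hk : p * x * p ∈ M := mul_mem (mul_mem hp.1 hx) hp.1
  have hks : star (p * x * p) = p * x * p := by
    rw [star_mul, star_mul, hp.star_eq, hs, mul_assoc]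
  set t : ℝ := (τ (p * x * p)).re / (τ p).re with ht
  set y : Op H := p * x * p - (t : ℂ) • p with hy
  have hyM : y ∈ M := sub_mem hk (smul_mem_vn _ hp.1)
  have hys : IsSelfAdjoint y := by
    rw [IsSelfAdjoint, hy, star_sub, hks, star_smul, hp.star_eq]
    simp
  have hty : τ y = 0 := by
    rw [hy, map_sub, map_smul, (h.proj_re hp).1, smul_eq_mul, ← Complex.ofReal_mul, ht,
      div_mul_cancel₀ _ hpos.ne', sub_eq_zero]
    exact Complex.ext rfl (tr_real h hk hks)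
  have hpy : p * y = y := by
    rw [hy, mul_sub, mul_smul_comm, hp.mul_self, ← mul_assoc, ← mul_assoc, hp.mul_self]
  obtain ⟨e, he, hec, he1, he2, he3⟩ := hA.cut y hys
  have heM : e ∈ M := mem_of_comm fun a ha => hec a (ha y hyM).symm
  have hpe : p * e = e := by
    have := he3 (1 - p) (by rw [sub_mul, one_mul, hpy, sub_self])
    rw [sub_mul, one_mul, sub_eq_zero] at this
    exact this.symm
  have hy0 : y = 0 := by
    rcases hm e ⟨heM, he⟩ hpe with h1 | h1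
    · rw [h1, sub_zero, one_mul] at he2
      exact neg_eq_zero.1 (tr_eq_zero h (neg_mem hyM) (neg_nonneg.2 he2)
        (by rw [map_neg, hty, neg_zero]))
    · rw [h1, hpy] at he1
      exact tr_eq_zero h hyM he1 hty
  exact ⟨t, sub_eq_zero.1 hy0⟩

theorem scal_of (hA : GenA H) (h : IsTr M τ) {p : Op H} (hp : Pj M p)
    (hm : ∀ r, Pj M r → p * r = r → r = 0 ∨ r = p) {x : Op H} (hx : x ∈ M) :
    ∃ c : ℂ, p * x * p = c • p := by
  obtain ⟨c₁, h₁⟩ := scal_sa hA h hp hm (x := x + star x) (add_mem hx (star_mem hx))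
    (by rw [star_add, star_star, add_comm])
  obtain ⟨c₂, h₂⟩ := scal_sa hA h hp hm (x := Complex.I • (x - star x))
    (smul_mem_vn _ (sub_mem hx (star_mem hx)))
    (by rw [star_smul, star_sub, star_star, Complex.star_def, Complex.conj_I, neg_smul, ← smul_neg,
      neg_sub])
  refine ⟨(2 : ℂ)⁻¹ * (c₁ - Complex.I * c₂), ?_⟩
  have e : x = (2 : ℂ)⁻¹ • ((x + star x) - Complex.I • (Complex.I • (x - star x))) := by
    rw [smul_smul, Complex.I_mul_I, neg_smul, one_smul, sub_neg_eq_add, add_add_sub_cancel,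
      ← two_smul ℂ x, smul_smul, inv_mul_cancel₀ two_ne_zero, one_smul]
  calc p * x * p = p * ((2 : ℂ)⁻¹ • ((x + star x) -
        Complex.I • (Complex.I • (x - star x)))) * p := by rw [← e]
    _ = (2 : ℂ)⁻¹ • (p * (x + star x) * p -
        Complex.I • (p * (Complex.I • (x - star x)) * p)) := by
      rw [mul_smul_comm, smul_mul_assoc, mul_sub, sub_mul, mul_smul_comm Complex.I p,
        smul_mul_assoc]
    _ = _ := by rw [h₁, h₂, smul_smul, ← sub_smul, smul_smul]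

/-- range projection of a partial isometry below `q` -/
theorem range_pj {v q : Op H} (hv : v ∈ M) (h : IsStarProjection (star v * v)) (hq : q * v = v) :
    Pj M (v * star v) ∧ q * (v * star v) = v * star v :=
  ⟨⟨mul_mem hv (star_mem hv), pi_proj h⟩, by rw [← mul_assoc, hq]⟩

theorem le_of (hB : GenB H) (h : IsTr M τ) {p q : Op H} (hp : Pj M p) (hq : Pj M q)
    (hc : Conn M p q) (hle : (τ p).re ≤ (τ q).re) :
    ∃ v ∈ M, star v * v = p ∧ q * v = v ∧ ((τ p).re = (τ q).re → v * star v = q) := by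
  obtain ⟨v, hv, h1 | h1⟩ := hB.cmp M p q hp hq hc
  · refine ⟨v, hv, h1.1, h1.2, fun e => ?_⟩
    obtain ⟨h2, h3⟩ := range_pj hv (h1.1 ▸ hp.2) h1.2
    have h4 := h.proj_eq_zero (hq.sub h2 h3) (by
      rw [map_sub, h.comm v hv _ (star_mem hv), h1.1, Complex.sub_re, e, sub_self])
    exact (sub_eq_zero.1 h4).symm
  · have h2 : Pj M (star v * v) := ⟨mul_mem (star_mem hv) hv, pi_proj' (h1.1 ▸ hq.2)⟩
    have h3 : star v * v * p = star v * v := by rw [mul_assoc, h1.2]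
    have h3' : p * (star v * v) = star v * v := by
      have := congrArg star h3
      rwa [star_mul, hp.star_eq, h2.star_eq] at this
    have h4 := h.proj_eq_zero (hp.sub h2 h3') (by
      rw [map_sub, h.comm _ (star_mem hv) v hv, h1.1, Complex.sub_re]; linarith)
    refine ⟨v, hv, (sub_eq_zero.1 h4).symm, ?_, fun _ => h1.1⟩
    rw [← h1.1]; exact pi_mul' (h1.1 ▸ hq.2)

/-- halving -/
theorem halve {p : Op H} (hd : Dif M p) {r : Op H} (hr : Pj M r) (hpr : p * r = r)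
    (h0 : r ≠ 0) : ∃ r', Pj M r' ∧ r * r' = r' ∧ r' ≠ 0 ∧ (τ r').re ≤ (τ r).re / 2 := by
  obtain ⟨s, hs, h1, h2, h3⟩ := hd r hr hpr h0
  by_cases hle : (τ s).re ≤ (τ r).re / 2
  · exact ⟨s, hs, h1, h2, hle⟩
  · refine ⟨r - s, hr.sub hs h1, by rw [mul_sub, hr.mul_self, h1], fun e => h3 (sub_eq_zero.1 e).symm,
      ?_⟩
    rw [map_sub, Complex.sub_re]; linarith

theorem halve_pow (h : IsTr M τ) {p : Op H} (hd : Dif M p) {r : Op H} (hr : Pj M r)
    (hpr : p * r = r) (h0 : r ≠ 0) (n : ℕ) :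
    ∃ r', Pj M r' ∧ r * r' = r' ∧ r' ≠ 0 ∧ (τ r').re ≤ (τ r).re * (1 / 2) ^ n := by
  induction n with
  | zero => exact ⟨r, hr, hr.mul_self, h0, by simp⟩
  | succ n ih =>
    obtain ⟨s, hs, h1, h2, h3⟩ := ih
    obtain ⟨s', hs', h4, h5, h6⟩ := halve (τ := τ) hd hs (by rw [← h1, ← mul_assoc, hpr]) h2
    refine ⟨s', hs', by rw [← h4, ← mul_assoc, h1], h5, h6.trans ?_⟩
    rw [pow_succ]; linarith

theorem small_of (h : IsTr M τ) {p : Op H} (hd : Dif M p) {r : Op H} (hr : Pj M r)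
    (hpr : p * r = r) (h0 : r ≠ 0) {ε : ℝ} (hε : 0 < ε) :
    ∃ r', Pj M r' ∧ r * r' = r' ∧ r' ≠ 0 ∧ (τ r').re ≤ ε := by
  have hpos := h.proj_pos hr h0
  obtain ⟨n, hn⟩ := exists_pow_lt_of_lt_one (div_pos hε hpos) (by norm_num : (1 / 2 : ℝ) < 1)
  obtain ⟨r', h1, h2, h3, h4⟩ := halve_pow h hd hr hpr h0 n
  refine ⟨r', h1, h2, h3, h4.trans ?_⟩
  rw [lt_div_iff₀ hpos] at hn
  linarith

theorem exact_of (hB : GenB H) (h : IsTr M τ) {p : Op H} (hp : Pj M p) (hd : Dif M p) {t : ℝ}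
    (h0 : 0 ≤ t) (h1 : t ≤ (τ p).re) : ∃ q, Pj M q ∧ p * q = q ∧ τ q = t := by
  let S := {q : Op H // Pj M q ∧ p * q = q ∧ (τ q).re ≤ t}
  have hz : Pj M 0 := ⟨zero_mem M, IsStarProjection.zero _⟩
  obtain ⟨m, hm⟩ := exists_maximal_of_chains_bounded (α := S) (r := fun a b => b.1 * a.1 = a.1)
    (fun c hc => by
      rcases c.eq_empty_or_nonempty with rfl | hne
      · exact ⟨⟨0, hz, mul_zero p, by rw [map_zero]; exact h0⟩, fun a ha => absurd ha (by simp)⟩
      · obtain ⟨e, l, he, he1, hl, hl1, hl2⟩ := hB.chain M (Subtype.val '' c) (hne.image _)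
          (by rintro _ ⟨a, -, rfl⟩; exact a.2.1)
          (by
            rintro _ ⟨a, ha, rfl⟩ _ ⟨b, hb, rfl⟩
            by_cases hab : a = b
            · rw [hab]; exact Or.inl b.2.1.mul_self
            · exact hc ha hb hab)
        have hpe : p * e = e := by
          refine ContinuousLinearMap.ext fun ξ => ?_
          refine tendsto_nhds_unique ((p.continuous.tendsto _).comp (hl2 ξ)) ((hl2 ξ).congr' ?_)
          filter_upwards [hl1] with y hy
          obtain ⟨a, -, rfl⟩ := hy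
          exact (congrArg (fun z : Op H => z ξ) a.2.2.1).symm
        have hte : (τ e).re ≤ t := by
          have h2 := h.normal l e he.1 (by
            filter_upwards [hl1] with y hy
            obtain ⟨a, -, rfl⟩ := hy
            exact ⟨a.2.1.1, a.2.1.2.norm_le⟩) hl2
          refine le_of_tendsto ((Complex.continuous_re.tendsto _).comp h2) ?_
          filter_upwards [hl1] with y hy
          obtain ⟨a, -, rfl⟩ := hy
          exact a.2.2.2
        exact ⟨⟨e, he, hpe, hte⟩, fun a ha => he1 a.1 ⟨a, ha, rfl⟩⟩)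
    (fun {a b c} hab hbc => by rw [← hab, ← mul_assoc, hbc])
  obtain ⟨q, hq, hpq, hqt⟩ := m
  refine ⟨q, hq, hpq, ?_⟩
  rw [(h.proj_re hq).1]
  congr 1
  by_contra hne
  have hlt : (τ q).re < t := lt_of_le_of_ne hqt hne
  have hr := hp.sub hq hpq
  have hr0 : p - q ≠ 0 := fun e => by rw [sub_eq_zero.1 e] at h1; linarith
  obtain ⟨r, hr1, hr2, hr3, hr4⟩ := small_of h hd hr
    (by rw [mul_sub, hp.mul_self, hpq]) hr0 (sub_pos.2 hlt)
  have hqr : q * r = 0 := by
    rw [← hr2, ← mul_assoc, mul_sub, le_symm hp.2 hq.2 hpq, hq.mul_self, sub_self, zero_mul]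
  have hrq : r * q = 0 := by
    have := congrArg star hqr
    rwa [star_mul, hq.star_eq, hr1.star_eq, star_zero] at this
  have hpr : p * r = r := by rw [← hr2, ← mul_assoc, mul_sub, hp.mul_self, hpq]
  have key := hm ⟨q + r, hq.add hr1 hqr, by rw [mul_add, hpq, hpr], by
    rw [map_add, Complex.add_re]; linarith⟩
    (show (q + r) * q = q by rw [add_mul, hq.mul_self, hrq, add_zero])
  have key' : q * (q + r) = q + r := key
  rw [mul_add, hq.mul_self, hqr, add_right_inj] at key'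
  exact hr3 key'.symm

theorem units_of (hA : GenA H) (hB : GenB H) (h : IsTr M τ) (hF : Fac M) {c : Op H} (hc : Pj M c)
    (n : ℕ) : ∀ q : Op H, Pj M q → n * τ c = τ q →
    ∃ w : Fin n → Op H, (∀ i, w i ∈ M) ∧ (∀ i, star (w i) * w i = c) ∧
      (∀ i j, i ≠ j → star (w i) * w j = 0) ∧ ∑ i, w i * star (w i) = q := by
  induction n with
  | zero =>
    intro q hq e
    refine ⟨Fin.elim0, fun i => i.elim0, fun i => i.elim0, fun i => i.elim0, ?_⟩
    rw [Finset.univ_eq_empty, Finset.sum_empty]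
    refine (h.proj_eq_zero hq ?_).symm
    rw [← e]; simp
  | succ n ih =>
    intro q hq e
    have hre : (τ q).re = (n + 1) * (τ c).re := by
      rw [← e, (h.proj_re hc).1]
      simp
    have hc0 := (h.proj_re hc).2
    obtain ⟨v, hv, hv1, hv2, -⟩ := le_of hB h hc hq (hA.conn hF c q) (by
      rw [hre]; nlinarith [Nat.cast_nonneg (α := ℝ) n])
    obtain ⟨h2, h3⟩ := range_pj hv (hv1 ▸ hc.2) hv2
    have hq' := hq.sub h2 h3
    obtain ⟨w, hw, hw1, hw2, hw3⟩ := ih _ hq' (by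
      rw [map_sub, h.comm v hv _ (star_mem hv), hv1, ← e]; push_cast; ring)
    have hvv : v * (star v * v) = v := pi_mul (hv1 ▸ hc.2)
    have hq'v : (q - v * star v) * v = 0 := by rw [sub_mul, hv2, mul_assoc, hvv, sub_self]
    have hq'w : ∀ i, (q - v * star v) * w i = w i := fun i => by
      rw [← hw3, Finset.sum_mul, Finset.sum_eq_single i]
      · rw [mul_assoc]; exact pi_mul ((hw1 i).symm ▸ hc.2)
      · intro j _ hj; rw [mul_assoc, hw2 j i hj, mul_zero]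
      · intro hi; exact absurd (Finset.mem_univ i) hi
    have hwv : ∀ i, star (w i) * v = 0 := fun i => by
      rw [← hq'w i, star_mul, hq'.star_eq, mul_assoc, hq'v, mul_zero]
    have hvw : ∀ i, star v * w i = 0 := fun i => by
      have := congrArg star (hwv i)
      rwa [star_mul, star_star, star_zero] at this
    refine ⟨Fin.cons v w, fun i => ?_, fun i => ?_, fun i j hij => ?_, ?_⟩
    · refine Fin.cases ?_ (fun i => ?_) i
      · exact hv
      · exact hw i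
    · refine Fin.cases ?_ (fun i => ?_) i
      · exact hv1
      · exact hw1 i
    · revert hij
      refine Fin.cases ?_ (fun i => ?_) i <;> refine Fin.cases ?_ (fun j => ?_) j
      · exact fun e => absurd rfl e
      · exact fun _ => hvw j
      · exact fun _ => hwv i
      · exact fun e => hw2 i j fun e' => e (by rw [e'])
    · rw [Fin.sum_univ_succ]
      simp only [Fin.cons_zero, Fin.cons_succ]
      rw [hw3, add_sub_cancel]

theorem small_dif (hA : GenA H) (hB : GenB H) (h : IsTr M τ) (hF : Fac M)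
    (hs : ∀ ε : ℝ, 0 < ε → ∃ p, Pj M p ∧ p ≠ 0 ∧ (τ p).re < ε) : Dif M 1 := by
  intro q hq _ h0
  obtain ⟨p, hp, hp0, hlt⟩ := hs _ (h.proj_pos hq h0)
  obtain ⟨v, hv, hv1, hv2, -⟩ := le_of hB h hp hq (hA.conn hF p q) hlt.le
  obtain ⟨h2, h3⟩ := range_pj hv (hv1 ▸ hp.2) hv2
  have ht : τ (v * star v) = τ p := by rw [h.comm v hv _ (star_mem hv), hv1]
  refine ⟨v * star v, h2, h3, fun e => ?_, fun e => ?_⟩
  · have := h.proj_pos hp hp0
    rw [← ht, e, map_zero] at this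
    exact lt_irrefl _ this
  · rw [← ht, e] at hlt
    exact lt_irrefl _ hlt

theorem corner_of (hA : GenA H) (h : IsTr M τ) (hF : Fac M) {p : Op H} (hp : Pj M p) {x : Op H}
    (hx : x ∈ M) (hc : ∀ y ∈ M, p * y * p = y → y * x = x * y) : ∃ c : ℂ, p * x * p = c • p := by
  let S : Set (Op H) := {y | y ∈ M ∧ p * y * p = y}
  have hS : ∀ y ∈ S, star y ∈ S := fun y hy => ⟨star_mem hy.1, by
    have := congrArg star hy.2
    rwa [star_mul, star_mul, hp.star_eq, ← mul_assoc] at this⟩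
  have hSp : ∀ y ∈ S, y * p = p * y := fun y hy => by
    have h1 : p * y = y := by rw [← hy.2, ← mul_assoc, ← mul_assoc, hp.mul_self]
    have h2 : y * p = y := by rw [← hy.2, mul_assoc, hp.mul_self]
    rw [h1, h2]
  have hD : rel M S ≤ M := fun y hy => (mem_rel.1 hy).1
  have hpD : Pj (rel M S) p :=
    ⟨mem_rel.2 ⟨hp.1, fun s hs => ⟨hSp s hs, hSp _ (hS s hs)⟩⟩, hp.2⟩
  have hxD : x ∈ rel M S :=
    mem_rel.2 ⟨hx, fun s hs => ⟨hc s hs.1 hs.2, hc _ (hS s hs).1 (hS s hs).2⟩⟩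
  refine scal_of hA (h.mono hD) hpD (fun r hr hpr => ?_) hxD
  by_cases h0 : r = 0
  · exact Or.inl h0
  refine Or.inr (sub_eq_zero.1 (hA.fac M hF r (hD hr.1) h0 (p - r) fun m hm => ?_)).symm
  have h1 : p * m * p ∈ S := ⟨mul_mem (mul_mem hp.1 hm) hp.1, by
    rw [← mul_assoc, ← mul_assoc, hp.mul_self, mul_assoc (p * m), hp.mul_self]⟩
  have h2 := ((mem_rel.1 hr.1).2 _ h1).1
  have h3 : (p - r) * p = p - r := by rw [sub_mul, hp.mul_self, le_symm hp.2 hr.2 hpr]
  have h4 : (p - r) * r = 0 := by rw [sub_mul, hpr, hr.mul_self, sub_self]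
  calc (p - r) * m * r = (p - r) * p * m * (p * r) := by rw [h3, hpr]
    _ = (p - r) * (p * m * p * r) := by simp only [mul_assoc]
    _ = 0 := by rw [h2, ← mul_assoc, h4, zero_mul]

end TrA

open TrA in
theorem trA_stmt (hA : GenAStmt.{u}) (hB : GenBStmt.{u}) : TrAStmt.{u} :=
  fun H _ _ _ _ _ h =>
    ⟨fun _ hx h0 => tr_nonneg h hx h0, fun _ hx h0 e => tr_eq_zero h hx h0 e,
      fun _ hp hm _ hx => scal_of (hA H) h hp hm hx,
      fun _ _ hp hq hc hle => le_of (hB H) h hp hq hc hle,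
      fun _ hp hd _ h0 h1 => exact_of (hB H) h hp hd h0 h1,
      fun hF n _ q hc hq e => units_of (hA H) (hB H) h hF hc n q hq e,
      fun hF hs => small_dif (hA H) (hB H) h hF hs,
      fun hF _ hp _ hx hc => corner_of (hA H) h hF hp hx hc⟩

end Pool.Agent.MP_ad85d3_an

end
end MrgPart2

-- marker of a merged file
example : 731051 + 331285 = 731051 + 331285 := rfl
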