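import Mathlib.CategoryTheory.Category.Init
import Mathlib.Analysis.CStarAlgebra.ContinuousLinearMap
import Mathlib.Analysis.CStarAlgebra.GelfandNaimarkSegal
import Mathlib.Analysis.InnerProductSpace.TensorProduct
import Mathlib.Analysis.VonNeumannAlgebra.Basic
import Mathlib.RingTheory.PiTensorProduct

/-!
# Tracial ultrapowers and von Neumann tensor products: bundled working definitions
-/

open Filter Topology
open scoped ComplexOrder TensorProduct BoundedContinuousFunction

noncomputable section

namespace Pool.Agent.MP_ad85d3_an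

universe u

/-! ## the tracial ultrapower -/

/-- The C⋆-algebra `ℓ^∞(ℕ, A)` of norm-bounded sequences in `A`. -/
def Linf (A : Type u) [NonUnitalCStarAlgebra A] : Type u := ℕ →ᵇ A

section Ultra

variable {A : Type u} [NonUnitalCStarAlgebra A]

instance : NonUnitalCStarAlgebra (Linf A) := inferInstanceAs (NonUnitalCStarAlgebra (ℕ →ᵇ A))

/-- the usual order of a C⋆-algebra -/
instance : PartialOrder (Linf A) := CStarAlgebra.spectralOrder (Linf A)

instance : StarOrderedRing (Linf A) := CStarAlgebra.spectralOrderedRing (Linf A)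

/-- the `n`-th term of a bounded sequence -/
def Linf.term (x : Linf A) (n : ℕ) : A := (show ℕ →ᵇ A from x) n

theorem Linf.norm_term_le (x : Linf A) (n : ℕ) : ‖x.term n‖ ≤ ‖x‖ :=
  BoundedContinuousFunction.norm_coe_le_norm (show ℕ →ᵇ A from x) n

theorem tendsto_ultra (τ : A →L[ℂ] ℂ) (U : Ultrafilter ℕ) (x : Linf A) :
    Tendsto (fun n => τ (x.term n)) U (𝓝 (limUnder (U : Filter ℕ) fun n => τ (x.term n))) := by
  obtain ⟨c, -, hc⟩ := (isCompact_closedBall (0 : ℂ) (‖τ‖ * ‖x‖)).ultrafilter_le_nhds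
    (U.map fun n => τ (x.term n)) (by
      rw [le_principal_iff, Ultrafilter.coe_map, mem_map]
      refine univ_mem' fun n => mem_closedBall_zero_iff.2 ((τ.le_opNorm _).trans ?_)
      gcongr
      exact x.norm_term_le n)
  exact tendsto_nhds_limUnder ⟨c, hc⟩

/-- The functional `τ_U (x) = lim_{n → U} τ (x_n)` on bounded sequences. -/
def ultraTrace (τ : A →L[ℂ] ℂ) (hτ : ∀ x, 0 ≤ τ (star x * x)) (U : Ultrafilter ℕ) :
    Linf A →ₚ[ℂ] ℂ :=
  PositiveLinearMap.mk₀
    { toFun := fun x => limUnder (U : Filter ℕ) fun n => τ (x.term n)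
      map_add' := fun x y => tendsto_nhds_unique (tendsto_ultra τ U (x + y))
        (((tendsto_ultra τ U x).add (tendsto_ultra τ U y)).congr fun n => (τ.map_add _ _).symm)
      map_smul' := fun c x => tendsto_nhds_unique (tendsto_ultra τ U (c • x))
        (((tendsto_ultra τ U x).const_smul c).congr fun n => (τ.map_smul _ _).symm) }
    fun x hx => by
      obtain ⟨y, rfl⟩ := CStarAlgebra.nonneg_iff_eq_star_mul_self.1 hx
      exact ge_of_tendsto' (tendsto_ultra τ U _) fun n => hτ (y.term n)

/-- The tracial ultrapower `A^U`, realised on `L²(A^U)`: the image of `ℓ^∞(ℕ, A)` under the GNS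
representation of `τ_U`. -/
def ultrapower (τ : A →L[ℂ] ℂ) (hτ : ∀ x, 0 ≤ τ (star x * x)) (U : Ultrafilter ℕ) :
    NonUnitalStarSubalgebra ℂ ((ultraTrace τ hτ U).GNS →L[ℂ] (ultraTrace τ hτ U).GNS) :=
  NonUnitalStarAlgHom.range (ultraTrace τ hτ U).gnsNonUnitalStarAlgHom

theorem tendsto_ultraTrace (τ : A →L[ℂ] ℂ) (hτ : ∀ x, 0 ≤ τ (star x * x)) (U : Ultrafilter ℕ)
    (x : Linf A) : Tendsto (fun n => τ (x.term n)) U (𝓝 (ultraTrace τ hτ U x)) :=
  tendsto_ultra τ U x

/-- The corner `p A p` of a projection `p`. -/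
def corner {p : A} (hp : IsStarProjection p) : NonUnitalStarSubalgebra ℂ A where
  carrier := {x | p * x * p = x}
  add_mem' := fun {x y} hx hy => by
    rw [Set.mem_ofPred_eq] at *; rw [mul_add, add_mul, hx, hy]
  zero_mem' := by simp
  mul_mem' := fun {x y} hx hy => by
    rw [Set.mem_ofPred_eq] at *
    have h1 : p * x = x := by rw [← hx, ← mul_assoc, ← mul_assoc, hp.isIdempotentElem.eq]
    have h2 : y * p = y := by rw [← hy, mul_assoc, hp.isIdempotentElem.eq]
    rw [← mul_assoc, h1, mul_assoc, h2]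
  smul_mem' := fun c x hx => by
    rw [Set.mem_ofPred_eq] at *; rw [mul_smul_comm, smul_mul_assoc, hx]
  star_mem' := fun {x} hx => by
    rw [Set.mem_ofPred_eq] at *
    nth_rewrite 2 [← hx]
    rw [star_mul, star_mul, hp.isSelfAdjoint.star_eq, mul_assoc]

instance {p : A} (hp : IsStarProjection p) : IsClosed (corner hp : Set A) :=
  isClosed_eq (by fun_prop) continuous_id

end Ultra

/-! ## the von Neumann tensor product -/

section Tensor

variable {H K : Type u} [NormedAddCommGroup H] [InnerProductSpace ℂ H] [CompleteSpace H]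
  [NormedAddCommGroup K] [InnerProductSpace ℂ K] [CompleteSpace K]

variable (H K) in
/-- The Hilbert space tensor product. -/
abbrev HTensor : Type u := UniformSpace.Completion (H ⊗[ℂ] K)

/-- The von Neumann algebra tensor product of `A ⊆ B(H)` and `B ⊆ B(K)`: the double commutant of
the operators `a ⊗ b` on the Hilbert space tensor product. -/
def vnTensor (A : NonUnitalStarSubalgebra ℂ (H →L[ℂ] H))
    (B : NonUnitalStarSubalgebra ℂ (K →L[ℂ] K)) : VonNeumannAlgebra (HTensor H K) where
  toStarSubalgebra := StarSubalgebra.centralizer ℂ (StarSubalgebra.centralizer ℂ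
    {T | ∃ a ∈ A, ∃ b ∈ B, T = (TensorProduct.mapL a b).completion} :
      Set (HTensor H K →L[ℂ] HTensor H K))
  centralizer_centralizer' := by simp

end Tensor

/-! ## II₁ factors -/

section Factor

variable {H K : Type u} [NormedAddCommGroup H] [InnerProductSpace ℂ H] [CompleteSpace H]
  [NormedAddCommGroup K] [InnerProductSpace ℂ K] [CompleteSpace K]

instance (M : VonNeumannAlgebra H) : IsClosed (M.toStarSubalgebra : Set (H →L[ℂ] H)) := by
  rw [M.coe_toStarSubalgebra, ← M.centralizer_centralizer]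
  exact Set.isClosed_centralizer _

variable (H) in
/-- A II₁ factor on `H`: an infinite-dimensional von Neumann algebra with trivial centre and a
faithful normal tracial state (normal: strongly continuous on the unit ball). -/
structure TwoOne where
  /-- the algebra -/
  M : VonNeumannAlgebra H
  /-- the trace -/
  τ : M.toStarSubalgebra →L[ℂ] ℂ
  one : τ 1 = 1
  pos : ∀ x, 0 ≤ τ (star x * x)
  faithful : ∀ x, τ (star x * x) = 0 → x = 0
  tracial : ∀ x y, τ (x * y) = τ (y * x)
  normal : ∀ (l : Filter M.toStarSubalgebra) (x : M.toStarSubalgebra), (∀ᶠ y in l, ‖y‖ ≤ 1) →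
    (∀ ξ : H, Tendsto (fun y : M.toStarSubalgebra => (y : H →L[ℂ] H) ξ) l
      (𝓝 ((x : H →L[ℂ] H) ξ))) → Tendsto τ l (𝓝 (τ x))
  factor : ∀ z : M.toStarSubalgebra, (∀ x, z * x = x * z) → ∃ c : ℂ, z = c • 1
  infinite : ¬ FiniteDimensional ℂ M.toStarSubalgebra

/-- The ultrapower `N^U`. -/
def TwoOne.ultra (N : TwoOne H) (U : Ultrafilter ℕ) := ultrapower N.τ N.pos U

end Factor

end Pool.Agent.MP_ad85d3_an
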