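import Mathlib.Tactic.Monotonicity.Lemmas
import Mathlib.RingTheory.Flat.TorsionFree
import Mathlib.Analysis.CStarAlgebra.Module.Constructions
import Mathlib.RingTheory.SimpleRing.Principal
import Pool.Agent.MP_ad85d3_an.Stmt

/-!
# PROJECT UPF: working definitions and basic facts (do not edit; ask helper8)
-/

open Filter Topology
open scoped ComplexOrder InnerProductSpace ComplexConjugate

noncomputable section

namespace Pool.Agent.MP_ad85d3_an

universe u

/-- bounded operators -/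
abbrev Op (H : Type u) [NormedAddCommGroup H] [InnerProductSpace ℂ H] : Type u := H →L[ℂ] H

variable {H : Type u} [NormedAddCommGroup H] [InnerProductSpace ℂ H] [CompleteSpace H]

set_option linter.unusedSectionVars false

theorem mul_ap (x y : Op H) (ξ : H) : (x * y) ξ = x (y ξ) := rfl

/-! ## von Neumann algebras -/

/-- the commutant of `S ∪ S^*` -/
def vn (S : Set (Op H)) : VonNeumannAlgebra H where
  toStarSubalgebra := StarSubalgebra.centralizer ℂ S
  centralizer_centralizer' := by simp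

theorem mem_vn {S : Set (Op H)} {x : Op H} :
    x ∈ vn S ↔ ∀ s ∈ S, s * x = x * s ∧ star s * x = x * star s :=
  StarSubalgebra.mem_centralizer_iff ℂ

/-- membership through the commutant -/
theorem mem_of_comm {M : VonNeumannAlgebra H} {x : Op H}
    (h : ∀ a : Op H, (∀ m ∈ M, m * a = a * m) → a * x = x * a) : x ∈ M := by
  rw [← M.commutant_commutant, VonNeumannAlgebra.mem_commutant_iff]
  exact fun a ha => h a (VonNeumannAlgebra.mem_commutant_iff.1 ha)

theorem smul_mem_vn {M : VonNeumannAlgebra H} (c : ℂ) {x : Op H} (hx : x ∈ M) : c • x ∈ M :=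
  M.toStarSubalgebra.smul_mem hx c

/-- the relative commutant `M ∩ S'` -/
def rel (M : VonNeumannAlgebra H) (S : Set (Op H)) : VonNeumannAlgebra H :=
  vn ((M.commutant : Set (Op H)) ∪ S)

theorem mem_rel {M : VonNeumannAlgebra H} {S : Set (Op H)} {x : Op H} :
    x ∈ rel M S ↔ x ∈ M ∧ ∀ s ∈ S, s * x = x * s ∧ star s * x = x * star s := by
  rw [rel, mem_vn]
  refine ⟨fun h => ⟨mem_of_comm fun a ha =>
    (h a (Or.inl (VonNeumannAlgebra.mem_commutant_iff.2 ha))).1, fun s hs => h s (Or.inr hs)⟩, ?_⟩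
  rintro ⟨hx, h⟩ s (hs | hs)
  · exact ⟨(VonNeumannAlgebra.mem_commutant_iff.1 hs x hx).symm,
      (VonNeumannAlgebra.mem_commutant_iff.1 (star_mem hs) x hx).symm⟩
  · exact h s hs

/-- strong limits stay in the algebra -/
theorem mem_of_sot {M : VonNeumannAlgebra H} {ι : Type*} {l : Filter ι} [l.NeBot] {T : ι → Op H}
    {S : Op H} (hT : ∀ᶠ i in l, T i ∈ M) (h : ∀ ξ, Tendsto (fun i => T i ξ) l (𝓝 (S ξ))) :
    S ∈ M := by
  refine mem_of_comm fun a ha => ContinuousLinearMap.ext fun ξ => ?_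
  refine tendsto_nhds_unique ((a.continuous.tendsto _).comp (h ξ)) ((h (a ξ)).congr' ?_)
  filter_upwards [hT] with i hi
  exact congrArg (fun y : Op H => y ξ) (ha _ hi)

/-- projections of `M` -/
def Pj (M : VonNeumannAlgebra H) (p : Op H) : Prop := p ∈ M ∧ IsStarProjection p

/-- unitaries of the corner `q M q` -/
def Uni (M : VonNeumannAlgebra H) (q u : Op H) : Prop := u ∈ M ∧ star u * u = q ∧ u * star u = q

/-- trivial centre -/
def Fac (M : VonNeumannAlgebra H) : Prop :=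
  ∀ z ∈ M, (∀ x ∈ M, z * x = x * z) → ∃ c : ℂ, z = c • (1 : Op H)

/-- no minimal projection below `p` -/
def Dif (M : VonNeumannAlgebra H) (p : Op H) : Prop :=
  ∀ q, Pj M q → p * q = q → q ≠ 0 → ∃ r, Pj M r ∧ q * r = r ∧ r ≠ 0 ∧ r ≠ q

/-- the hypothesis of the comparison theorem -/
def Conn (M : VonNeumannAlgebra H) (p q : Op H) : Prop :=
  ∀ p' q', Pj M p' → Pj M q' → p * p' = p' → q * q' = q' → p' ≠ 0 → q' ≠ 0 →
    ∃ x ∈ M, q' * x * p' ≠ 0

/-- the corner `p M p` -/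
def cor (M : VonNeumannAlgebra H) {p : Op H} (hp : IsStarProjection p) :
    NonUnitalStarSubalgebra ℂ (Op H) :=
  M.toStarSubalgebra.toNonUnitalStarSubalgebra ⊓ corner hp

theorem mem_cor {M : VonNeumannAlgebra H} {p : Op H} {hp : IsStarProjection p} {x : Op H} :
    x ∈ cor M hp ↔ x ∈ M ∧ p * x * p = x := Iff.rfl

theorem Dif.mono {M : VonNeumannAlgebra H} {p p' : Op H} (h : Dif M p) (hp : p * p' = p') :
    Dif M p' := fun q hq h1 h2 => h q hq (by rw [← h1, ← mul_assoc, hp]) h2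

/-- a faithful normal tracial state on `M`, given as a functional on all operators -/
structure IsTr (M : VonNeumannAlgebra H) (τ : Op H →ₗ[ℂ] ℂ) : Prop where
  one : τ 1 = 1
  pos : ∀ x ∈ M, 0 ≤ τ (star x * x)
  faith : ∀ x ∈ M, τ (star x * x) = 0 → x = 0
  comm : ∀ x ∈ M, ∀ y ∈ M, τ (x * y) = τ (y * x)
  normal : ∀ (l : Filter (Op H)) (x : Op H), x ∈ M → (∀ᶠ y in l, y ∈ M ∧ ‖y‖ ≤ 1) →
    (∀ ξ : H, Tendsto (fun y : Op H => y ξ) l (𝓝 (x ξ))) → Tendsto τ l (𝓝 (τ x))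

theorem IsTr.mono {M D : VonNeumannAlgebra H} {τ : Op H →ₗ[ℂ] ℂ} (h : IsTr M τ) (hD : D ≤ M) :
    IsTr D τ :=
  ⟨h.one, fun x hx => h.pos x (hD hx), fun x hx => h.faith x (hD hx),
    fun x hx y hy => h.comm x (hD hx) y (hD hy),
    fun l x hx h1 h2 => h.normal l x (hD hx) (h1.mono fun _ hy => ⟨hD hy.1, hy.2⟩) h2⟩

theorem IsTr.proj_nonneg {M : VonNeumannAlgebra H} {τ : Op H →ₗ[ℂ] ℂ} (h : IsTr M τ) {p : Op H}
    (hp : Pj M p) : 0 ≤ τ p := by
  have := h.pos p hp.1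
  rwa [hp.2.isSelfAdjoint.star_eq, hp.2.isIdempotentElem.eq] at this

theorem IsTr.proj_eq_zero {M : VonNeumannAlgebra H} {τ : Op H →ₗ[ℂ] ℂ} (h : IsTr M τ) {p : Op H}
    (hp : Pj M p) (h0 : (τ p).re ≤ 0) : p = 0 := by
  refine h.faith p hp.1 ?_
  rw [hp.2.isSelfAdjoint.star_eq, hp.2.isIdempotentElem.eq]
  have := Complex.nonneg_iff.1 (h.proj_nonneg hp)
  exact Complex.ext (le_antisymm h0 this.1) this.2.symm

/-! ## standard form -/

/-- the vector state -/
def vec (Ω : H) : Op H →ₗ[ℂ] ℂ where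
  toFun x := ⟪Ω, x Ω⟫_ℂ
  map_add' x y := by simp
  map_smul' c x := by simp

theorem vec_apply (Ω : H) (x : Op H) : vec Ω x = ⟪Ω, x Ω⟫_ℂ := rfl

theorem vec_star_mul (Ω : H) (x y : Op H) : vec Ω (star x * y) = ⟪x Ω, y Ω⟫_ℂ := by
  rw [vec_apply, mul_ap, ContinuousLinearMap.star_eq_adjoint,
    ContinuousLinearMap.adjoint_inner_right]

theorem vec_star (Ω : H) (x : Op H) : vec Ω (star x) = conj (vec Ω x) := by
  rw [← mul_one (star x), vec_star_mul, vec_apply, inner_conj_symm]; rfl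

/-- the closure of `D Ω` -/
def orb (D : Set (Op H)) (Ω : H) : Submodule ℂ H :=
  (Submodule.span ℂ ((fun d : Op H => d Ω) '' D)).topologicalClosure

instance (D : Set (Op H)) (Ω : H) : CompleteSpace (orb D Ω) :=
  (Submodule.isClosed_topologicalClosure _).completeSpace_coe

/-- the projection onto the closure of `D Ω` -/
def eP (D : Set (Op H)) (Ω : H) : Op H := (orb D Ω).starProjection

theorem eP_proj (D : Set (Op H)) (Ω : H) : IsStarProjection (eP D Ω) :=
  isStarProjection_starProjection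

theorem eP_apply {D : Set (Op H)} {Ω : H} {d : Op H} (hd : d ∈ D) : eP D Ω (d Ω) = d Ω :=
  Submodule.starProjection_eq_self_iff.2
    (Submodule.le_topologicalClosure _ (Submodule.subset_span ⟨d, hd, rfl⟩))

/-- an operator that kills `D Ω` kills its closure -/
theorem mul_eP_eq_zero {D : Set (Op H)} {Ω : H} {y : Op H} (h : ∀ d ∈ D, y (d Ω) = 0) :
    y * eP D Ω = 0 := by
  have : orb D Ω ≤ y.ker := Submodule.topologicalClosure_minimal _
    (Submodule.span_le.2 (by rintro _ ⟨d, hd, rfl⟩; exact h d hd)) y.isClosed_ker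
  exact ContinuousLinearMap.ext fun ξ => this (Submodule.starProjection_apply_mem _ ξ)

/-- an operator that leaves the closure of `D Ω` invariant together with its adjoint -/
theorem comm_eP {D : Set (Op H)} {Ω : H} {a : Op H} (h1 : ∀ d ∈ D, eP D Ω (a (d Ω)) = a (d Ω))
    (h2 : ∀ d ∈ D, eP D Ω (star a (d Ω)) = star a (d Ω)) : a * eP D Ω = eP D Ω * a := by
  have k : ∀ b : Op H, (∀ d ∈ D, eP D Ω (b (d Ω)) = b (d Ω)) → eP D Ω * b * eP D Ω = b * eP D Ω :=
    fun b hb => by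
      rw [← sub_eq_zero, ← sub_mul]
      exact mul_eP_eq_zero fun d hd => by
        rw [sub_apply, mul_ap, hb d hd, sub_self]
  have e := congrArg star (k _ h2)
  simp only [star_mul, star_star, (eP_proj D Ω).isSelfAdjoint.star_eq] at e
  rw [← k a h1, mul_assoc, e]

theorem eP_comm {S : Type*} [SetLike S (Op H)] [SubringClass S (Op H)] [StarMemClass S (Op H)]
    {D : S} (Ω : H) {d : Op H} (hd : d ∈ D) : d * eP D Ω = eP D Ω * d :=
  comm_eP (fun x hx => by rw [← mul_ap d x]; exact eP_apply (mul_mem hd hx))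
    fun x hx => by rw [← mul_ap (star d) x]; exact eP_apply (mul_mem (star_mem hd) hx)

/-- conjugation by `J` -/
def kap (J : H ≃ₗᵢ⋆[ℂ] H) (x : Op H) : Op H :=
  J.toLinearIsometry.toContinuousLinearMap.comp (x.comp J.toLinearIsometry.toContinuousLinearMap)

theorem kap_apply (J : H ≃ₗᵢ⋆[ℂ] H) (x : Op H) (ξ : H) : kap J x ξ = J (x (J ξ)) := rfl

/-- `P` acts in standard form with trace vector `Ω` and conjugation `J` -/
structure Std (Ω : H) (J : H ≃ₗᵢ⋆[ℂ] H) (P : VonNeumannAlgebra H) : Prop where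
  unit : ‖Ω‖ = 1
  dense : Dense ((fun x : Op H => x Ω) '' P)
  invol : ∀ ξ, J (J ξ) = ξ
  J_orb : ∀ x ∈ P, J (x Ω) = star x Ω

theorem inner_J (J : H ≃ₗᵢ⋆[ℂ] H) (ξ η : H) : ⟪J ξ, J η⟫_ℂ = ⟪η, ξ⟫_ℂ := by
  have h : ∀ ξ η : H, (⟪J ξ, J η⟫_ℂ).re = (⟪ξ, η⟫_ℂ).re := fun ξ η => by
    have h1 := re_inner_eq_norm_add_mul_self_sub_norm_sub_mul_self_div_four (𝕜 := ℂ) (J ξ) (J η)
    have h2 := re_inner_eq_norm_add_mul_self_sub_norm_sub_mul_self_div_four (𝕜 := ℂ) ξ η
    rw [← map_add, ← map_sub, J.norm_map, J.norm_map] at h1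
    exact h1.trans h2.symm
  rw [← inner_conj_symm η ξ]
  refine Complex.ext (by rw [h, Complex.conj_re]) ?_
  have := h ξ (Complex.I • η)
  rw [LinearIsometryEquiv.map_smulₛₗ, inner_smul_right, inner_smul_right] at this
  rw [Complex.conj_im]
  simpa using this

theorem kap_add (J : H ≃ₗᵢ⋆[ℂ] H) (x y : Op H) : kap J (x + y) = kap J x + kap J y := by
  ext ξ; simp [kap_apply]

theorem kap_sub (J : H ≃ₗᵢ⋆[ℂ] H) (x y : Op H) : kap J (x - y) = kap J x - kap J y := by
  ext ξ; simp [kap_apply]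

theorem kap_zero (J : H ≃ₗᵢ⋆[ℂ] H) : kap J 0 = 0 := by ext ξ; simp [kap_apply]

theorem kap_smul (J : H ≃ₗᵢ⋆[ℂ] H) (c : ℂ) (x : Op H) : kap J (c • x) = conj c • kap J x := by
  ext ξ; exact J.map_smulₛₗ c (x (J ξ))

theorem norm_kap_le (J : H ≃ₗᵢ⋆[ℂ] H) (x : Op H) : ‖kap J x‖ ≤ ‖x‖ :=
  ContinuousLinearMap.opNorm_le_bound _ (norm_nonneg _) fun ξ => by
    rw [kap_apply, J.norm_map, ← J.norm_map ξ]; exact x.le_opNorm _

namespace Std

variable {Ω : H} {J : H ≃ₗᵢ⋆[ℂ] H} {P : VonNeumannAlgebra H} (h : Std Ω J P)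
include h

theorem J_one : J Ω = Ω := by simpa using h.J_orb 1 (one_mem P)

theorem kap_mul (x y : Op H) : kap J (x * y) = kap J x * kap J y := by
  ext ξ; simp [kap_apply, h.invol]

theorem kap_one : kap J 1 = 1 := by ext ξ; simp [kap_apply, h.invol]

theorem kap_kap (x : Op H) : kap J (kap J x) = x := by ext ξ; simp [kap_apply, h.invol]

theorem kap_star (x : Op H) : kap J (star x) = star (kap J x) := by
  rw [ContinuousLinearMap.star_eq_adjoint (kap J x), ContinuousLinearMap.eq_adjoint_iff]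
  intro ξ η
  rw [kap_apply, kap_apply, ← h.invol η, inner_J, h.invol, ← h.invol ξ, inner_J, h.invol,
    ContinuousLinearMap.star_eq_adjoint, ContinuousLinearMap.adjoint_inner_right]

/-- right multiplication -/
theorem kap_orb {x y : Op H} (hx : x ∈ P) (hy : y ∈ P) :
    kap J x (y Ω) = (y * star x) Ω := by
  rw [kap_apply, h.J_orb y hy, ← mul_ap,
    h.J_orb _ (mul_mem hx (star_mem hy)), star_mul, star_star]

theorem kap_one_orb {x : Op H} (hx : x ∈ P) : kap J x Ω = star x Ω := by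
  simpa using h.kap_orb hx (one_mem P)

theorem ext_orb {a b : Op H} (e : ∀ x ∈ P, a (x Ω) = b (x Ω)) : a = b :=
  ContinuousLinearMap.coeFn_injective (a.continuous.ext_on h.dense b.continuous (by
    rintro _ ⟨x, hx, rfl⟩; exact e x hx))

theorem eq_zero_of_inner {ξ : H} (e : ∀ x ∈ P, ⟪x Ω, ξ⟫_ℂ = 0) : ξ = 0 := by
  have := (continuous_id.inner continuous_const : Continuous fun η : H => ⟪η, ξ⟫_ℂ).ext_on
    h.dense continuous_const (g := fun _ => 0) (by rintro _ ⟨x, hx, rfl⟩; exact e x hx)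
  exact inner_self_eq_zero.1 (congrFun this ξ)

theorem kap_comm {x y : Op H} (hx : x ∈ P) (hy : y ∈ P) : kap J x * y = y * kap J x :=
  h.ext_orb fun z hz => by
    rw [mul_ap, ← mul_ap y z,
      h.kap_orb hx (mul_mem hy hz), mul_ap y (kap J x), h.kap_orb hx hz,
      mul_assoc]
    rfl

/-- two operators commuting with the right action agree if they agree at `Ω` -/
theorem ext_one {a b : Op H} (ha : ∀ x ∈ P, kap J x * a = a * kap J x)
    (hb : ∀ x ∈ P, kap J x * b = b * kap J x) (e : a Ω = b Ω) : a = b :=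
  h.ext_orb fun x hx => by
    have e1 : x Ω = kap J (star x) Ω := by rw [h.kap_one_orb (star_mem hx), star_star]
    rw [e1, ← mul_ap, ← ha _ (star_mem hx), ← mul_ap b,
      ← hb _ (star_mem hx), mul_ap, mul_ap, e]

theorem sep {x y : Op H} (hx : x ∈ P) (hy : y ∈ P) (e : x Ω = y Ω) : x = y :=
  h.ext_one (fun _ hz => h.kap_comm hz hx) (fun _ hz => h.kap_comm hz hy) e

theorem norm_star_orb {x : Op H} (hx : x ∈ P) : ‖star x Ω‖ = ‖x Ω‖ := by
  rw [← h.J_orb x hx, J.norm_map]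

theorem norm_mul_orb {x y : Op H} (hx : x ∈ P) (hy : y ∈ P) : ‖(x * y) Ω‖ ≤ ‖y‖ * ‖x Ω‖ := by
  have := h.kap_orb (star_mem hy) hx
  rw [star_star] at this
  rw [← this, ← norm_star y]
  exact ((kap J _).le_opNorm _).trans (by gcongr; exact norm_kap_le J _)

theorem isTr : IsTr P (vec Ω) where
  one := by simp [vec_apply, h.unit]
  pos x _ := by rw [vec_star_mul, inner_self_eq_norm_sq_to_K]; positivity
  faith x hx e := by
    rw [vec_star_mul, inner_self_eq_zero] at e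
    exact h.sep hx (zero_mem P) e
  comm x hx y hy := by
    nth_rewrite 1 [← star_star x]
    nth_rewrite 2 [← star_star y]
    rw [vec_star_mul, vec_star_mul, ← h.J_orb x hx, ← inner_J J, h.invol, h.J_orb y hy]
  normal l x _ _ h2 := (continuous_const.inner continuous_id).continuousAt.tendsto.comp (h2 Ω)

section sub

variable {S : Type*} [SetLike S (Op H)] [SubringClass S (Op H)] [StarMemClass S (Op H)] {D : S}
  (hD : ∀ d ∈ D, d ∈ P)
include hD

theorem eP_comm_kap {d : Op H} (hd : d ∈ D) : kap J d * eP D Ω = eP D Ω * kap J d :=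
  comm_eP (fun x hx => by
      rw [h.kap_orb (hD d hd) (hD x hx)]; exact eP_apply (mul_mem hx (star_mem hd)))
    fun x hx => by
      rw [← h.kap_star, h.kap_orb (star_mem (hD d hd)) (hD x hx), star_star]
      exact eP_apply (mul_mem hx hd)

theorem kap_eP : kap J (eP D Ω) = eP D Ω := by
  have k : kap J (eP D Ω) * eP D Ω = eP D Ω := by
    rw [← sub_eq_zero]
    nth_rewrite 3 [← one_mul (eP D Ω)]
    rw [← sub_mul]
    exact mul_eP_eq_zero fun d hd => by
      rw [sub_apply, kap_apply, h.J_orb d (hD d hd), eP_apply (star_mem hd),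
        h.J_orb _ (star_mem (hD d hd)), star_star, one_apply_eq_self, sub_self]
  have k2 := congrArg (kap J) k
  rw [h.kap_mul, h.kap_kap] at k2
  have k3 := congrArg star k
  rw [star_mul, ← h.kap_star, (eP_proj D Ω).isSelfAdjoint.star_eq] at k3
  rw [← k2, k3]

theorem J_eP (ξ : H) : J (eP D Ω ξ) = eP D Ω (J ξ) := by
  nth_rewrite 2 [← h.kap_eP hD]
  rw [kap_apply, h.invol]

/-- the trace property on the commutant of `eP D Ω` and of the right action of `D` -/
theorem adj {R : Op H} (h1 : R * eP D Ω = eP D Ω * R) (h2 : ∀ d ∈ D, kap J d * R = R * kap J d) :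
    J (R Ω) = star R Ω := by
  have e0 : eP D Ω Ω = Ω := eP_apply (d := 1) (one_mem D)
  have h1' : star R * eP D Ω = eP D Ω * star R := by
    have := congrArg star h1
    simp only [star_mul, (eP_proj D Ω).isSelfAdjoint.star_eq] at this
    exact this.symm
  have f1 : eP D Ω (R Ω) = R Ω := by
    rw [← mul_ap, ← h1, mul_ap, e0]
  have f2 : eP D Ω (star R Ω) = star R Ω := by
    rw [← mul_ap, ← h1', mul_ap, e0]
  set ξ := J (R Ω) - star R Ω with hξ
  have f3 : eP D Ω ξ = ξ := by rw [hξ, map_sub, ← h.J_eP hD, f1, f2]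
  have f4 : (InnerProductSpace.rankOne ℂ ξ ξ : Op H) * eP D Ω = 0 := mul_eP_eq_zero fun d hd => by
    have e1 : d Ω = kap J (star d) Ω := by
      rw [h.kap_one_orb (star_mem (hD d hd)), star_star]
    have e2 : ⟪star R Ω, d Ω⟫_ℂ = ⟪J (R Ω), d Ω⟫_ℂ := by
      have e3 : ⟪J (R Ω), d Ω⟫_ℂ = ⟪kap J d Ω, R Ω⟫_ℂ := by
        rw [h.kap_one_orb (hD d hd), ← h.J_orb d (hD d hd), ← inner_J J (R Ω), h.invol]
      rw [e3, ContinuousLinearMap.star_eq_adjoint, ContinuousLinearMap.adjoint_inner_left, e1,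
        ← mul_ap R, ← h2 _ (star_mem hd), mul_ap, h.kap_star, ContinuousLinearMap.star_eq_adjoint,
        ContinuousLinearMap.adjoint_inner_right]
    rw [InnerProductSpace.rankOne_apply, hξ, inner_sub_left, e2, sub_self, zero_smul]
  have f5 := congrArg (fun y : Op H => y ξ) f4
  simp only [mul_ap, f3, InnerProductSpace.rankOne_apply,
    zero_apply, smul_eq_zero, inner_self_eq_zero, or_self] at f5
  exact sub_eq_zero.1 f5

end sub

end Std

/-- `P` is the tensor product of the commuting subalgebras `D₁` and `D₂` -/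
structure Tens (Ω : H) (P D₁ D₂ : VonNeumannAlgebra H) : Prop where
  le₁ : D₁ ≤ P
  le₂ : D₂ ≤ P
  comm : ∀ a ∈ D₁, ∀ b ∈ D₂, a * b = b * a
  indep : ∀ a ∈ D₁, ∀ b ∈ D₂, vec Ω (a * b) = vec Ω a * vec Ω b
  dense : Dense (Submodule.span ℂ {ξ : H | ∃ a ∈ D₁, ∃ b ∈ D₂, ξ = (a * b) Ω} : Set H)

theorem Tens.symm {Ω : H} {P D₁ D₂ : VonNeumannAlgebra H} (h : Tens Ω P D₁ D₂) :
    Tens Ω P D₂ D₁ where
  le₁ := h.le₂
  le₂ := h.le₁
  comm a ha b hb := (h.comm b hb a ha).symm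
  indep a ha b hb := by rw [← h.comm b hb a ha, h.indep b hb a ha, mul_comm]
  dense := h.dense.mono (Submodule.span_mono (by
    rintro _ ⟨a, ha, b, hb, rfl⟩; exact ⟨b, hb, a, ha, by rw [h.comm a ha b hb]⟩))

/-- countable saturation for intertwiners -/
def Sat (A : VonNeumannAlgebra H) (Ω : H) : Prop :=
  ∀ (x y : ℕ → Op H) (κ : ℝ), (∀ k, x k ∈ A ∧ y k ∈ A) →
    (∀ n, ∃ v ∈ A, ‖v‖ ≤ 1 ∧ κ ≤ ‖v Ω‖ ∧ ∀ k < n, v * x k = y k * v) →
    ∃ v ∈ A, κ ≤ ‖v Ω‖ ∧ ∀ k, v * x k = y k * v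

/-- the injective tensor norm of `ξ` is at most `δ` -/
def Small (Ω : H) (B₁ B₂ : VonNeumannAlgebra H) (ξ : H) (δ : ℝ) : Prop :=
  ∀ c ∈ B₁, ∀ d ∈ B₂, ‖⟪(c * d) Ω, ξ⟫_ℂ‖ ≤ δ * ‖c Ω‖ * ‖d Ω‖

/-- the unitaries of `q A q` are not mixing relative to both `B₁` and `B₂` -/
def NoMix (Ω : H) (P A B₁ B₂ : VonNeumannAlgebra H) (q : Op H) : Prop :=
  ∃ (F : Finset (Op H)) (η : ℝ), (∀ y ∈ F, y ∈ P) ∧ 0 < η ∧ ∀ u, Uni A q u →
    ∃ y ∈ F, η ≤ ‖eP B₁ Ω ((star y * u) Ω)‖ ∨ η ≤ ‖eP B₂ Ω ((star y * u) Ω)‖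

/-- every corner of `A` has a non-mixing subcorner -/
def Rig (Ω : H) (P A B₁ B₂ : VonNeumannAlgebra H) : Prop :=
  ∀ a, Pj A a → a ≠ 0 → ∃ q, Pj A q ∧ a * q = q ∧ NoMix Ω P A B₁ B₂ q

/-- the basic construction: operators commuting with the right action of `B` -/
def bas (J : H ≃ₗᵢ⋆[ℂ] H) (B : VonNeumannAlgebra H) : VonNeumannAlgebra H :=
  vn (kap J '' (B : Set (Op H)))

open Classical in
/-- `T` has finite trace norm in the basic construction -/
def FinT (Ω : H) (J : H ≃ₗᵢ⋆[ℂ] H) (B : VonNeumannAlgebra H) (T : Op H) : Prop :=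
  T ∈ bas J B ∧ ∃ C : ℝ, ∀ (n : ℕ) (W : Fin n → Op H), (∀ i, W i ∈ bas J B) →
    (∀ i j, star (W i) * W j = if i = j then eP B Ω else 0) → ∑ i, ‖T (W i Ω)‖ ^ 2 ≤ C

/-- a corner of `A` is intertwined into `B` inside `P` -/
def Emb (P A B : VonNeumannAlgebra H) : Prop :=
  ∃ p v : Op H, Pj A p ∧ v ∈ P ∧ v ≠ 0 ∧ IsStarProjection (star v * v) ∧ p * v = v ∧
    ∀ x ∈ A, p * x * p = x → ∃ b ∈ B, x * v = v * b ∧ star x * v = v * star b

/-- `v` implements an isomorphism of `p A p` onto `c B c` -/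
structure Link (A B : VonNeumannAlgebra H) (v p c a b : Op H) : Prop where
  pA : Pj A p
  cB : Pj B c
  pa : IsStarProjection a
  pb : IsStarProjection b
  left : v * star v = p * a
  right : star v * v = c * b
  ca : ∀ x ∈ A, a * x = x * a
  cb : ∀ y ∈ B, b * y = y * b
  ia : ∀ x ∈ A, a * x = 0 → x = 0
  ib : ∀ y ∈ B, b * y = 0 → y = 0
  fw : ∀ x ∈ A, p * x * p = x → ∃ y ∈ B, c * y * c = y ∧ x * v = v * y
  bw : ∀ y ∈ B, c * y * c = y → ∃ x ∈ A, p * x * p = x ∧ x * v = v * y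

/-! ## projections and isometries -/

theorem pi_mul {v : Op H} (h : IsStarProjection (star v * v)) : v * (star v * v) = v := by
  have e := h.isIdempotentElem.eq
  have : star (v * (star v * v) - v) * (v * (star v * v) - v) = 0 := by
    rw [star_sub, star_mul, h.isSelfAdjoint.star_eq, sub_mul, mul_sub, mul_sub, mul_assoc,
      ← mul_assoc (star v) v, e, e, mul_assoc, e, sub_self]
  exact sub_eq_zero.1 (CStarRing.star_mul_self_eq_zero_iff _ |>.1 this)

theorem pi_proj {v : Op H} (h : IsStarProjection (star v * v)) : IsStarProjection (v * star v) :=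
  ⟨by rw [IsIdempotentElem, mul_assoc, ← mul_assoc (star v), ← mul_assoc, ← mul_assoc,
      mul_assoc v, pi_mul h], IsSelfAdjoint.mul_star_self v⟩

theorem pi_mul' {v : Op H} (h : IsStarProjection (v * star v)) : v * star v * v = v := by
  have := congrArg star (pi_mul (v := star v) (by rwa [star_star]))
  simpa only [star_mul, star_star] using this

theorem pi_proj' {v : Op H} (h : IsStarProjection (v * star v)) : IsStarProjection (star v * v) := by
  simpa only [star_star] using pi_proj (v := star v) (by rwa [star_star])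

theorem pi_norm {v : Op H} (h : IsStarProjection (star v * v)) : ‖v‖ ≤ 1 := by
  have h1 := h.norm_le
  rw [CStarRing.norm_star_mul_self] at h1
  nlinarith [norm_nonneg v]

theorem le_symm {p q : Op H} (hp : IsStarProjection p) (hq : IsStarProjection q) (h : p * q = q) :
    q * p = q := by
  have := congrArg star h
  rwa [star_mul, hp.isSelfAdjoint.star_eq, hq.isSelfAdjoint.star_eq] at this

theorem Pj.mul_self {M : VonNeumannAlgebra H} {p : Op H} (hp : Pj M p) : p * p = p :=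
  hp.2.isIdempotentElem.eq

theorem Pj.star_eq {M : VonNeumannAlgebra H} {p : Op H} (hp : Pj M p) : star p = p :=
  hp.2.isSelfAdjoint.star_eq

theorem Pj.sub {M : VonNeumannAlgebra H} {p q : Op H} (hp : Pj M p) (hq : Pj M q)
    (h : p * q = q) : Pj M (p - q) :=
  ⟨sub_mem hp.1 hq.1, hq.2.sub_of_mul_eq_right hp.2 h⟩

theorem Pj.add {M : VonNeumannAlgebra H} {p q : Op H} (hp : Pj M p) (hq : Pj M q)
    (h : p * q = 0) : Pj M (p + q) :=
  ⟨add_mem hp.1 hq.1, hp.2.add hq.2 h⟩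

theorem Pj.mul {M : VonNeumannAlgebra H} {p q : Op H} (hp : Pj M p) (hq : Pj M q)
    (h : p * q = q * p) : Pj M (p * q) :=
  ⟨mul_mem hp.1 hq.1, hp.2.mul hq.2 h⟩

theorem Pj.one (M : VonNeumannAlgebra H) : Pj M 1 := ⟨one_mem M, IsStarProjection.one _⟩

theorem Pj.mono {M D : VonNeumannAlgebra H} {p : Op H} (hp : Pj D p) (h : D ≤ M) : Pj M p :=
  ⟨h hp.1, hp.2⟩

theorem Uni.left {M : VonNeumannAlgebra H} {q u : Op H} (hu : Uni M q u) (hq : IsStarProjection q) :
    q * u = u := by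
  rw [← hu.2.2]; exact pi_mul' (hu.2.2 ▸ hq)

theorem Uni.right {M : VonNeumannAlgebra H} {q u : Op H} (hu : Uni M q u) (hq : IsStarProjection q) :
    u * q = u := by
  rw [← hu.2.1]; exact pi_mul (hu.2.1 ▸ hq)

theorem Uni.norm_le {M : VonNeumannAlgebra H} {q u : Op H} (hu : Uni M q u)
    (hq : IsStarProjection q) : ‖u‖ ≤ 1 := pi_norm (hu.2.1 ▸ hq)

theorem comm_star {M : VonNeumannAlgebra H} {a : Op H} (h : ∀ m ∈ M, m * a = a * m) :
    ∀ m ∈ M, m * star a = star a * m := fun m hm => by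
  have := congrArg star (h _ (star_mem hm))
  rw [star_mul, star_mul, star_star] at this
  exact this.symm

theorem IsTr.proj_re {M : VonNeumannAlgebra H} {τ : Op H →ₗ[ℂ] ℂ} (h : IsTr M τ) {p : Op H}
    (hp : Pj M p) : τ p = ((τ p).re : ℂ) ∧ 0 ≤ (τ p).re := by
  have := Complex.nonneg_iff.1 (h.proj_nonneg hp)
  exact ⟨Complex.ext rfl this.2.symm, this.1⟩

theorem IsTr.proj_mono {M : VonNeumannAlgebra H} {τ : Op H →ₗ[ℂ] ℂ} (h : IsTr M τ) {p q : Op H}
    (hp : Pj M p) (hq : Pj M q) (e : p * q = q) : (τ q).re ≤ (τ p).re := by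
  have := (h.proj_re (hp.sub hq e)).2
  rwa [map_sub, Complex.sub_re, sub_nonneg] at this

theorem IsTr.proj_pos {M : VonNeumannAlgebra H} {τ : Op H →ₗ[ℂ] ℂ} (h : IsTr M τ) {p : Op H}
    (hp : Pj M p) (h0 : p ≠ 0) : 0 < (τ p).re :=
  not_le.1 fun e => h0 (h.proj_eq_zero hp e)

theorem norm_orb_sq (Ω : H) (x : Op H) : ‖x Ω‖ ^ 2 = (vec Ω (star x * x)).re := by
  rw [vec_star_mul, inner_self_eq_norm_sq_to_K]; norm_cast

end Pool.Agent.MP_ad85d3_an
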