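import Pool.Agent.MP_ad85d3_an.Spec

-- ======== part 0: formerly Pool.Agent.MP_ad85d3_an.ThA
section MrgPart0

/-!
# PROJECT UPF, module THA: small tensor norm and saturation
-/

open Filter Topology
open scoped ComplexOrder InnerProductSpace ComplexConjugate

noncomputable section

namespace Pool.Agent.MP_ad85d3_an

universe u

namespace ThA

theorem ring1 {R : Type*} [Ring R] {p q s t : R} (pp : p * p = p) (qq : q * q = q)
    (pq : p * q = 0) (qp : q * p = 0) (sp : s * p = s) (qs : q * s = s) (pt : p * t = t)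
    (tq : t * q = t) (st : s * t = q) (ts : t * s = p) :
    (p - q) * (p - q) = p + q ∧ (p - q + (s + t)) * (p - q + (s + t)) = p + q + (p + q) ∧
      (p - q + (s + t)) * (p - q) * (p - q + (s + t)) = s + t + (s + t) := by
  have ps : p * s = 0 := by rw [← qs, ← mul_assoc, pq, zero_mul]
  have sq : s * q = 0 := by rw [← sp, mul_assoc, pq, mul_zero]
  have tp : t * p = 0 := by rw [← tq, mul_assoc, qp, mul_zero]
  have qt : q * t = 0 := by rw [← pt, ← mul_assoc, qp, zero_mul]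
  have ss : s * s = 0 := by rw [← sp, mul_assoc, ← mul_assoc p, ps, zero_mul, mul_zero]
  have tt : t * t = 0 := by rw [← tq, mul_assoc, ← mul_assoc q, qt, zero_mul, mul_zero]
  refine ⟨?_, ?_, ?_⟩ <;>
    simp only [mul_add, add_mul, mul_sub, sub_mul, pp, qq, pq, qp, sp, qs, pt, tq, st, ts, ps, sq,
      tp, qt, ss, tt, zero_mul] <;> abel

theorem orth {R : Type*} [Ring R] {p q x y : R} (pq : p * q = 0) (hx : x * p = x) (hy : q * y = y) :
    x * y = 0 := by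
  rw [← hx, ← hy, mul_assoc, ← mul_assoc p, pq, zero_mul, mul_zero]

theorem swap4 {R : Type*} [Ring R] {c d c' d' : R} (h : c' * d = d * c') :
    c * d * (c' * d') = c * c' * (d * d') := by
  rw [mul_assoc, ← mul_assoc d, ← h, mul_assoc, mul_assoc]

variable {H : Type u} [NormedAddCommGroup H] [InnerProductSpace ℂ H] [CompleteSpace H]
  {Ω : H} {J : H ≃ₗᵢ⋆[ℂ] H} {P A B₁ B₂ : VonNeumannAlgebra H}

theorem small_add {ξ η : H} {δ δ' : ℝ} (h : Small Ω B₁ B₂ ξ δ) (h' : Small Ω B₁ B₂ η δ') :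
    Small Ω B₁ B₂ (ξ + η) (δ + δ') := fun c hc d hd => by
  rw [inner_add_right, add_mul, add_mul]
  exact (norm_add_le _ _).trans (add_le_add (h c hc d hd) (h' c hc d hd))

theorem star_cd (ht : Tens Ω P B₁ B₂) {c d : Op H} (hc : c ∈ B₁) (hd : d ∈ B₂) :
    star (c * d) = star c * star d := by
  rw [star_mul, ht.comm _ (star_mem hc) _ (star_mem hd)]

theorem small_J (hs : Std Ω J P) (ht : Tens Ω P B₁ B₂) {ξ : H} {δ : ℝ} (h : Small Ω B₁ B₂ ξ δ) :
    Small Ω B₁ B₂ (J ξ) δ := fun c hc d hd => by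
  have := h _ (star_mem hc) _ (star_mem hd)
  rw [hs.norm_star_orb (ht.le₁ hc), hs.norm_star_orb (ht.le₂ hd)] at this
  rwa [← hs.invol ((c * d) Ω), inner_J, hs.J_orb _ (mul_mem (ht.le₁ hc) (ht.le₂ hd)),
    star_cd ht hc hd, norm_inner_symm]

theorem inner_mul (x : Op H) (ξ η : H) : ⟪ξ, x η⟫_ℂ = ⟪star x ξ, η⟫_ℂ := by
  rw [ContinuousLinearMap.star_eq_adjoint, ContinuousLinearMap.adjoint_inner_left]

theorem exists_delta {K ε : ℝ} (hK : 0 ≤ K) (hε : 0 < ε) : ∃ δ, 0 < δ ∧ δ * K ≤ ε :=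
  ⟨ε / (K + 1), by positivity, by
    rw [div_mul_eq_mul_div, div_le_iff₀ (by positivity)]
    nlinarith⟩

theorem lemA (hs : Std Ω J P) (ht : Tens Ω P B₁ B₂) (hc : TcF Ω P B₁ B₂) {x : Op H} (hx : x ∈ P)
    {ε : ℝ} (hε : 0 < ε) : ∃ δ, 0 < δ ∧ ∀ h ∈ P, ‖h‖ ≤ 1 → Small Ω B₁ B₂ (h Ω) δ →
      Small Ω B₁ B₂ ((x * h) Ω) ε := by
  obtain ⟨n, c, d, h1, h2, h3⟩ := hc.approx (x Ω) (ε / 2) (by positivity)
  obtain ⟨δ, d1, d2⟩ := exists_delta (K := ∑ i, ‖c i‖ * ‖d i‖) (by positivity) (half_pos hε)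
  refine ⟨δ, d1, fun h hP hn hh c' hc' d' hd' => ?_⟩
  have m0 : ∑ i, c i * d i ∈ P := sum_mem fun i _ => mul_mem (ht.le₁ (h1 i)) (ht.le₂ (h2 i))
  have e1 : (x * h) Ω = ((x - ∑ i, c i * d i) * h) Ω + ∑ i, (c i * d i) (h Ω) := by
    rw [sub_mul, sub_apply, mul_ap (∑ i, c i * d i),
      _root_.sum_apply, sub_add_cancel]
  have e2 : ‖((x - ∑ i, c i * d i) * h) Ω‖ ≤ ε / 2 :=
    (hs.norm_mul_orb (sub_mem hx m0) hP).trans
      ((mul_le_of_le_one_left (norm_nonneg _) hn).trans h3)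
  have e3 : ∀ i, ‖⟪(c' * d') Ω, (c i * d i) (h Ω)⟫_ℂ‖ ≤ δ * (‖c i‖ * ‖d i‖) * ‖c' Ω‖ * ‖d' Ω‖ :=
    fun i => by
      rw [inner_mul, star_cd ht (h1 i) (h2 i), ← mul_ap,
        swap4 (ht.comm _ hc' _ (star_mem (h2 i)))]
      refine (hh _ (mul_mem (star_mem (h1 i)) hc') _ (mul_mem (star_mem (h2 i)) hd')).trans ?_
      have k1 := (star (c i)).le_opNorm (c' Ω)
      have k2 := (star (d i)).le_opNorm (d' Ω)
      rw [norm_star] at k1 k2
      calc _ ≤ δ * (‖c i‖ * ‖c' Ω‖) * (‖d i‖ * ‖d' Ω‖) := by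
            rw [mul_ap, mul_ap]
            gcongr
        _ = _ := by ring
  rw [e1, inner_add_right, inner_sum]
  calc _ ≤ ‖c' Ω‖ * ‖d' Ω‖ * (ε / 2) + ∑ i, δ * (‖c i‖ * ‖d i‖) * ‖c' Ω‖ * ‖d' Ω‖ := by
        refine (norm_add_le _ _).trans (add_le_add ((norm_inner_le_norm _ _).trans ?_)
          ((norm_sum_le _ _).trans (Finset.sum_le_sum fun i _ => e3 i)))
        rw [hc.norm _ hc' _ hd']
        gcongr
    _ ≤ ‖c' Ω‖ * ‖d' Ω‖ * (ε / 2) + ε / 2 * ‖c' Ω‖ * ‖d' Ω‖ := by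
        rw [← Finset.sum_mul, ← Finset.sum_mul, ← Finset.mul_sum]
        gcongr
    _ = _ := by ring

/-- The estimate carried by a pair. -/
def Est (Ω : H) (B₁ B₂ : VonNeumannAlgebra H) (b : Op H) (η : H) (ε : ℝ) : Prop :=
  ∀ c ∈ B₁, ∀ d ∈ B₂, ∀ c' ∈ B₁, ∀ d' ∈ B₂,
    ‖⟪(c * d * b * (c' * d')) Ω, η⟫_ℂ‖ ≤ ε * (‖c‖ * ‖d‖ * (‖c'‖ * ‖d'‖))

theorem lemB (hs : Std Ω J P) (ht : Tens Ω P B₁ B₂) (hc : TcF Ω P B₁ B₂) {b : Op H} (hb : b ∈ P)
    {ε : ℝ} (hε : 0 < ε) : ∃ δ, 0 < δ ∧ ∀ η : H, ‖η‖ ≤ 1 → Small Ω B₁ B₂ η δ →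
      Est Ω B₁ B₂ b η ε := by
  obtain ⟨n, c, d, h1, h2, h3⟩ := hc.approx (b Ω) (ε / 2) (by positivity)
  obtain ⟨δ, d1, d2⟩ := exists_delta (K := ∑ i, ‖c i‖ * ‖d i‖) (by positivity) (half_pos hε)
  refine ⟨δ, d1, fun η hn hh x hx y hy x' hx' y' hy' => ?_⟩
  have m0 : ∑ i, c i * d i ∈ P := sum_mem fun i _ => mul_mem (ht.le₁ (h1 i)) (ht.le₂ (h2 i))
  have e1 : (x * y * b * (x' * y')) Ω = (x * y) (((b - ∑ i, c i * d i) * (x' * y')) Ω) +
      ∑ i, (x * c i * x' * (y * d i * y')) Ω := by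
    have : ∀ i, x * c i * x' * (y * d i * y') = x * y * (c i * d i) * (x' * y') := fun i => by
      rw [swap4 (ht.comm _ (h1 i) _ hy), swap4 (ht.comm _ hx' _ (mul_mem hy (h2 i)))]
    simp only [this]
    rw [← _root_.sum_apply, ← Finset.sum_mul, ← Finset.mul_sum, ← mul_ap,
      ← add_apply, ← mul_assoc (x * y), ← add_mul, ← mul_add, sub_add_cancel]
  have e2 : ‖(x * y) (((b - ∑ i, c i * d i) * (x' * y')) Ω)‖ ≤
      ‖x‖ * ‖y‖ * (‖x'‖ * ‖y'‖ * (ε / 2)) := by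
    refine ((x * y).le_opNorm _).trans (mul_le_mul (norm_mul_le _ _)
      ((hs.norm_mul_orb (sub_mem hb m0) (mul_mem (ht.le₁ hx') (ht.le₂ hy'))).trans
        (mul_le_mul (norm_mul_le _ _) h3 (norm_nonneg _) (by positivity))) (norm_nonneg _)
      (by positivity))
  have n3 : ∀ a a' a'' : Op H, ‖(a * a' * a'') Ω‖ ≤ ‖a‖ * ‖a'‖ * ‖a''‖ := fun a a' a'' => by
    have := (a * a' * a'').le_opNorm Ω
    rw [hs.unit, mul_one] at this
    exact this.trans norm_mul₃_le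
  have e3 : ∀ i, ‖⟪(x * c i * x' * (y * d i * y')) Ω, η⟫_ℂ‖ ≤
      δ * (‖c i‖ * ‖d i‖) * (‖x‖ * ‖y‖ * (‖x'‖ * ‖y'‖)) := fun i =>
    calc _ ≤ _ := hh _ (mul_mem (mul_mem hx (h1 i)) hx') _ (mul_mem (mul_mem hy (h2 i)) hy')
      _ ≤ δ * (‖x‖ * ‖c i‖ * ‖x'‖) * (‖y‖ * ‖d i‖ * ‖y'‖) := by
          have k1 := n3 x (c i) x'
          have k2 := n3 y (d i) y'
          gcongr
      _ = _ := by ring
  rw [e1, inner_add_left, sum_inner]
  calc _ ≤ ‖x‖ * ‖y‖ * (‖x'‖ * ‖y'‖ * (ε / 2)) +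
        ∑ i, δ * (‖c i‖ * ‖d i‖) * (‖x‖ * ‖y‖ * (‖x'‖ * ‖y'‖)) :=
        (norm_add_le _ _).trans (add_le_add ((norm_inner_le_norm _ _).trans
          ((mul_le_of_le_one_right (norm_nonneg _) hn).trans e2))
          ((norm_sum_le _ _).trans (Finset.sum_le_sum fun i _ => e3 i)))
    _ ≤ ‖x‖ * ‖y‖ * (‖x'‖ * ‖y'‖ * (ε / 2)) + ε / 2 * (‖x‖ * ‖y‖ * (‖x'‖ * ‖y'‖)) := by
        rw [← Finset.sum_mul, ← Finset.mul_sum]
        gcongr
    _ = _ := by ring

/-- A symmetry of the corner with conjugates of small tensor norm. -/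
def Nice (Ω : H) (A B₁ B₂ : VonNeumannAlgebra H) (G : Op H → Prop) (q : Op H) : Prop :=
  ∃ b, Uni A q b ∧ star b = b ∧ G b ∧ ∀ δ : ℝ, 0 < δ →
    ∃ w, Uni A q w ∧ G w ∧ Small Ω B₁ B₂ ((w * b * star w) Ω) δ

theorem base (hs : Std Ω J P) (ht : Tens Ω P B₁ B₂) (hc : TcF Ω P B₁ B₂) (hP : A ≤ P)
    (hT : TrA A (vec Ω)) (hcn : ∀ p q, Conn A p q) (hD : Dif A 1) {a q : Op H}
    (H0 : ∀ q, Pj A q → a * q = q → ∀ δ : ℝ, 0 < δ → ∃ u, Uni A q u ∧ Small Ω B₁ B₂ (u Ω) δ)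
    (hq : Pj A q) (ha : a * q = q) : Nice Ω A B₁ B₂ (fun _ => True) q := by
  have h0 := ((hs.isTr.mono hP).proj_re hq).2
  obtain ⟨p, p1, p2, p3⟩ := hT.exact q hq (hD.mono (one_mul q)) ((vec Ω q).re / 2) (by positivity)
    (by linarith)
  have r1 := hq.sub p1 p2
  have tr : (vec Ω p).re = (vec Ω (q - p)).re := by
    rw [map_sub, Complex.sub_re, p3, Complex.ofReal_re]
    ring
  obtain ⟨v, v1, v2, v3, v4⟩ := hT.le p (q - p) p1 r1 (hcn _ _) tr.le
  replace v4 := v4 tr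
  have e1 : p * (q - p) = 0 := by rw [mul_sub, le_symm hq.2 p1.2 p2, p1.mul_self, sub_self]
  have e2 : (q - p) * p = 0 := by rw [sub_mul, p2, p1.mul_self, sub_self]
  have e3 : p + (q - p) = q := add_sub_cancel _ _
  have sb : star (p - (q - p)) = p - (q - p) := by rw [star_sub, p1.star_eq, r1.star_eq]
  generalize q - p = r at *
  have vp : v * p = v := by rw [← v2]; exact pi_mul (v2 ▸ p1.2)
  have key : ∀ u, Uni A p u → (p - r) * (p - r) = q ∧
      (p - r + (v * u + star (v * u))) * (p - r + (v * u + star (v * u))) = q + q ∧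
      (p - r + (v * u + star (v * u))) * (p - r) * (p - r + (v * u + star (v * u))) =
        v * u + star (v * u) + (v * u + star (v * u)) := fun u hu => by
    have s1 : v * u * p = v * u := by rw [mul_assoc, hu.right p1.2]
    have s2 : r * (v * u) = v * u := by rw [← mul_assoc, v3]
    rw [← e3]
    refine ring1 p1.mul_self r1.mul_self e1 e2 s1 s2 ?_ ?_ ?_ ?_
    · simpa only [star_mul (v * u), p1.star_eq] using congrArg star s1
    · simpa only [star_mul r, r1.star_eq] using congrArg star s2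
    · rw [star_mul, mul_assoc, ← mul_assoc u, hu.2.2, ← mul_assoc, vp, v4]
    · rw [star_mul, mul_assoc, ← mul_assoc (star v), v2, hu.left p1.2, hu.2.1]
  have bb := (key p ⟨p1.1, by rw [p1.star_eq, p1.mul_self], by rw [p1.star_eq, p1.mul_self]⟩).1
  refine ⟨p - r, ⟨sub_mem p1.1 r1.1, by rw [sb, bb], by rw [sb, bb]⟩, sb, trivial, fun δ hδ => ?_⟩
  obtain ⟨δ', d1, d2⟩ := lemA hs ht hc (hP v1) (half_pos hδ)
  obtain ⟨u, u1, u2⟩ := H0 p p1 (by rw [← p2, ← mul_assoc, ha]) δ' d1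
  obtain ⟨-, k2, k3⟩ := key u u1
  have m1 : v * u ∈ A := mul_mem v1 u1.1
  have k4 := d2 u (hP u1.1) (u1.norm_le p1.2) u2
  have k5 := small_add k4 (small_J hs ht k4)
  rw [hs.J_orb _ (hP m1), add_halves, ← add_apply] at k5
  have m2 : p - r + (v * u + star (v * u)) ∈ A :=
    add_mem (sub_mem p1.1 r1.1) (add_mem m1 (star_mem m1))
  have m3 : star (p - r + (v * u + star (v * u))) = p - r + (v * u + star (v * u)) := by
    rw [star_add, sb, star_add, star_star, add_comm (star _)]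
  generalize p - r + (v * u + star (v * u)) = z at *
  obtain ⟨γ, g1, g2⟩ : ∃ γ : ℂ, star γ = γ ∧ γ * γ * 2 = 1 := ⟨((√2)⁻¹ : ℝ), Complex.conj_ofReal _, by
    rw [← Complex.ofReal_mul, ← mul_inv, Real.mul_self_sqrt zero_le_two]
    norm_num⟩
  have w1 : star (γ • z) = γ • z := by rw [star_smul, g1, m3]
  have w2 : γ • z * γ • z = q := by
    rw [smul_mul_smul_comm, k2, ← two_smul ℂ q, smul_smul, g2, one_smul]
  refine ⟨γ • z, ⟨smul_mem_vn γ m2, by rw [w1, w2], by rw [w1, w2]⟩, trivial, ?_⟩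
  rwa [w1, smul_mul_assoc, smul_mul_smul_comm, k3, ← two_smul ℂ (_ + _), smul_smul, g2, one_smul]

theorem uni_add {p q x y : Op H} (hp : Pj A p) (hq : Pj A q) (pq : p * q = 0) (qp : q * p = 0)
    (hx : Uni A p x) (hy : Uni A q y) : Uni A (p + q) (x + y) := by
  have a1 : ∀ {p x : Op H}, Pj A p → Uni A p x → star x * p = star x ∧ p * star x = star x :=
    fun hp hx => ⟨by simpa only [star_mul, hp.star_eq] using congrArg star (hx.left hp.2),
      by simpa only [star_mul, hp.star_eq] using congrArg star (hx.right hp.2)⟩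
  refine ⟨add_mem hx.1 hy.1, ?_, ?_⟩ <;> rw [star_add, add_mul, mul_add, mul_add]
  · rw [hx.2.1, hy.2.1, orth pq (a1 hp hx).1 (hy.left hq.2), orth qp (a1 hq hy).1 (hx.left hp.2),
      add_zero, zero_add]
  · rw [hx.2.2, hy.2.2, orth pq (hx.right hp.2) (a1 hq hy).2, orth qp (hy.right hq.2) (a1 hp hx).2,
      add_zero, zero_add]

theorem step {ι : Type*} {a : Op H}
    (hb : ∀ q, Pj A q → a * q = q → Nice Ω A B₁ B₂ (fun _ => True) q) (g : ι → Op H)
    (G : Finset ι) (h1 : ∀ i ∈ G, Pj A (g i)) (h2 : ∀ i ∈ G, ∀ j ∈ G, Commute (g i) (g j)) :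
    ∀ q, Pj A q → a * q = q → (∀ i ∈ G, Commute (g i) q) →
      Nice Ω A B₁ B₂ (fun x => ∀ i ∈ G, Commute (g i) x) q := by
  classical
  induction G using Finset.induction_on with
  | empty =>
    intro q hq ha _
    simpa using hb q hq ha
  | insert i G _ ih =>
    intro q hq ha h3
    have mi := Finset.mem_insert_self i G
    have mj : ∀ j ∈ G, j ∈ insert i G := fun j => Finset.mem_insert_of_mem
    replace ih := ih (fun j hj => h1 j (mj j hj)) fun j hj k hk => h2 j (mj j hj) k (mj k hk)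
    have c1 : q * g i = g i * q := (h3 i mi).symm
    have p1 : Pj A (q * g i) := hq.mul (h1 i mi) c1
    have p2 : q * (q * g i) = q * g i := by rw [← mul_assoc, hq.mul_self]
    have r1 := hq.sub p1 p2
    have p3 : a * (q * g i) = q * g i := by rw [← mul_assoc, ha]
    have c2 : ∀ j ∈ G, Commute (g j) (q * g i) := fun j hj =>
      (h3 j (mj j hj)).mul_right (h2 j (mj j hj) i mi)
    obtain ⟨b, b1, b2, b3, b4⟩ := ih _ p1 p3 c2
    obtain ⟨b', b1', b2', b3', b4'⟩ := ih _ r1 (by rw [mul_sub, ha, p3])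
      fun j hj => (h3 j (mj j hj)).sub_right (c2 j hj)
    have g1 : q * g i * g i = q * g i := by rw [mul_assoc, (h1 i mi).mul_self]
    have g2 : g i * (q * g i) = q * g i := by rw [← mul_assoc, ← c1, g1]
    have g3 : (q - q * g i) * g i = 0 := by rw [sub_mul, g1, sub_self]
    have g4 : g i * (q - q * g i) = 0 := by rw [mul_sub, g2, c1, sub_self]
    have e1 : q * g i * (q - q * g i) = 0 := by rw [mul_assoc, g4, mul_zero]
    have e2 : (q - q * g i) * (q * g i) = 0 := by rw [c1, ← mul_assoc, ← c1, g3, zero_mul]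
    have e3 : q * g i + (q - q * g i) = q := add_sub_cancel _ _
    generalize q - q * g i = r at *
    generalize q * g i = p at *
    have cm : ∀ x y, Uni A p x → Uni A r y → (∀ j ∈ G, Commute (g j) x) →
        (∀ j ∈ G, Commute (g j) y) → ∀ j ∈ insert i G, Commute (g j) (x + y) := by
      intro x y hx hy k1 k2 j hj
      rcases Finset.mem_insert.1 hj with rfl | hj
      · refine Commute.add_right ?_ ?_
        · show g j * x = x * g j
          rw [← hx.left p1.2, ← mul_assoc, g2, hx.left p1.2, ← hx.right p1.2, mul_assoc, g1]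
        · show g j * y = y * g j
          rw [← hy.left r1.2, ← mul_assoc, g4, zero_mul, hy.left r1.2, ← hy.right r1.2, mul_assoc,
            g3, mul_zero]
      · exact (k1 j hj).add_right (k2 j hj)
    refine ⟨b + b', e3 ▸ uni_add p1 r1 e1 e2 b1 b1', by rw [star_add, b2, b2'],
      cm b b' b1 b1' b3 b3', fun δ hδ => ?_⟩
    obtain ⟨w, w1, w2, w3⟩ := b4 _ (half_pos hδ)
    obtain ⟨w', w1', w2', w3'⟩ := b4' _ (half_pos hδ)
    refine ⟨w + w', e3 ▸ uni_add p1 r1 e1 e2 w1 w1', cm w w' w1 w1' w2 w2', ?_⟩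
    have k := small_add w3 w3'
    have s1 : p * star w = star w := by
      simpa only [star_mul, p1.star_eq] using congrArg star (w1.right p1.2)
    have s2 : r * star w' = star w' := by
      simpa only [star_mul, r1.star_eq] using congrArg star (w1'.right r1.2)
    rw [add_halves, ← add_apply] at k
    rwa [add_mul w, mul_add w, mul_add w', orth e1 (w1.right p1.2) (b1'.left r1.2),
      orth e2 (w1'.right r1.2) (b1.left p1.2), add_zero, zero_add, star_add, add_mul, mul_add,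
      mul_add, mul_assoc w b (star w'), mul_assoc w' b' (star w), orth e1 (b1.right p1.2) s2,
      orth e2 (b1'.right r1.2) s1, mul_zero, mul_zero, add_zero, zero_add]

theorem uni_mul {a x y : Op H} (ha : Pj A a) (hx : Uni A a x) (hy : Uni A a y) :
    Uni A a (x * y) :=
  ⟨mul_mem hx.1 hy.1, by
    rw [star_mul, mul_assoc, ← mul_assoc (star x), hx.2.1, hy.left ha.2, hy.2.1], by
    rw [star_mul, mul_assoc, ← mul_assoc y, hy.2.2, ← mul_assoc, hx.right ha.2, hx.2.2]⟩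

theorem uni_star {a x : Op H} (hx : Uni A a x) : Uni A a (star x) :=
  ⟨star_mem hx.1, by rw [star_star, hx.2.2], by rw [star_star, hx.2.1]⟩

/-- The state of the recursion. -/
def Inv (A : VonNeumannAlgebra H) (a : Op H) (σ : Op H × Finset (Op H × Op H)) : Prop :=
  Uni A a σ.1 ∧ ∀ p ∈ σ.2, (Uni A a p.1 ∧ star p.1 = p.1) ∧ (Uni A a p.2 ∧ star p.2 = p.2) ∧
    σ.1 * p.1 = p.2 * σ.1 ∧ ∀ p' ∈ σ.2, Commute p.2 p'.2

open Classical in
theorem next (hs : Std Ω J P) (ht : Tens Ω P B₁ B₂) (hc : TcF Ω P B₁ B₂) (hP : A ≤ P) {a : Op H}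
    (ha : Pj A a) (hb : ∀ q, Pj A q → a * q = q → Nice Ω A B₁ B₂ (fun _ => True) q) {ε : ℝ}
    (hε : 0 < ε) (σ : Op H × Finset (Op H × Op H)) (hσ : Inv A a σ) :
    ∃ (v : Op H) (p : Op H × Op H), Inv A a (v, insert p σ.2) ∧ Est Ω B₁ B₂ p.1 (p.2 Ω) ε := by
  obtain ⟨v, G⟩ := σ
  obtain ⟨hv, hG⟩ := hσ
  simp only at hv hG
  have ca : ∀ x, Uni A a x → Commute a x := fun x hx =>
    (hx.left ha.2).trans (hx.right ha.2).symm
  have aa : Uni A a a := ⟨ha.1, by rw [ha.star_eq, ha.mul_self], by rw [ha.star_eq, ha.mul_self]⟩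
  obtain ⟨b, b1, b2, b3, b4⟩ := step hb (fun p : Op H × Op H => (2⁻¹ : ℂ) • (a + p.2)) G
    (fun p hp => by
      obtain ⟨-, ⟨k1, k2⟩, -⟩ := hG p hp
      refine ⟨smul_mem_vn _ (add_mem ha.1 k1.1), ?_, ?_⟩
      · have k3 := k1.2.1
        rw [k2] at k3
        rw [IsIdempotentElem, smul_mul_smul_comm, add_mul, mul_add, mul_add, ha.mul_self,
          k1.left ha.2, k1.right ha.2, k3, add_comm p.2 a, ← two_smul ℂ (a + p.2), smul_smul]
        norm_num
      · rw [IsSelfAdjoint, star_smul, star_add, ha.star_eq, k2]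
        simp)
    (fun p hp p' hp' => (((Commute.refl a).add_right (ca _ (hG p' hp').2.1.1)).add_left
      ((ca _ (hG p hp).2.1.1).symm.add_right ((hG p hp).2.2.2 p' hp'))).smul_left _ |>.smul_right _)
    a ha ha.mul_self
    fun p hp => ((Commute.refl a).add_left (ca _ (hG p hp).2.1.1).symm).smul_left _
  have cv : ∀ x, Uni A a x → (∀ p ∈ G, Commute ((2⁻¹ : ℂ) • (a + p.2)) x) →
      ∀ p ∈ G, Commute p.2 x := fun x hx k p hp => by
    have := ((k p hp).smul_left (2 : ℂ)).sub_left (ca x hx)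
    rwa [smul_smul, mul_inv_cancel₀ two_ne_zero, one_smul, add_sub_cancel_left] at this
  have u1 := uni_mul ha (uni_mul ha (uni_star hv) b1) hv
  obtain ⟨δ, d1, d2⟩ := lemB hs ht hc (hP u1.1) hε
  obtain ⟨w, w1, w2, w3⟩ := b4 δ d1
  have u2 := uni_mul ha (uni_mul ha w1 b1) (uni_star w1)
  have c1 : ∀ p ∈ G, Commute p.2 (w * b * star w) := fun p hp => by
    have k := (cv w w1 w2 p hp).star_star
    rw [(hG p hp).2.1.2] at k
    exact ((cv w w1 w2 p hp).mul_right (cv b b1 b3 p hp)).mul_right k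
  refine ⟨w * v, (star v * b * v, w * b * star w), ⟨uni_mul ha w1 hv, fun p hp => ?_⟩,
    d2 _ (((w * b * star w).le_opNorm Ω).trans ?_) w3⟩
  · rcases Finset.mem_insert.1 hp with rfl | hp
    · refine ⟨⟨u1, by simp only [star_mul, star_star, b2, mul_assoc]⟩,
        ⟨u2, by simp only [star_mul, star_star, b2, mul_assoc]⟩, ?_, fun p' hp' => ?_⟩
      · show w * v * (star v * b * v) = w * b * star w * (w * v)
        rw [mul_assoc (star v), mul_assoc w, ← mul_assoc v, hv.2.2, ← mul_assoc a, b1.left ha.2,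
          mul_assoc (w * b), ← mul_assoc (star w), w1.2.1, hv.left ha.2, mul_assoc]
      · rcases Finset.mem_insert.1 hp' with rfl | hp'
        exacts [Commute.refl _, (c1 p' hp').symm]
    · refine ⟨(hG p hp).1, (hG p hp).2.1, ?_, fun p' hp' => ?_⟩
      · show w * v * p.1 = p.2 * (w * v)
        rw [mul_assoc, (hG p hp).2.2.1, ← mul_assoc, ← (cv w w1 w2 p hp).eq, mul_assoc]
      · rcases Finset.mem_insert.1 hp' with rfl | hp'
        exacts [c1 p hp, (hG p hp).2.2.2 p' hp']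
  · rw [hs.unit, mul_one]
    exact u2.norm_le ha.2

theorem beta_le (hs : Std Ω J P) {b h x y : Op H} (b1 : b ∈ P) (b2 : star b = b) (b3 : ‖b‖ ≤ 1)
    (h1 : h ∈ P) (h3 : ‖h‖ ≤ 1) (hx : x ∈ P) (hy : y ∈ P) :
    ‖⟪(x * b * star y) Ω, h Ω⟫_ℂ‖ ≤ ‖x Ω‖ * ‖y Ω‖ := by
  rw [← vec_star_mul, hs.isTr.comm _ (star_mem (mul_mem (mul_mem hx b1) (star_mem hy))) _ h1,
    star_mul, star_mul, star_star, b2, ← mul_assoc h, ← star_star (h * y), vec_star_mul, mul_comm]
  refine (norm_inner_le_norm _ _).trans (mul_le_mul ?_ ?_ (norm_nonneg _) (norm_nonneg _))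
  · rw [hs.norm_star_orb (mul_mem h1 hy)]
    exact (h.le_opNorm _).trans (mul_le_of_le_one_left (norm_nonneg _) h3)
  · rw [← hs.norm_star_orb hx]
    exact (b.le_opNorm _).trans (mul_le_of_le_one_left (norm_nonneg _) b3)

theorem final (hs : Std Ω J P) (ht : Tens Ω P B₁ B₂) (hc : TcF Ω P B₁ B₂) (hP : A ≤ P)
    {a s : Op H} (ha : Pj A a) (s1 : s ∈ P) (s2 : 0 < ‖s Ω‖) (s3 : a * s = s)
    (hn : ∀ ε : ℝ, 0 < ε → ∃ b h, (Uni A a b ∧ star b = b) ∧ (Uni A a h ∧ star h = h) ∧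
      s * b = h * s ∧ Est Ω B₁ B₂ b (h Ω) ε) : False := by
  obtain ⟨n, c, d, h1, h2, h3⟩ := hc.approx (s Ω) (‖s Ω‖ / 4) (by positivity)
  obtain ⟨ε, d1, d2⟩ := exists_delta (K := (∑ i, ‖c i‖ * ‖d i‖) * ∑ i, ‖c i‖ * ‖d i‖)
    (ε := ‖s Ω‖ ^ 2 / 4) (by positivity) (by positivity)
  obtain ⟨b, h, ⟨b1, b2⟩, ⟨k1, k2⟩, e, he⟩ := hn ε d1
  have m0 : ∑ i, c i * d i ∈ P := sum_mem fun i _ => mul_mem (ht.le₁ (h1 i)) (ht.le₂ (h2 i))
  have e1 : ‖⟪((∑ i, c i * d i) * b * star (∑ i, c i * d i)) Ω, h Ω⟫_ℂ‖ ≤ ‖s Ω‖ ^ 2 / 4 := by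
    refine le_trans ?_ d2
    rw [star_sum, Finset.sum_mul, Finset.sum_mul_sum, Finset.sum_mul_sum, Finset.mul_sum,
      _root_.sum_apply, sum_inner]
    refine (norm_sum_le _ _).trans (Finset.sum_le_sum fun i _ => ?_)
    rw [_root_.sum_apply, sum_inner, Finset.mul_sum]
    refine (norm_sum_le _ _).trans (Finset.sum_le_sum fun j _ => ?_)
    rw [star_cd ht (h1 j) (h2 j), ← norm_star (c j), ← norm_star (d j)]
    exact he _ (h1 i) _ (h2 i) _ (star_mem (h1 j)) _ (star_mem (h2 j))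
  generalize ∑ i, c i * d i = x at *
  have bl := fun x y => beta_le (x := x) (y := y) hs (hP b1.1) b2 (b1.norm_le ha.2) (hP k1.1)
    (k1.norm_le ha.2)
  have e2 := bl _ _ (sub_mem s1 m0) s1
  have e3 := bl _ _ m0 (sub_mem s1 m0)
  have e4 : ‖⟪(s * b * star s) Ω, h Ω⟫_ℂ‖ = ‖s Ω‖ ^ 2 := by
    have k3 : star s * a = star s := by
      simpa only [star_mul, ha.star_eq] using congrArg star s3
    rw [← vec_star_mul, e, star_mul, star_mul, star_star, mul_assoc, mul_assoc, k1.2.1, k3,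
      hs.isTr.comm _ s1 _ (star_mem s1), vec_star_mul, inner_self_eq_norm_sq_to_K]
    simp
  have e5 : s * b * star s = (s - x) * b * star s + (x * b * star (s - x) + x * b * star x) := by
    rw [star_sub]
    noncomm_ring
  rw [e5, add_apply, add_apply, inner_add_left,
    inner_add_left] at e4
  have e6 := (norm_add_le _ _).trans (add_le_add e2 ((norm_add_le _ _).trans (add_le_add e3 e1)))
  have e7 : ‖x Ω‖ ≤ ‖s Ω‖ + ‖s Ω‖ / 4 := by
    have := norm_sub_norm_le (x Ω) (s Ω)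
    rw [norm_sub_rev] at this
    linarith
  rw [e4, sub_apply] at e6
  have e8 := mul_le_mul e7 h3 (norm_nonneg _) (by positivity)
  nlinarith

end ThA

open ThA in
theorem thA_stmt (hA : GenAStmt.{u}) (hT : TrAStmt.{u}) (hC : TcStmt.{u}) : ThAStmt.{u} := by
  classical
  intro H _ _ _ Ω J P A B₁ B₂ hs ht hP hF hD hS a ha h0
  by_contra hn
  push Not at hn
  have hc := hC H Ω J P B₁ B₂ hs ht
  have hb := fun q => base hs ht hc hP (hT H A _ (hs.isTr.mono hP)) ((hA H).conn hF) hD hn (q := q)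
  choose v p h1 h2 using fun (n : ℕ) (σ : {σ // Inv A a σ}) =>
    next hs ht hc hP ha hb (Nat.one_div_pos_of_nat (n := n)) σ.1 σ.2
  let σ : ℕ → {σ // Inv A a σ} := fun n => n.rec
    ⟨(a, ∅), ⟨ha.1, by rw [ha.star_eq, ha.mul_self], by rw [ha.star_eq, ha.mul_self]⟩,
      fun _ h => absurd h (Finset.notMem_empty _)⟩ fun n σ => ⟨_, h1 n σ⟩
  have mem : ∀ n, ∀ k < n, p k (σ k) ∈ (σ n).1.2 := fun n => by
    induction n with
    | zero => exact fun k hk => absurd hk (Nat.not_lt_zero k)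
    | succ n ih =>
      intro k hk
      rcases (Nat.lt_succ_iff.1 hk).lt_or_eq with hk | rfl
      exacts [Finset.mem_insert_of_mem (ih k hk), Finset.mem_insert_self _ _]
  have pr := fun k => (σ (k + 1)).2.2 _ (mem _ k k.lt_succ_self)
  obtain ⟨s, s1, s2, s3⟩ := hS (fun k => k.casesOn 1 fun k => (p k (σ k)).1)
    (fun k => k.casesOn a fun k => (p k (σ k)).2) ‖a Ω‖
    (fun k => k.casesOn ⟨one_mem A, ha.1⟩ fun k => ⟨(pr k).1.1.1, (pr k).2.1.1.1⟩) fun n =>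
      ⟨(σ n).1.1, (σ n).2.1.1, (σ n).2.1.norm_le ha.2, by
        refine (sq_le_sq₀ (norm_nonneg _) (norm_nonneg _)).1 ?_
        rw [norm_orb_sq, norm_orb_sq, (σ n).2.1.2.1, ha.star_eq, ha.mul_self], fun k hk => by
        rcases k with _ | k
        · exact (mul_one _).trans ((σ n).2.1.left ha.2).symm
        · exact ((σ n).2.2 _ (mem n k (by omega))).2.2.1⟩
  refine final hs ht hc hP ha (hP s1) (lt_of_lt_of_le (norm_pos_iff.2 fun k =>
    h0 (hs.sep (hP ha.1) (zero_mem P) k)) s2) ((s3 0).symm.trans (mul_one s)) fun ε hε => ?_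
  obtain ⟨n, hn⟩ := exists_nat_one_div_lt hε
  exact ⟨_, _, (pr n).1, (pr n).2.1, s3 (n + 1), fun c hc d hd c' hc' d' hd' =>
    (h2 n (σ n) c hc d hd c' hc' d' hd').trans (mul_le_mul_of_nonneg_right hn.le (by positivity))⟩

end Pool.Agent.MP_ad85d3_an

end
end MrgPart0

-- ======== part 1: formerly Pool.Agent.MP_ad85d3_an.End
section MrgPart1

/-!
# PROJECT UPF, module END: from an intertwiner of a corner to a pair of links
-/

open Filter Topology
open scoped ComplexOrder InnerProductSpace ComplexConjugate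

noncomputable section

namespace Pool.Agent.MP_ad85d3_an

universe u

namespace End

/-! ## ring identities -/

section ring

variable {R : Type*} [Ring R]

theorem r_conj {s w w' b y : R} (h1 : s * w = w * b) (h2 : w' * s = b * w') (h3 : b * y = y * b) :
    s * (w * y * w') = w * y * w' * s := by
  calc s * (w * y * w') = s * w * y * w' := by simp only [mul_assoc]
    _ = w * (b * y) * w' := by rw [h1]; simp only [mul_assoc]
    _ = w * y * (b * w') := by rw [h3]; simp only [mul_assoc]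
    _ = w * y * w' * s := by rw [← h2]; simp only [mul_assoc]

theorem r_fix {p w w' y : R} (h1 : p * w = w) (h2 : w' * p = w') :
    p * (w * y * w') * p = w * y * w' := by
  calc p * (w * y * w') * p = p * w * y * (w' * p) := by simp only [mul_assoc]
    _ = w * y * w' := by rw [h1, h2]

theorem r_mid {p a₁ a₂ m : R} (hp : p * p = p) (h1 : p * m = m * p) (h2 : p * a₂ = a₂ * p) :
    p * (a₂ * m * a₁) = p * a₂ * m * (p * a₁) := by
  calc p * (a₂ * m * a₁) = p * p * a₂ * m * a₁ := by rw [hp]; simp only [mul_assoc]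
    _ = p * (p * a₂) * m * a₁ := by simp only [mul_assoc]
    _ = p * (a₂ * p) * m * a₁ := by rw [h2]
    _ = p * a₂ * (p * m) * a₁ := by simp only [mul_assoc]
    _ = p * a₂ * m * (p * a₁) := by rw [h1]; simp only [mul_assoc]

theorem r_sand (v v' y y' z z' p q m : R) :
    v * (z' * q * z) * v' * m * (v * (y' * p * y) * v') =
      v * z' * (q * (z * (v' * m * v) * y') * p) * y * v' := by
  simp only [mul_assoc]

theorem r_idem {p a : R} (hp : p * p = p) (h : p * a = a * p) (e : p * a * (p * a) = p * a) :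
    p * (a * a - a) = 0 := by
  have : p * a * (p * a) = p * (a * a) := by
    calc p * a * (p * a) = p * (a * p) * a := by simp only [mul_assoc]
      _ = p * p * a * a := by rw [← h]; simp only [mul_assoc]
      _ = p * (a * a) := by rw [hp, mul_assoc]
  rw [mul_sub, ← this, e, sub_self]

theorem r_cb {c z b : R} (hc : c * c = c) (h1 : c * z = c) (h2 : c * b = b * c) :
    c * (z * b) * c = c * b := by
  calc c * (z * b) * c = c * z * (b * c) := by simp only [mul_assoc]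
    _ = c * c * b := by rw [h1, ← h2, mul_assoc]
    _ = c * b := by rw [hc]

theorem r_corner {c y : R} (hc : c * c = c) : c * (c * y * c) * c = c * y * c := by
  calc c * (c * y * c) * c = c * c * y * (c * c) := by simp only [mul_assoc]
    _ = c * y * c := by rw [hc]

theorem r_left {c y : R} (hc : c * c = c) (h : c * y * c = y) : c * y = y := by
  calc c * y = c * (c * y * c) := by rw [h]
    _ = c * c * y * c := by simp only [mul_assoc]
    _ = y := by rw [hc, h]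

theorem r_right {c y : R} (hc : c * c = c) (h : c * y * c = y) : y * c = y := by
  calc y * c = c * y * c * c := by rw [h]
    _ = c * y * (c * c) := by simp only [mul_assoc]
    _ = y := by rw [hc, h]

theorem r_fw {x v y c : R} (h : x * v = v * y) (hc : v * c = v) : x * v = v * (c * y * c) := by
  calc x * v = x * v * c := by rw [mul_assoc, hc]
    _ = v * c * y * c := by rw [h, hc]
    _ = v * (c * y * c) := by simp only [mul_assoc]

/-- the backward direction of a link -/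
theorem r_bw {v v' y p a c b x : R} (e : v * y * v' = a * x) (hp : p * v = v) (ha : a * v = v)
    (hx : a * x = x * a) (hr : v' * v = c * b) (hc : y * c = y) (hb : b * y = y * b)
    (hv : v * b = v) : p * x * p * v = v * y := by
  calc p * x * p * v = p * x * (a * v) := by rw [mul_assoc _ p, hp, ha]
    _ = p * (a * x) * v := by rw [hx]; simp only [mul_assoc]
    _ = p * v * y * (v' * v) := by rw [← e]; simp only [mul_assoc]
    _ = v * (y * c * b) := by rw [hp, hr]; simp only [mul_assoc]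
    _ = v * b * y := by rw [hc, ← hb, mul_assoc]
    _ = v * y := by rw [hv]

theorem r_g1 {m v v' p a c d : R} (hm : a * m = m) (hp : p * v = v) (hpm : p * m = m * p)
    (hpa : p * a = a * p) (hl : v * v' = p * a) (e : v' * m * v = c * d) (hc : v * c = v) :
    m * v = v * d := by
  calc m * v = a * m * (p * v) := by rw [hm, hp]
    _ = a * (m * p) * v := by simp only [mul_assoc]
    _ = p * a * m * v := by rw [← hpm, hpa]; simp only [mul_assoc]
    _ = v * (v' * m * v) := by rw [← hl]; simp only [mul_assoc]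
    _ = v * d := by rw [e, ← mul_assoc, hc]

theorem r_g2 {m v v' p a c d : R} (hm : m * a = m) (hp : v' * p = v') (hpm : p * m = m * p)
    (hl : v * v' = p * a) (e : v' * m * v = c * d) (hcd : c * d = d * c) (hc : c * v' = v') :
    v' * m = d * v' := by
  calc v' * m = v' * p * (m * a) := by rw [hm, hp]
    _ = v' * (p * m) * a := by simp only [mul_assoc]
    _ = v' * m * (p * a) := by rw [hpm]; simp only [mul_assoc]
    _ = v' * m * v * v' := by rw [← hl]; simp only [mul_assoc]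
    _ = d * v' := by rw [e, hcd, mul_assoc, hc]

end ring

variable {H : Type u} [NormedAddCommGroup H] [InnerProductSpace ℂ H] [CompleteSpace H]

theorem star_fix {p w : Op H} (hp : star p = p) (h : p * w = w) : star w * p = star w := by
  have := congrArg star h
  rwa [star_mul, hp] at this

theorem star_fix' {p w : Op H} (hp : star p = p) (h : w * p = w) : p * star w = star w := by
  have := congrArg star h
  rwa [star_mul, hp] at this

/-! ## the intertwined pairs -/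

/-- `v` intertwines `x` in the corner of `A` with `b` in `B` -/
def W (A B : VonNeumannAlgebra H) (p v x b : Op H) : Prop :=
  x ∈ A ∧ p * x * p = x ∧ b ∈ B ∧ x * v = v * b ∧ star x * v = v * star b

/-- the elements of `B` that are intertwined with the corner of `A` -/
def QQ (A B : VonNeumannAlgebra H) (p v : Op H) : Set (Op H) := {b | ∃ x, W A B p v x b}

/-- operators with the same intertwining relations as `v` -/
structure Good (P A B : VonNeumannAlgebra H) (p v w : Op H) : Prop where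
  mem : w ∈ P
  left : p * w = w
  fw : ∀ x b, W A B p v x b → x * w = w * b

/-- the standing hypotheses -/
structure Ctx (Ω : H) (P A₁ A₂ B₁ B₂ : VonNeumannAlgebra H) (p v : Op H) : Prop where
  gA : GenA H
  tr : IsTr P (vec Ω)
  trA : ∀ M : VonNeumannAlgebra H, M ≤ P → TrA M (vec Ω)
  tA : Tens Ω P A₁ A₂
  tB : Tens Ω P B₁ B₂
  cA : TcF Ω P A₁ A₂
  cA' : TcF Ω P A₂ A₁
  cB : TcF Ω P B₁ B₂
  cB' : TcF Ω P B₂ B₁
  fA₁ : Fac A₁
  fA₂ : Fac A₂
  fB₂ : Fac B₂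
  pA : Pj A₁ p
  vP : v ∈ P
  v0 : v ≠ 0
  vr : IsStarProjection (star v * v)
  pv : p * v = v
  emb : ∀ x ∈ A₁, p * x * p = x → ∃ b ∈ B₁, x * v = v * b ∧ star x * v = v * star b

variable {Ω : H} {P A₁ A₂ B₁ B₂ : VonNeumannAlgebra H} {p v : Op H}

theorem W.star' {x b : Op H} (hp : Pj A₁ p) (h : W A₁ B₁ p v x b) :
    W A₁ B₁ p v (star x) (star b) := by
  obtain ⟨h1, h2, h3, h4, h5⟩ := h
  refine ⟨star_mem h1, ?_, star_mem h3, h5, by rw [star_star, star_star, h4]⟩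
  have := congrArg star h2
  rwa [star_mul, star_mul, hp.star_eq, ← mul_assoc] at this

theorem mem_relQ (hp : Pj A₁ p) {M : VonNeumannAlgebra H} {y : Op H} :
    y ∈ rel M (QQ A₁ B₁ p v) ↔ y ∈ M ∧ ∀ s ∈ QQ A₁ B₁ p v, s * y = y * s := by
  rw [mem_rel]
  refine ⟨fun h => ⟨h.1, fun s hs => (h.2 s hs).1⟩, fun h => ⟨h.1, fun s hs => ⟨h.2 s hs, ?_⟩⟩⟩
  obtain ⟨x, hx⟩ := hs
  exact h.2 _ ⟨star x, hx.star' hp⟩

theorem Good.bw {w x b : Op H} (hp : Pj A₁ p) (g : Good P A₁ B₁ p v w) (h : W A₁ B₁ p v x b) :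
    star w * x = b * star w := by
  have := congrArg star (g.fw _ _ (h.star' hp))
  rwa [star_mul, star_mul, star_star, star_star] at this

theorem Good.mul {w d : Op H} (hp : Pj A₁ p) (g : Good P A₁ B₁ p v w)
    (hd : d ∈ rel P (QQ A₁ B₁ p v)) : Good P A₁ B₁ p v (w * d) := by
  obtain ⟨h1, h2⟩ := (mem_relQ hp).1 hd
  refine ⟨mul_mem g.mem h1, by rw [← mul_assoc, g.left], fun x b h => ?_⟩
  rw [← mul_assoc, g.fw x b h, mul_assoc, h2 b ⟨x, h⟩, mul_assoc]

namespace Ctx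

variable (K : Ctx Ω P A₁ A₂ B₁ B₂ p v)
include K

theorem good : Good P A₁ B₁ p v v := ⟨K.vP, K.pv, fun _ _ h => h.2.2.2.1⟩

theorem p0 : p ≠ 0 := fun e => K.v0 (by rw [← K.pv, e, zero_mul])

theorem D_le : rel P (QQ A₁ B₁ p v) ≤ P := fun _ hy => ((mem_relQ K.pA).1 hy).1

theorem C_le : rel B₁ (QQ A₁ B₁ p v) ≤ B₁ := fun _ hy => ((mem_relQ K.pA).1 hy).1

theorem C_le_D : rel B₁ (QQ A₁ B₁ p v) ≤ rel P (QQ A₁ B₁ p v) := fun _ hy =>
  (mem_relQ K.pA).2 ⟨K.tB.le₁ ((mem_relQ K.pA).1 hy).1, ((mem_relQ K.pA).1 hy).2⟩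

theorem B₂_le : B₂ ≤ rel P (QQ A₁ B₁ p v) := fun y hy =>
  (mem_relQ K.pA).2 ⟨K.tB.le₂ hy, fun s ⟨_, hs⟩ => K.tB.comm s hs.2.2.1 y hy⟩

/-- step (a) -/
theorem stepA {w y : Op H} (g : Good P A₁ B₁ p v w) (hy : y ∈ rel P (QQ A₁ B₁ p v)) :
    ∃ a ∈ A₂, w * y * star w = p * a := by
  obtain ⟨h1, h2⟩ := (mem_relQ K.pA).1 hy
  refine K.cA.tc {x | x ∈ A₁ ∧ p * x * p = x} p (fun s hs => hs.1) K.pA (fun x hx h e => ?_) _
    (mul_mem (mul_mem g.mem h1) (star_mem g.mem)) (fun s hs => ?_)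
    (r_fix g.left (star_fix K.pA.star_eq g.left))
  · obtain ⟨c, hc⟩ := (K.trA A₁ K.tA.le₁).corner K.fA₁ p K.pA x hx fun y hy hy' => h y ⟨hy, hy'⟩
    exact ⟨c, e.symm.trans hc⟩
  · obtain ⟨b, hb, e1, e2⟩ := K.emb s hs.1 hs.2
    have hW : W A₁ B₁ p v s b := ⟨hs.1, hs.2, hb, e1, e2⟩
    exact r_conj (g.fw s b hW) (g.bw K.pA hW) (h2 b ⟨s, hW⟩)

/-- step (b) -/
theorem stepB {w a : Op H} (g : Good P A₁ B₁ p v w) (ha : a ∈ A₂) :
    star w * a * w ∈ rel P (QQ A₁ B₁ p v) :=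
  (mem_relQ K.pA).2 ⟨mul_mem (mul_mem (star_mem g.mem) (K.tA.le₂ ha)) g.mem, fun _ ⟨x, hW⟩ =>
    r_conj (g.bw K.pA hW).symm (g.fw _ _ hW).symm (K.tA.comm x hW.1 a ha)⟩

theorem r_mem : Pj (rel P (QQ A₁ B₁ p v)) (star v * v) := by
  have := K.stepB K.good (one_mem A₂)
  rw [mul_one] at this
  exact ⟨this, K.vr⟩

/-- step (c): the central support of `v^* v` -/
theorem stepC : ∃ z, Pj (rel B₁ (QQ A₁ B₁ p v)) z ∧ z * (star v * v) = star v * v ∧
    ∀ q : Op H, (∀ y ∈ rel P (QQ A₁ B₁ p v), q * y * (star v * v) = 0) → q * z = 0 := by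
  obtain ⟨z, hz, h1, h2, h3⟩ :=
    K.gA.supp {x | ∃ y ∈ rel P (QQ A₁ B₁ p v), x = y * (star v * v)}
  have hD : z ∈ rel P (QQ A₁ B₁ p v) := mem_of_comm fun a ha => h3 a
    (fun x ⟨y, hy, e⟩ => ⟨x, ⟨y, hy, e⟩, a, (ha x (e ▸ mul_mem hy K.r_mem.1)).symm⟩)
    fun x ⟨y, hy, e⟩ =>
      ⟨x, ⟨y, hy, e⟩, star a, (comm_star ha x (e ▸ mul_mem hy K.r_mem.1)).symm⟩
  have hc : ∀ d ∈ rel P (QQ A₁ B₁ p v), d * z = z * d := fun d hd => h3 d
    (fun x ⟨y, hy, e⟩ => ⟨_, ⟨d * y, mul_mem hd hy, rfl⟩, 1, by rw [e, mul_one, mul_assoc d y]⟩)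
    fun x ⟨y, hy, e⟩ => ⟨_, ⟨star d * y, mul_mem (star_mem hd) hy, rfl⟩, 1, by
      rw [e, mul_one, mul_assoc (star d) y]⟩
  obtain ⟨a, ha, e⟩ := K.cB'.tc B₂ 1 (fun s hs => hs) (Pj.one B₂)
    (fun x hx h _ => K.fB₂ x hx fun y hy => (h y hy).symm) z (K.D_le hD)
    (fun s hs => hc s (K.B₂_le hs)) (by rw [one_mul, mul_one])
  rw [one_mul] at e
  refine ⟨z, ⟨(mem_relQ K.pA).2 ⟨e ▸ ha, ((mem_relQ K.pA).1 hD).2⟩, hz⟩,
    h1 _ ⟨1, one_mem _, (one_mul _).symm⟩, fun q hq => h2 q ?_⟩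
  rintro _ ⟨y, hy, rfl⟩
  rw [← mul_assoc]
  exact hq y hy

/-- a nonzero projection below the central support gives a nonzero element of `A₂` -/
theorem stepD₀ {z q : Op H} (hz : IsStarProjection z)
    (h : ∀ q : Op H, (∀ y ∈ rel P (QQ A₁ B₁ p v), q * y * (star v * v) = 0) → q * z = 0)
    (hq : Pj (rel P (QQ A₁ B₁ p v)) q) (e : z * q = q) (h0 : q ≠ 0) :
    ∃ y ∈ rel P (QQ A₁ B₁ p v), ∃ a ∈ A₂, a ≠ 0 ∧ v * (star y * q * y) * star v = p * a := by
  have : ¬ ∀ y ∈ rel P (QQ A₁ B₁ p v), q * y * (star v * v) = 0 := fun hy =>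
    h0 ((le_symm hz hq.2 e).symm.trans (h q hy))
  push Not at this
  obtain ⟨y, hy, hne⟩ := this
  obtain ⟨a, ha, e1⟩ := K.stepA K.good (mul_mem (mul_mem (star_mem hy) hq.1) hy)
  refine ⟨y, hy, a, ha, fun e2 => hne ?_, e1⟩
  have e3 : star (q * y * star v) * (q * y * star v) = 0 := by
    rw [star_mul, star_mul, star_star, hq.star_eq, ← mul_zero p, ← e2, ← e1]
    nth_rewrite 3 [← hq.mul_self]
    simp only [mul_assoc]
  rw [← mul_assoc, (CStarRing.star_mul_self_eq_zero_iff _).1 e3, zero_mul]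

/-- step (d) -/
theorem stepD {z : Op H} (hz : IsStarProjection z)
    (h : ∀ q : Op H, (∀ y ∈ rel P (QQ A₁ B₁ p v), q * y * (star v * v) = 0) → q * z = 0) :
    Conn (rel P (QQ A₁ B₁ p v)) z z := by
  intro p' q' hp' hq' e1 e2 n1 n2
  by_contra hc
  push Not at hc
  obtain ⟨y, hy, a₁, ha₁, m1, f1⟩ := K.stepD₀ hz h hp' e1 n1
  obtain ⟨y', hy', a₂, ha₂, m2, f2⟩ := K.stepD₀ hz h hq' e2 n2
  refine m2 (K.gA.fac A₂ K.fA₂ a₁ ha₁ m1 a₂ fun m hm => ?_)
  refine K.cA.inj p K.pA.1 K.p0 _ (mul_mem (mul_mem ha₂ hm) ha₁) ?_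
  rw [r_mid K.pA.mul_self (K.tA.comm p K.pA.1 m hm) (K.tA.comm p K.pA.1 a₂ ha₂), ← f1, ← f2,
    r_sand, hc _ (mul_mem (mul_mem hy' (K.stepB K.good hm)) (star_mem hy)), mul_zero, zero_mul,
    zero_mul]

/-- step (e): moving the right support into `B₁ ⊗ B₂` position -/
theorem stepE (hB : Dif B₂ 1) {z : Op H} (hz : Pj (rel B₁ (QQ A₁ B₁ p v)) z)
    (e : z * (star v * v) = star v * v) (hc : Conn (rel P (QQ A₁ B₁ p v)) z z) :
    ∃ b w : Op H, Pj B₂ b ∧ Good P A₁ B₁ p v w ∧ w ≠ 0 ∧ star w * w = z * b := by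
  have r0 : star v * v ≠ 0 := fun h => K.v0 ((CStarRing.star_mul_self_eq_zero_iff _).1 h)
  have z0 : z ≠ 0 := fun h => r0 (by rw [← e, h, zero_mul])
  have zD := hz.mono K.C_le_D
  have zP := zD.mono K.D_le
  have rP := K.r_mem.mono K.D_le
  have tz := K.tr.proj_pos zP z0
  have trz := K.tr.proj_mono zP rP e
  obtain ⟨b, hb, -, tb⟩ := (K.trA B₂ K.tB.le₂).exact 1 (Pj.one B₂) hB
    ((vec Ω (star v * v)).re / (vec Ω z).re) (div_nonneg (K.tr.proj_re rP).2 tz.le)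
    (by rw [K.tr.one, Complex.one_re, div_le_one tz]; exact trz)
  have zb : z * b = b * z := K.tB.comm z (K.C_le hz.1) b hb.1
  have tzb : (vec Ω (z * b)).re = (vec Ω (star v * v)).re := by
    rw [K.tB.indep z (K.C_le hz.1) b hb.1, tb, (K.tr.proj_re zP).1, ← Complex.ofReal_mul,
      Complex.ofReal_re, Complex.ofReal_re, mul_div_cancel₀ _ tz.ne']
  obtain ⟨w, hw, e1, e2, e3⟩ := (K.trA _ K.D_le).le (z * b) (star v * v)
    (zD.mul (hb.mono K.B₂_le) zb) K.r_mem (fun p' q' hp' hq' f1 f2 => hc p' q' hp' hq'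
      (by rw [← f1, ← mul_assoc, ← mul_assoc, hz.mul_self]) (by rw [← f2, ← mul_assoc, e])) tzb.le
  refine ⟨b, v * w, hb, K.good.mul K.pA hw, fun h => K.v0 ?_, ?_⟩
  · rw [← pi_mul K.vr, ← e3 tzb, ← mul_assoc, h, zero_mul]
  · rw [star_mul, mul_assoc, ← mul_assoc (star v), e2, e1]

/-- steps (f), (g) and the two links -/
theorem links {w c b : Op H} (g : Good P A₁ B₁ p v w) (w0 : w ≠ 0)
    (hc : Pj (rel B₁ (QQ A₁ B₁ p v)) c) (c0 : c ≠ 0) (hb : Pj B₂ b) (hr : star w * w = c * b)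
    (hs : ∀ x ∈ rel B₁ (QQ A₁ B₁ p v), ∃ l : ℂ, c * x * c = l • c) :
    ∃ a, Link A₁ B₁ w p c a b ∧ Link A₂ B₂ w a b p c := by
  have cB : Pj B₁ c := hc.mono K.C_le
  have cb : c * b = b * c := K.tB.comm c cB.1 b hb.1
  have rp : IsStarProjection (star w * w) := hr ▸ cB.2.mul hb.2 cb
  have b0 : b ≠ 0 := fun h => w0 ((CStarRing.star_mul_self_eq_zero_iff _).1 (by
    rw [hr, h, mul_zero]))
  have wb : w * b = w := by
    rw [← pi_mul rp, hr, mul_assoc, mul_assoc, hb.mul_self]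
  have wc : w * c = w := by
    rw [← pi_mul rp, hr, cb, mul_assoc, mul_assoc, cB.mul_self]
  obtain ⟨a, ha, hl⟩ := K.stepA g (one_mem _)
  rw [mul_one] at hl
  have pa : p * a = a * p := K.tA.comm p K.pA.1 a ha
  have lp : IsStarProjection (p * a) := hl ▸ pi_proj rp
  have aP : Pj A₂ a := by
    refine ⟨ha, ?_, ?_⟩
    · exact sub_eq_zero.1 (K.cA.inj p K.pA.1 K.p0 _ (sub_mem (mul_mem ha ha) ha)
        (r_idem K.pA.mul_self pa lp.isIdempotentElem.eq))
    · refine sub_eq_zero.1 (K.cA.inj p K.pA.1 K.p0 _ (sub_mem (star_mem ha) ha) ?_)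
      have := lp.isSelfAdjoint.star_eq
      rw [star_mul, K.pA.star_eq] at this
      rw [mul_sub, K.tA.comm p K.pA.1 _ (star_mem ha), this, sub_self]
  have a0 : a ≠ 0 := fun h => w0 ((CStarRing.mul_star_self_eq_zero_iff _).1 (by
    rw [hl, h, mul_zero]))
  have aw : a * w = w := by
    rw [← pi_mul' (pi_proj rp), hl, pa, ← mul_assoc, ← mul_assoc, aP.mul_self]
  have stepG : ∀ m ∈ A₂, a * m * a = m → ∃ d ∈ B₂, m * w = w * d ∧ star w * m = d * star w := by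
    intro m hm e
    obtain ⟨h1, h2⟩ := (mem_relQ K.pA).1 (K.stepB g hm)
    obtain ⟨d, hd, f⟩ := K.cB.tc (QQ A₁ B₁ p v) c (fun s ⟨_, hs⟩ => hs.2.2.1) cB
      (fun x hx h e => by
        obtain ⟨l, hl⟩ := hs x ((mem_relQ K.pA).2 ⟨hx, h⟩)
        exact ⟨l, e.symm.trans hl⟩) _ h1 h2 (r_fix (star_fix' cB.star_eq wc) wc)
    have pm := K.tA.comm p K.pA.1 m hm
    exact ⟨d, hd, r_g1 (r_left aP.mul_self e) g.left pm pa hl f wc,
      r_g2 (r_right aP.mul_self e) (star_fix K.pA.star_eq g.left) pm hl f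
        (K.tB.comm c cB.1 d hd) (star_fix' cB.star_eq wc)⟩
  refine ⟨a, ⟨K.pA, cB, aP.2, hb.2, hl, hr, fun x hx => (K.tA.comm x hx a ha).symm,
      fun y hy => (K.tB.comm y hy b hb.1).symm, K.cA'.inj a ha a0, K.cB'.inj b hb.1 b0,
      fun x hx e => ?_, fun y hy e => ?_⟩,
    ⟨aP, hb, K.pA.2, cB.2, hl.trans pa, hr.trans cb, K.tA.comm p K.pA.1, K.tB.comm c cB.1,
      K.cA.inj p K.pA.1 K.p0, K.cB.inj c cB.1 c0, fun m hm e => ?_, fun y hy e => ?_⟩⟩
  · obtain ⟨y, hy, e1, e2⟩ := K.emb x hx e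
    exact ⟨c * y * c, mul_mem (mul_mem cB.1 hy) cB.1, r_corner cB.mul_self,
      r_fw (g.fw x y ⟨hx, e, hy, e1, e2⟩) wc⟩
  · obtain ⟨x, hx, f⟩ := K.cA'.tc {m | m ∈ A₂ ∧ a * m * a = m} a (fun s hs => hs.1) aP
      (fun x hx h e => by
        obtain ⟨l, hl⟩ := (K.trA A₂ K.tA.le₂).corner K.fA₂ a aP x hx fun y hy hy' => h y ⟨hy, hy'⟩
        exact ⟨l, e.symm.trans hl⟩) (w * y * star w)
      (mul_mem (mul_mem g.mem (K.tB.le₁ hy)) (star_mem g.mem)) (fun m hm => by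
        obtain ⟨d, hd, f1, f2⟩ := stepG m hm.1 hm.2
        exact r_conj f1 f2 (K.tB.comm y hy d hd).symm) (r_fix aw (star_fix aP.star_eq aw))
    exact ⟨p * x * p, mul_mem (mul_mem K.pA.1 hx) K.pA.1, r_corner K.pA.mul_self,
      r_bw f g.left aw (K.tA.comm x hx a ha).symm hr (r_right cB.mul_self e)
        (K.tB.comm y hy b hb.1).symm wb⟩
  · obtain ⟨d, hd, f, -⟩ := stepG m hm e
    exact ⟨b * d * b, mul_mem (mul_mem hb.1 hd) hb.1, r_corner hb.mul_self, r_fw f wb⟩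
  · obtain ⟨m, hm, f⟩ := K.stepA g (K.B₂_le hy)
    exact ⟨a * m * a, mul_mem (mul_mem ha hm) ha, r_corner aP.mul_self,
      r_bw f aw g.left (K.tA.comm p K.pA.1 m hm) (hr.trans cb) (r_right hb.mul_self e)
        (K.tB.comm c cB.1 y hy) wc⟩

end Ctx

end End

theorem end_stmt (hA : GenAStmt.{u}) (hT : TrAStmt.{u}) (hC : TcStmt.{u}) (hP : PrimeStmt.{u}) :
    EndStmt.{u} := by
  intro H _ _ _ Ω J P A₁ A₂ B₁ B₂ hS tA tB fA₁ fA₂ fB₂ dA dB hR hE
  obtain ⟨p, v, pA, vP, v0, vr, pv, emb⟩ := hE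
  have K : End.Ctx Ω P A₁ A₂ B₁ B₂ p v :=
    ⟨hA H, hS.isTr, fun M hM => hT H M _ (hS.isTr.mono hM), tA, tB, hC H Ω J P _ _ hS tA,
      hC H Ω J P _ _ hS tA.symm, hC H Ω J P _ _ hS tB, hC H Ω J P _ _ hS tB.symm, fA₁, fA₂, fB₂,
      pA, vP, v0, vr, pv, emb⟩
  obtain ⟨z, hz, e, h⟩ := K.stepC
  have hc := K.stepD hz.2 h
  obtain ⟨b, w, hb, g, w0, hr⟩ := K.stepE dB hz e hc
  have hN := hP H Ω J P A₁ A₂ B₁ B₂ _ _ hS tA tB fA₁ dA dB hR K.C_le K.C_le_D K.B₂_le K.D_le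
    z b p w hz hb pA g.mem w0 hr g.left (fun y hy => K.stepA g hy) (fun a ha => K.stepB g ha) hc
  unfold Dif at hN
  push Not at hN
  obtain ⟨c, cC, zc, c0, hmin⟩ := hN
  have cB : Pj B₁ c := cC.mono K.C_le
  have b0 : b ≠ 0 := fun h => w0 ((CStarRing.star_mul_self_eq_zero_iff _).1 (by
    rw [hr, h, mul_zero]))
  have hr' : star (w * c) * (w * c) = c * b := by
    rw [star_mul, cC.star_eq, mul_assoc, ← mul_assoc (star w), hr, ← mul_assoc]
    exact End.r_cb cC.mul_self (le_symm hz.2 cC.2 zc) (tB.comm c cB.1 b hb.1)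
  have w0' : w * c ≠ 0 := fun h => b0 (K.cB.inj c cB.1 c0 b hb.1 (by rw [← hr', h, mul_zero]))
  have g' := g.mul pA (K.C_le_D cC.1)
  obtain ⟨a, L₁, L₂⟩ := K.links g' w0' cC c0 hb hr'
    ((K.trA _ (K.C_le_D.trans K.D_le)).scal c cC fun r hr e => by
      by_cases h0 : r = 0
      · exact Or.inl h0
      · exact Or.inr (hmin r hr e h0))
  exact ⟨w * c, p, c, a, b, g'.mem, w0', L₁, L₂⟩

end Pool.Agent.MP_ad85d3_an

end
end MrgPart1

-- marker of a merged file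
example : 731051 + 156841 = 731051 + 156841 := rfl
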