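import Mathlib.Algebra.Ring.IsFormallyReal
import Mathlib.Analysis.CStarAlgebra.CompletelyPositiveMap
import Mathlib.Analysis.InnerProductSpace.StarOrder
import Pool.Agent.MP_ad85d3_an.Spec

-- ======== part 0: formerly Pool.Agent.MP_ad85d3_an.UltB
section MrgPart0

/-!
# PROJECT UPF, module ULTB: the trace on all operators, the ultrapower is a diffuse factor
-/

open Filter Topology
open scoped ComplexOrder InnerProductSpace

noncomputable section

namespace Pool.Agent.MP_ad85d3_an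

universe u

theorem ext_stmt : ExtStmt.{u} := by
  intro K _ _ _ N
  refine ⟨fun z hz hc => ?_, ?_⟩
  · obtain ⟨c, hc⟩ := N.factor ⟨z, hz⟩ fun x => Subtype.ext (hc x x.2)
    exact ⟨c, congrArg Subtype.val hc⟩
  obtain ⟨τ, hτ⟩ := LinearMap.exists_extend (p := N.M.toStarSubalgebra.toSubalgebra.toSubmodule)
    (N.τ : N.M.toStarSubalgebra →ₗ[ℂ] ℂ)
  have e : ∀ x : N.M.toStarSubalgebra, τ x = N.τ x := fun x => LinearMap.congr_fun hτ x
  have e2 : ∀ x y : N.M.toStarSubalgebra, τ (x.1 * y.1) = N.τ (x * y) := fun x y => e (x * y)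
  refine ⟨τ, ⟨(e 1).trans N.one, fun x hx => ?_, fun x hx h => ?_, fun x hx y hy => ?_,
    fun l x hx h1 h2 => ?_⟩, e⟩
  · exact (N.pos ⟨x, hx⟩).trans_eq (e2 _ _).symm
  · exact congrArg Subtype.val (N.faithful ⟨x, hx⟩ ((e2 (star ⟨x, hx⟩) ⟨x, hx⟩).symm.trans h))
  · exact (e2 ⟨x, hx⟩ ⟨y, hy⟩).trans ((N.tracial _ _).trans (e2 ⟨y, hy⟩ ⟨x, hx⟩).symm)
  · have hm : map (Subtype.val : N.M.toStarSubalgebra → Op K) (comap Subtype.val l) = l :=
      map_comap_of_mem (mem_of_superset h1 fun y hy => ⟨⟨y, hy.1⟩, rfl⟩)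
    have h3 := N.normal (comap Subtype.val l) ⟨x, hx⟩
      ((tendsto_comap.eventually h1).mono fun y hy => hy.2)
      fun ξ => (h2 ξ).comp tendsto_comap
    rw [← hm, tendsto_map'_iff, e ⟨x, hx⟩]
    exact h3.congr fun y => (e y).symm

namespace UltB

theorem ring_id {R : Type*} [Ring R] {x e : R} (he : e * e = e) (hx : x * e = e * x) :
    ((x * x - x) + (x * x - x)) * ((x * x - x) + (x * x - x)) - (x - e) * (x - e) =
      ((x + x - 1) * (x - 1) * e) * (e * (x - 1) * (x + x - 1)) +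
      ((x - 1) * (e * (x + x - 1)) * (x - 1) + (x - 1) * (e * (x + x - 1)) * (x - 1)) +
      ((x + x - 1) * x * (1 - e)) * ((1 - e) * x * (x + x - 1)) +
      (x * (-((1 - e) * (x + x - 1))) * x + x * (-((1 - e) * (x + x - 1))) * x) := by
  have he' : ∀ z, e * (e * z) = e * z := fun z => by rw [← mul_assoc, he]
  have hx' : ∀ z, x * (e * z) = e * (x * z) := fun z => by rw [← mul_assoc, hx, mul_assoc]
  simp only [mul_add, add_mul, mul_sub, sub_mul, mul_neg, neg_mul, mul_assoc, mul_one, one_mul,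
    he, he', hx, hx']
  abel

variable {H K : Type u} [NormedAddCommGroup H] [InnerProductSpace ℂ H] [CompleteSpace H]
  [NormedAddCommGroup K] [InnerProductSpace ℂ K] [CompleteSpace K]

theorem pos_ineq {x e : Op K} (hx : IsSelfAdjoint x) (he : IsStarProjection e)
    (hc : x * e = e * x) (h1 : 0 ≤ e * (x + x - 1)) (h2 : (1 - e) * (x + x - 1) ≤ 0) :
    0 ≤ star ((x * x - x) + (x * x - x)) * ((x * x - x) + (x * x - x)) -
      star (x - e) * (x - e) := by
  have s1 : star ((x * x - x) + (x * x - x)) = (x * x - x) + (x * x - x) := by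
    simp only [star_add, star_sub, star_mul, hx.star_eq]
  have s2 : star (x - e) = x - e := by rw [star_sub, hx.star_eq, he.isSelfAdjoint.star_eq]
  have s3 : (x + x - 1) * (x - 1) * e = star (e * (x - 1) * (x + x - 1)) := by
    simp only [star_add, star_sub, star_mul, star_one, hx.star_eq, he.isSelfAdjoint.star_eq,
      mul_assoc]
  have s4 : (x + x - 1) * x * (1 - e) = star ((1 - e) * x * (x + x - 1)) := by
    simp only [star_add, star_sub, star_mul, star_one, hx.star_eq, he.isSelfAdjoint.star_eq,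
      mul_assoc]
  have p1 : 0 ≤ (x - 1) * (e * (x + x - 1)) * (x - 1) := by
    have := star_left_conjugate_nonneg h1 (x - 1)
    rwa [star_sub, star_one, hx.star_eq] at this
  have p2 : 0 ≤ x * (-((1 - e) * (x + x - 1))) * x := by
    have := star_left_conjugate_nonneg (neg_nonneg.2 h2) x
    rwa [hx.star_eq] at this
  rw [s1, s2, ring_id he.isIdempotentElem.eq hc, s3, s4]
  exact add_nonneg (add_nonneg (add_nonneg (star_mul_self_nonneg _) (add_nonneg p1 p1))
    (star_mul_self_nonneg _)) (add_nonneg p2 p2)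

/-- an almost projection is close to a projection -/
theorem near_proj (hA : GenA K) {M : VonNeumannAlgebra K} {τ : Op K →ₗ[ℂ] ℂ} (hT : TrA M τ)
    {x : Op K} (hx : x ∈ M) (hs : IsSelfAdjoint x) : ∃ e, Pj M e ∧
      (τ (star (x - e) * (x - e))).re ≤
        (τ (star ((x * x - x) + (x * x - x)) * ((x * x - x) + (x * x - x)))).re := by
  obtain ⟨e, he, hc, h1, h2, -⟩ := hA.cut (x + x - 1) ((hs.add hs).sub (IsSelfAdjoint.one _))
  have hM : e ∈ M := mem_of_comm fun a ha =>
    hc a (ha _ (sub_mem (add_mem hx hx) (one_mem M))).symm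
  have hxe : x * e = e * x := hc x (by rw [mul_sub, sub_mul, mul_add, add_mul, mul_one, one_mul])
  refine ⟨e, ⟨hM, he⟩, ?_⟩
  have hd : (x * x - x) + (x * x - x) ∈ M :=
    add_mem (sub_mem (mul_mem hx hx) hx) (sub_mem (mul_mem hx hx) hx)
  have := hT.nonneg _ (sub_mem (mul_mem (star_mem hd) hd)
    (mul_mem (star_mem (sub_mem hx hM)) (sub_mem hx hM))) (pos_ineq hs he hxe h1 h2)
  rw [map_sub] at this
  have := (Complex.nonneg_iff.1 this).1
  rwa [Complex.sub_re, sub_nonneg] at this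

section seq

variable {X : Type u} [NonUnitalCStarAlgebra X]

/-- a bounded sequence as an element of `Linf` -/
def mkL (f : ℕ → X) (h : ∀ n, ‖f n‖ ≤ 1) : Linf X :=
  BoundedContinuousFunction.ofNormedAddCommGroupDiscrete f 1 h

theorem term_mkL (f : ℕ → X) (h : ∀ n, ‖f n‖ ≤ 1) (n : ℕ) : (mkL f h).term n = f n := rfl

theorem term_mul (x y : Linf X) (n : ℕ) : (x * y).term n = x.term n * y.term n := rfl

theorem term_add (x y : Linf X) (n : ℕ) : (x + y).term n = x.term n + y.term n := rfl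

theorem term_sub (x y : Linf X) (n : ℕ) : (x - y).term n = x.term n - y.term n := rfl

theorem term_star (x : Linf X) (n : ℕ) : (star x).term n = star (x.term n) := rfl

theorem term_zero (n : ℕ) : (0 : Linf X).term n = 0 := rfl

theorem term_const (a : X) (n : ℕ) : (Linf.const a).term n = a := rfl

theorem const_mul (a b : X) : Linf.const a * Linf.const b = Linf.const (a * b) := rfl

theorem const_star (a : X) : star (Linf.const a) = Linf.const (star a) := rfl

variable {τ : X →L[ℂ] ℂ} {hτ : ∀ x, 0 ≤ τ (star x * x)} {U : Ultrafilter ℕ} {Ω : H}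
  {π : Linf X →⋆ₙₐ[ℂ] Op H}

theorem tend (h : ∀ x, vec Ω (π x) = ultraTrace τ hτ U x) (x : Linf X) :
    Tendsto (fun n => (τ (star (x.term n) * x.term n)).re) U (𝓝 (‖π x Ω‖ ^ 2)) := by
  rw [norm_orb_sq, ← map_star, ← map_mul, h]
  exact (Complex.continuous_re.tendsto _).comp (tendsto_ultraTrace τ hτ U (star x * x))

theorem tr_const (h : ∀ x, vec Ω (π x) = ultraTrace τ hτ U x) (a : X) :
    vec Ω (π (Linf.const a)) = τ a := by
  rw [h]
  exact tendsto_nhds_unique (tendsto_ultraTrace τ hτ U (Linf.const a)) tendsto_const_nhds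

variable {J : H ≃ₗᵢ⋆[ℂ] H} {P : VonNeumannAlgebra H}

theorem eq_zero_of_le (hS : Std Ω J P) (hm : ∀ x, π x ∈ P)
    (h : ∀ x, vec Ω (π x) = ultraTrace τ hτ U x) {x y : Linf X} (hy : π y = 0)
    (hle : ∀ᶠ n in (U : Filter ℕ),
      (τ (star (x.term n) * x.term n)).re ≤ (τ (star (y.term n) * y.term n)).re) : π x = 0 := by
  have h1 := le_of_tendsto_of_tendsto (tend h x) (tend h y) hle
  rw [hy] at h1
  have h2 : ‖π x Ω‖ ^ 2 ≤ 0 := by simpa using h1
  have h3 : π x Ω = 0 := norm_eq_zero.1 (pow_eq_zero_iff two_ne_zero |>.1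
    (le_antisymm h2 (sq_nonneg _)))
  exact hS.sep (hm x) (zero_mem P) h3

theorem congr_ae (hS : Std Ω J P) (hm : ∀ x, π x ∈ P)
    (h : ∀ x, vec Ω (π x) = ultraTrace τ hτ U x) {x y : Linf X}
    (he : ∀ᶠ n in (U : Filter ℕ), x.term n = y.term n) : π x = π y := by
  rw [← sub_eq_zero, ← map_sub]
  refine eq_zero_of_le hS hm h (y := 0) (map_zero π) (he.mono fun n hn => ?_)
  rw [term_sub, hn, sub_self, term_zero]

theorem exists_sa {r : Op H} (hr : IsSelfAdjoint r) {x : Linf X} (hx : π x = r) :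
    ∃ y : Linf X, π y = r ∧ ∀ n, star (y.term n) = y.term n := by
  have hs : star ((2⁻¹ : ℂ) • (x + star x)) = (2⁻¹ : ℂ) • (x + star x) := by
    rw [star_smul, star_add, star_star, add_comm]
    congr 1
    simp
  refine ⟨(2⁻¹ : ℂ) • (x + star x), ?_, fun n => by rw [← term_star, hs]⟩
  rw [map_smul, map_add, map_star, hx, hr.star_eq, ← two_smul ℂ r, smul_smul]
  simp

/-- the core of the factor property -/
theorem central (hS : Std Ω J P) (hm : ∀ x, π x ∈ P)
    (h : ∀ x, vec Ω (π x) = ultraTrace τ hτ U x) {o : X} (ho : π (Linf.const o) = 1)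
    (hp : ∀ x : X, star x = x → ∃ e v : X, ‖e‖ ≤ 1 ∧ ‖v‖ ≤ 1 ∧
      (τ (star (x - e) * (x - e))).re ≤
        (τ (star ((x * x - x) + (x * x - x)) * ((x * x - x) + (x * x - x)))).re ∧
      ((star v * v = e ∧ e * v = 0) ∨ (v * star v + e = o ∧ v * e = v)))
    {r : Op H} (hr : IsStarProjection r) (hx : ∃ x, π x = r) (hc : ∀ y, r * π y = π y * r) :
    r = 0 ∨ r = 1 := by
  obtain ⟨x₀, hx₀⟩ := hx
  obtain ⟨x, hx, hs⟩ := exists_sa hr.isSelfAdjoint hx₀
  choose e v he hv h1 h2 using fun n => hp (x.term n) (hs n)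
  have hrr := hr.isIdempotentElem.eq
  have e1 : π (mkL e he) = r := by
    have : π (x - mkL e he) = 0 :=
      eq_zero_of_le hS hm h (y := (x * x - x) + (x * x - x))
        (by rw [map_add, map_sub, map_mul, hx, hrr, sub_self, add_zero])
        (Eventually.of_forall h1)
    rw [map_sub, hx, sub_eq_zero] at this
    exact this.symm
  have hw := hc (mkL v hv)
  rcases Ultrafilter.eventually_or.1 (Eventually.of_forall h2 : ∀ᶠ n in (U : Filter ℕ), _)
    with h3 | h3
  · left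
    have a1 := congr_ae hS hm h (x := star (mkL v hv) * mkL v hv) (y := mkL e he)
      (h3.mono fun n hn => hn.1)
    have a2 := congr_ae hS hm h (x := mkL e he * mkL v hv) (y := 0) (h3.mono fun n hn => hn.2)
    rw [map_mul, map_star, e1] at a1
    rw [map_mul, e1, map_zero] at a2
    rw [← hrr]
    nth_rewrite 1 [← a1]
    rw [mul_assoc, ← hw, a2, mul_zero]
  · right
    have a1 := congr_ae hS hm h (x := mkL v hv * star (mkL v hv) + mkL e he) (y := Linf.const o)
      (h3.mono fun n hn => hn.1)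
    have a2 := congr_ae hS hm h (x := mkL v hv * mkL e he) (y := mkL v hv)
      (h3.mono fun n hn => hn.2)
    rw [map_add, map_mul, map_star, e1, ho] at a1
    rw [map_mul, e1] at a2
    have a3 := congrArg (fun z => r * z) a1
    simp only [mul_add, mul_one, ← mul_assoc, hw, a2, hrr] at a3
    rw [← a3, a1]

end seq

theorem step (hA : GenA K) (hB : GenB K) (N : TwoOne K) (hF : Fac N.M) {τ : Op K →ₗ[ℂ] ℂ}
    (hT : TrA N.M τ) (hτ : ∀ x : N.M.toStarSubalgebra, τ x = N.τ x) (x : N.M.toStarSubalgebra)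
    (hx : star x = x) : ∃ e v : N.M.toStarSubalgebra, ‖e‖ ≤ 1 ∧ ‖v‖ ≤ 1 ∧
      (N.τ (star (x - e) * (x - e))).re ≤
        (N.τ (star ((x * x - x) + (x * x - x)) * ((x * x - x) + (x * x - x)))).re ∧
      ((star v * v = e ∧ e * v = 0) ∨ (v * star v + e = 1 ∧ v * e = v)) := by
  obtain ⟨e, he, h1⟩ := near_proj hA hT (x := x) x.2 (congrArg Subtype.val hx)
  have he' : Pj N.M (1 - e) := (Pj.one N.M).sub he (one_mul e)
  obtain ⟨v, hv, h2⟩ := hB.cmp N.M e (1 - e) he he' (hA.conn hF _ _)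
  refine ⟨⟨e, he.1⟩, ⟨v, hv⟩, he.2.norm_le, ?_, ?_, ?_⟩
  · rcases h2 with h2 | h2
    · exact pi_norm (h2.1 ▸ he.2)
    · exact pi_norm (pi_proj' (h2.1 ▸ he'.2))
  · rw [← hτ, ← hτ]
    exact h1
  · rcases h2 with h2 | h2
    · refine Or.inl ⟨Subtype.ext h2.1, Subtype.ext ?_⟩
      have := h2.2
      rw [sub_mul, one_mul, sub_eq_self] at this
      exact this
    · refine Or.inr ⟨Subtype.ext ?_, Subtype.ext h2.2⟩
      exact eq_sub_iff_add_eq.1 h2.1

end UltB

theorem ultB_stmt (hA : GenAStmt.{u}) (hB : GenBStmt.{u}) (hT : TrAStmt.{u})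
    (hT' : TrBStmt.{u}) : UltBStmt.{u} := by
  intro H K _ _ _ _ _ _ Ω J P A N U π hS hR hmem
  obtain ⟨hF, τ, hτ, e⟩ := ext_stmt K N
  have hAP : A ≤ P := fun y hy => by
    obtain ⟨x, rfl⟩ := (hmem y).1 hy
    exact hR.mem x
  have hfac : Fac A := fun z hz hc => by
    have hZ : rel A (A : Set (Op H)) ≤ P := fun y hy => hAP (mem_rel.1 hy).1
    obtain ⟨c, hc⟩ := (hT H _ _ (hS.isTr.mono hZ)).scal 1 (Pj.one _)
      (fun r hr _ => UltB.central hS hR.mem hR.tr hR.one
        (UltB.step (hA K) (hB K) N hF (hT K _ _ hτ) e) hr.2 ((hmem r).1 (mem_rel.1 hr.1).1)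
        fun y => ((mem_rel.1 hr.1).2 _ ((hmem _).2 ⟨y, rfl⟩)).1.symm) z
      (mem_rel.2 ⟨hz, fun s hs => ⟨(hc s hs).symm, (hc _ (star_mem hs)).symm⟩⟩)
    exact ⟨c, by rwa [one_mul, mul_one] at hc⟩
  have hproj : ∀ t : ℝ, 0 ≤ t → t ≤ 1 →
      ∃ q : N.M.toStarSubalgebra, IsStarProjection q ∧ N.τ q = t := fun t h0 h1 => by
    obtain ⟨q, hq, -, ht⟩ := (hT K _ _ hτ).exact 1 (Pj.one _)
      ((hT' K _ _ hτ).inf hF N.infinite) t h0 (by rw [hτ.one]; exact h1)
    exact ⟨⟨q, hq.1⟩, ⟨Subtype.ext hq.mul_self, Subtype.ext hq.star_eq⟩,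
      (e ⟨q, hq.1⟩).symm.trans ht⟩
  refine ⟨hfac, (hT H _ _ (hS.isTr.mono hAP)).small hfac fun ε hε => ?_, hproj⟩
  have h0 : 0 < min (ε / 2) 1 := lt_min (half_pos hε) one_pos
  obtain ⟨q, hq, ht⟩ := hproj (min (ε / 2) 1) h0.le (min_le_right _ _)
  have h1 : vec Ω (π (Linf.const q)) = (min (ε / 2) 1 : ℝ) := (UltB.tr_const hR.tr q).trans ht
  refine ⟨π (Linf.const q), ⟨(hmem _).2 ⟨_, rfl⟩, ?_, ?_⟩, fun h2 => ?_, ?_⟩
  · rw [IsIdempotentElem, ← map_mul, UltB.const_mul, hq.isIdempotentElem.eq]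
  · rw [IsSelfAdjoint, ← map_star, UltB.const_star, hq.isSelfAdjoint.star_eq]
  · rw [h2, map_zero] at h1
    exact h0.ne' (Complex.ofReal_eq_zero.1 h1.symm)
  · rw [h1, Complex.ofReal_re]
    exact (min_le_left _ _).trans_lt (half_lt_self hε)

end Pool.Agent.MP_ad85d3_an

end
end MrgPart0

-- ======== part 1: formerly Pool.Agent.MP_ad85d3_an.GenB
section MrgPart1

/-!
# PROJECT UPF: strong limits, chains of isometric parts, comparison of projections
-/

open Filter Topology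
open scoped ComplexOrder InnerProductSpace ComplexConjugate

noncomputable section

namespace Pool.Agent.MP_ad85d3_an

universe u

namespace GenB

variable {H : Type u} [NormedAddCommGroup H] [InnerProductSpace ℂ H] [CompleteSpace H]

set_option linter.unusedSectionVars false

theorem cauchy_of_near {ι : Type*} (l : Filter ι) [l.NeBot] (f : ι → H)
    (h : ∀ ε : ℝ, 0 < ε → ∃ η : H, ∀ᶠ i in l, dist (f i) η < ε) :
    ∃ η, Tendsto f l (𝓝 η) := by
  refine cauchy_map_iff_exists_tendsto.1 (Metric.cauchy_iff.2 ⟨inferInstance, fun ε hε => ?_⟩)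
  obtain ⟨η, hη⟩ := h (ε / 2) (half_pos hε)
  refine ⟨Metric.ball η (ε / 2), hη, fun x hx y hy => ?_⟩
  have := dist_triangle_right x y η
  rw [Metric.mem_ball] at hx hy
  linarith

theorem sot' {ι : Type*} (l : Filter ι) [l.NeBot] (T : ι → Op H) (C : ℝ) (D : Set H)
    (hC : ∀ᶠ i in l, ‖T i‖ ≤ C) (hD : Dense (Submodule.span ℂ D : Set H))
    (hc : ∀ ξ ∈ D, Cauchy (l.map fun i => T i ξ)) :
    ∃ S : Op H, ‖S‖ ≤ C ∧ ∀ ξ, Tendsto (fun i => T i ξ) l (𝓝 (S ξ)) := by
  have h0 : 0 ≤ C := by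
    obtain ⟨i, hi⟩ := hC.exists
    exact (norm_nonneg _).trans hi
  have h1 : ∀ ξ ∈ Submodule.span ℂ D, ∃ η, Tendsto (fun i => T i ξ) l (𝓝 η) := by
    intro ξ hξ
    induction hξ using Submodule.span_induction with
    | mem x hx => exact cauchy_map_iff_exists_tendsto.1 (hc x hx)
    | zero => exact ⟨0, by simpa only [map_zero] using tendsto_const_nhds⟩
    | add x y _ _ hx hy =>
      obtain ⟨a, ha⟩ := hx
      obtain ⟨b, hb⟩ := hy
      exact ⟨a + b, by simpa only [map_add] using ha.add hb⟩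
    | smul c x _ hx =>
      obtain ⟨a, ha⟩ := hx
      exact ⟨c • a, by simpa only [map_smul] using ha.const_smul c⟩
  have h2 : ∀ ξ, ∃ η, Tendsto (fun i => T i ξ) l (𝓝 η) := by
    intro ξ
    refine cauchy_of_near l _ fun ε hε => ?_
    obtain ⟨ξ', h3, h4⟩ := hD.exists_dist_lt ξ (show 0 < ε / 2 / (C + 1) by positivity)
    obtain ⟨η, hη⟩ := h1 ξ' h3
    refine ⟨η, ?_⟩
    filter_upwards [hC, Metric.tendsto_nhds.1 hη _ (half_pos hε)] with i hi hi'
    have a1 : dist (T i ξ) (T i ξ') ≤ (C + 1) * dist ξ ξ' :=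
      ((T i).dist_le_opNorm ξ ξ').trans (mul_le_mul_of_nonneg_right (by linarith) dist_nonneg)
    rw [lt_div_iff₀ (by positivity)] at h4
    linarith [dist_triangle (T i ξ) (T i ξ') η]
  choose f hf using h2
  have h3 : ∀ ξ, ‖f ξ‖ ≤ C * ‖ξ‖ := fun ξ =>
    le_of_tendsto (hf ξ).norm (hC.mono fun i hi => (T i).le_of_opNorm_le hi ξ)
  let L : H →ₗ[ℂ] H :=
    { toFun := f
      map_add' := fun x y =>
        tendsto_nhds_unique (hf (x + y)) (by simpa only [map_add] using (hf x).add (hf y))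
      map_smul' := fun c x =>
        tendsto_nhds_unique (hf (c • x))
          (by simpa only [map_smul, RingHom.id_apply] using (hf x).const_smul c) }
  exact ⟨L.mkContinuous C h3, L.mkContinuous_norm_le h0 h3, hf⟩

theorem lim_right {l : Filter (Op H)} [l.NeBot] {V y z : Op H}
    (h : ∀ ξ, Tendsto (fun w : Op H => w ξ) l (𝓝 (V ξ))) (e : ∀ᶠ w in l, w * y = z) :
    V * y = z := by
  refine ContinuousLinearMap.ext fun ξ => tendsto_nhds_unique (h (y ξ)) ?_
  refine tendsto_const_nhds.congr' (e.mono fun w hw => ?_)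
  exact (congrArg (fun x : Op H => x ξ) hw).symm

theorem lim_left {l : Filter (Op H)} [l.NeBot] {V y z : Op H}
    (h : ∀ ξ, Tendsto (fun w : Op H => w ξ) l (𝓝 (V ξ))) (e : ∀ᶠ w in l, y * w = z) :
    y * V = z := by
  refine ContinuousLinearMap.ext fun ξ =>
    tendsto_nhds_unique ((y.continuous.tendsto _).comp (h ξ)) ?_
  refine tendsto_const_nhds.congr' (e.mono fun w hw => ?_)
  exact (congrArg (fun x : Op H => x ξ) hw).symm

theorem ring_aux {R : Type*} [Ring R] {p q : R} (hq : q * q = q) (h : p * q * p = p)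
    (hp : p * p = p) : p * (1 - q) * ((1 - q) * p) = 0 := by
  have e : (1 - q) * (1 - q) = 1 - q := by rw [sub_mul, one_mul, mul_sub, mul_one, hq]; abel
  rw [mul_assoc, ← mul_assoc (1 - q), e, sub_mul, one_mul, mul_sub, hp, ← mul_assoc, h, sub_self]

/-- the order of isometric parts -/
theorem le_proj {v w : Op H} (hv : IsStarProjection (star v * v))
    (hw : IsStarProjection (star w * w)) (h : w * (star v * v) = v) :
    star w * v = star v * v := by
  obtain ⟨p, hp⟩ : ∃ p, p = star v * v := ⟨_, rfl⟩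
  rw [← hp] at hv h ⊢
  have h1 : star w * v = star w * w * p := by rw [mul_assoc, h]
  have h2 : p * (star w * w) * p = p := by
    have : star (w * p) * (w * p) = p := by rw [h, hp]
    rw [star_mul, hv.isSelfAdjoint.star_eq] at this
    simpa only [mul_assoc] using this
  have h3 : (1 - star w * w) * p = 0 := by
    rw [← CStarRing.star_mul_self_eq_zero_iff, star_mul, star_sub, star_one,
      hv.isSelfAdjoint.star_eq, hw.isSelfAdjoint.star_eq]
    exact ring_aux hw.isIdempotentElem.eq h2 hv.isIdempotentElem.eq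
  rw [sub_mul, one_mul, sub_eq_zero] at h3
  rw [h1, ← h3]

theorem le_trans' {a v w : Op H} (ha : IsStarProjection (star a * a))
    (hv : IsStarProjection (star v * v)) (h : v * (star a * a) = a) (h' : w * (star v * v) = v) :
    w * (star a * a) = a := by
  have h1 := le_proj ha hv h
  obtain ⟨p, hp⟩ : ∃ p, p = star a * a := ⟨_, rfl⟩
  rw [← hp] at h h1 ⊢
  calc w * p = w * (star v * (v * p)) := by rw [h, h1]
    _ = w * (star v * v) * p := by simp only [mul_assoc]
    _ = a := by rw [h', h]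

theorem norm_sub_sq' {v w : Op H} (h : star w * v = star v * v) (ξ : H) :
    ‖w ξ - v ξ‖ ^ 2 + ‖v ξ‖ ^ 2 = ‖w ξ‖ ^ 2 := by
  have h1 : ⟪w ξ - v ξ, v ξ⟫_ℂ = 0 := by
    rw [inner_sub_left, ← vec_star_mul, ← vec_star_mul, h, sub_self]
  have h2 := norm_add_sq_eq_norm_sq_add_norm_sq_of_inner_eq_zero _ _ h1
  rw [sub_add_cancel] at h2
  rw [sq, sq, sq, h2]

/-- the filter of final segments of a chain -/
theorem top_filter {α : Type*} (c : Set α) (r : α → α → Prop) (hne : c.Nonempty)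
    (h1 : ∀ v ∈ c, r v v) (h2 : ∀ v ∈ c, ∀ w ∈ c, r v w ∨ r w v)
    (h3 : ∀ a ∈ c, ∀ v ∈ c, ∀ w, r a v → r v w → r a w) :
    ∃ l : Filter α, l.NeBot ∧ ∀ v ∈ c, ∀ᶠ w in l, w ∈ c ∧ r v w := by
  have : Nonempty c := hne.to_subtype
  refine ⟨⨅ v : c, 𝓟 {w | w ∈ c ∧ r v.1 w}, iInf_neBot_of_directed' (fun v w => ?_)
      fun v => principal_neBot_iff.2 ⟨v.1, v.2, h1 _ v.2⟩,
    fun v hv => mem_iInf_of_mem ⟨v, hv⟩ (mem_principal_self _)⟩
  rcases h2 _ v.2 _ w.2 with h | h
  · exact ⟨w, principal_mono.2 fun x hx => ⟨hx.1, h3 _ v.2 _ w.2 _ h hx.2⟩, le_rfl⟩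
  · exact ⟨v, le_rfl, principal_mono.2 fun x hx => ⟨hx.1, h3 _ w.2 _ v.2 _ h hx.2⟩⟩

/-- the strong limit of a chain of isometric parts -/
theorem chain_lim (hA : GenA H) (M : VonNeumannAlgebra H) (c : Set (Op H)) (hne : c.Nonempty)
    (hM : ∀ v ∈ c, v ∈ M) (hp : ∀ v ∈ c, IsStarProjection (star v * v))
    (ht : ∀ v ∈ c, ∀ w ∈ c, w * (star v * v) = v ∨ v * (star w * w) = w) :
    ∃ (V : Op H) (l : Filter (Op H)), V ∈ M ∧ IsStarProjection (star V * V) ∧
      (∀ v ∈ c, V * (star v * v) = v) ∧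
      (∀ y : Op H, (∀ v ∈ c, y * (star v * v) = 0) → y * (star V * V) = 0) ∧ l.NeBot ∧
      (∀ᶠ w in l, w ∈ c) ∧ ∀ ξ, Tendsto (fun w : Op H => w ξ) l (𝓝 (V ξ)) := by
  obtain ⟨l, hl, hev⟩ := top_filter c (fun v w => w * (star v * v) = v) hne
    (fun v hv => pi_mul (hp v hv)) ht
    fun a ha v hv w h h' => le_trans' (hp a ha) (hp v hv) h h'
  have hc : ∀ᶠ w in l, w ∈ c := by
    obtain ⟨v, hv⟩ := hne
    exact (hev v hv).mono fun w hw => hw.1
  obtain ⟨V, -, hV⟩ := sot' l (fun w : Op H => w) 1 Set.univ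
    (hc.mono fun w hw => pi_norm (hp w hw)) (by simp) fun ξ _ => by
      refine cauchy_map_iff_exists_tendsto.2 (cauchy_of_near l _ fun ε hε => ?_)
      have hb : BddAbove ((fun v : Op H => ‖v ξ‖ ^ 2) '' c) := by
        refine ⟨(1 * ‖ξ‖) ^ 2, ?_⟩
        rintro _ ⟨v, hv, rfl⟩
        exact pow_le_pow_left₀ (norm_nonneg _) (v.le_of_opNorm_le (pi_norm (hp v hv)) ξ) 2
      obtain ⟨_, ⟨v, hv, rfl⟩, h1⟩ := exists_lt_of_lt_csSup (hne.image fun v : Op H => ‖v ξ‖ ^ 2)
        (sub_lt_self (sSup ((fun v : Op H => ‖v ξ‖ ^ 2) '' c)) (pow_pos hε 2))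
      refine ⟨v ξ, (hev v hv).mono fun w hw => ?_⟩
      have h2 := norm_sub_sq' (le_proj (hp v hv) (hp w hw.1) hw.2) ξ
      have h3 : ‖w ξ‖ ^ 2 ≤ _ := le_csSup hb ⟨w, hw.1, rfl⟩
      rw [dist_eq_norm]
      exact lt_of_pow_lt_pow_left₀ 2 hε.le (by linarith)
  obtain ⟨e, he, e1, e2, -⟩ := hA.supp ((fun v : Op H => star v * v) '' c)
  have a1 : ∀ v ∈ c, V * (star v * v) = v := fun v hv =>
    lim_right hV ((hev v hv).mono fun w hw => hw.2)
  have a2 : V * (1 - e) = 0 := lim_right hV (hc.mono fun w hw => by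
    have h1 := le_symm he (hp w hw) (e1 _ ⟨w, hw, rfl⟩)
    rw [mul_sub, mul_one, sub_eq_zero]
    calc w = w * (star w * w * e) := by rw [h1, pi_mul (hp w hw)]
      _ = w * e := by rw [← mul_assoc, pi_mul (hp w hw)])
  have a3 : ∀ v ∈ c, star V * v = star v * v := fun v hv => by
    have h1 : star v * V = star v * v := lim_left hV ((hev v hv).mono fun w hw => by
      have := congrArg star (le_proj (hp v hv) (hp w hw.1) hw.2)
      simpa only [star_mul, star_star] using this)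
    have := congrArg star h1
    simpa only [star_mul, star_star] using this
  have a4 : (star V * V - 1) * e = 0 := e2 _ (by
    rintro _ ⟨v, hv, rfl⟩
    rw [sub_mul, one_mul, mul_assoc, a1 v hv, a3 v hv, sub_self])
  have a5 : star V * V = e := by
    rw [mul_sub, mul_one, sub_eq_zero] at a2
    rw [sub_mul, one_mul, sub_eq_zero, mul_assoc, ← a2] at a4
    exact a4
  refine ⟨V, l, mem_of_sot (hc.mono hM) hV, a5 ▸ he, a1, fun y hy => ?_, hl, hc, hV⟩
  rw [a5]
  exact e2 y (by rintro _ ⟨v, hv, rfl⟩; exact hy v hv)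

theorem chain' (hA : GenA H) (M : VonNeumannAlgebra H) (c : Set (Op H)) (hne : c.Nonempty)
    (hp : ∀ p ∈ c, Pj M p) (ht : ∀ p ∈ c, ∀ q ∈ c, q * p = p ∨ p * q = q) :
    ∃ (e : Op H) (l : Filter (Op H)), Pj M e ∧ (∀ p ∈ c, e * p = p) ∧ l.NeBot ∧
      (∀ᶠ p in l, p ∈ c) ∧ ∀ ξ, Tendsto (fun p : Op H => p ξ) l (𝓝 (e ξ)) := by
  have hs : ∀ p ∈ c, star p * p = p := fun p h => by rw [(hp p h).star_eq, (hp p h).mul_self]
  obtain ⟨V, l, h1, h2, h3, h4, h5, h6, h7⟩ := chain_lim hA M c hne (fun v hv => (hp v hv).1)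
    (fun v hv => by rw [hs v hv]; exact (hp v hv).2)
    fun v hv w hw => by rw [hs v hv, hs w hw]; exact ht v hv w hw
  have a1 : ∀ p ∈ c, V * p = p := fun p h => by
    have := h3 p h
    rwa [hs p h] at this
  have a2 := h4 (V - 1) fun v hv => by rw [hs v hv, sub_mul, one_mul, a1 v hv, sub_self]
  rw [sub_mul, one_mul, pi_mul h2, sub_eq_zero] at a2
  exact ⟨V, l, ⟨h1, a2 ▸ h2⟩, a1, h5, h6, h7⟩

/-- adding an orthogonal isometric part -/
theorem add_aux {R : Type*} [Ring R] [StarRing R] {u v : R} (h1 : star v * u = 0) :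
    star (v + u) * (v + u) = star v * v + star u * u := by
  have h2 : star u * v = 0 := by
    have := congrArg star h1
    simpa only [star_mul, star_star, star_zero] using this
  rw [star_add, add_mul, mul_add, mul_add, h1, h2, add_zero, zero_add]

theorem cmp' (hA : GenA H) (M : VonNeumannAlgebra H) (p q : Op H) (hp : Pj M p) (hq : Pj M q)
    (hC : Conn M p q) :
    ∃ v ∈ M, (star v * v = p ∧ q * v = v) ∨ (v * star v = q ∧ v * p = v) := by
  obtain ⟨⟨v, hv, v1, v2, v3⟩, hm⟩ := exists_maximal_of_chains_bounded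
    (α := {v : Op H // v ∈ M ∧ IsStarProjection (star v * v) ∧ v * p = v ∧ q * v = v})
    (r := fun v w => w.1 * (star v.1 * v.1) = v.1) (fun c hc => by
      rcases c.eq_empty_or_nonempty with rfl | hne
      · exact ⟨⟨0, zero_mem M, by rw [mul_zero]; exact IsStarProjection.zero _, zero_mul _,
          mul_zero _⟩, fun a ha => absurd ha (Set.notMem_empty a)⟩
      · obtain ⟨V, l, h1, h2, h3, -, h5, h6, h7⟩ := chain_lim hA M (Subtype.val '' c)
          (hne.image _) (by rintro _ ⟨v, -, rfl⟩; exact v.2.1)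
          (by rintro _ ⟨v, -, rfl⟩; exact v.2.2.1) (by
            rintro _ ⟨v, hv, rfl⟩ _ ⟨w, hw, rfl⟩
            rcases eq_or_ne v w with rfl | hvw
            · exact Or.inl (pi_mul v.2.2.1)
            · exact hc hv hw hvw)
        have a1 : V * (1 - p) = 0 := lim_right h7 (h6.mono (by
          rintro _ ⟨v, -, rfl⟩
          rw [mul_sub, mul_one, v.2.2.2.1, sub_self]))
        have a2 : (1 - q) * V = 0 := lim_left h7 (h6.mono (by
          rintro _ ⟨v, -, rfl⟩
          rw [sub_mul, one_mul, v.2.2.2.2, sub_self]))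
        rw [mul_sub, mul_one, sub_eq_zero] at a1
        rw [sub_mul, one_mul, sub_eq_zero] at a2
        exact ⟨⟨V, h1, h2, a1.symm, a2.symm⟩, fun a ha => h3 _ ⟨a, ha, rfl⟩⟩)
    (fun {a b c} h h' => le_trans' a.2.2.1 b.2.2.1 h h')
  have s1 : p * star v = star v := by
    have := congrArg star v2
    rwa [star_mul, hp.star_eq] at this
  have s2 : star v * q = star v := by
    have := congrArg star v3
    rwa [star_mul, hq.star_eq] at this
  have s3 : star v * v * star v = star v := by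
    have := congrArg star (pi_mul v1)
    simpa only [star_mul, star_star] using this
  have hp' : Pj M (p - star v * v) :=
    hp.sub ⟨mul_mem (star_mem hv) hv, v1⟩ (by rw [← mul_assoc, s1])
  have hq' : Pj M (q - v * star v) :=
    hq.sub ⟨mul_mem hv (star_mem hv), pi_proj v1⟩ (by rw [← mul_assoc, v3])
  have t1 : p * (p - star v * v) = p - star v * v := by
    rw [mul_sub, hp.mul_self, ← mul_assoc, s1]
  have t2 : q * (q - v * star v) = q - v * star v := by
    rw [mul_sub, hq.mul_self, ← mul_assoc, v3]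
  have t3 : (p - star v * v) * star v = 0 := by rw [sub_mul, s1, s3, sub_self]
  have t4 : star v * (q - v * star v) = 0 := by rw [mul_sub, s2, ← mul_assoc, s3, sub_self]
  by_cases c1 : p - star v * v = 0
  · exact ⟨v, hv, Or.inl ⟨(sub_eq_zero.1 c1).symm, v3⟩⟩
  by_cases c2 : q - v * star v = 0
  · exact ⟨v, hv, Or.inr ⟨(sub_eq_zero.1 c2).symm, v2⟩⟩
  exfalso
  obtain ⟨x, hx, hz⟩ := hC _ _ hp' hq' t1 t2 c1 c2
  have t5 := le_symm hp.2 hp'.2 t1
  generalize p - star v * v = p' at hp' t1 t3 t5 hz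
  generalize q - v * star v = q' at hq' t2 t4 hz
  have hzM : q' * x * p' ∈ M := mul_mem (mul_mem hq'.1 hx) hp'.1
  obtain ⟨w, w1, w2, w3, w4, w5⟩ := hA.polar (q' * x * p')
  have b1 : w ∈ M := mem_of_comm fun a ha =>
    w5 a a (ha _ hzM).symm (comm_star ha _ hzM).symm
  have b2 : q' * w = w := by
    have := w3 (1 - q') (by
      rw [sub_mul, one_mul, ← mul_assoc, ← mul_assoc, hq'.mul_self, sub_self])
    rw [sub_mul, one_mul, sub_eq_zero] at this
    exact this.symm
  have b3 : w * p' = w := by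
    have := w4 (1 - p') (by rw [mul_sub, mul_one, mul_assoc _ p' p', hp'.mul_self, sub_self])
    rw [mul_sub, mul_one, sub_eq_zero] at this
    exact this.symm
  have b4 : star v * w = 0 := by rw [← b2, ← mul_assoc, t4, zero_mul]
  have b5 : w * star v = 0 := by rw [← b3, mul_assoc, t3, mul_zero]
  have b6 : v * star w = 0 := by
    have := congrArg star b5
    simpa only [star_mul, star_star, star_zero] using this
  have b7 := add_aux b4
  have b8 := hm ⟨v + w, add_mem hv b1,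
    by rw [b7]; exact v1.add w1 (by rw [mul_assoc, ← mul_assoc v, b6, zero_mul, mul_zero]),
    by rw [add_mul, v2, ← b3, mul_assoc, t5],
    by rw [mul_add, v3, ← b2, ← mul_assoc, t2]⟩
    (by change (v + w) * (star v * v) = v
        rw [add_mul, pi_mul v1, ← mul_assoc, b5, zero_mul, add_zero])
  change v * (star (v + w) * (v + w)) = v + w at b8
  rw [b7, mul_add, pi_mul v1, ← mul_assoc, b6, zero_mul, add_right_inj] at b8
  rw [← b8, zero_mul, zero_mul] at w2
  exact hz w2.symm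

end GenB

theorem genB_stmt (hA : GenAStmt.{u}) : GenBStmt.{u} := fun H _ _ _ =>
  { sot := fun l T C D hl hC hD hc => by
      have := hl
      exact GenB.sot' l T C D hC hD hc
    sotN := fun T C D hC hD hc => GenB.sot' atTop T C D (Eventually.of_forall hC) hD hc
    cmp := GenB.cmp' (hA H)
    chain := GenB.chain' (hA H) }

end Pool.Agent.MP_ad85d3_an

end
end MrgPart1

-- ======== part 2: formerly Pool.Agent.MP_ad85d3_an.TrB
section MrgPart2

/-!
# PROJECT UPF, module TRB: uniqueness of the trace, orthogonal symmetries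
-/

open Filter Topology
open scoped ComplexOrder InnerProductSpace ComplexConjugate

noncomputable section

namespace Pool.Agent.MP_ad85d3_an

universe u

namespace TrB

/-! ## ring identities -/

section ring

variable {R : Type*} [Ring R]

theorem id1 (e x : R) (he : e * e = e) (hx : x * e = e * x) :
    x + x - e = e * (x + x - 1) + ((1 - e) * x * (1 - e) + (1 - e) * x * (1 - e)) := by
  have h1 : e * x * e = e * x := by rw [mul_assoc, hx, ← mul_assoc, he]
  have h2 : (1 - e) * x * (1 - e) = x - e * x := by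
    rw [sub_mul, one_mul, mul_sub, mul_one, sub_mul, h1, hx, sub_self, sub_zero]
  rw [h2]; noncomm_ring

theorem id2 (e x : R) (he : e * e = e) (hx : x * e = e * x) :
    1 - (x + x - e) = -((1 - e) * (x + x - 1)) + (e * (1 - x) * e + e * (1 - x) * e) := by
  have h1 : e * x * e = e * x := by rw [mul_assoc, hx, ← mul_assoc, he]
  have h2 : e * (1 - x) * e = e - e * x := by rw [mul_sub, mul_one, sub_mul, he, h1]
  rw [h2]; noncomm_ring

theorem id3 (p a b : R) (hp : p * p = p) (ha : p * a = a) (hb : b * p = b) :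
    (p - (b + b)) * (p - (a + a)) = p - (a + a) - (b + b) + (b * a + b * a + (b * a + b * a)) := by
  simp only [sub_mul, mul_sub, add_mul, mul_add, hp, ha, hb]
  abel

theorem id4 (q g g' : R) (h1 : g' * q = q * g') (h2 : g' * g = g * g') :
    g' * (q * g) = q * g * g' := by
  rw [← mul_assoc, h1, mul_assoc, h2, mul_assoc]

theorem id5 (w w' x c s t : R) (hs : c * s = s) :
    w * t * x * (w' * s) = w * (t * x * w' * c) * s := by
  simp only [mul_assoc, hs]

end ring

variable {H : Type u} [NormedAddCommGroup H] [InnerProductSpace ℂ H] [CompleteSpace H]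
  {M : VonNeumannAlgebra H} {τ : Op H →ₗ[ℂ] ℂ}

/-! ## infinite dimensional factors have no minimal projection -/

theorem range_pj {v q : Op H} (hv : v ∈ M) (h : IsStarProjection (star v * v)) (hq : q * v = v) :
    Pj M (v * star v) ∧ q * (v * star v) = v * star v :=
  ⟨⟨mul_mem hv (star_mem hv), pi_proj h⟩, by rw [← mul_assoc, hq]⟩

theorem frame (h : IsTr M τ) (hT : TrA M τ) (hC : ∀ p q, Conn M p q) {c : Op H} (hc : Pj M c)
    (hm : ∀ r, Pj M r → c * r = r → r = 0 ∨ r = c) (n : ℕ) : ∀ q, Pj M q →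
    (τ q).re ≤ n * (τ c).re → ∃ (k : ℕ) (w : Fin k → Op H), (∀ i, w i ∈ M) ∧ (∀ i, w i * c = w i) ∧
      ∑ i, w i * star (w i) = q := by
  have z : ∃ (k : ℕ) (w : Fin k → Op H), (∀ i, w i ∈ M) ∧ (∀ i, w i * c = w i) ∧
      ∑ i, w i * star (w i) = 0 := ⟨0, Fin.elim0, fun i => i.elim0, fun i => i.elim0, by simp⟩
  induction n with
  | zero =>
    intro q hq h0
    rw [h.proj_eq_zero hq (by simpa using h0)]
    exact z
  | succ n ih =>
    intro q hq h0
    rcases le_or_gt (τ c).re (τ q).re with h1 | h1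
    · obtain ⟨v, hv, e1, e2, -⟩ := hT.le c q hc hq (hC c q) h1
      have hp : IsStarProjection (star v * v) := e1 ▸ hc.2
      obtain ⟨hr, hqr⟩ := range_pj hv hp e2
      have e3 : τ (v * star v) = τ c := by rw [h.comm v hv _ (star_mem hv), e1]
      obtain ⟨k, w, a1, a2, a3⟩ := ih _ (hq.sub hr hqr) (by
        rw [map_sub, e3, Complex.sub_re]; push_cast at h0; linarith)
      refine ⟨k + 1, Fin.cons v w, fun i => ?_, fun i => ?_, ?_⟩
      · refine Fin.cases ?_ (fun j => ?_) i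
        · exact hv
        · exact a1 j
      · refine Fin.cases ?_ (fun j => ?_) i
        · rw [Fin.cons_zero, ← e1]; exact pi_mul hp
        · exact a2 j
      · rw [Fin.sum_univ_succ]
        simp only [Fin.cons_zero, Fin.cons_succ]
        rw [a3, add_sub_cancel]
    · obtain ⟨v, hv, e1, e2, -⟩ := hT.le q c hq hc (hC q c) h1.le
      obtain ⟨hr, hqr⟩ := range_pj hv (e1 ▸ hq.2) e2
      have e3 : τ (v * star v) = τ q := by rw [h.comm v hv _ (star_mem hv), e1]
      rcases hm _ hr hqr with e | e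
      · rw [h.proj_eq_zero hq (by rw [← e3, e, map_zero]; exact le_rfl)]
        exact z
      · rw [e] at e3
        rw [e3] at h1
        exact absurd h1 (lt_irrefl _)

theorem inf_dim (h : IsTr M τ) (hT : TrA M τ) (hC : ∀ p q, Conn M p q)
    (hf : ¬ FiniteDimensional ℂ M.toStarSubalgebra) : Dif M 1 := by
  intro c hc _ h0
  by_contra hn
  have hm : ∀ r, Pj M r → c * r = r → r = 0 ∨ r = c := fun r hr e => by
    by_contra hh
    rw [not_or] at hh
    exact hn ⟨r, hr, e, hh.1, hh.2⟩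
  have hp := h.proj_pos hc h0
  obtain ⟨n, hn⟩ := exists_nat_ge (1 / (τ c).re)
  obtain ⟨k, w, a1, a2, a3⟩ := frame h hT hC hc hm n 1 (Pj.one M) (by
    rw [h.one, Complex.one_re]; rwa [div_le_iff₀ hp] at hn)
  set S : Set (Op H) := Set.range fun ij : Fin k × Fin k => w ij.1 * star (w ij.2) with hS
  have hfin : FiniteDimensional ℂ (Submodule.span ℂ S) :=
    FiniteDimensional.span_of_finite ℂ (Set.finite_range _)
  have hle : ∀ x ∈ M, x ∈ Submodule.span ℂ S := fun x hx => by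
    have e : x = ∑ i, ∑ j, w i * star (w i) * x * (w j * star (w j)) := by
      simp only [← Finset.mul_sum]
      rw [a3, ← Finset.sum_mul, ← Finset.sum_mul, a3, one_mul, mul_one]
    rw [e]
    refine Submodule.sum_mem _ fun i _ => Submodule.sum_mem _ fun j _ => ?_
    have s : ∀ i, c * star (w i) = star (w i) := fun i => by
      have := congrArg star (a2 i)
      rwa [star_mul, hc.star_eq] at this
    obtain ⟨l, hl⟩ := hT.scal c hc hm (star (w i) * x * w j)
      (mul_mem (mul_mem (star_mem (a1 i)) hx) (a1 j))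
    have e2 : star (w i) * x * w j * c = l • c := by
      rw [← hl, ← mul_assoc c, ← mul_assoc c, s i]
    rw [id5 (w i) (w j) x c _ _ (s j), e2, mul_smul_comm, smul_mul_assoc, a2 i]
    exact Submodule.smul_mem _ _ (Submodule.subset_span ⟨(i, j), rfl⟩)
  exact hf (Submodule.finiteDimensional_of_le
    (S₁ := Subalgebra.toSubmodule M.toStarSubalgebra.toSubalgebra) (S₂ := Submodule.span ℂ S)
    fun x hx => hle x hx)

/-! ## uniqueness of the trace -/

theorem exists_sqrt {x : Op H} (hx : x ∈ M) (h0 : 0 ≤ x) : ∃ s ∈ M, star s * s = x := by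
  refine ⟨CFC.sqrt x, mem_of_comm fun a ha => ?_, ?_⟩
  · exact (Commute.cfcₙ_nnreal (a := x) (b := a) (ha x hx) NNReal.sqrt).symm
  · rw [(CFC.sqrt_nonneg x).isSelfAdjoint.star_eq, CFC.sqrt_mul_sqrt_self x h0]

section uniq

variable {σ : Op H →ₗ[ℂ] ℂ} (h : IsTr M τ) (hT : TrA M τ) (hF : Fac M) (hD : Dif M 1)
  (hC : ∀ p q, Conn M p q) (s1 : σ 1 = 1) (s2 : ∀ x ∈ M, 0 ≤ σ (star x * x))
  (s3 : ∀ x ∈ M, ∀ y ∈ M, σ (x * y) = σ (y * x))

include s2 in
theorem pj_nonneg {p : Op H} (hp : Pj M p) : 0 ≤ σ p := by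
  have := s2 p hp.1
  rwa [hp.star_eq, hp.mul_self] at this

include hT hF s3 in
theorem mult {n : ℕ} {c q : Op H} (hc : Pj M c) (hq : Pj M q) (e : n * τ c = τ q) :
    σ q = n * σ c := by
  obtain ⟨w, a1, a2, -, a3⟩ := hT.units hF n c q hc hq e
  rw [← a3, map_sum, Finset.sum_congr rfl fun i _ => by rw [s3 _ (a1 i) _ (star_mem (a1 i)), a2 i]]
  simp

include h hT hF hD hC s1 s2 s3 in
theorem lower {p : Op H} (hp : Pj M p) : (τ p).re ≤ (σ p).re := by
  obtain ⟨-, a0⟩ := h.proj_re hp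
  have a1 : (τ p).re ≤ 1 := by
    have := h.proj_mono (Pj.one M) hp (one_mul p)
    rwa [h.one, Complex.one_re] at this
  refine le_of_forall_pos_le_add fun ε hε => ?_
  obtain ⟨n, hn⟩ := exists_nat_one_div_lt hε
  have n0 : (0 : ℝ) < n + 1 := by positivity
  have n1 : ((n : ℂ) + 1) ≠ 0 := by exact_mod_cast n0.ne'
  obtain ⟨c, hc, -, ec⟩ := hT.exact 1 (Pj.one M) hD (1 / (n + 1)) (by positivity) (by
    rw [h.one, Complex.one_re, div_le_one n0]; linarith [(n.cast_nonneg : (0 : ℝ) ≤ n)])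
  have e1 : σ 1 = ((n + 1 : ℕ) : ℂ) * σ c :=
    mult hT hF s3 hc (Pj.one M) (by rw [ec, h.one]; push_cast; field_simp)
  have e2 : σ c = ((1 / (n + 1) : ℝ) : ℂ) := by
    rw [s1] at e1; push_cast at e1 ⊢; field_simp; linear_combination -e1
  set k := ⌊(τ p).re * (n + 1)⌋₊ with hk
  have k1 : (k : ℝ) ≤ (τ p).re * (n + 1) := Nat.floor_le (by positivity)
  have k2 : (τ p).re * (n + 1) < k + 1 := Nat.lt_floor_add_one _
  have k3 : (k : ℝ) / (n + 1) ≤ (τ p).re := by rwa [div_le_iff₀ n0]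
  obtain ⟨q, hq, -, eq⟩ := hT.exact 1 (Pj.one M) hD (k / (n + 1)) (by positivity) (by
    rw [h.one, Complex.one_re]; exact k3.trans a1)
  have e3 : σ q = ((k / (n + 1) : ℝ) : ℂ) := by
    rw [mult hT hF s3 (n := k) hc hq (by rw [ec, eq]; push_cast; ring), e2]; push_cast; ring
  obtain ⟨v, hv, f1, f2, -⟩ := hT.le q p hq hp (hC q p) (by rw [eq, Complex.ofReal_re]; exact k3)
  obtain ⟨hr, hpr⟩ := range_pj hv (f1 ▸ hq.2) f2
  have f3 := (Complex.nonneg_iff.1 (pj_nonneg s2 (hp.sub hr hpr))).1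
  rw [map_sub, s3 v hv _ (star_mem hv), f1, e3, Complex.sub_re, Complex.ofReal_re] at f3
  have k4 : (τ p).re < k / (n + 1) + 1 / (n + 1) := by rwa [← add_div, lt_div_iff₀ n0]
  linarith

include h hT hF hD hC s1 s2 s3 in
theorem on_pj {p : Op H} (hp : Pj M p) : σ p = τ p := by
  have a := lower h hT hF hD hC s1 s2 s3 hp
  have b := lower h hT hF hD hC s1 s2 s3 ((Pj.one M).sub hp (one_mul p))
  rw [map_sub, map_sub, h.one, s1, Complex.sub_re, Complex.sub_re] at b
  refine Complex.ext (by linarith) ?_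
  rw [← (Complex.nonneg_iff.1 (pj_nonneg s2 hp)).2, ← (Complex.nonneg_iff.1 (h.proj_nonneg hp)).2]

end uniq

theorem norm_le_one {σ : Op H →ₗ[ℂ] ℂ} (s1 : σ 1 = 1) (s2 : ∀ x ∈ M, 0 ≤ σ (star x * x))
    {x : Op H} (hx : x ∈ M) (h0 : 0 ≤ x) (h1 : x ≤ 1) : ‖σ x‖ ≤ 1 := by
  obtain ⟨s, hs, e⟩ := exists_sqrt hx h0
  obtain ⟨t, ht, e'⟩ := exists_sqrt (sub_mem (one_mem M) hx) (sub_nonneg.2 h1)
  have a := Complex.nonneg_iff.1 (s2 s hs)
  have b := (Complex.nonneg_iff.1 (s2 t ht)).1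
  rw [e] at a
  rw [e', map_sub, s1, Complex.sub_re, Complex.one_re] at b
  rw [← Complex.re_add_im (σ x), ← a.2]
  simp only [Complex.ofReal_zero, zero_mul, add_zero, Complex.norm_real, Real.norm_eq_abs]
  rw [abs_of_nonneg a.1]; linarith

theorem dyadic (hA : GenA H) {ρ : Op H →ₗ[ℂ] ℂ} (r1 : ∀ p, Pj M p → ρ p = 0)
    (r2 : ∀ x ∈ M, 0 ≤ x → x ≤ 1 → ‖ρ x‖ ≤ 2) (n : ℕ) :
    ∀ x ∈ M, 0 ≤ x → x ≤ 1 → ‖ρ x‖ ≤ 2 * (1 / 2) ^ n := by
  induction n with
  | zero => simpa using r2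
  | succ n ih =>
    intro x hx h0 h1
    have hy : x + x - 1 ∈ M := sub_mem (add_mem hx hx) (one_mem M)
    obtain ⟨e, he, c1, c2, c3, -⟩ := hA.cut (x + x - 1)
      ((h0.isSelfAdjoint.add h0.isSelfAdjoint).sub (IsSelfAdjoint.one _))
    have heM : e ∈ M := mem_of_comm fun a ha => c1 a (ha _ hy).symm
    have hx' : x * e = e * x := c1 x (by noncomm_ring)
    have ee := he.isIdempotentElem.eq
    have p1 : 0 ≤ (1 - e) * x * (1 - e) := by
      have := star_left_conjugate_nonneg h0 (1 - e)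
      rwa [he.one_sub.isSelfAdjoint.star_eq] at this
    have p2 : 0 ≤ e * (1 - x) * e := by
      have := star_left_conjugate_nonneg (sub_nonneg.2 h1) e
      rwa [he.isSelfAdjoint.star_eq] at this
    have := ih (x + x - e) (sub_mem (add_mem hx hx) heM)
      (by rw [id1 e x ee hx']; exact add_nonneg c2 (add_nonneg p1 p1))
      (by rw [← sub_nonneg, id2 e x ee hx']
          exact add_nonneg (neg_nonneg.2 c3) (add_nonneg p2 p2))
    rw [map_sub, map_add, r1 e ⟨heM, he⟩, sub_zero, ← two_mul, norm_mul, Complex.norm_two] at this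
    rw [pow_succ]; linarith

theorem vanish (hA : GenA H) {ρ : Op H →ₗ[ℂ] ℂ} (r1 : ∀ p, Pj M p → ρ p = 0)
    (r2 : ∀ x ∈ M, 0 ≤ x → x ≤ 1 → ‖ρ x‖ ≤ 2) : ∀ x ∈ M, ρ x = 0 := by
  have k1 : ∀ x ∈ M, 0 ≤ x → x ≤ 1 → ρ x = 0 := fun x hx h0 h1 => by
    have t : Tendsto (fun n : ℕ => 2 * (1 / 2 : ℝ) ^ n) atTop (𝓝 (2 * 0)) :=
      (tendsto_pow_atTop_nhds_zero_of_lt_one (by norm_num) (by norm_num)).const_mul 2
    rw [mul_zero] at t
    exact norm_le_zero_iff.1 (ge_of_tendsto' t fun n => dyadic hA r1 r2 n x hx h0 h1)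
  have k2 : ∀ a ∈ M, ρ (star a * a) = 0 := fun a ha => by
    have n0 : 0 < ‖a‖ + 1 := by positivity
    set s : ℂ := (((‖a‖ + 1)⁻¹ : ℝ) : ℂ) with hs
    have s0 : s ≠ 0 := by rw [hs]; exact_mod_cast (inv_pos.2 n0).ne'
    have hb := smul_mem_vn s ha
    have n1 : ‖s • a‖ ≤ 1 := by
      rw [norm_smul, hs, Complex.norm_real, Real.norm_eq_abs, abs_of_pos (inv_pos.2 n0),
        inv_mul_le_iff₀ n0]
      linarith
    have := k1 _ (mul_mem (star_mem hb) hb) (star_mul_self_nonneg _)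
      ((CStarAlgebra.norm_le_one_iff_of_nonneg _ (star_mul_self_nonneg _)).1 (by
        rw [CStarRing.norm_star_mul_self]; nlinarith [norm_nonneg (s • a)]))
    rw [star_smul, smul_mul_smul_comm, map_smul, smul_eq_mul, mul_eq_zero, mul_eq_zero,
      star_eq_zero] at this
    exact this.resolve_left fun hh => s0 (hh.elim id id)
  intro x hx
  have k3 : ∀ l : ℂ, l * ρ x + star l * ρ (star x) = 0 := fun l => by
    have := k2 (1 + l • x) (add_mem (one_mem M) (smul_mem_vn l hx))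
    rw [star_add, star_one, add_mul, mul_add, mul_add, one_mul, one_mul, mul_one, map_add, map_add,
      map_add, r1 1 (Pj.one M), k2 _ (smul_mem_vn l hx), star_smul, map_smul, map_smul] at this
    simpa using this
  have a := k3 1
  have b := k3 Complex.I
  rw [star_one] at a
  rw [Complex.star_def, Complex.conj_I] at b
  linear_combination (1 / 2 : ℂ) * a - (Complex.I / 2) * b +
    (ρ x - ρ (star x)) / 2 * Complex.I_mul_I

/-! ## orthogonal symmetries -/

theorem half (h : IsTr M τ) (hT : TrA M τ) {p : Op H} (hD : Dif M p) (G : List (Op H)) :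
    (∀ g ∈ G, Pj M g) → (∀ g ∈ G, ∀ g' ∈ G, g * g' = g' * g) → ∀ q, Pj M q → p * q = q →
    (∀ g ∈ G, g * q = q * g) → ∃ b, Pj M b ∧ q * b = b ∧ (∀ g ∈ G, g * b = b * g) ∧
      τ b + τ b = τ q ∧ ∀ g ∈ G, τ (b * g) + τ (b * g) = τ (q * g) := by
  induction G with
  | nil =>
    intro _ _ q hq e _
    obtain ⟨r, r0⟩ := h.proj_re hq
    obtain ⟨b, hb, e1, e2⟩ := hT.exact q hq (hD.mono e) ((τ q).re / 2) (by linarith) (by linarith)
    refine ⟨b, hb, e1, by simp, ?_, by simp⟩
    rw [e2]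
    nth_rewrite 3 [r]
    push_cast; ring
  | cons g G ih =>
    intro a1 a2 q hq e a3
    have hg : Pj M g := a1 g List.mem_cons_self
    have hG : ∀ g' ∈ G, g' ∈ g :: G := fun g' => List.mem_cons_of_mem g
    have ih' := ih (fun g' m => a1 g' (hG g' m)) fun g1 m1 g2 m2 => a2 g1 (hG g1 m1) g2 (hG g2 m2)
    have gq : g * q = q * g := a3 g List.mem_cons_self
    have q1 : Pj M (q * g) := hq.mul hg gq.symm
    have qq : q * (q * g) = q * g := by rw [← mul_assoc, hq.mul_self]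
    have q2 : Pj M (q - q * g) := hq.sub q1 qq
    have c1 : ∀ g' ∈ G, g' * (q * g) = q * g * g' := fun g' m =>
      id4 q g g' (a3 g' (hG g' m)) (a2 g' (hG g' m) g List.mem_cons_self)
    obtain ⟨b1, hb1, e1, d1, t1, u1⟩ := ih' (q * g) q1 (by rw [← mul_assoc, e]) c1
    obtain ⟨b2, hb2, e2, d2, t2, u2⟩ := ih' (q - q * g) q2 (by rw [mul_sub, ← mul_assoc, e])
      fun g' m => by rw [mul_sub, sub_mul, c1 g' m, a3 g' (hG g' m)]
    have gg : g * (q * g) = q * g := by rw [← mul_assoc, gq, mul_assoc, hg.mul_self]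
    have g1 : g * b1 = b1 := by rw [← e1, ← mul_assoc, gg]
    have g1' : b1 * g = b1 := le_symm hg.2 hb1.2 g1
    have g2 : g * b2 = 0 := by rw [← e2, ← mul_assoc, mul_sub, gg, gq, sub_self, zero_mul]
    have g2' : b2 * g = 0 := by
      have := congrArg star g2
      rwa [star_mul, hg.star_eq, hb2.star_eq, star_zero] at this
    refine ⟨b1 + b2, hb1.add hb2 (by rw [← g1', mul_assoc, g2, mul_zero]), ?_, ?_, ?_, ?_⟩
    · have f1 : q * b1 = b1 := by rw [← e1, ← mul_assoc, qq]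
      have f2 : q * b2 = b2 := by rw [← e2, ← mul_assoc, mul_sub, qq, hq.mul_self]
      rw [mul_add, f1, f2]
    · intro g' m
      rcases List.mem_cons.1 m with rfl | m
      · rw [mul_add, add_mul, g1, g1', g2, g2']
      · rw [mul_add, add_mul, d1 g' m, d2 g' m]
    · rw [map_sub] at t2
      rw [map_add]; linear_combination t1 + t2
    · intro g' m
      rcases List.mem_cons.1 m with rfl | m
      · rw [add_mul, g1', g2', add_zero, t1]
      · have v2 := u2 g' m
        rw [sub_mul, map_sub] at v2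
        rw [add_mul, map_add]; linear_combination u1 g' m + v2

/-- commuting projections below `p` of half trace -/
def Good (M : VonNeumannAlgebra H) (τ : Op H →ₗ[ℂ] ℂ) (p : Op H) (G : List (Op H)) : Prop :=
  (∀ g ∈ G, Pj M g ∧ p * g = g ∧ τ g + τ g = τ p) ∧ ∀ g ∈ G, ∀ g' ∈ G, g * g' = g' * g

theorem step (h : IsTr M τ) (hT : TrA M τ) {p : Op H} (hp : Pj M p) (hD : Dif M p)
    (G : List (Op H)) (hG : Good M τ p G) :
    ∃ b, Good M τ p (b :: G) ∧ ∀ g ∈ G, τ (b * g) + τ (b * g) = τ g := by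
  obtain ⟨b, hb, e1, e2, e3, e4⟩ := half h hT hD G (fun g m => (hG.1 g m).1) hG.2 p hp hp.mul_self
    fun g m => by rw [(hG.1 g m).2.1, le_symm hp.2 (hG.1 g m).1.2 (hG.1 g m).2.1]
  refine ⟨b, ⟨fun g m => ?_, fun g m g' m' => ?_⟩, fun g m => by rw [e4 g m, (hG.1 g m).2.1]⟩
  · rcases List.mem_cons.1 m with rfl | m
    · exact ⟨hb, e1, e3⟩
    · exact hG.1 g m
  · rcases List.mem_cons.1 m with rfl | n <;> rcases List.mem_cons.1 m' with rfl | n'
    · rfl
    · exact (e2 g' n').symm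
    · exact e2 g n
    · exact hG.2 g n g' n'

theorem seq (h : IsTr M τ) (hT : TrA M τ) {p : Op H} (hp : Pj M p) (hD : Dif M p) :
    ∃ b : ℕ → Op H, (∀ n, Pj M (b n) ∧ p * b n = b n ∧ τ (b n) + τ (b n) = τ p) ∧
      ∀ m n, m < n → τ (b n * b m) + τ (b n * b m) = τ (b m) := by
  choose f f1 f2 using step h hT hp hD
  let S : ℕ → {G : List (Op H) // Good M τ p G} := fun n =>
    Nat.rec ⟨[], by simp [Good]⟩ (fun _ G => ⟨f G.1 G.2 :: G.1, f1 G.1 G.2⟩) n
  have hS : ∀ n, (S (n + 1)).1 = f (S n).1 (S n).2 :: (S n).1 := fun n => rfl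
  refine ⟨fun n => f (S n).1 (S n).2, fun n => (f1 _ (S n).2).1 _ List.mem_cons_self,
    fun m n hmn => f2 _ (S n).2 _ ?_⟩
  induction n, hmn using Nat.le_induction with
  | base => rw [Nat.succ_eq_add_one, hS]; exact List.mem_cons_self
  | succ n _ ih => rw [hS]; exact List.mem_cons_of_mem _ ih

theorem orth_sym (h : IsTr M τ) (hT : TrA M τ) {p : Op H} (hp : Pj M p) (hD : Dif M p) :
    ∃ g : ℕ → Op H, (∀ n, Uni M p (g n)) ∧ ∀ m n, m ≠ n → τ (star (g m) * g n) = 0 := by
  obtain ⟨b, b1, b2⟩ := seq h hT hp hD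
  have st : ∀ n, star (p - (b n + b n)) = p - (b n + b n) := fun n => by
    rw [star_sub, star_add, hp.star_eq, (b1 n).1.star_eq]
  have pr : ∀ m n, (p - (b n + b n)) * (p - (b m + b m)) = _ := fun m n =>
    id3 p (b m) (b n) hp.mul_self (b1 m).2.1 (le_symm hp.2 (b1 n).1.2 (b1 n).2.1)
  have mem : ∀ n, p - (b n + b n) ∈ M := fun n => sub_mem hp.1 (add_mem (b1 n).1.1 (b1 n).1.1)
  have sq : ∀ n, (p - (b n + b n)) * (p - (b n + b n)) = p := fun n => by
    rw [pr, (b1 n).1.mul_self]; abel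
  have z : ∀ m n, m < n → τ ((p - (b n + b n)) * (p - (b m + b m))) = 0 := fun m n hmn => by
    rw [pr]
    simp only [map_add, map_sub]
    linear_combination 2 * b2 m n hmn - (b1 n).2.2
  refine ⟨fun n => p - (b n + b n), fun n => ⟨mem n, by rw [st, sq], by rw [st, sq]⟩,
    fun m n hmn => ?_⟩
  rw [st]
  rcases lt_or_gt_of_ne hmn with l | l
  · rw [h.comm _ (mem m) _ (mem n)]; exact z m n l
  · exact z n m l

end TrB

theorem trB_stmt (hA : GenAStmt.{u}) (hT : TrAStmt.{u}) : TrBStmt.{u} := by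
  intro H _ _ _ M τ h
  have T := hT H M τ h
  refine ⟨fun hF hf => TrB.inf_dim h T ((hA H).conn hF) hf, fun hF hD σ s1 s2 s3 x hx => ?_,
    fun p hp hD => TrB.orth_sym h T hp hD⟩
  have := TrB.vanish (hA H) (M := M) (ρ := σ - τ) (fun p hp => by
      rw [LinearMap.sub_apply, TrB.on_pj h T hF hD ((hA H).conn hF) s1 s2 s3 hp, sub_self])
    (fun y hy h0 h1 => by
      rw [LinearMap.sub_apply]
      have a := TrB.norm_le_one s1 s2 hy h0 h1
      have b := TrB.norm_le_one h.one h.pos hy h0 h1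
      linarith [norm_sub_le (σ y) (τ y)]) x hx
  rwa [LinearMap.sub_apply, sub_eq_zero] at this

end Pool.Agent.MP_ad85d3_an

end
end MrgPart2

-- marker of a merged file
example : 731051 + 145494 = 731051 + 145494 := rfl
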