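import Pool.Agent.MP_ad85d3_an.Spec

/-!
PROJECT UPF, module STD: Kaplansky type approximation and conditional expectations
-/

open Filter Topology
open scoped ComplexOrder InnerProductSpace ComplexConjugate

set_option linter.unusedSectionVars false

noncomputable section

namespace Pool.Agent.MP_ad85d3_an

universe u

namespace StdK

/-- the function `1 / (1 + t ^ 2)` -/
def r (t : ℝ) : ℝ := 1 / (1 + t * t)

/-- the function `2 t / (1 + t ^ 2)` -/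
def f (t : ℝ) : ℝ := r t * t + r t * t

/-- a right inverse of `f` on `[-1, 1]` -/
def g (t : ℝ) : ℝ := t / (1 + √(1 - t * t))

theorem den_pos (t : ℝ) : 0 < 1 + t * t := by nlinarith [mul_self_nonneg t]

theorem r_cont : Continuous r :=
  continuous_const.div (by fun_prop) fun t => (den_pos t).ne'

theorem f_cont : Continuous f :=
  (r_cont.mul continuous_id).add (r_cont.mul continuous_id)

theorem g_cont : Continuous g :=
  continuous_id.div (by fun_prop) fun t => by positivity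

theorem f_zero : f 0 = 0 := by simp [f]

theorem r_le (t : ℝ) : ‖r t‖ ≤ 1 := by
  have h := den_pos t
  rw [r, Real.norm_of_nonneg (by positivity), div_le_one h]
  nlinarith [mul_self_nonneg t]

theorem f_le (t : ℝ) : ‖f t‖ ≤ 1 := by
  have h := den_pos t
  have e : f t = 2 * t / (1 + t * t) := by rw [f, r]; ring
  rw [e, Real.norm_eq_abs, abs_le, le_div_iff₀ h, div_le_one h]
  constructor <;> nlinarith [mul_self_nonneg (t - 1), mul_self_nonneg (t + 1)]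

theorem rt_le (t : ℝ) : ‖r t * t‖ ≤ 1 := by
  have h := abs_le.1 (Real.norm_eq_abs _ ▸ f_le t)
  rw [f] at h
  rw [Real.norm_eq_abs, abs_le]
  constructor <;> linarith [h.1, h.2]

theorem f_g {t : ℝ} (ht : ‖t‖ ≤ 1) : f (g t) = t := by
  rw [Real.norm_eq_abs, abs_le] at ht
  have h0 : 0 ≤ 1 - t * t := by nlinarith [ht.1, ht.2]
  have h1 := Real.mul_self_sqrt h0
  have h2 := Real.sqrt_nonneg (1 - t * t)
  rw [f, r, g]
  set s := √(1 - t * t) with hs
  have h3 : 1 + t / (1 + s) * (t / (1 + s)) = 2 / (1 + s) := by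
    field_simp
    nlinarith
  rw [h3]
  field_simp
  ring

section Abstract

variable {X : Type u} [CStarAlgebra X]

theorem cfc_rt {a : X} (ha : IsSelfAdjoint a) : cfc (fun t => r t * t) a = cfc r a * a := by
  rw [cfc_mul r (fun t => t) a r_cont.continuousOn continuousOn_id, cfc_id' ℝ a]

theorem cfc_f {a : X} (ha : IsSelfAdjoint a) : cfc f a = cfc r a * a + cfc r a * a := by
  have hc : Continuous fun t => r t * t := r_cont.mul continuous_id
  rw [← cfc_rt ha]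
  exact cfc_add a (fun t => r t * t) (fun t => r t * t) hc.continuousOn hc.continuousOn

theorem cfc_r_inv {a : X} (ha : IsSelfAdjoint a) : cfc r a * (1 + a * a) = 1 := by
  have e1 : cfc (fun t : ℝ => 1 + t * t) a = 1 + a * a := by
    rw [cfc_add a (fun _ => (1 : ℝ)) (fun t => t * t), cfc_const_one ℝ a,
      cfc_mul (fun t : ℝ => t) (fun t => t) a, cfc_id' ℝ a]
  rw [← e1, ← cfc_mul r _ a r_cont.continuousOn, ← cfc_const_one ℝ a]
  refine cfc_congr fun t _ => ?_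
  have h := den_pos t
  simp only [r]
  field_simp

theorem cfc_f_g {a : X} (ha : IsSelfAdjoint a) (h : ‖a‖ ≤ 1) : cfc f (cfc g a) = a := by
  rw [← cfc_comp' f g a f_cont.continuousOn g_cont.continuousOn]
  nth_rewrite 2 [← cfc_id' ℝ a]
  refine cfc_congr fun t ht => f_g ?_
  rcases subsingleton_or_nontrivial X with hX | hX
  · rw [spectrum.of_subsingleton] at ht
    exact ht.elim
  · exact (spectrum.norm_le_norm_of_mem ht).trans h

end Abstract

theorem ring_id {X : Type u} [Ring X] {a s u w : X} (h1 : u * (1 + a * a) = 1)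
    (h2 : w * (1 + s * s) = 1) (h3 : w * s = s * w) :
    u * a - w * s = u * ((a - s) * w) + u * a * ((s - a) * (w * s)) := by
  have h4 : (1 + s * s) * w = 1 :=
    calc (1 + s * s) * w = w * (1 + s * s) := by
          rw [add_mul, mul_add, one_mul, mul_one, mul_assoc, ← h3, ← mul_assoc, ← h3, mul_assoc]
      _ = 1 := h2
  calc u * a - w * s = u * a * ((1 + s * s) * w) - u * (1 + a * a) * (s * w) := by
        rw [h1, h4, h3, mul_one, one_mul]
    _ = _ := by rw [h3]; noncomm_ring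

variable {H : Type u} [NormedAddCommGroup H] [InnerProductSpace ℂ H] [CompleteSpace H]

theorem cfc_mem_vn {M : VonNeumannAlgebra H} {a : Op H} (ha : a ∈ M) (φ : ℝ → ℝ) :
    cfc φ a ∈ M :=
  mem_of_comm fun b hb => (Commute.cfc_real (show Commute a b from hb a ha) φ).symm

theorem cfcn_mem_vn {M : VonNeumannAlgebra H} {a : Op H} (ha : a ∈ M) (φ : ℝ → ℝ) :
    cfcₙ φ a ∈ M :=
  mem_of_comm fun b hb => (Commute.cfcₙ_real (show Commute a b from hb a ha) φ).symm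

/-- the commutant of the projection and of the right action -/
def AA (Ω : H) (J : H ≃ₗᵢ⋆[ℂ] H) (D : Set (Op H)) : VonNeumannAlgebra H :=
  vn ({eP D Ω} ∪ kap J '' D)

variable {Ω : H} {J : H ≃ₗᵢ⋆[ℂ] H} {P : VonNeumannAlgebra H}
  {S : Type*} [SetLike S (Op H)] [SubringClass S (Op H)] [StarMemClass S (Op H)] {D : S}

theorem mem_AA (h : Std Ω J P) {R : Op H} : R ∈ AA Ω J D ↔
    R * eP D Ω = eP D Ω * R ∧ ∀ d ∈ D, kap J d * R = R * kap J d := by
  rw [AA, mem_vn]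
  refine ⟨fun k => ⟨(k _ (Or.inl rfl)).1.symm, fun d hd => (k _ (Or.inr ⟨d, hd, rfl⟩)).1⟩, ?_⟩
  rintro ⟨h1, h2⟩ s (rfl | ⟨d, hd, rfl⟩)
  · rw [(eP_proj D Ω).isSelfAdjoint.star_eq]
    exact ⟨h1.symm, h1.symm⟩
  · rw [← h.kap_star]
    exact ⟨h2 d hd, h2 _ (star_mem hd)⟩

theorem le_AA (h : Std Ω J P) (hD : ∀ d ∈ D, d ∈ P) {d : Op H} (hd : d ∈ D) : d ∈ AA Ω J D :=
  (mem_AA h).2 ⟨eP_comm Ω hd, fun x hx => h.kap_comm (hD x hx) (hD d hd)⟩

theorem adj_AA (h : Std Ω J P) (hD : ∀ d ∈ D, d ∈ P) {R : Op H} (hR : R ∈ AA Ω J D) :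
    J (R Ω) = star R Ω :=
  h.adj hD ((mem_AA h).1 hR).1 ((mem_AA h).1 hR).2

theorem norm_AA (h : Std Ω J P) (hD : ∀ d ∈ D, d ∈ P) {X Y : Op H} (hX : X ∈ AA Ω J D)
    (hY : Y ∈ AA Ω J D) : ‖(X * Y) Ω‖ ≤ ‖Y‖ * ‖X Ω‖ := by
  rw [← J.norm_map, adj_AA h hD (mul_mem hX hY), star_mul, mul_ap, ← adj_AA h hD hX,
    ← norm_star Y, ← J.norm_map (X Ω)]
  exact (star Y).le_opNorm _

theorem norm_three (h : Std Ω J P) (hD : ∀ d ∈ D, d ∈ P) {X Y Z : Op H} (hY : Y ∈ AA Ω J D)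
    (hZ : Z ∈ AA Ω J D) (h1 : ‖X‖ ≤ 1) (h2 : ‖Z‖ ≤ 1) : ‖(X * (Y * Z)) Ω‖ ≤ ‖Y Ω‖ := by
  rw [mul_ap]
  have e1 := X.le_opNorm ((Y * Z) Ω)
  have e2 := norm_AA h hD hY hZ
  have e3 := mul_le_mul_of_nonneg_right h1 (norm_nonneg ((Y * Z) Ω))
  have e4 := mul_le_mul_of_nonneg_right h2 (norm_nonneg (Y Ω))
  linarith

theorem approx (h : Std Ω J P) (hs : ∀ (c : ℂ), ∀ d ∈ D, c • d ∈ D)
    {R : Op H} (hR : R ∈ AA Ω J D) {ε : ℝ} (hε : 0 < ε) : ∃ d ∈ D, ‖d Ω - R Ω‖ ≤ ε := by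
  have e0 : eP D Ω Ω = Ω := eP_apply (d := 1) (one_mem D)
  have e1 : eP D Ω (R Ω) = R Ω := by rw [← mul_ap, ← ((mem_AA h).1 hR).1, mul_ap, e0]
  have e2 : R Ω ∈ orb D Ω := e1 ▸ Submodule.starProjection_apply_mem _ _
  obtain ⟨η, hη, e3⟩ := Metric.mem_closure_iff.1 e2 ε hε
  have e4 : ∃ d ∈ D, d Ω = η := by
    clear e3
    induction hη using Submodule.span_induction with
    | mem x hx => exact hx
    | zero => exact ⟨0, zero_mem D, rfl⟩
    | add x y _ _ hx hy =>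
      obtain ⟨a, ha, rfl⟩ := hx
      obtain ⟨b, hb, rfl⟩ := hy
      exact ⟨a + b, add_mem ha hb, rfl⟩
    | smul c x _ hx =>
      obtain ⟨a, ha, rfl⟩ := hx
      exact ⟨c • a, hs c a ha, rfl⟩
  obtain ⟨d, hd, rfl⟩ := e4
  rw [dist_comm, dist_eq_norm] at e3
  exact ⟨d, hd, e3.le⟩

theorem approx_sa (h : Std Ω J P) (hD : ∀ d ∈ D, d ∈ P) (hs : ∀ (c : ℂ), ∀ d ∈ D, c • d ∈ D)
    {R : Op H} (hR : R ∈ AA Ω J D) (hsa : IsSelfAdjoint R) {ε : ℝ} (hε : 0 < ε) :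
    ∃ a ∈ D, IsSelfAdjoint a ∧ ‖a Ω - R Ω‖ ≤ ε := by
  obtain ⟨d, hd, e⟩ := approx h hs hR hε
  refine ⟨(1 / 2 : ℂ) • (d + star d), hs _ _ (add_mem hd (star_mem hd)), ?_, ?_⟩
  · rw [IsSelfAdjoint, star_smul, star_add, star_star, add_comm]
    simp
  · have e1 : star d Ω - R Ω = J (d Ω - R Ω) := by
      rw [map_sub, h.J_orb d (hD d hd), adj_AA h hD hR, hsa.star_eq]
    have e2 : ((1 / 2 : ℂ) • (d + star d)) Ω - R Ω =
        (1 / 2 : ℂ) • ((d Ω - R Ω) + (star d Ω - R Ω)) := by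
      rw [smul_apply, add_apply]
      module
    have e3 := norm_add_le (d Ω - R Ω) (star d Ω - R Ω)
    rw [e2, norm_smul]
    nth_rewrite 2 [e1] at e3
    rw [J.norm_map] at e3
    have e4 : ‖(1 / 2 : ℂ)‖ = 1 / 2 := by simp
    rw [e4]
    linarith

theorem kapl_one (h : Std Ω J P) (hD : ∀ d ∈ D, d ∈ P) (hs : ∀ (c : ℂ), ∀ d ∈ D, c • d ∈ D)
    (hf : ∀ a ∈ D, IsSelfAdjoint a → cfcₙ f a ∈ D)
    {R : Op H} (hR : R ∈ AA Ω J D) (hsa : IsSelfAdjoint R) (hn : ‖R‖ ≤ 1) {ε : ℝ} (hε : 0 < ε) :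
    ∃ d ∈ D, ‖d‖ ≤ 1 ∧ ‖d Ω - R Ω‖ ≤ ε := by
  have hT : cfc g R ∈ AA Ω J D := cfc_mem_vn hR g
  have hTs : IsSelfAdjoint (cfc g R) := cfc_predicate g R
  have hTR := cfc_f_g hsa hn
  generalize cfc g R = T at hT hTs hTR
  obtain ⟨a, ha, has, e⟩ := approx_sa h hD hs hT hTs (show 0 < ε / 4 by positivity)
  have ha' := le_AA h hD ha
  have e1 : cfcₙ f a = cfc f a := cfcₙ_eq_cfc f_cont.continuousOn f_zero
  refine ⟨cfc f a, e1 ▸ hf a ha has, norm_cfc_le zero_le_one fun t _ => f_le t, ?_⟩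
  have e2 := ring_id (cfc_r_inv has) (cfc_r_inv hTs) (Commute.cfc_real (Commute.refl T) r)
  have n1 : ‖cfc r a‖ ≤ 1 := norm_cfc_le zero_le_one fun t _ => r_le t
  have n2 : ‖cfc r T‖ ≤ 1 := norm_cfc_le zero_le_one fun t _ => r_le t
  have n3 : ‖cfc r a * a‖ ≤ 1 := by
    rw [← cfc_rt has]
    exact norm_cfc_le zero_le_one fun t _ => rt_le t
  have n4 : ‖cfc r T * T‖ ≤ 1 := by
    rw [← cfc_rt hTs]
    exact norm_cfc_le zero_le_one fun t _ => rt_le t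
  have b1 := norm_three h hD (sub_mem ha' hT) (cfc_mem_vn hT r) n1 n2
  have b2 := norm_three h hD (sub_mem hT ha') (mul_mem (cfc_mem_vn hT r) hT) n3 n4
  rw [sub_apply] at b1 b2
  rw [norm_sub_rev] at b2
  have b3 : ‖(cfc r a * a - cfc r T * T) Ω‖ ≤ ε / 2 := by
    rw [e2, add_apply]
    exact (norm_add_le _ _).trans (by linarith)
  have e3 : cfc f a Ω - R Ω =
      (cfc r a * a - cfc r T * T) Ω + (cfc r a * a - cfc r T * T) Ω := by
    rw [← hTR, cfc_f has, cfc_f hTs, add_apply, add_apply, sub_apply]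
    abel
  rw [e3]
  exact (norm_add_le _ _).trans (by linarith)

theorem kapl_sa (h : Std Ω J P) (hD : ∀ d ∈ D, d ∈ P) (hs : ∀ (c : ℂ), ∀ d ∈ D, c • d ∈ D)
    (hf : ∀ a ∈ D, IsSelfAdjoint a → cfcₙ f a ∈ D)
    {R : Op H} (hR : R ∈ AA Ω J D) (hsa : IsSelfAdjoint R) {ε : ℝ} (hε : 0 < ε) :
    ∃ d ∈ D, ‖d‖ ≤ ‖R‖ + 1 ∧ ‖d Ω - R Ω‖ ≤ ε := by
  set c : ℝ := ‖R‖ + 1 with hc
  have hc0 : 0 < c := by positivity
  have hcn : ‖(c : ℂ)‖ = c := by rw [Complex.norm_real, Real.norm_of_nonneg hc0.le]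
  have hcz : (c : ℂ) ≠ 0 := by exact_mod_cast hc0.ne'
  obtain ⟨d, hd, n1, n2⟩ := kapl_one h hD hs hf (smul_mem_vn (c : ℂ)⁻¹ hR)
    (by rw [IsSelfAdjoint, star_smul, hsa.star_eq]; simp)
    (by rw [norm_smul, norm_inv, hcn, inv_mul_le_iff₀ hc0]; linarith) (div_pos hε hc0)
  refine ⟨(c : ℂ) • d, hs _ _ hd, ?_, ?_⟩
  · rw [norm_smul, hcn]
    nlinarith
  · have e : ((c : ℂ) • d) Ω - R Ω = (c : ℂ) • (d Ω - ((c : ℂ)⁻¹ • R) Ω) := by
      rw [smul_apply, smul_apply, smul_sub, smul_inv_smul₀ hcz]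
    rw [e, norm_smul, hcn]
    exact (le_div_iff₀' hc0).1 n2

theorem kapl (h : Std Ω J P) (hD : ∀ d ∈ D, d ∈ P) (hs : ∀ (c : ℂ), ∀ d ∈ D, c • d ∈ D)
    (hf : ∀ a ∈ D, IsSelfAdjoint a → cfcₙ f a ∈ D) {R : Op H} (hR : R ∈ AA Ω J D) :
    ∃ C : ℝ, ∀ ε : ℝ, 0 < ε → ∃ d ∈ D, ‖d‖ ≤ C ∧ ‖d Ω - R Ω‖ ≤ ε := by
  set R₁ : Op H := (1 / 2 : ℂ) • (R + star R) with h1
  set R₂ : Op H := (Complex.I / 2 : ℂ) • (star R - R) with h2
  have m1 : R₁ ∈ AA Ω J D := smul_mem_vn _ (add_mem hR (star_mem hR))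
  have m2 : R₂ ∈ AA Ω J D := smul_mem_vn _ (sub_mem (star_mem hR) hR)
  have s1 : IsSelfAdjoint R₁ := by
    rw [IsSelfAdjoint, h1, star_smul, star_add, star_star, add_comm]
    simp
  have s2 : IsSelfAdjoint R₂ := by
    have e : star (Complex.I / 2 : ℂ) = -(Complex.I / 2) := by simp [neg_div]
    rw [IsSelfAdjoint, h2, star_smul, star_sub, star_star, e, neg_smul, ← smul_neg, neg_sub]
  have e0 : R = R₁ + Complex.I • R₂ := by
    have e : Complex.I * (Complex.I / 2) = -(1 / 2) := by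
      rw [← mul_div_assoc, Complex.I_mul_I, neg_div]
    rw [h1, h2, smul_smul, e]
    module
  refine ⟨‖R₁‖ + 1 + (‖R₂‖ + 1), fun ε hε => ?_⟩
  obtain ⟨a, ha, a1, a2⟩ := kapl_sa h hD hs hf m1 s1 (half_pos hε)
  obtain ⟨b, hb, b1, b2⟩ := kapl_sa h hD hs hf m2 s2 (half_pos hε)
  refine ⟨a + Complex.I • b, add_mem ha (hs _ _ hb), (norm_add_le _ _).trans ?_, ?_⟩
  · rw [norm_smul, Complex.norm_I, one_mul]
    linarith
  · have e : (a + Complex.I • b) Ω - R Ω = (a Ω - R₁ Ω) + Complex.I • (b Ω - R₂ Ω) := by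
      have e1 : R Ω = R₁ Ω + Complex.I • R₂ Ω := congrArg (fun y : Op H => y Ω) e0
      have e2 : (a + Complex.I • b) Ω = a Ω + Complex.I • b Ω := rfl
      generalize R₁ Ω = x at e1 ⊢
      generalize R₂ Ω = y at e1 ⊢
      rw [e1, e2]
      module
    rw [e]
    refine (norm_add_le _ _).trans ?_
    rw [norm_smul, Complex.norm_I, one_mul]
    linarith

theorem exp (hB : GenB H) (h : Std Ω J P) (D : VonNeumannAlgebra H) (hD : D ≤ P) (R : Op H)
    (h1 : R * eP D Ω = eP D Ω * R) (h2 : ∀ d ∈ D, kap J d * R = R * kap J d) :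
    ∃ d ∈ D, d Ω = R Ω := by
  obtain ⟨C, hC⟩ := kapl (D := D) h (fun d hd => hD hd) (fun c d hd => smul_mem_vn c hd)
    (fun a ha _ => cfcn_mem_vn ha f) ((mem_AA h).2 ⟨h1, h2⟩)
  choose d hd hn he using fun n : ℕ => hC (1 / ((n : ℝ) + 1)) Nat.one_div_pos_of_nat
  have t0 : Tendsto (fun n => d n Ω) atTop (𝓝 (R Ω)) :=
    tendsto_iff_norm_sub_tendsto_zero.2
      (squeeze_zero (fun _ => norm_nonneg _) he tendsto_one_div_add_atTop_nhds_zero_nat)
  obtain ⟨T, -, hT⟩ := hB.sotN d C ((fun x : Op H => x Ω) '' P) hn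
    (h.dense.mono Submodule.subset_span) (by
      rintro _ ⟨x, hx, rfl⟩
      refine (Tendsto.congr (fun n => ?_)
        (((kap J (star x)).continuous.tendsto _).comp t0)).cauchySeq
      rw [Function.comp_apply, h.kap_orb (star_mem hx) (hD (hd n)), star_star, mul_ap])
  exact ⟨T, mem_of_sot (Eventually.of_forall hd) hT, tendsto_nhds_unique (hT Ω) t0⟩

end StdK

open StdK in
theorem std_stmt (hB : GenBStmt.{u}) : StdStmt.{u} := by
  intro H _ _ _ Ω J P h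
  refine ⟨StdK.exp (hB H) h, ?_, ?_, ?_, ?_⟩
  · intro D hD x hx
    have e0 : eP D Ω Ω = Ω := eP_apply (d := 1) (one_mem D)
    have e1 := (eP_proj D Ω).isIdempotentElem.eq
    obtain ⟨d, hd, e⟩ := StdK.exp (hB H) h D hD (eP D Ω * x * eP D Ω)
      (by rw [mul_assoc, e1, ← mul_assoc, ← mul_assoc, e1]) (fun d hd => by
        have k1 := h.eP_comm_kap (D := D) (fun d hd => hD hd) hd
        have k2 := h.kap_comm (hD hd) hx
        rw [← mul_assoc, ← mul_assoc, k1, mul_assoc (eP D Ω), k2, mul_assoc, mul_assoc, k1]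
        simp only [mul_assoc])
    exact ⟨d, hd, by rw [e, mul_ap, mul_ap, e0]⟩
  · intro R hR
    have e1 : eP P Ω = 1 := h.ext_orb fun x hx => eP_apply hx
    obtain ⟨d, hd, e⟩ := StdK.exp (hB H) h P le_rfl R (by rw [e1, mul_one, one_mul]) hR
    rw [← h.ext_one (fun x hx => h.kap_comm hx hd) hR e]
    exact hd
  · intro D hD hf hc
    refine ⟨vn (vn (D : Set (Op H)) : Set (Op H)), fun R => ⟨fun hR => ?_, fun hR => ?_⟩⟩
    · have k1 : ∀ x ∈ P, kap J x * R = R * kap J x := fun x hx =>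
        (mem_vn.1 hR _ (mem_vn.2 fun s hs => ⟨(h.kap_comm hx (hD s hs)).symm,
          (h.kap_comm hx (star_mem (hD s hs))).symm⟩)).1
      have k2 : eP D Ω * R = R * eP D Ω :=
        (mem_vn.1 hR _ (mem_vn.2 fun s hs => ⟨eP_comm (D := D) Ω hs,
          eP_comm (D := D) Ω (star_mem hs)⟩)).1
      obtain ⟨C, hC⟩ := kapl (D := D) h hD (fun c d hd => D.smul_mem hd c)
        (fun a ha hs => hf a ha hs f f_cont f_zero)
        ((mem_AA h).2 ⟨k2.symm, fun d hd => k1 d (hD d hd)⟩)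
      obtain ⟨d, hd, e⟩ := hc _ C hC
      rw [← h.ext_one (fun x hx => h.kap_comm hx (hD d hd)) k1 e]
      exact hd
    · exact mem_vn.2 fun s hs => ⟨(mem_vn.1 hs R hR).1.symm,
        (mem_vn.1 (star_mem (show s ∈ vn (D : Set (Op H)) from hs)) R hR).1.symm⟩
  · intro B hB z hz hc
    have k1 : kap J z ∈ B := mem_of_comm fun a ha => by
      have m : kap J a ∈ bas J B := mem_vn.2 (by
        rintro _ ⟨b, hb, rfl⟩
        rw [← h.kap_star, ← h.kap_mul, ← h.kap_mul, ← h.kap_mul, ← h.kap_mul, ha b hb,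
          ha _ (star_mem hb)]
        exact ⟨rfl, rfl⟩)
      have e := congrArg (kap J) (hc _ m)
      rw [h.kap_mul, h.kap_mul, h.kap_kap] at e
      exact e.symm
    obtain ⟨c, e⟩ := hB _ k1 fun x hx => by
      have e := congrArg (kap J) (mem_vn.1 hz _ ⟨x, hx, rfl⟩).1
      rw [h.kap_mul, h.kap_mul, h.kap_kap] at e
      exact e.symm
    exact ⟨conj c, by rw [← h.kap_kap z, e, kap_smul, h.kap_one]⟩

end Pool.Agent.MP_ad85d3_an
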